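import Pool.Agent.Lib.MP_e757b3_ae.NZ

open Matrix Filter Topology MeasureTheory
open Pool.Agent.Lib.MP_e757b3_ae

/-! # The first-ansatz Physarum dynamic for almost every constraint data

Let `Y` be positive definite. The constraint matrices `A 0, …, A (m - 1)` are symmetric and are
given by their entries on and above the diagonal. For Lebesgue-almost every `(A, b)` for which the
SDP is feasible, both bullets of the question hold for every `C ≻ 0` and every positive definite
start `X₀` whose right-hand side `𝒜 vec X₀` lies on the segment from `b` to `𝒜 vec Y`. With `s = 1`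
and `X₀ = Y` this is the start `Y`, with `s = 0` it is every feasible start. -/

namespace Pool.Agent.Lib.MP_e757b3_ae.AlmostEvery

theorem almost_every {n : ℕ} (m : ℕ) (Y : Matrix (Fin n) (Fin n) ℝ) (hY : Y.PosDef) :
    ∀ᵐ p : (Fin m → Sym2 (Fin n) → ℝ) × (Fin m → ℝ),
      (∃ F, IsFeasible (fun l => symM (p.1 l)) p.2 F) →
      ∀ C : Matrix (Fin n) (Fin n) ℝ, C.PosDef →
      ∀ s ∈ Set.Icc (0 : ℝ) 1, ∀ X₀ : Matrix (Fin n) (Fin n) ℝ, X₀.PosDef →
      (∀ l, (symM (p.1 l) * X₀).trace = (1 - s) * p.2 l + s * (symM (p.1 l) * Y).trace) →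
      ∃ X : ℝ → Matrix (Fin n) (Fin n) ℝ, X 0 = X₀ ∧
        IsTrajectory C (fun l => symM (p.1 l)) p.2 (Set.Ici 0) X ∧
        (∀ (T : ℝ) (Z : ℝ → Matrix (Fin n) (Fin n) ℝ), Z 0 = X₀ →
          IsTrajectory C (fun l => symM (p.1 l)) p.2 (Set.Ico 0 T) Z →
          ∀ t ∈ Set.Ico 0 T, Z t = X t) ∧
        ∃ Xs, IsOptimal C (fun l => symM (p.1 l)) p.2 Xs ∧ Tendsto X atTop (𝓝 Xs) :=
  almost_every_fix m hY

end Pool.Agent.Lib.MP_e757b3_ae.AlmostEvery
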