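import Pool.Agent.Lib.MP_e757b3_ae.Defs

open Matrix Filter Topology
open scoped Kronecker

/-! # Linear algebra for the first-ansatz dynamic -/

namespace Pool.Agent.Lib.MP_e757b3_ae

lemma simul_diag {n m : ℕ} (A : Fin m → Matrix (Fin n) (Fin n) ℝ) (hA : ∀ l, (A l).IsSymm)
    (hc : ∀ k l, A k * A l = A l * A k) :
    ∃ (U : Matrix (Fin n) (Fin n) ℝ) (β : Fin m → Fin n → ℝ), Uᵀ * U = 1 ∧
      ∀ l, Uᵀ * A l * U = Matrix.diagonal (β l) := by
  classical
  let E := EuclideanSpace ℝ (Fin n)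
  let T : Fin m → E →ₗ[ℝ] E := fun l => Matrix.toEuclideanLin (A l)
  have hT : ∀ l, (T l).IsSymmetric := by
    intro l
    refine isSymmetric_toEuclideanLin_iff.2 ?_
    rw [Matrix.IsHermitian, conjTranspose_eq_transpose_of_trivial]
    exact hA l
  have hcomm : Pairwise (Function.onFun Commute T) := by
    intro k l _
    change T k * T l = T l * T k
    refine LinearMap.ext fun x => ?_
    change WithLp.toLp 2 (A k *ᵥ (A l *ᵥ WithLp.ofLp x)) =
      WithLp.toLp 2 (A l *ᵥ (A k *ᵥ WithLp.ofLp x))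
    rw [Matrix.mulVec_mulVec, Matrix.mulVec_mulVec, hc]
  let V : (Fin m → ℝ) → Submodule ℝ E := fun α => ⨅ j, Module.End.eigenspace (T j) (α j)
  have hI : DirectSum.IsInternal V :=
    LinearMap.IsSymmetric.directSum_isInternal_of_pairwise_commute hT hcomm
  have hO : OrthogonalFamily ℝ (fun α => V α) fun α => (V α).subtypeₗᵢ :=
    LinearMap.IsSymmetric.orthogonalFamily_iInf_eigenspaces hT
  let fam : ∀ α, Module.Basis (Fin (Module.finrank ℝ (V α))) ℝ (V α) :=
    fun α => (stdOrthonormalBasis ℝ (V α)).toBasis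
  have hfam : ∀ α, Orthonormal ℝ (fam α) := by
    intro α
    have := (stdOrthonormalBasis ℝ (V α)).orthonormal
    simp [fam]
  let bs := hI.collectedBasis fam
  have hbs : Orthonormal ℝ bs := hI.collectedBasis_orthonormal hO hfam
  let _ : Fintype (Σ α, Fin (Module.finrank ℝ (V α))) := FiniteDimensional.fintypeBasisIndex bs
  have hcard : Fintype.card (Σ α, Fin (Module.finrank ℝ (V α))) = Fintype.card (Fin n) := by
    rw [← Module.finrank_eq_card_basis bs]
    simp [E]
  let eq := Fintype.equivOfCardEq hcard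
  let ix : Fin n → (Σ α, Fin (Module.finrank ℝ (V α))) := fun i => eq.symm i
  have hmem : ∀ p, bs p ∈ V p.1 := fun p => hI.collectedBasis_mem fam p
  have hinner : ∀ i j, inner ℝ (bs (ix i)) (bs (ix j)) = if i = j then (1 : ℝ) else 0 := by
    intro i j
    rw [orthonormal_iff_ite.1 hbs]
    by_cases h : i = j
    · simp [h]
    · have : ix i ≠ ix j := fun hh => h (eq.symm.injective hh)
      simp [h, this]
  have heig : ∀ i l, A l *ᵥ (WithLp.ofLp (bs (ix i))) =
      (ix i).1 l • (WithLp.ofLp (bs (ix i))) := by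
    intro i l
    have h1 := (Submodule.mem_iInf _).1 (hmem (ix i)) l
    rw [Module.End.mem_eigenspace_iff] at h1
    have h2 := congrArg WithLp.ofLp h1
    exact h2
  refine ⟨Matrix.of fun k i => WithLp.ofLp (bs (ix i)) k, fun l i => (ix i).1 l, ?_, fun l => ?_⟩
  · ext i j
    have := hinner i j
    rw [PiLp.inner_apply] at this
    rw [Matrix.mul_apply, Matrix.one_apply, ← this]
    refine Finset.sum_congr rfl fun k _ => ?_
    simp [mul_comm]
  · ext i j
    rw [Matrix.mul_assoc, Matrix.mul_apply, Matrix.diagonal_apply]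
    have h1 : ∀ k, (A l * (Matrix.of fun k i => WithLp.ofLp (bs (ix i)) k)) k j =
        (ix j).1 l * WithLp.ofLp (bs (ix j)) k := by
      intro k
      have := congrFun (heig j l) k
      simpa [Matrix.mul_apply, Matrix.mulVec, dotProduct] using this
    have := hinner i j
    rw [PiLp.inner_apply] at this
    have h2 : ∑ k, (Matrix.of fun k i => WithLp.ofLp (bs (ix i)) k)ᵀ i k *
        (A l * (Matrix.of fun k i => WithLp.ofLp (bs (ix i)) k)) k j =
        (ix j).1 l * ∑ k, inner ℝ (WithLp.ofLp (bs (ix i)) k) (WithLp.ofLp (bs (ix j)) k) := by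
      rw [Finset.mul_sum]
      refine Finset.sum_congr rfl fun k _ => ?_
      rw [h1 k]
      simp
      ring
    rw [h2, this]
    by_cases h : i = j
    · simp [h]
    · simp [h]

lemma constraint_transpose_mulVec {n m : ℕ} (A : Fin m → Matrix (Fin n) (Fin n) ℝ)
    (e : Fin m → ℝ) : (constraintMatrix A)ᵀ *ᵥ e = Matrix.vec (∑ l, e l • A l) := by
  funext p
  simp only [Matrix.mulVec, dotProduct, constraintMatrix, Matrix.transpose_apply, Matrix.of_apply,
    Matrix.vec, Matrix.sum_apply, Matrix.smul_apply, smul_eq_mul]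
  exact Finset.sum_congr rfl fun l _ => mul_comm _ _

lemma constraint_mulVec {n m : ℕ} (A : Fin m → Matrix (Fin n) (Fin n) ℝ)
    (hA : ∀ l, (A l).IsSymm) (Q : Matrix (Fin n) (Fin n) ℝ) (l : Fin m) :
    (constraintMatrix A *ᵥ Matrix.vec Q) l = (A l * Q).trace := by
  have : (constraintMatrix A *ᵥ Matrix.vec Q) l = Matrix.vec (A l) ⬝ᵥ Matrix.vec Q := rfl
  rw [this, Matrix.vec_dotProduct_vec, (hA l).eq]

lemma conductance_mulVec {n : ℕ} {C X : Matrix (Fin n) (Fin n) ℝ} (hC : (C⁻¹)ᵀ = C⁻¹)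
    (hX : Xᵀ = X) (S : Matrix (Fin n) (Fin n) ℝ) :
    conductance C X *ᵥ Matrix.vec S =
      Matrix.vec ((1 / 2 : ℝ) • (X * S * C⁻¹ + C⁻¹ * S * X)) := by
  rw [conductance, Matrix.smul_mulVec, Matrix.add_mulVec, Matrix.kronecker_mulVec_vec,
    Matrix.kronecker_mulVec_vec, hC, hX, Matrix.vec_smul, Matrix.vec_add]

section entry

variable {n m : ℕ}

lemma posDef_congr {X Q : Matrix (Fin n) (Fin n) ℝ} (hX : X.PosDef) {Q' : Matrix (Fin n) (Fin n) ℝ}
    (hQ : Q' * Q = 1) : (Qᵀ * X * Q).PosDef := by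
  have hinj : Function.Injective Q.mulVec := by
    intro x y hxy
    have h1 : Q' *ᵥ (Q *ᵥ x) = Q' *ᵥ (Q *ᵥ y) := by rw [hxy]
    rwa [Matrix.mulVec_mulVec, Matrix.mulVec_mulVec, hQ, Matrix.one_mulVec, Matrix.one_mulVec] at h1
  have h2 := hX.conjTranspose_mul_mul_same hinj
  rwa [conjTranspose_eq_transpose_of_trivial] at h2

lemma hasDeriv_mul_mul {V : Matrix (Fin n) (Fin n) ℝ} {X : ℝ → Matrix (Fin n) (Fin n) ℝ}
    {I : Set ℝ} {t : ℝ} (h : ∀ i j, HasDerivWithinAt (fun s => X s i j) (V i j) I t)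
    (R Q : Matrix (Fin n) (Fin n) ℝ) (i j : Fin n) :
    HasDerivWithinAt (fun s => (R * X s * Q) i j) ((R * V * Q) i j) I t := by
  simp only [Matrix.mul_apply]
  refine HasDerivWithinAt.fun_sum fun k _ => ?_
  refine HasDerivWithinAt.mul_const ?_ _
  refine HasDerivWithinAt.fun_sum fun l _ => ?_
  exact (h l k).const_mul _

lemma transpose_eq_of_posDef {X : Matrix (Fin n) (Fin n) ℝ} (hX : X.PosDef) : Xᵀ = X := by
  have := hX.isHermitian
  rwa [Matrix.IsHermitian, conjTranspose_eq_transpose_of_trivial] at this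

end entry

end Pool.Agent.Lib.MP_e757b3_ae
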