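import Mathlib

open Matrix Filter Topology
open scoped Kronecker

/-! # Definitions for the first-ansatz Physarum dynamic of a positive SDP -/

namespace Pool.Agent.Lib.MP_e757b3_ae

/-- The constraint matrix: its `l`-th row is `vec (A l)`. -/
def constraintMatrix {n m : ℕ} (A : Fin m → Matrix (Fin n) (Fin n) ℝ) :
    Matrix (Fin m) (Fin n × Fin n) ℝ :=
  Matrix.of fun l => Matrix.vec (A l)

/-- The conductance `G(X) = (C⁻¹ ⊗ X + X ⊗ C⁻¹) / 2`. -/
noncomputable def conductance {n : ℕ} (C X : Matrix (Fin n) (Fin n) ℝ) :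
    Matrix (Fin n × Fin n) (Fin n × Fin n) ℝ :=
  (1 / 2 : ℝ) • (C⁻¹ ⊗ₖ X + X ⊗ₖ C⁻¹)

/-- `N` is the Moore-Penrose pseudoinverse of the real square matrix `M`. -/
structure IsMoorePenrose {m : ℕ} (M N : Matrix (Fin m) (Fin m) ℝ) : Prop where
  mul_mul_self : M * N * M = M
  self_mul_mul : N * M * N = N
  symm_left : (M * N)ᵀ = M * N
  symm_right : (N * M)ᵀ = N * M

/-- `X` is a positive definite solution of the first-ansatz dynamic on the time set `I`. -/
def IsTrajectory {n m : ℕ} (C : Matrix (Fin n) (Fin n) ℝ) (A : Fin m → Matrix (Fin n) (Fin n) ℝ)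
    (b : Fin m → ℝ) (I : Set ℝ) (X : ℝ → Matrix (Fin n) (Fin n) ℝ) : Prop :=
  ∀ t ∈ I, (X t).PosDef ∧ ∃ N : Matrix (Fin m) (Fin m) ℝ,
    IsMoorePenrose (constraintMatrix A * conductance C (X t) * (constraintMatrix A)ᵀ) N ∧
    HasDerivWithinAt (fun s => Matrix.vec (X s))
      ((conductance C (X t) * (constraintMatrix A)ᵀ * N) *ᵥ b - Matrix.vec (X t)) I t

/-- Feasible solutions of the SDP. -/
def IsFeasible {n m : ℕ} (A : Fin m → Matrix (Fin n) (Fin n) ℝ) (b : Fin m → ℝ)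
    (F : Matrix (Fin n) (Fin n) ℝ) : Prop :=
  F.PosSemidef ∧ ∀ l, (A l * F).trace = b l

/-- Optimal solutions of the SDP. -/
def IsOptimal {n m : ℕ} (C : Matrix (Fin n) (Fin n) ℝ) (A : Fin m → Matrix (Fin n) (Fin n) ℝ)
    (b : Fin m → ℝ) (X : Matrix (Fin n) (Fin n) ℝ) : Prop :=
  IsFeasible A b X ∧ ∀ F, IsFeasible A b F → (C * X).trace ≤ (C * F).trace

/-- The symmetric matrix with entries `c s(i, j)`: the coordinates `c : Sym2 (Fin n) → ℝ` are the
entries of the matrix on and above the diagonal. -/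
def symM {n : ℕ} (c : Sym2 (Fin n) → ℝ) : Matrix (Fin n) (Fin n) ℝ :=
  Matrix.of fun i j => c s(i, j)

end Pool.Agent.Lib.MP_e757b3_ae
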