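import Mathlib

open Filter Topology Set
open scoped NNReal Manifold ContDiff

namespace Pool.Agent.Lib.MP_e757b3_ae

section global

variable {E : Type*} [NormedAddCommGroup E] [NormedSpace ℝ E] [CompleteSpace E]

/-- Global solutions for bounded Lipschitz vector fields. -/
lemma exists_global {f : E → E} {K L : ℝ≥0} (hK : LipschitzWith K f) (hL : ∀ x, ‖f x‖ ≤ L)
    (x0 : E) : ∃ γ : ℝ → E, γ 0 = x0 ∧ ∀ t, HasDerivAt γ (f (γ t)) t := by
  have hloc : ∀ a : ℝ, ∃ γ : ℝ → E, γ 0 = x0 ∧ ∀ t ∈ Ioo (-a) a, HasDerivAt γ (f (γ t)) t := by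
    intro a
    by_cases ha : 0 < a
    · have h0 : (0 : ℝ) ∈ Icc (-a) a := ⟨by linarith, ha.le⟩
      have hpl : IsPicardLindelof (fun _ => f) (⟨0, h0⟩ : Icc (-a) a) x0
          (L * Real.toNNReal a) 0 L K := by
        refine IsPicardLindelof.of_time_independent (fun x _ => hL x) hK.lipschitzOnWith ?_
        simp only [sub_zero, zero_sub, neg_neg, max_self, NNReal.coe_zero]
        rw [NNReal.coe_mul, Real.coe_toNNReal a ha.le]
      obtain ⟨γ, hγ0, hγ⟩ := hpl.exists_eq_forall_mem_Icc_hasDerivWithinAt₀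
      refine ⟨γ, hγ0, fun t ht => ?_⟩
      exact (hγ t (Ioo_subset_Icc_self ht)).hasDerivAt (Icc_mem_nhds ht.1 ht.2)
    · refine ⟨fun _ => x0, rfl, fun t ht => ?_⟩
      exact absurd (ht.1.trans ht.2) (by linarith)
  choose γ hγ0 hγ using hloc
  have huniq : ∀ a a' : ℝ, 0 < a → a ≤ a' → EqOn (γ a) (γ a') (Ioo (-a) a) := by
    intro a a' ha haa'
    refine ODE_solution_unique_of_mem_Ioo (v := fun _ => f) (s := fun _ => univ) (K := K)
      (t₀ := 0) (fun t _ => hK.lipschitzOnWith) ⟨by linarith, ha⟩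
      (fun t ht => ⟨hγ a t ht, trivial⟩)
      (fun t ht => ⟨hγ a' t ⟨by linarith [ht.1], by linarith [ht.2]⟩, trivial⟩) ?_
    rw [hγ0, hγ0]
  refine ⟨fun t => γ (|t| + 1) t, hγ0 _, fun t => ?_⟩
  have ht : t ∈ Ioo (-(|t| + 1)) (|t| + 1) := by
    constructor
    · linarith [neg_abs_le t]
    · linarith [le_abs_self t]
  refine (hγ (|t| + 1) t ht).congr_of_eventuallyEq ?_
  filter_upwards [Ioo_mem_nhds ht.1 ht.2] with s hs
  have hs' : s ∈ Ioo (-(|s| + 1)) (|s| + 1) := by
    constructor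
    · linarith [neg_abs_le s]
    · linarith [le_abs_self s]
  rcases le_total (|s| + 1) (|t| + 1) with h | h
  · exact huniq _ _ (by positivity) h hs'
  · exact (huniq _ _ (by positivity) h hs).symm

end global

section invariant

variable {E : Type*} [NormedAddCommGroup E] [NormedSpace ℝ E] [FiniteDimensional ℝ E]

/-- Global existence when an a priori property keeps the solution in a compact set. -/
lemma exists_global_of_invariant {f : E → E} {U : Set E} (hU : IsOpen U)
    (hf : ∀ x ∈ U, ContDiffAt ℝ 1 f x) {Kc : Set E} (hKc : IsCompact Kc) (hKU : Kc ⊆ U)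
    {Q : ℝ → E → Prop} (hQc : IsClosed {p : ℝ × E | Q p.1 p.2})
    (hQK : ∀ t, 0 ≤ t → ∀ x, Q t x → x ∈ Kc) {x0 : E} (hQ0 : Q 0 x0)
    (hprop : ∀ (γ : ℝ → E) (t0 T : ℝ), 0 ≤ t0 → Q t0 (γ t0) →
      (∀ t ∈ Ico t0 T, HasDerivAt γ (f (γ t)) t ∧ γ t ∈ U) → ∀ t ∈ Ico t0 T, Q t (γ t)) :
    ∃ γ : ℝ → E, γ 0 = x0 ∧ ∀ t, 0 ≤ t → HasDerivAt γ (f (γ t)) t ∧ Q t (γ t) := by
  have _ : CompleteSpace E := FiniteDimensional.complete ℝ E
  have _ : ProperSpace E := FiniteDimensional.proper ℝ E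
  obtain ⟨L, hLc, hKL, hLU⟩ := exists_compact_between hKc hU hKU
  obtain ⟨χ, hχ1, hχ0, -⟩ := exists_contMDiffMap_one_nhds_of_subset_interior (n := 1) 𝓘(ℝ, E)
    hKc.isClosed hKL
  have hχs : ContDiff ℝ 1 χ := χ.contMDiff.contDiff
  set g : E → E := fun x => χ x • f x with hg
  have hgs : ContDiff ℝ 1 g := by
    rw [contDiff_iff_contDiffAt]
    intro x
    by_cases hx : x ∈ U
    · exact (hχs.contDiffAt).smul (hf x hx)
    · have hxL : x ∈ Lᶜ := fun h => hx (hLU h)
      have : g =ᶠ[𝓝 x] fun _ => 0 := by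
        filter_upwards [hLc.isClosed.isOpen_compl.mem_nhds hxL] with y hy
        simp only [hg]
        rw [hχ0 y hy, zero_smul]
      exact contDiffAt_const.congr_of_eventuallyEq this
  have hgc : HasCompactSupport g := by
    refine HasCompactSupport.intro hLc fun x hx => ?_
    simp only [hg]
    rw [hχ0 x hx, zero_smul]
  obtain ⟨K, hK⟩ := hgs.lipschitzWith_of_hasCompactSupport hgc one_ne_zero
  obtain ⟨M, hM⟩ := hgs.continuous.bounded_above_of_compact_support hgc
  have hM' : ∀ x, ‖g x‖ ≤ (⟨max M 0, le_max_right _ _⟩ : ℝ≥0) := fun x =>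
    (hM x).trans (le_max_left _ _)
  obtain ⟨γ, hγ0, hγ⟩ := exists_global hK hM' x0
  have hcont : Continuous γ := continuous_iff_continuousAt.2 fun t => (hγ t).continuousAt
  obtain ⟨V, hVo, hKV, hV1⟩ := (eventually_nhdsSet_iff_exists.1 hχ1)
  have key : ∀ T, 0 ≤ T → ∀ t ∈ Icc (0 : ℝ) T, Q t (γ t) := by
    intro T hT
    have hsub : Icc (0 : ℝ) T ⊆ {t | Q t (γ t)} := by
      refine IsClosed.Icc_subset_of_forall_exists_gt ?_ ?_ ?_
      · refine IsClosed.inter ?_ isClosed_Icc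
        exact hQc.preimage (continuous_id.prodMk hcont)
      · change Q 0 (γ 0)
        rw [hγ0]; exact hQ0
      · rintro t ⟨htQ, ht⟩ y hy
        have hQt : Q t (γ t) := htQ
        have htK : γ t ∈ Kc := hQK t ht.1 _ hQt
        have hVU : ∀ᶠ s in 𝓝 t, γ s ∈ V ∩ U :=
          hcont.continuousAt.eventually ((hVo.inter hU).mem_nhds ⟨hKV htK, hKU htK⟩)
        obtain ⟨δ, hδ, hball⟩ := Metric.eventually_nhds_iff.1 hVU
        have hyt : t < y := hy
        set s1 : ℝ := min (t + δ) y with hs1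
        have hts1 : t < s1 := lt_min (by linarith) hyt
        have hin : ∀ s ∈ Ico t s1, γ s ∈ V ∩ U := by
          intro s hs
          refine hball ?_
          rw [Real.dist_eq, abs_lt]
          have := hs.2.trans_le (min_le_left _ _)
          constructor <;> linarith [hs.1]
        have hQs := hprop γ t s1 ht.1 hQt (fun s hs => by
          refine ⟨?_, (hin s hs).2⟩
          have h1 : g (γ s) = f (γ s) := by
            simp only [hg]
            rw [hV1 _ (hin s hs).1, one_smul]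
          rw [← h1]
          exact hγ s)
        refine ⟨(t + s1) / 2, hQs _ ⟨by linarith, by linarith⟩, by linarith, ?_⟩
        have := min_le_right (t + δ) y
        linarith
    exact hsub
  refine ⟨γ, hγ0, fun t ht => ?_⟩
  have hQt := key t ht t ⟨ht, le_rfl⟩
  refine ⟨?_, hQt⟩
  have h1 : g (γ t) = f (γ t) := by
    simp only [hg]
    rw [hV1 _ (hKV (hQK t ht _ hQt)), one_smul]
  rw [← h1]
  exact hγ t

end invariant

end Pool.Agent.Lib.MP_e757b3_ae
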