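import Pool.Agent.Lib.MP_e757b3_ae.NJ

open Matrix Filter Topology

namespace Pool.Agent.Lib.MP_e757b3_ae

section transfer

open scoped Matrix.Norms.Operator

variable {n m : ℕ} {P B C : Matrix (Fin n) (Fin n) ℝ}
  {A : Fin m → Matrix (Fin n) (Fin n) ℝ} {b : Fin m → ℝ}

/-- Trajectories in terms of the normalized field. -/
lemma Root.traj_of (hd : Root P B C) (hA : ∀ l, (A l).IsSymm)
    (hg : ∀ Y : Matrix (Fin n) (Fin n) ℝ, Y.PosDef → (gramM (At P A) Y).det ≠ 0)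
    {I : Set ℝ} {y : ℝ → Matrix (Fin n) (Fin n) ℝ}
    (hy : ∀ t ∈ I, (y t).PosDef ∧ HasDerivAt y (gY (At P A) b (y t)) t) :
    IsTrajectory C A b I (fun t => P * y t * P) := by
  intro t ht
  obtain ⟨hpos, hder⟩ := hy t ht
  have hYs := transpose_eq_of_posDef hpos
  refine ⟨hd.posDef_p hpos, (gramM (At P A) (y t))⁻¹, ?_, ?_⟩
  · rw [hd.gram_eq hA hYs]
    exact moorePenrose_inv (hg _ hpos)
  · rw [hd.rhs_eq hYs, hasDerivWithinAt_pi]
    rintro ⟨j, i⟩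
    exact hasDeriv_mul_mul (fun i j => (hasDerivAt_entry hder i j).hasDerivWithinAt) P P i j

lemma Root.of_traj (hd : Root P B C) (hA : ∀ l, (A l).IsSymm)
    (hg : ∀ Y : Matrix (Fin n) (Fin n) ℝ, Y.PosDef → (gramM (At P A) Y).det ≠ 0)
    {I : Set ℝ} {X : ℝ → Matrix (Fin n) (Fin n) ℝ} (hX : IsTrajectory C A b I X) :
    ∀ t ∈ I, (B * X t * B).PosDef ∧
      HasDerivWithinAt (fun t => B * X t * B) (gY (At P A) b (B * X t * B)) I t := by
  intro t ht
  obtain ⟨hpos, N, hN, hder⟩ := hX t ht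
  have hYp := hd.posDef_b hpos
  have hYs := transpose_eq_of_posDef hYp
  have hXt : P * (B * X t * B) * P = X t := hd.pbx _
  have h1 := hd.gram_eq hA hYs
  rw [hXt] at h1
  rw [h1] at hN
  have h2 := hN.eq_inv (hg _ hYp)
  have h3 := hd.rhs_eq (A := A) (b := b) hYs
  rw [hXt] at h3
  rw [h2, h3, hasDerivWithinAt_pi] at hder
  refine ⟨hYp, hasDerivWithinAt_of_entries fun i j => ?_⟩
  have h4 := hasDeriv_mul_mul (X := X) (V := P * gY (At P A) b (B * X t * B) * P)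
    (fun i j => hder (j, i)) B B i j
  rw [hd.bpx] at h4
  exact h4

lemma Root.unique (hd : Root P B C) (hA : ∀ l, (A l).IsSymm)
    (hg : ∀ Y : Matrix (Fin n) (Fin n) ℝ, Y.PosDef → (gramM (At P A) Y).det ≠ 0)
    {y Z : ℝ → Matrix (Fin n) (Fin n) ℝ} {T : ℝ} (h0 : B * Z 0 * B = y 0)
    (hy : ∀ t, 0 ≤ t → (y t).PosDef ∧ HasDerivAt y (gY (At P A) b (y t)) t)
    (hZ : IsTrajectory C A b (Set.Ico 0 T) Z) :
    ∀ t ∈ Set.Ico 0 T, Z t = P * y t * P := by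
  intro t ht
  have h1 := hd.of_traj hA hg hZ
  have h2 := ode_unique (f := gY (At P A) b)
    (U := {Y : Matrix (Fin n) (Fin n) ℝ | Y.PosDef}) (T := T)
    (fun Y hY => contDiffAt_gY (hg Y hY)) (y := fun t => B * Z t * B) (z := y)
    (fun t ht => h1 t ht)
    (fun t ht => ⟨(hy t ht.1).1, (hy t ht.1).2.hasDerivWithinAt⟩) h0 t ht
  have h3 : P * (B * Z t * B) * P = P * y t * P := by
    rw [h2]
  rwa [hd.pbx] at h3

end transfer

section main

variable {n m : ℕ} {P B C : Matrix (Fin n) (Fin n) ℝ}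
  {A : Fin m → Matrix (Fin n) (Fin n) ℝ} {b : Fin m → ℝ}

lemma Root.nondeg (hd : Root P B C) (hA : ∀ l, (A l).IsSymm)
    {X₀ : Matrix (Fin n) (Fin n) ℝ}
    (hnd1 : ∀ s ∈ Set.Icc (0 : ℝ) 1, ∀ X : Matrix (Fin n) (Fin n) ℝ, X.PosSemidef →
      (∀ l, (A l * X).trace = (1 - s) * b l + s * (A l * X₀).trace) →
      ∀ μ : Fin m → ℝ, (∑ l, μ l • A l) * X = 0 → μ = 0)
    (hnd0 : ∀ X : Matrix (Fin n) (Fin n) ℝ, X.PosSemidef → X ≠ 0 → (∀ l, (A l * X).trace = 0) →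
      ∀ μ : Fin m → ℝ, (∑ l, μ l • A l) * X = 0 → μ = 0) :
    NDeg (At P A) b (fun l => (A l * X₀).trace - b l) := by
  have key : ∀ (e : Fin m → ℝ) (Y : Matrix (Fin n) (Fin n) ℝ), Sm (At P A) e * Y = 0 →
      (∑ l, e l • A l) * (P * Y * P) = 0 := by
    intro e Y h
    rw [Root.sm_at] at h
    change Sm A e * (P * Y * P) = 0
    calc Sm A e * (P * Y * P) = (B * P) * Sm A e * (P * Y * P) := by
          rw [hd.bp, Matrix.one_mul]
      _ = B * (P * Sm A e * P * Y) * P := by simp only [Matrix.mul_assoc]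
      _ = 0 := by rw [h, Matrix.mul_zero, Matrix.zero_mul]
  refine ⟨hd.at_symm hA, ?_, ?_⟩
  · intro s hs Y hY hl e he
    refine hnd1 s hs (P * Y * P) (hd.psd_p hY) (fun l => ?_) e (key e Y he)
    rw [← Root.trace_at, hl]
    ring
  · intro Y hY hY0 hl e he
    refine hnd0 (P * Y * P) (hd.psd_p hY) ?_ (fun l => ?_) e (key e Y he)
    · intro h0
      apply hY0
      rw [← hd.bpx Y, h0, Matrix.mul_zero, Matrix.zero_mul]
    · rw [← Root.trace_at, hl]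

lemma Root.eqSet_countable (hd : Root P B C)
    (hfin : {X : Matrix (Fin n) (Fin n) ℝ | X.PosSemidef ∧ (∀ l, (A l * X).trace = b l) ∧
      ∃ μ : Fin m → ℝ, (C - ∑ l, μ l • A l) * X = 0}.Countable) :
    (EqSet (At P A) b).Countable := by
  refine Set.countable_of_injective_of_countable_image (f := fun Y => P * Y * P) ?_
    (hfin.mono ?_)
  · intro Y _ Y' _ h
    have h1 : B * (P * Y * P) * B = B * (P * Y' * P) * B := congrArg (fun M => B * M * B) h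
    rwa [hd.bpx, hd.bpx] at h1
  · rintro _ ⟨Y, ⟨h1, h2, e, h3⟩, rfl⟩
    refine ⟨hd.psd_p h1, fun l => by rw [← Root.trace_at, h2], e, ?_⟩
    rw [Root.sm_at] at h3
    change (C - Sm A e) * (P * Y * P) = 0
    calc (C - Sm A e) * (P * Y * P) = (B * B - (B * P) * Sm A e) * (P * Y * P) := by
          rw [hd.bp, Matrix.one_mul, hd.c]
      _ = B * ((B * P - P * Sm A e * P) * Y) * P := by
          simp only [Matrix.sub_mul, Matrix.mul_sub, Matrix.mul_assoc]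
      _ = B * ((1 - P * Sm A e * P) * Y) * P := by rw [hd.bp]
      _ = 0 := by rw [h3, Matrix.mul_zero, Matrix.zero_mul]

theorem nondegenerate_main {n m : ℕ} (C : Matrix (Fin n) (Fin n) ℝ) (hC : C.PosDef)
    (A : Fin m → Matrix (Fin n) (Fin n) ℝ) (hA : ∀ l, (A l).IsSymm) (b : Fin m → ℝ)
    (X₀ : Matrix (Fin n) (Fin n) ℝ) (hX₀ : X₀.PosDef)
    (hnd1 : ∀ s ∈ Set.Icc (0 : ℝ) 1, ∀ X : Matrix (Fin n) (Fin n) ℝ, X.PosSemidef →
      (∀ l, (A l * X).trace = (1 - s) * b l + s * (A l * X₀).trace) →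
      ∀ μ : Fin m → ℝ, (∑ l, μ l • A l) * X = 0 → μ = 0)
    (hnd0 : ∀ X : Matrix (Fin n) (Fin n) ℝ, X.PosSemidef → X ≠ 0 → (∀ l, (A l * X).trace = 0) →
      ∀ μ : Fin m → ℝ, (∑ l, μ l • A l) * X = 0 → μ = 0)
    (hfin : {X : Matrix (Fin n) (Fin n) ℝ | X.PosSemidef ∧ (∀ l, (A l * X).trace = b l) ∧
      ∃ μ : Fin m → ℝ, (C - ∑ l, μ l • A l) * X = 0}.Countable) :
    ∃ X : ℝ → Matrix (Fin n) (Fin n) ℝ, X 0 = X₀ ∧ IsTrajectory C A b (Set.Ici 0) X ∧
      (∀ (T : ℝ) (Z : ℝ → Matrix (Fin n) (Fin n) ℝ), Z 0 = X₀ →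
        IsTrajectory C A b (Set.Ico 0 T) Z → ∀ t ∈ Set.Ico 0 T, Z t = X t) ∧
      ∃ Xs, IsOptimal C A b Xs ∧ Tendsto X atTop (𝓝 Xs) := by
  obtain ⟨P, B, hd⟩ := exists_root hC
  have hN := hd.nondeg hA hnd1 hnd0
  have hY0 : (B * X₀ * B).PosDef := hd.posDef_b hX₀
  have hr : ∀ l, (At P A l * (B * X₀ * B)).trace = b l + ((A l * X₀).trace - b l) := by
    intro l
    rw [Root.trace_at, hd.pbx]
    ring
  have hg : ∀ Y : Matrix (Fin n) (Fin n) ℝ, Y.PosDef → (gramM (At P A) Y).det ≠ 0 :=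
    fun Y hY => hN.gram_posDef hY0 hr hY
  obtain ⟨y, hy0, hy, Y1, p1, p2, p3, p4⟩ := hN.normalized (hd.eqSet_countable hfin) hY0 hr
  refine ⟨fun t => P * y t * P, ?_, hd.traj_of hA hg fun t ht => hy t ht, ?_, P * Y1 * P, ?_, ?_⟩
  · simp only [hy0, hd.pbx]
  · intro T Z hZ0 hZ
    exact hd.unique hA hg (by rw [hZ0, hy0]) hy hZ
  · refine ⟨⟨hd.psd_p p1, fun l => by rw [← Root.trace_at, p2]⟩, fun F hF => ?_⟩
    have h1 := p3 (B * F * B) (hd.psd_b hF.1) (fun l => by rw [Root.trace_at, hd.pbx, hF.2])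
    have h2 : (C * (P * Y1 * P)).trace = Y1.trace := by
      calc (C * (P * Y1 * P)).trace = ((C * P * Y1) * P).trace := by
            simp only [Matrix.mul_assoc]
        _ = (P * (C * P * Y1)).trace := Matrix.trace_mul_comm _ _
        _ = ((P * B) * (B * P) * Y1).trace := by rw [← hd.c]; simp only [Matrix.mul_assoc]
        _ = Y1.trace := by rw [hd.pb, hd.bp, Matrix.one_mul, Matrix.one_mul]
    have h3 : (B * F * B).trace = (C * F).trace := by
      rw [Matrix.trace_mul_comm, ← Matrix.mul_assoc, hd.c]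
    rw [h2, ← h3]
    exact h1
  · have hc : Continuous fun Y : Matrix (Fin n) (Fin n) ℝ => P * Y * P :=
      (continuous_const.matrix_mul continuous_id).matrix_mul continuous_const
    exact (hc.tendsto Y1).comp p4

end main

end Pool.Agent.Lib.MP_e757b3_ae
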