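import Pool.Agent.Lib.MP_e757b3_ae.MD
import Pool.Agent.Lib.MP_e757b3_ae.NK
import Pool.Agent.Lib.MP_e757b3_an.Conv2

/-! The criterion without a hypothesis on the equilibria: existence up to a time after which the
segment of right-hand sides is nondegenerate, then the convergence theorem for nondegenerate
segments. -/

open Matrix Filter Topology

namespace Pool.Agent.Lib.MP_e757b3_ae

section smzero

variable {n m : ℕ} {P B C : Matrix (Fin n) (Fin n) ℝ} {A : Fin m → Matrix (Fin n) (Fin n) ℝ}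

lemma Root.sm_zero (hd : Root P B C) {e : Fin m → ℝ} {Y : Matrix (Fin n) (Fin n) ℝ}
    (h : Sm (At P A) e * Y = 0) : (∑ l, e l • A l) * (P * Y * P) = 0 := by
  rw [Root.sm_at] at h
  change Sm A e * (P * Y * P) = 0
  calc Sm A e * (P * Y * P) = (B * P) * Sm A e * (P * Y * P) := by
        rw [hd.bp, Matrix.one_mul]
    _ = B * (P * Sm A e * P * Y) * P := by simp only [Matrix.mul_assoc]
    _ = 0 := by rw [h, Matrix.mul_zero, Matrix.zero_mul]

end smzero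

section shift

open scoped Matrix.Norms.Operator

lemma shift_deriv {n : ℕ} {y : ℝ → Matrix (Fin n) (Fin n) ℝ} {v : Matrix (Fin n) (Fin n) ℝ}
    {t0 u : ℝ} (h : HasDerivAt y v (t0 + u)) : HasDerivAt (fun u => y (t0 + u)) v u :=
  h.comp_const_add t0 u

end shift

section merge

variable {n m : ℕ} {C : Matrix (Fin n) (Fin n) ℝ} {A : Fin m → Matrix (Fin n) (Fin n) ℝ}
  {b : Fin m → ℝ}

lemma gram_eq_gram (hCs : (C⁻¹)ᵀ = C⁻¹) (hA : ∀ l, (A l).IsSymm)
    {X : Matrix (Fin n) (Fin n) ℝ} (hX : Xᵀ = X) :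
    constraintMatrix A * conductance C X * (constraintMatrix A)ᵀ = PhysND.gram C A X := by
  have key : ∀ (e : Fin m → ℝ) (l : Fin m),
      ((constraintMatrix A * conductance C X * (constraintMatrix A)ᵀ) *ᵥ e) l =
        (PhysND.gram C A X *ᵥ e) l := by
    intro e l
    rw [← Matrix.mulVec_mulVec, ← Matrix.mulVec_mulVec, constraint_transpose_mulVec,
      conductance_mulVec hCs hX, constraint_mulVec A hA, PhysND.gram_mulVec]
    rfl
  ext l k
  have h1 := key (Pi.single k 1) l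
  rw [Matrix.mulVec_single_one, Matrix.mulVec_single_one] at h1
  exact h1

lemma solves_of_traj (hCs : (C⁻¹)ᵀ = C⁻¹) (hA : ∀ l, (A l).IsSymm) {I : Set ℝ}
    {X : ℝ → Matrix (Fin n) (Fin n) ℝ} (h : IsTrajectory C A b I X) :
    PhysND.Solves C A b I X := by
  intro t ht
  obtain ⟨hp, N, hN, hder⟩ := h t ht
  have hXs := transpose_eq_of_posDef hp
  rw [gram_eq_gram hCs hA hXs] at hN
  refine ⟨hp, N, ⟨hN.mul_mul_self, hN.self_mul_mul, hN.symm_left, hN.symm_right⟩,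
    fun i j => ?_⟩
  have h1 := hasDerivWithinAt_pi.1 hder (j, i)
  have h2 : ((conductance C (X t) * (constraintMatrix A)ᵀ * N) *ᵥ b - Matrix.vec (X t)) (j, i) =
      PhysND.cond C (X t) (PhysND.comb A (N *ᵥ b)) i j - X t i j := by
    rw [← Matrix.mulVec_mulVec, ← Matrix.mulVec_mulVec, constraint_transpose_mulVec,
      conductance_mulVec hCs hXs]
    rfl
  rw [h2] at h1
  exact h1

lemma traj_of_solves (hCs : (C⁻¹)ᵀ = C⁻¹) (hA : ∀ l, (A l).IsSymm) {I : Set ℝ}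
    {X : ℝ → Matrix (Fin n) (Fin n) ℝ} (h : PhysND.Solves C A b I X) :
    IsTrajectory C A b I X := by
  intro t ht
  obtain ⟨hp, N, hN, hder⟩ := h t ht
  have hXs := transpose_eq_of_posDef hp
  rw [← gram_eq_gram hCs hA hXs] at hN
  refine ⟨hp, N, ⟨hN.mnm, hN.nmn, hN.mn, hN.nm⟩, hasDerivWithinAt_pi.2 ?_⟩
  rintro ⟨j, i⟩
  have h1 := hder i j
  have h2 : ((conductance C (X t) * (constraintMatrix A)ᵀ * N) *ᵥ b - Matrix.vec (X t)) (j, i) =
      PhysND.cond C (X t) (PhysND.comb A (N *ᵥ b)) i j - X t i j := by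
    rw [← Matrix.mulVec_mulVec, ← Matrix.mulVec_mulVec, constraint_transpose_mulVec,
      conductance_mulVec hCs hXs]
    rfl
  rw [h2]
  exact h1

/-- The criterion without a hypothesis on the equilibria. -/
theorem cross_kl (C : Matrix (Fin n) (Fin n) ℝ) (hC : C.PosDef)
    (A : Fin m → Matrix (Fin n) (Fin n) ℝ) (hA : ∀ l, (A l).IsSymm) (b : Fin m → ℝ)
    (X₀ : Matrix (Fin n) (Fin n) ℝ) (hX₀ : X₀.PosDef)
    (ndb : ∀ X : Matrix (Fin n) (Fin n) ℝ, X.PosSemidef → (∀ l, (A l * X).trace = b l) →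
      ∀ μ : Fin m → ℝ, (∑ l, μ l • A l) * X = 0 → μ = 0)
    (nd0 : ∀ X : Matrix (Fin n) (Fin n) ℝ, X.PosSemidef → X ≠ 0 → (∀ l, (A l * X).trace = 0) →
      ∀ μ : Fin m → ℝ, (∑ l, μ l • A l) * X = 0 → μ = 0)
    (hcnt : ∀ s ∈ Set.Ioo (0 : ℝ) 1, {X : Matrix (Fin n) (Fin n) ℝ | X.PosSemidef ∧
      (∀ l, (A l * X).trace = (1 - s) * b l + s * (A l * X₀).trace) ∧
      ∃ μ : Fin m → ℝ, μ ≠ 0 ∧ (∑ l, μ l • A l) * X = 0}.Countable ∨
      ∀ X X' : Matrix (Fin n) (Fin n) ℝ, X.PosSemidef → X'.PosSemidef →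
        (∀ l, (A l * X).trace = (1 - s) * b l + s * (A l * X₀).trace) →
        (∀ l, (A l * X').trace = (1 - s) * b l + s * (A l * X₀).trace) →
        ∀ μ μ' : Fin m → ℝ, μ ≠ 0 → (∑ l, μ l • A l) * X = 0 → (∑ l, μ' l • A l) * X' = 0 →
        ∃ k : ℝ, μ' = k • μ)
    (hsim : ∀ s ∈ Set.Ioo (0 : ℝ) 1, ∀ X : Matrix (Fin n) (Fin n) ℝ, X.PosSemidef →
      (∀ l, (A l * X).trace = (1 - s) * b l + s * (A l * X₀).trace) →
      ∀ μ μ' : Fin m → ℝ, μ ≠ 0 → (∑ l, μ l • A l) * X = 0 → (∑ l, μ' l • A l) * X = 0 →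
      ∃ k : ℝ, μ' = k • μ)
    (htra : ∀ s ∈ Set.Ioo (0 : ℝ) 1, ∀ X : Matrix (Fin n) (Fin n) ℝ, X.PosSemidef →
      (∀ l, (A l * X).trace = (1 - s) * b l + s * (A l * X₀).trace) →
      ∀ μ : Fin m → ℝ, μ ≠ 0 → (∑ l, μ l • A l) * X = 0 → μ ⬝ᵥ b ≠ 0)
    (hfeas : ∃ F, IsFeasible A b F) :
    ∃ X : ℝ → Matrix (Fin n) (Fin n) ℝ, X 0 = X₀ ∧ IsTrajectory C A b (Set.Ici 0) X ∧
      (∀ (T : ℝ) (Z : ℝ → Matrix (Fin n) (Fin n) ℝ), Z 0 = X₀ →
        IsTrajectory C A b (Set.Ico 0 T) Z → ∀ t ∈ Set.Ico 0 T, Z t = X t) ∧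
      ∃ Xs, IsOptimal C A b Xs ∧ Tendsto X atTop (𝓝 Xs) := by
  obtain ⟨P, B, hd⟩ := exists_root hC
  have hCs : (C⁻¹)ᵀ = C⁻¹ := by rw [hd.cinv, Matrix.transpose_mul, hd.ps]
  obtain ⟨F, hF1, hF2⟩ := hfeas
  set r : Fin m → ℝ := fun l => (A l * X₀).trace - b l with hr
  have hAt := hd.at_symm (A := A) hA
  have hY0 : (B * X₀ * B).PosDef := hd.posDef_b hX₀
  have hr0 : ∀ l, (At P A l * (B * X₀ * B)).trace = b l + r l := by
    intro l
    rw [Root.trace_at, hd.pbx]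
    simp only [hr]
    ring
  have hlin : ∀ (s : ℝ) (Y : Matrix (Fin n) (Fin n) ℝ),
      (∀ l, (At P A l * Y).trace = b l + s * r l) →
      ∀ l, (A l * (P * Y * P)).trace = (1 - s) * b l + s * (A l * X₀).trace := by
    intro s Y h l
    rw [← Root.trace_at, h]
    simp only [hr]
    ring
  have hind : ∀ e, Sm (At P A) e = 0 → e = 0 := by
    intro e he
    refine ndb F hF1 hF2 e ?_
    have h1 := hd.sm_zero (A := A) (e := e) (Y := B * F * B) (by rw [he, Matrix.zero_mul])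
    rwa [hd.pbx] at h1
  have hndb : ∀ Y : Matrix (Fin n) (Fin n) ℝ, Y.PosSemidef →
      (∀ l, (At P A l * Y).trace = b l) → ∀ e, Sm (At P A) e * Y = 0 → e = 0 :=
    fun Y hY hl e he => ndb (P * Y * P) (hd.psd_p hY) (fun l => by rw [← Root.trace_at, hl]) e
      (hd.sm_zero he)
  have hnd0 : ∀ Y : Matrix (Fin n) (Fin n) ℝ, Y.PosSemidef → Y ≠ 0 →
      (∀ l, (At P A l * Y).trace = 0) → ∀ e, Sm (At P A) e * Y = 0 → e = 0 :=
    fun Y hY hY0 hl e he => nd0 (P * Y * P) (hd.psd_p hY) (fun h0 => hY0 (by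
      rw [← hd.bpx Y, h0, Matrix.mul_zero, Matrix.zero_mul]))
      (fun l => by rw [← Root.trace_at, hl]) e (hd.sm_zero he)
  have hcnt' : ∀ s ∈ Set.Ioo (0 : ℝ) 1, {Y : Matrix (Fin n) (Fin n) ℝ | Y.PosSemidef ∧
      (∀ l, (At P A l * Y).trace = b l + s * r l) ∧
      ∃ e, e ≠ 0 ∧ Sm (At P A) e * Y = 0}.Countable ∨
      ∀ Y Y' : Matrix (Fin n) (Fin n) ℝ, Y.PosSemidef → Y'.PosSemidef →
        (∀ l, (At P A l * Y).trace = b l + s * r l) →
        (∀ l, (At P A l * Y').trace = b l + s * r l) →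
        ∀ e e', e ≠ 0 → Sm (At P A) e * Y = 0 → Sm (At P A) e' * Y' = 0 →
        ∃ k : ℝ, e' = k • e := by
    intro s hs
    rcases hcnt s hs with hc | hc
    · left
      refine Set.countable_of_injective_of_countable_image (f := fun Y => P * Y * P) ?_
        (hc.mono ?_)
      · intro Y _ Y' _ h
        have h1 : B * (P * Y * P) * B = B * (P * Y' * P) * B := congrArg (fun M => B * M * B) h
        rwa [hd.bpx, hd.bpx] at h1
      · rintro _ ⟨Y, ⟨h1, h2, e, h3, h4⟩, rfl⟩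
        exact ⟨hd.psd_p h1, hlin s Y h2, e, h3, hd.sm_zero h4⟩
    · right
      intro Y Y' hY hY' hl hl' e e' he h1 h2
      exact hc (P * Y * P) (P * Y' * P) (hd.psd_p hY) (hd.psd_p hY') (hlin s Y hl)
        (hlin s Y' hl') e e' he (hd.sm_zero h1) (hd.sm_zero h2)
  have hsim' : ∀ s ∈ Set.Ioo (0 : ℝ) 1, ∀ Y : Matrix (Fin n) (Fin n) ℝ, Y.PosSemidef →
      (∀ l, (At P A l * Y).trace = b l + s * r l) →
      ∀ e e', e ≠ 0 → Sm (At P A) e * Y = 0 → Sm (At P A) e' * Y = 0 → ∃ k : ℝ, e' = k • e :=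
    fun s hs Y hY hl e e' he h1 h2 => hsim s hs (P * Y * P) (hd.psd_p hY) (hlin s Y hl) e e' he
      (hd.sm_zero h1) (hd.sm_zero h2)
  have htra' : ∀ s ∈ Set.Ioo (0 : ℝ) 1, ∀ Y : Matrix (Fin n) (Fin n) ℝ, Y.PosSemidef →
      (∀ l, (At P A l * Y).trace = b l + s * r l) →
      ∀ e, e ≠ 0 → Sm (At P A) e * Y = 0 → e ⬝ᵥ b ≠ 0 :=
    fun s hs Y hY hl e he h1 => htra s hs (P * Y * P) (hd.psd_p hY) (hlin s Y hl) e he
      (hd.sm_zero h1)
  have hg : ∀ Y : Matrix (Fin n) (Fin n) ℝ, Y.PosDef → (gramM (At P A) Y).det ≠ 0 := by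
    intro Y hY hdet
    obtain ⟨e, he, hz⟩ := Matrix.exists_mulVec_eq_zero_iff.2 hdet
    have h1 := gram_quad (A := At P A) Y e
    rw [hz, dotProduct_zero] at h1
    have h2 := (trace_sandwich hY.posSemidef (Sm_symm hAt e)).2 h1.symm
    have hu : IsUnit Y.det := isUnit_iff_ne_zero.2 hY.det_pos.ne'
    refine he (hind e ?_)
    have : Sm (At P A) e * Y * Y⁻¹ = 0 := by rw [h2, Matrix.zero_mul]
    rwa [Matrix.mul_assoc, Matrix.mul_nonsing_inv _ hu, Matrix.mul_one] at this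
  obtain ⟨y, hy0, hy, hyl, s0, hs0, hs01, hN⟩ := cross_exists hAt hind hndb hnd0 hcnt' hsim'
    htra' (hd.psd_b hF1) (fun l => by rw [Root.trace_at, hd.pbx, hF2]) hY0 hr0
  -- restart at the time `t0`
  set t0 : ℝ := -Real.log s0 with ht0
  have ht00 : 0 ≤ t0 := by
    rw [ht0]
    have := Real.log_nonpos hs0.le hs01
    linarith
  have hexp : Real.exp (-t0) = s0 := by rw [ht0, neg_neg, Real.exp_log hs0]
  have hX1 : (P * y t0 * P).PosDef := hd.posDef_p (hy t0 ht00).1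
  have hX1l : ∀ l, (A l * (P * y t0 * P)).trace = b l + s0 * r l := by
    intro l
    rw [← Root.trace_at, hyl t0 ht00 l, hexp]
  have hconv : PhysND.Converges C A b (P * y t0 * P) := by
    refine PhysND.converges_of' hC (fun l => (hA l).eq) hX1 ?_ (Or.inr ?_)
    · rintro X hX ⟨s, hs, hl⟩ p hp hpX
      refine hp (hN.nd1 s hs (B * X * B) (hd.psd_b hX) (fun l => ?_) p ?_)
      · rw [Root.trace_at, hd.pbx, hl l, hX1l l, Pi.smul_apply, smul_eq_mul]
        ring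
      · rw [Root.sm_at]
        calc P * Sm A p * P * (B * X * B) = P * Sm A p * (P * B) * X * B := by
              simp only [Matrix.mul_assoc]
          _ = P * (Sm A p * X) * B := by rw [hd.pb, Matrix.mul_one]; simp only [Matrix.mul_assoc]
          _ = 0 := by
            have h1 : Sm A p * X = 0 := hpX
            rw [h1, Matrix.mul_zero, Matrix.zero_mul]
    · intro X hX hX0 hl p hp hpX
      exact hp (nd0 X hX hX0 hl p hpX)
  obtain ⟨X', hX'0, -, huniq, G, hG1, hG2⟩ := hconv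
  have hshift : ∀ t, 0 ≤ t → X' t = P * y (t0 + t) * P := by
    intro t ht
    have h1 : IsTrajectory C A b (Set.Ico 0 (t + 1)) (fun u => P * y (t0 + u) * P) :=
      hd.traj_of (y := fun u => y (t0 + u)) hA hg fun u hu =>
        ⟨(hy (t0 + u) (by linarith [hu.1])).1,
          shift_deriv (hy (t0 + u) (by linarith [hu.1])).2⟩
    have h2 := huniq (t + 1) (by linarith) (fun u => P * y (t0 + u) * P)
      (by simp only [add_zero]) (solves_of_traj hCs hA h1) t ⟨ht, by linarith⟩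
    exact h2.symm
  refine ⟨fun t => P * y t * P, ?_, hd.traj_of hA hg fun t ht => hy t ht, ?_, G,
    ⟨⟨hG1.1.1, hG1.1.2⟩, fun H hH => hG1.2 H ⟨hH.1, hH.2⟩⟩, ?_⟩
  · simp only [hy0, hd.pbx]
  · intro T Z hZ0 hZ
    exact hd.unique hA hg (by rw [hZ0, hy0]) hy hZ
  · have h1 : Tendsto X' atTop (𝓝 G) := by
      refine tendsto_pi_nhds.2 fun i => tendsto_pi_nhds.2 fun j => ?_
      exact hG2 i j
    have h2 : Tendsto (fun t : ℝ => t - t0) atTop atTop :=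
      tendsto_atTop_add_const_right _ _ tendsto_id
    refine (h1.comp h2).congr' ?_
    filter_upwards [eventually_ge_atTop t0] with t ht
    simp only [Function.comp]
    rw [hshift (t - t0) (by linarith), add_sub_cancel]

/-- The case `𝒜 vec X₀ = κ b` with `κ ≥ 1`. -/
theorem ray_kl (C : Matrix (Fin n) (Fin n) ℝ) (hC : C.PosDef)
    (A : Fin m → Matrix (Fin n) (Fin n) ℝ) (hA : ∀ l, (A l).IsSymm) (b : Fin m → ℝ)
    (X₀ : Matrix (Fin n) (Fin n) ℝ) (hX₀ : X₀.PosDef)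
    (ndb : ∀ X : Matrix (Fin n) (Fin n) ℝ, X.PosSemidef → (∀ l, (A l * X).trace = b l) →
      ∀ μ : Fin m → ℝ, (∑ l, μ l • A l) * X = 0 → μ = 0)
    {κ : ℝ} (hκ : 1 ≤ κ) (hray : ∀ l, (A l * X₀).trace = κ * b l) :
    ∃ X : ℝ → Matrix (Fin n) (Fin n) ℝ, X 0 = X₀ ∧ IsTrajectory C A b (Set.Ici 0) X ∧
      (∀ (T : ℝ) (Z : ℝ → Matrix (Fin n) (Fin n) ℝ), Z 0 = X₀ →
        IsTrajectory C A b (Set.Ico 0 T) Z → ∀ t ∈ Set.Ico 0 T, Z t = X t) ∧
      ∃ Xs, IsOptimal C A b Xs ∧ Tendsto X atTop (𝓝 Xs) := by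
  obtain ⟨P, B, hd⟩ := exists_root hC
  have hCs : (C⁻¹)ᵀ = C⁻¹ := by rw [hd.cinv, Matrix.transpose_mul, hd.ps]
  have hconv : PhysND.Converges C A b X₀ := by
    refine PhysND.converges_of' hC (fun l => (hA l).eq) hX₀ ?_ (Or.inl ⟨κ, hκ, hray⟩)
    rintro X hX ⟨s, hs, hl⟩ p hp hpX
    have hc : 0 < 1 + s * (κ - 1) := by
      have : 0 ≤ s * (κ - 1) := mul_nonneg hs.1 (by linarith)
      linarith
    refine hp (ndb ((1 + s * (κ - 1))⁻¹ • X) (hX.smul (inv_nonneg.2 hc.le)) (fun l => ?_) p ?_)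
    · rw [Matrix.mul_smul, Matrix.trace_smul, hl l, hray l, smul_eq_mul]
      field_simp
    · have h1 : (∑ l, p l • A l) * X = 0 := hpX
      rw [Matrix.mul_smul, h1, smul_zero]
  obtain ⟨X', hX'0, hsol, huniq, G, hG1, hG2⟩ := hconv
  refine ⟨X', hX'0, traj_of_solves hCs hA hsol, ?_, G,
    ⟨⟨hG1.1.1, hG1.1.2⟩, fun H hH => hG1.2 H ⟨hH.1, hH.2⟩⟩,
    tendsto_pi_nhds.2 fun i => tendsto_pi_nhds.2 fun j => hG2 i j⟩
  intro T Z hZ0 hZ t ht
  exact huniq T (ht.1.trans_lt ht.2) Z hZ0 (solves_of_traj hCs hA hZ) t ht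

end merge

end Pool.Agent.Lib.MP_e757b3_ae
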