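import Pool.Agent.Lib.MP_e757b3_ae.NE4

/-! Crossings at which all degenerate directions lie on one line. -/

open Matrix Filter Topology

namespace Pool.Agent.Lib.MP_e757b3_ae

section cone

open scoped Matrix.Norms.Operator

variable {n m : ℕ}

/-- No solution basis can stay bounded near an unstable blow-up, with a limit direction only. -/
lemma cone_escape_dir {M : Matrix (Fin n) (Fin n) ℝ} (hM : Mᵀ = M)
    (hpos : ∃ x : Fin n → ℝ, 0 < x ⬝ᵥ (M *ᵥ x)) {t0 T : ℝ} (hT : t0 < T)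
    {Z S : ℝ → Matrix (Fin n) (Fin n) ℝ} {c : ℝ → ℝ}
    (hZ : ∀ t ∈ Set.Ico t0 T, HasDerivAt Z ((1 / 2 : ℝ) • ((S t - 1) * Z t)) t)
    (hdet : ∀ t ∈ Set.Ico t0 T, (Z t).det ≠ 0)
    (hc : Tendsto c (𝓝[<] T) atTop)
    (hS : Tendsto (fun t => (c t)⁻¹ • S t) (𝓝[<] T) (𝓝 M))
    (hMY : Tendsto (fun t => M * (Z t * (Z t)ᵀ)) (𝓝[<] T) (𝓝 0)) : False := by
  classical
  obtain ⟨U, β, hU, hUM⟩ := simul_diag (fun _ : Fin 1 => M) (fun _ => hM) (fun _ _ => rfl)
  set d : Fin n → ℝ := β 0 with hd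
  have hUM : Uᵀ * M * U = Matrix.diagonal d := hUM 0
  have hU' : U * Uᵀ = 1 := mul_eq_one_comm.1 hU
  -- a positive eigenvalue
  obtain ⟨j, hj⟩ : ∃ j, 0 < d j := by
    by_contra hcon
    push Not at hcon
    obtain ⟨x, hx⟩ := hpos
    have hMd : M = U * Matrix.diagonal d * Uᵀ := by
      rw [← hUM]
      calc M = (U * Uᵀ) * M * (U * Uᵀ) := by rw [hU', Matrix.one_mul, Matrix.mul_one]
        _ = _ := by simp only [Matrix.mul_assoc]
    have e1 : x ⬝ᵥ (M *ᵥ x) = ∑ i, d i * (Uᵀ *ᵥ x) i ^ 2 := by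
      rw [hMd, ← Matrix.mulVec_mulVec, ← Matrix.mulVec_mulVec, Matrix.dotProduct_mulVec,
        ← Matrix.mulVec_transpose, dotProduct]
      refine Finset.sum_congr rfl fun i _ => ?_
      rw [Matrix.mulVec_diagonal]
      ring
    rw [e1] at hx
    have : ∑ i, d i * (Uᵀ *ᵥ x) i ^ 2 ≤ 0 :=
      Finset.sum_nonpos fun i _ => mul_nonpos_of_nonpos_of_nonneg (hcon i) (sq_nonneg _)
    linarith
  -- the gap
  obtain ⟨δ, hδ, hδd⟩ : ∃ δ : ℝ, 0 < δ ∧ ∀ i, 0 < d i → δ ≤ d i := by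
    have hne : (Finset.univ.filter fun i => 0 < d i).Nonempty := ⟨j, by simp [hj]⟩
    obtain ⟨i0, hi0, hmin⟩ := Finset.exists_min_image _ d hne
    exact ⟨d i0, (Finset.mem_filter.1 hi0).2, fun i hi => hmin i (by simp [hi])⟩
  set E : ℝ → Matrix (Fin n) (Fin n) ℝ := fun t => Uᵀ * ((c t)⁻¹ • S t - M) * U with hE
  have hEt : Tendsto E (𝓝[<] T) (𝓝 0) := by
    have h1 : Tendsto (fun t => (c t)⁻¹ • S t - M) (𝓝[<] T) (𝓝 0) := by
      simpa using hS.sub_const M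
    have h2 := (h1.const_mul Uᵀ).mul_const U
    simpa [hE] using h2
  have hEe : ∀ i k, ∀ᶠ t in 𝓝[<] T, |E t i k| * n ≤ δ / 4 := by
    intro i k
    have h1 : Tendsto (fun t => E t i k) (𝓝[<] T) (𝓝 0) := by
      have := (tendsto_pi_nhds.1 (tendsto_pi_nhds.1 hEt i)) k
      simpa using this
    have h2 : Tendsto (fun t => |E t i k| * n) (𝓝[<] T) (𝓝 0) := by
      simpa using h1.abs.mul_const (n : ℝ)
    exact h2.eventually_le_const (by positivity)
  have hcc : ∀ᶠ t in 𝓝[<] T, 2 < c t * δ := by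
    filter_upwards [hc.eventually_gt_atTop (2 / δ)] with t ht
    rwa [div_lt_iff₀ hδ] at ht
  have hmem : ∀ᶠ t in 𝓝[<] T, t ∈ Set.Ico t0 T := Ico_mem_nhdsLT hT
  have hall : ∀ᶠ t in 𝓝[<] T, (∀ i k, |E t i k| * n ≤ δ / 4) ∧ 2 < c t * δ ∧ t ∈ Set.Ico t0 T :=
    ((eventually_all.2 fun i => eventually_all.2 fun k => hEe i k).and (hcc.and hmem))
  obtain ⟨t1, ht1T, ht1⟩ := mem_nhdsLT_iff_exists_Ico_subset.1 hall
  have ht1T' : t1 < T := ht1T
  have hprop : ∀ t ∈ Set.Ico t1 T, (∀ i k, |E t i k| * n ≤ δ / 4) ∧ 2 < c t * δ ∧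
      t ∈ Set.Ico t0 T := fun t ht => ht1 ht
  have h11 := (hprop t1 ⟨le_rfl, ht1T'⟩).2.2
  -- the solution starting at the eigenvector
  set N : Matrix (Fin n) (Fin n) ℝ := (Z t1)⁻¹ * U with hN
  set W : ℝ → Fin n → ℝ := fun t i => (Uᵀ * Z t * N) i j with hW
  set s : Fin n → ℝ := fun i => if 0 < d i then (1 : ℝ) else -1 with hs
  have hW1 : ∀ i, W t1 i = (1 : Matrix (Fin n) (Fin n) ℝ) i j := by
    intro i
    have hu : IsUnit (Z t1).det := isUnit_iff_ne_zero.2 (hdet t1 h11)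
    have : Uᵀ * Z t1 * N = 1 := by
      rw [hN, Matrix.mul_assoc, ← Matrix.mul_assoc (Z t1), Matrix.mul_nonsing_inv _ hu,
        Matrix.one_mul, hU]
    simp only [hW, this]
  have hQ1 : ∑ i, s i * W t1 i ^ 2 = 1 := by
    rw [Finset.sum_eq_single j]
    · rw [hW1, Matrix.one_apply_eq]; simp [hs, hj]
    · intro i _ hi
      rw [hW1, Matrix.one_apply_ne hi]; simp
    · simp
  have hWd : ∀ t ∈ Set.Ico t1 T, ∀ i, HasDerivAt (fun r => W r i)
      ((1 / 2 : ℝ) * ((∑ k, (c t • (Matrix.diagonal d + E t)) i k * W t k) - W t i)) t := by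
    intro t ht i
    have hct : c t ≠ 0 := by
      have := (hprop t ht).2.1
      intro h0
      rw [h0, zero_mul] at this
      linarith
    have h1 := hasDerivAt_conj (hZ t (hprop t ht).2.2) Uᵀ N i j
    convert h1 using 1
    have e1 : Matrix.diagonal d + E t = (c t)⁻¹ • (Uᵀ * S t * U) := by
      simp only [hE]
      rw [← hUM, Matrix.mul_sub, Matrix.sub_mul, Matrix.mul_smul, Matrix.smul_mul]
      abel
    have e2 : Uᵀ * ((1 / 2 : ℝ) • ((S t - 1) * Z t)) * N =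
        (1 / 2 : ℝ) • ((Uᵀ * S t * U) * (Uᵀ * Z t * N) - Uᵀ * Z t * N) := by
      rw [Matrix.mul_smul, Matrix.smul_mul]
      congr 1
      have : (Uᵀ * S t * U) * (Uᵀ * Z t * N) = Uᵀ * S t * Z t * N := by
        calc (Uᵀ * S t * U) * (Uᵀ * Z t * N) = Uᵀ * S t * (U * Uᵀ) * Z t * N := by
              simp only [Matrix.mul_assoc]
          _ = _ := by rw [hU', Matrix.mul_one]
      rw [this, Matrix.sub_mul, Matrix.one_mul, Matrix.mul_sub, Matrix.sub_mul]
      simp only [Matrix.mul_assoc]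
    rw [e1, smul_smul, mul_inv_cancel₀ hct, one_smul, e2, Matrix.smul_apply, smul_eq_mul,
      Matrix.sub_apply, Matrix.mul_apply]
  have hQd : ∀ t ∈ Set.Ico t1 T, HasDerivAt (fun r => ∑ i, s i * W r i ^ 2)
      ((∑ i, ∑ k, s i * W t i * (c t • (Matrix.diagonal d + E t)) i k * W t k) -
        ∑ i, s i * W t i ^ 2) t :=
    fun t ht => cone_deriv (hWd t ht) s
  have hQpos : ∀ t ∈ Set.Ico t1 T, 1 / 2 ≤ ∑ i, s i * W t i ^ 2 := by
    intro t ht
    have hsub : Set.Icc t1 t ⊆ Set.Ico t1 T := fun r hr => ⟨hr.1, hr.2.trans_lt ht.2⟩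
    have hcont : ContinuousOn (fun r => ∑ i, s i * W r i ^ 2) (Set.Icc t1 t) := fun r hr =>
      (hQd r (hsub hr)).continuousAt.continuousWithinAt
    have := image_le_of_deriv_right_lt_deriv_boundary' (f := fun _ : ℝ => (1 / 2 : ℝ))
      (f' := fun _ => 0) (a := t1) (b := t) continuousOn_const
      (fun r _ => hasDerivWithinAt_const _ _ _)
      (B := fun r => ∑ i, s i * W r i ^ 2)
      (B' := fun r => (∑ i, ∑ k, s i * W r i * (c r • (Matrix.diagonal d + E r)) i k * W r k) -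
        ∑ i, s i * W r i ^ 2) (by simp only [hQ1]; norm_num) hcont
      (fun r hr => (hQd r (hsub (Set.Ico_subset_Icc_self hr))).hasDerivWithinAt)
      (fun r hr hEq => by
        have hr' := hsub (Set.Ico_subset_Icc_self hr)
        have h1 := cone_ineq (y := W r) (E := E r) hδ hδd (hprop r hr').2.1 (hprop r hr').1
          (by
            have : (0 : ℝ) < ∑ i, s i * W r i ^ 2 := by rw [← hEq]; norm_num
            exact this)
        simpa only [Matrix.smul_apply, smul_eq_mul] using h1)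
    exact this ⟨ht.1, le_rfl⟩
  -- the unstable components tend to zero
  have hzero : ∀ i, 0 < d i → Tendsto (fun t => W t i) (𝓝[<] T) (𝓝 0) := by
    intro i hi
    have h0 : Tendsto (fun t => (Uᵀ * (M * (Z t * (Z t)ᵀ)) * U) i i) (𝓝[<] T) (𝓝 0) := by
      have := (hMY.const_mul Uᵀ).mul_const U
      rw [Matrix.mul_zero, Matrix.zero_mul] at this
      exact tendsto_pi_nhds.1 (tendsto_pi_nhds.1 this i) i
    have h1 : Tendsto (fun t => (Uᵀ * (Z t * (Z t)ᵀ) * U) i i) (𝓝[<] T) (𝓝 0) := by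
      have g0 := h0.const_mul (d i)⁻¹
      rw [mul_zero] at g0
      refine g0.congr fun t => ?_
      have e1 : Uᵀ * (M * (Z t * (Z t)ᵀ)) * U =
          Matrix.diagonal d * (Uᵀ * (Z t * (Z t)ᵀ) * U) := by
        rw [← hUM]
        calc Uᵀ * (M * (Z t * (Z t)ᵀ)) * U = Uᵀ * M * 1 * (Z t * (Z t)ᵀ) * U := by
              rw [Matrix.mul_one]; simp only [Matrix.mul_assoc]
          _ = Uᵀ * M * (U * Uᵀ) * (Z t * (Z t)ᵀ) * U := by rw [hU']
          _ = _ := by simp only [Matrix.mul_assoc]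
      rw [e1, Matrix.diagonal_mul, ← mul_assoc, inv_mul_cancel₀ hi.ne', one_mul]
    have h3 : ∀ t k, (Uᵀ * Z t) i k ^ 2 ≤ (Uᵀ * (Z t * (Z t)ᵀ) * U) i i := by
      intro t k
      have e1 : (Uᵀ * (Z t * (Z t)ᵀ) * U) i i = ∑ k, (Uᵀ * Z t) i k ^ 2 := by
        have : Uᵀ * (Z t * (Z t)ᵀ) * U = (Uᵀ * Z t) * (Uᵀ * Z t)ᵀ := by
          rw [Matrix.transpose_mul, Matrix.transpose_transpose]
          simp only [Matrix.mul_assoc]
        rw [this, Matrix.mul_apply]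
        exact Finset.sum_congr rfl fun k _ => by rw [Matrix.transpose_apply, sq]
      rw [e1]
      exact Finset.single_le_sum (f := fun k => (Uᵀ * Z t) i k ^ 2)
        (fun k _ => sq_nonneg _) (Finset.mem_univ k)
    have h4 : ∀ k, Tendsto (fun t => (Uᵀ * Z t) i k) (𝓝[<] T) (𝓝 0) := by
      intro k
      have g1 : Tendsto (fun t => (Uᵀ * Z t) i k ^ 2) (𝓝[<] T) (𝓝 0) :=
        squeeze_zero (fun t => sq_nonneg _) (fun t => h3 t k) h1
      have g2 := g1.sqrt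
      simp only [Real.sqrt_sq_eq_abs, Real.sqrt_zero] at g2
      exact (tendsto_zero_iff_abs_tendsto_zero _).2 g2
    have h5 : Tendsto (fun t => ∑ k, (Uᵀ * Z t) i k * N k j) (𝓝[<] T) (𝓝 0) := by
      have := tendsto_finsetSum (Finset.univ : Finset (Fin n)) fun k _ =>
        (h4 k).mul_const (N k j)
      simpa using this
    exact h5
  have hPz : Tendsto (fun t => ∑ i, (if 0 < d i then W t i ^ 2 else 0)) (𝓝[<] T) (𝓝 0) := by
    have : Tendsto (fun t => ∑ i, (if 0 < d i then W t i ^ 2 else 0)) (𝓝[<] T)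
        (𝓝 (∑ _i : Fin n, (0 : ℝ))) := by
      refine tendsto_finsetSum _ fun i _ => ?_
      by_cases hi : 0 < d i
      · simp only [if_pos hi]
        simpa using (hzero i hi).pow 2
      · simp only [if_neg hi]
        exact tendsto_const_nhds
    simpa using this
  have hfin : ∀ᶠ t in 𝓝[<] T, 1 / 2 ≤ ∑ i, (if 0 < d i then W t i ^ 2 else 0) := by
    filter_upwards [Ico_mem_nhdsLT ht1T'] with t ht
    refine (hQpos t ht).trans (Finset.sum_le_sum fun i _ => ?_)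
    simp only [hs]
    split_ifs
    · linarith
    · nlinarith [sq_nonneg (W t i)]
  have := ge_of_tendsto hPz hfin
  linarith

end cone

section direction

open scoped Matrix.Norms.Operator

variable {n m : ℕ} {A : Fin m → Matrix (Fin n) (Fin n) ℝ} {b : Fin m → ℝ}

lemma tendsto_transp {α : Type*} {l : Filter α} {M : α → Matrix (Fin n) (Fin n) ℝ}
    {M0 : Matrix (Fin n) (Fin n) ℝ} (hM : Tendsto M l (𝓝 M0)) :
    Tendsto (fun t => (M t)ᵀ) l (𝓝 M0ᵀ) :=
  ((Matrix.transposeLinearEquiv (Fin n) (Fin n) ℝ ℝ).toLinearMap.toContinuousLinearMap.continuous.tendsto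
    M0).comp hM

/-- Blow-up of the multiplier when `S_μ X → 0` and `μ ⬝ᵥ b > 0`. -/
lemma lam_blowup_dir (hA : ∀ l, (A l).IsSymm) {T : ℝ} {X : ℝ → Matrix (Fin n) (Fin n) ℝ}
    {μ : Fin m → ℝ} (hX : Tendsto (fun t => Sm A μ * X t) (𝓝[<] T) (𝓝 0))
    (hpsd : ∀ᶠ t in 𝓝[<] T, (X t).PosSemidef)
    (hdet : ∀ᶠ t in 𝓝[<] T, (gramM A (X t)).det ≠ 0) (hμb : 0 < μ ⬝ᵥ b) :
    Tendsto (fun t => ‖lamv A b (X t)‖) (𝓝[<] T) atTop := by
  have h0 : Tendsto (fun t => X t * Sm A μ) (𝓝[<] T) (𝓝 0) := by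
    have := tendsto_transp hX
    rw [Matrix.transpose_zero] at this
    refine this.congr' (hpsd.mono fun t ht => ?_)
    rw [Matrix.transpose_mul, (psd_iff.1 ht).1, Sm_symm hA]
  have h1 : ∀ l, Tendsto (fun t => (gramM A (X t) *ᵥ μ) l) (𝓝[<] T) (𝓝 0) := by
    intro l
    have hc : Continuous fun M : Matrix (Fin n) (Fin n) ℝ => (A l * M).trace :=
      (continuous_const.matrix_mul continuous_id).matrix_trace
    have := (hc.tendsto 0).comp h0
    rw [Matrix.mul_zero, Matrix.trace_zero] at this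
    refine this.congr fun t => ?_
    rw [gram_mulVec, Function.comp, Matrix.mul_assoc]
  have h2 : Tendsto (fun t => ∑ l, |(gramM A (X t) *ᵥ μ) l|) (𝓝[<] T) (𝓝 0) := by
    have : Tendsto (fun t => ∑ l, |(gramM A (X t) *ᵥ μ) l|) (𝓝[<] T) (𝓝 (∑ _l : Fin m, (0 : ℝ))) := by
      refine tendsto_finsetSum _ fun l _ => ?_
      have := (h1 l).abs
      simpa using this
    simpa using this
  rw [tendsto_atTop]
  intro R
  have hR : ∀ᶠ t in 𝓝[<] T, ∑ l, |(gramM A (X t) *ᵥ μ) l| < (μ ⬝ᵥ b) / (|R| + 1) :=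
    h2.eventually_lt_const (by positivity)
  filter_upwards [hR, hpsd, hdet] with t ht hp hd
  have e1 : μ ⬝ᵥ b = (gramM A (X t) *ᵥ μ) ⬝ᵥ lamv A b (X t) := by
    have h3 := lam_spec (b := b) hd
    rw [← h3, Matrix.dotProduct_mulVec, ← Matrix.mulVec_transpose,
      gram_symm hA (psd_iff.1 hp).1]
    rw [h3]
  have e2 : μ ⬝ᵥ b ≤ (∑ l, |(gramM A (X t) *ᵥ μ) l|) * ‖lamv A b (X t)‖ := by
    rw [e1, dotProduct, Finset.sum_mul]
    refine Finset.sum_le_sum fun l _ => ?_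
    refine (le_abs_self _).trans ?_
    rw [abs_mul]
    exact mul_le_mul_of_nonneg_left (by simpa using norm_le_pi_norm (lamv A b (X t)) l)
      (abs_nonneg _)
  by_contra hcon
  push Not at hcon
  have hb : ‖lamv A b (X t)‖ ≤ |R| + 1 := by
    have := le_abs_self R
    linarith
  rw [lt_div_iff₀ (by positivity)] at ht
  have hs : 0 ≤ ∑ l, |(gramM A (X t) *ᵥ μ) l| := Finset.sum_nonneg fun l _ => abs_nonneg _
  have := mul_le_mul_of_nonneg_left hb hs
  linarith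

lemma lam_direction_dir (hA : ∀ l, (A l).IsSymm) {T : ℝ} {X : ℝ → Matrix (Fin n) (Fin n) ℝ}
    {K : Set (Matrix (Fin n) (Fin n) ℝ)} (hK : IsCompact K) (hXK : ∀ᶠ t in 𝓝[<] T, X t ∈ K)
    (hpsd : ∀ᶠ t in 𝓝[<] T, (X t).PosSemidef)
    (hdet : ∀ᶠ t in 𝓝[<] T, (gramM A (X t)).det ≠ 0)
    {μ : Fin m → ℝ} (hinf : Tendsto (fun t => ‖lamv A b (X t)‖) (𝓝[<] T) atTop)
    (hμb : 0 < μ ⬝ᵥ b)
    (hker : ∀ Y, MapClusterPt Y (𝓝[<] T) X → ∀ e, Sm A e * Y = 0 → ∃ r : ℝ, e = r • μ) :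
    Tendsto (fun t => ‖lamv A b (X t)‖⁻¹ • lamv A b (X t)) (𝓝[<] T) (𝓝 (‖μ‖⁻¹ • μ)) := by
  have hg : Continuous fun Y : Matrix (Fin n) (Fin n) ℝ => gramM A Y := contDiff_gram.continuous
  have hpos : ∀ᶠ t in 𝓝[<] T, 0 < ‖lamv A b (X t)‖ := hinf.eventually_gt_atTop 0
  refine (isCompact_sphere (0 : Fin m → ℝ) 1).tendsto_nhds_of_unique_mapClusterPt ?_ ?_
  · filter_upwards [hpos] with t ht
    rw [mem_sphere_zero_iff_norm, norm_smul, norm_inv, norm_norm, inv_mul_cancel₀ ht.ne']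
  · intro e he hcl
    rw [mem_sphere_zero_iff_norm] at he
    obtain ⟨V, hV, hVe⟩ := mapClusterPt_iff_ultrafilter.1 hcl
    obtain ⟨Y, hYK, hVY⟩ := hK.ultrafilter_le_nhds (V.map X)
      (by
        rw [Ultrafilter.coe_map]
        exact tendsto_principal.2 (hV hXK))
    have hVX : Tendsto X V (𝓝 Y) := by
      rw [Ultrafilter.coe_map] at hVY
      exact hVY
    have hYp : Y.PosSemidef := isClosed_psd.mem_of_tendsto hVX (hV hpsd)
    have h1 : Tendsto (fun t => gramM A (X t) *ᵥ (‖lamv A b (X t)‖⁻¹ • lamv A b (X t))) V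
        (𝓝 (gramM A Y *ᵥ e)) := by
      have hXV : Tendsto (fun t => gramM A (X t)) V (𝓝 (gramM A Y)) :=
        (hg.tendsto Y).comp hVX
      exact tendsto_mulVec' hXV hVe
    have h2 : Tendsto (fun t => gramM A (X t) *ᵥ (‖lamv A b (X t)‖⁻¹ • lamv A b (X t))) V
        (𝓝 0) := by
      have h3 : Tendsto (fun t => ‖lamv A b (X t)‖⁻¹ • b) V (𝓝 0) := by
        have := (tendsto_inv_atTop_zero.comp hinf).smul_const b
        rw [zero_smul] at this
        exact this.mono_left hV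
      refine h3.congr' ((hdet.filter_mono hV).mono fun t ht => ?_)
      change ‖lamv A b (X t)‖⁻¹ • b = gramM A (X t) *ᵥ (‖lamv A b (X t)‖⁻¹ • lamv A b (X t))
      rw [Matrix.mulVec_smul, lam_spec ht]
    have h4 : gramM A Y *ᵥ e = 0 := tendsto_nhds_unique h1 h2
    have h5 : Sm A e * Y = 0 := by
      have := gram_quad (A := A) Y e
      rw [h4, dotProduct_zero] at this
      exact (trace_sandwich hYp (Sm_symm hA e)).2 this.symm
    obtain ⟨r, rfl⟩ := hker Y (mapClusterPt_iff_ultrafilter.2 ⟨V, hV, hVX⟩) e h5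
    have h6 : Tendsto (fun t => (‖lamv A b (X t)‖⁻¹ • lamv A b (X t)) ⬝ᵥ b) V
        (𝓝 ((r • μ) ⬝ᵥ b)) := by
      have hc : Continuous fun e : Fin m → ℝ => e ⬝ᵥ b := by
        simp only [dotProduct]
        fun_prop
      exact (hc.tendsto _).comp hVe
    have h7 : 0 ≤ (r • μ) ⬝ᵥ b := by
      refine ge_of_tendsto h6 ?_
      filter_upwards [hdet.filter_mono hV, hpsd.filter_mono hV] with t hd hp
      rw [smul_dotProduct, smul_eq_mul]
      refine mul_nonneg (inv_nonneg.2 (norm_nonneg _)) ?_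
      have e1 : lamv A b (X t) ⬝ᵥ b = lamv A b (X t) ⬝ᵥ (gramM A (X t) *ᵥ lamv A b (X t)) := by
        rw [lam_spec hd]
      rw [e1, gram_quad]
      exact (trace_sandwich hp (Sm_symm hA _)).1
    rw [smul_dotProduct, smul_eq_mul] at h7
    have hr : 0 ≤ r := by
      by_contra h
      push Not at h
      have := mul_neg_of_neg_of_pos h hμb
      linarith
    rw [norm_smul, Real.norm_of_nonneg hr] at he
    have : r = ‖μ‖⁻¹ := eq_inv_of_mul_eq_one_left he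
    rw [this]

/-- No degenerate cluster set with one degenerate direction at a finite time. -/
theorem no_degenerate_common (hA : ∀ l, (A l).IsSymm) {T : ℝ} (hT : 0 < T)
    {Z : ℝ → Matrix (Fin n) (Fin n) ℝ}
    (hZ : ∀ t ∈ Set.Ico 0 T, HasDerivAt Z (fZ A b (Z t)) t)
    (hg : ∀ t ∈ Set.Ico 0 T, (gramM A (Z t * (Z t)ᵀ)).det ≠ 0) (hZ0 : (Z 0).det ≠ 0)
    {K : Set (Matrix (Fin n) (Fin n) ℝ)} (hK : IsCompact K)
    (hZK : ∀ᶠ t in 𝓝[<] T, Z t * (Z t)ᵀ ∈ K)
    {μ : Fin m → ℝ} (hμY : Tendsto (fun t => Sm A μ * (Z t * (Z t)ᵀ)) (𝓝[<] T) (𝓝 0))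
    (hμb : μ ⬝ᵥ b ≠ 0)
    (hker : ∀ Y, MapClusterPt Y (𝓝[<] T) (fun t => Z t * (Z t)ᵀ) →
      ∀ e, Sm A e * Y = 0 → ∃ r : ℝ, e = r • μ) (hS0 : Sm A μ ≠ 0)
    {W : Matrix (Fin n) (Fin n) ℝ} (hW : W.PosDef) (htr : (Sm A μ * W).trace = 0) : False := by
  obtain ⟨hpos, hneg⟩ := both_signs (Sm_symm hA μ) hS0 hW htr
  have hdet := det_ne_local hZ hg hZ0
  -- it suffices to treat the positive sign
  have key : ∀ ν : Fin m → ℝ, Tendsto (fun t => Sm A ν * (Z t * (Z t)ᵀ)) (𝓝[<] T) (𝓝 0) →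
      0 < ν ⬝ᵥ b →
      (∀ Y, MapClusterPt Y (𝓝[<] T) (fun t => Z t * (Z t)ᵀ) →
        ∀ e, Sm A e * Y = 0 → ∃ r : ℝ, e = r • ν) →
      (∃ x : Fin n → ℝ, 0 < x ⬝ᵥ (Sm A ν *ᵥ x)) → False := by
    intro ν hνY hνb hkν hposν
    have hmem : ∀ᶠ t in 𝓝[<] T, t ∈ Set.Ico 0 T := Ico_mem_nhdsLT hT
    have hpsd : ∀ᶠ t in 𝓝[<] T, (Z t * (Z t)ᵀ).PosSemidef :=
      Eventually.of_forall fun t => psd_mul_transpose_self (Z t)
    have hdg : ∀ᶠ t in 𝓝[<] T, (gramM A (Z t * (Z t)ᵀ)).det ≠ 0 := hmem.mono fun t ht => hg t ht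
    have h1 := lam_blowup_dir hA hνY hpsd hdg hνb
    have h2 := lam_direction_dir hA hK hZK hpsd hdg h1 hνb hkν
    have hν0 : ν ≠ 0 := by
      rintro rfl
      simp at hνb
    have hνn : 0 < ‖ν‖ := norm_pos_iff.2 hν0
    let L : (Fin m → ℝ) →ₗ[ℝ] Matrix (Fin n) (Fin n) ℝ :=
      { toFun := fun e => Sm A e
        map_add' := fun e e' => by simp [Sm, add_smul, Finset.sum_add_distrib]
        map_smul' := fun r e => by simp [Sm, smul_smul, Finset.smul_sum] }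
    have hLs : ∀ (r : ℝ) (e : Fin m → ℝ), Sm A (r • e) = r • Sm A e := fun r e => L.map_smul r e
    have hLc : Continuous fun e : Fin m → ℝ => Sm A e := L.toContinuousLinearMap.continuous
    refine cone_escape_dir (M := Sm A (‖ν‖⁻¹ • ν)) (Sm_symm hA _) ?_ hT
      (S := fun t => SS A b (Z t * (Z t)ᵀ)) (c := fun t => ‖lamv A b (Z t * (Z t)ᵀ)‖)
      (fun t ht => hZ t ht) hdet h1 ?_ ?_
    · obtain ⟨x, hx⟩ := hposν
      refine ⟨x, ?_⟩
      rw [hLs, Matrix.smul_mulVec, dotProduct_smul, smul_eq_mul]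
      positivity
    · have := (hLc.tendsto _).comp h2
      refine this.congr fun t => ?_
      simp only [Function.comp_apply, SS, hLs]
    · have := hνY.const_smul ‖ν‖⁻¹
      rw [smul_zero] at this
      refine this.congr fun t => ?_
      rw [hLs, Matrix.smul_mul]
  rcases lt_or_gt_of_ne hμb with h | h
  · have hneg' : Sm A (-μ) = - Sm A μ := by
      simp [Sm, Finset.sum_neg_distrib]
    refine key (-μ) ?_ ?_ ?_ ?_
    · have := hμY.neg
      rw [neg_zero] at this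
      refine this.congr fun t => ?_
      rw [hneg', Matrix.neg_mul]
    · rw [neg_dotProduct]; linarith
    · intro Y hY e he
      obtain ⟨r, hr⟩ := hker Y hY e he
      exact ⟨-r, by rw [hr]; simp⟩
    · obtain ⟨x, hx⟩ := hneg
      refine ⟨x, ?_⟩
      rw [hneg', Matrix.neg_mulVec, dotProduct_neg]
      linarith
  · exact key μ hμY h hker hpos

end direction

end Pool.Agent.Lib.MP_e757b3_ae
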