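import Pool.Agent.Lib.MP_e757b3_ae.NO

open Matrix Filter Topology

namespace Pool.Agent.Lib.MP_e757b3_ae

section cone

open scoped Matrix.Norms.Operator

variable {n m : ℕ}

lemma hasDerivAt_conj {Z : ℝ → Matrix (Fin n) (Fin n) ℝ} {Z' : Matrix (Fin n) (Fin n) ℝ} {t : ℝ}
    (h : HasDerivAt Z Z' t) (U N : Matrix (Fin n) (Fin n) ℝ) (i j : Fin n) :
    HasDerivAt (fun s => (U * Z s * N) i j) ((U * Z' * N) i j) t := by
  let T : Matrix (Fin n) (Fin n) ℝ →ₗ[ℝ] ℝ :=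
    { toFun := fun Y => (U * Y * N) i j
      map_add' := fun Y Y' => by rw [Matrix.mul_add, Matrix.add_mul]; rfl
      map_smul' := fun c Y => by
        rw [Matrix.mul_smul, Matrix.smul_mul]; rfl }
  exact T.toContinuousLinearMap.hasFDerivAt.comp_hasDerivAt t h

/-- The derivative of the indefinite form along the flow. -/
lemma cone_deriv {W : ℝ → Fin n → ℝ} {B : Matrix (Fin n) (Fin n) ℝ} {t : ℝ}
    (hW : ∀ i, HasDerivAt (fun s => W s i) ((1 / 2 : ℝ) * ((∑ k, B i k * W t k) - W t i)) t)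
    (s : Fin n → ℝ) :
    HasDerivAt (fun r => ∑ i, s i * W r i ^ 2)
      ((∑ i, ∑ k, s i * W t i * B i k * W t k) - ∑ i, s i * W t i ^ 2) t := by
  have h1 : HasDerivAt (fun r => ∑ i, s i * W r i ^ 2)
      (∑ i, s i * (2 * W t i * ((1 / 2 : ℝ) * ((∑ k, B i k * W t k) - W t i)))) t := by
    refine HasDerivAt.fun_sum fun i _ => ?_
    have := ((hW i).pow 2).const_mul (s i)
    simpa using this
  convert h1 using 1
  rw [← Finset.sum_sub_distrib]
  refine Finset.sum_congr rfl fun i _ => ?_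
  have e1 : ∑ k, s i * W t i * B i k * W t k = s i * W t i * ∑ k, B i k * W t k := by
    rw [Finset.mul_sum]
    exact Finset.sum_congr rfl fun k _ => by ring
  rw [e1]
  ring

/-- The algebraic inequality behind the invariant cone. -/
lemma cone_ineq {d y : Fin n → ℝ} {E : Matrix (Fin n) (Fin n) ℝ} {δ c : ℝ}
    (hδ : 0 < δ) (hd : ∀ i, 0 < d i → δ ≤ d i) (hc : 2 < c * δ)
    (hE : ∀ i k, |E i k| * n ≤ δ / 4)
    (hQ : 0 < ∑ i, (if 0 < d i then (1 : ℝ) else -1) * y i ^ 2) :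
    0 < (∑ i, ∑ k, (if 0 < d i then (1 : ℝ) else -1) * y i *
      (c * ((Matrix.diagonal d + E) i k)) * y k) -
      ∑ i, (if 0 < d i then (1 : ℝ) else -1) * y i ^ 2 := by
  classical
  set s : Fin n → ℝ := fun i => if 0 < d i then (1 : ℝ) else -1 with hs
  set P : ℝ := ∑ i, (if 0 < d i then y i ^ 2 else 0) with hP
  set R : ℝ := ∑ i, (if 0 < d i then 0 else y i ^ 2) with hR
  have hR0 : 0 ≤ R := Finset.sum_nonneg fun i _ => by split_ifs <;> positivity
  have hQe : ∑ i, s i * y i ^ 2 = P - R := by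
    rw [hP, hR, ← Finset.sum_sub_distrib]
    refine Finset.sum_congr rfl fun i _ => ?_
    simp only [hs]
    split_ifs <;> ring
  have hN : ∑ i, y i ^ 2 = P + R := by
    rw [hP, hR, ← Finset.sum_add_distrib]
    refine Finset.sum_congr rfl fun i _ => ?_
    split_ifs <;> ring
  have hc0 : 0 < c := by
    by_contra h
    push Not at h
    have : c * δ ≤ 0 := mul_nonpos_of_nonpos_of_nonneg h hδ.le
    linarith
  have e1 : ∑ i, ∑ k, s i * y i * (c * ((Matrix.diagonal d + E) i k)) * y k =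
      c * (∑ i, s i * d i * y i ^ 2) + c * ∑ i, ∑ k, s i * y i * E i k * y k := by
    rw [Finset.mul_sum, Finset.mul_sum, ← Finset.sum_add_distrib]
    refine Finset.sum_congr rfl fun i _ => ?_
    rw [Finset.mul_sum]
    have e2 : ∑ k, s i * y i * (c * ((Matrix.diagonal d + E) i k)) * y k =
        ∑ k, (s i * y i * (c * (Matrix.diagonal d i k)) * y k) +
        ∑ k, c * (s i * y i * E i k * y k) := by
      rw [← Finset.sum_add_distrib]
      refine Finset.sum_congr rfl fun k _ => ?_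
      rw [Matrix.add_apply]
      ring
    rw [e2]
    congr 1
    rw [Finset.sum_eq_single i]
    · rw [Matrix.diagonal_apply_eq]; ring
    · intro k _ hk
      rw [Matrix.diagonal_apply_ne _ hk.symm]; ring
    · simp
  have e3 : δ * P ≤ ∑ i, s i * d i * y i ^ 2 := by
    rw [hP, Finset.mul_sum]
    refine Finset.sum_le_sum fun i _ => ?_
    simp only [hs]
    split_ifs with h
    · have := hd i h
      nlinarith [sq_nonneg (y i)]
    · have : d i ≤ 0 := not_lt.1 h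
      nlinarith [sq_nonneg (y i)]
  have e4 : |∑ i, ∑ k, s i * y i * E i k * y k| ≤ δ / 4 * (P + R) := by
    have f1 : |∑ i, ∑ k, s i * y i * E i k * y k| ≤ ∑ i, ∑ k, |s i * y i * E i k * y k| :=
      (Finset.abs_sum_le_sum_abs _ _).trans
        (Finset.sum_le_sum fun i _ => Finset.abs_sum_le_sum_abs _ _)
    rcases Nat.eq_zero_or_pos n with hn | hn
    · subst hn
      simp [hP, hR]
    · have hn' : (0 : ℝ) < n := by exact_mod_cast hn
      have f2 : ∀ i k, |s i * y i * E i k * y k| ≤ δ / 4 / n * ((y i ^ 2 + y k ^ 2) / 2) := by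
        intro i k
        have g1 : |s i| = 1 := by simp only [hs]; split_ifs <;> simp
        have g2 : |E i k| ≤ δ / 4 / n := by
          rw [le_div_iff₀ hn']; exact hE i k
        have g3 : |y i| * |y k| ≤ (y i ^ 2 + y k ^ 2) / 2 := by
          nlinarith [sq_nonneg (|y i| - |y k|), sq_abs (y i), sq_abs (y k)]
        rw [abs_mul, abs_mul, abs_mul, g1, one_mul]
        calc |y i| * |E i k| * |y k| = |E i k| * (|y i| * |y k|) := by ring
          _ ≤ δ / 4 / n * ((y i ^ 2 + y k ^ 2) / 2) :=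
            mul_le_mul g2 g3 (by positivity) (by positivity)
      have f3 : ∑ i, ∑ k : Fin n, δ / 4 / n * ((y i ^ 2 + y k ^ 2) / 2) = δ / 4 * (P + R) := by
        rw [← hN]
        have g1 : ∀ i, ∑ k : Fin n, δ / 4 / n * ((y i ^ 2 + y k ^ 2) / 2) =
            δ / 4 / n / 2 * (n * y i ^ 2 + ∑ k, y k ^ 2) := by
          intro i
          rw [← Finset.mul_sum, ← Finset.sum_div, Finset.sum_add_distrib]
          simp only [Finset.sum_const, Finset.card_univ, Fintype.card_fin, nsmul_eq_mul]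
          ring
        simp only [g1]
        rw [← Finset.mul_sum, Finset.sum_add_distrib, ← Finset.mul_sum]
        simp only [Finset.sum_const, Finset.card_univ, Fintype.card_fin, nsmul_eq_mul]
        field_simp
        ring
      calc |∑ i, ∑ k, s i * y i * E i k * y k| ≤ ∑ i, ∑ k, |s i * y i * E i k * y k| := f1
        _ ≤ ∑ i, ∑ k : Fin n, δ / 4 / n * ((y i ^ 2 + y k ^ 2) / 2) :=
          Finset.sum_le_sum fun i _ => Finset.sum_le_sum fun k _ => f2 i k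
        _ = _ := f3
  rw [e1, hQe]
  rw [hQe] at hQ
  have hPR : R < P := by linarith
  have e5 := (abs_le.1 e4).1
  have e6 : δ * P - δ / 4 * (P + R) ≤
      (∑ i, s i * d i * y i ^ 2) + ∑ i, ∑ k, s i * y i * E i k * y k := by linarith
  have e7 : δ / 2 * P ≤ δ * P - δ / 4 * (P + R) := by nlinarith
  have e8 : c * (δ / 2 * P) ≤
      c * ((∑ i, s i * d i * y i ^ 2) + ∑ i, ∑ k, s i * y i * E i k * y k) :=
    mul_le_mul_of_nonneg_left (e7.trans e6) hc0.le
  have hP0 : 0 < P := lt_of_le_of_lt hR0 hPR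
  have e9 : P < c * (δ / 2 * P) := by nlinarith
  rw [← mul_add]
  linarith





/-- No solution basis can stay bounded near an unstable blow-up. -/
lemma cone_escape {M : Matrix (Fin n) (Fin n) ℝ} (hM : Mᵀ = M)
    (hpos : ∃ x : Fin n → ℝ, 0 < x ⬝ᵥ (M *ᵥ x)) {t0 T : ℝ} (hT : t0 < T)
    {Z S : ℝ → Matrix (Fin n) (Fin n) ℝ} {c : ℝ → ℝ}
    (hZ : ∀ t ∈ Set.Ico t0 T, HasDerivAt Z ((1 / 2 : ℝ) • ((S t - 1) * Z t)) t)
    (hdet : ∀ t ∈ Set.Ico t0 T, (Z t).det ≠ 0)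
    (hc : Tendsto c (𝓝[<] T) atTop)
    (hS : Tendsto (fun t => (c t)⁻¹ • S t) (𝓝[<] T) (𝓝 M))
    {Y : Matrix (Fin n) (Fin n) ℝ}
    (hY : Tendsto (fun t => Z t * (Z t)ᵀ) (𝓝[<] T) (𝓝 Y)) (hMY : M * Y = 0) : False := by
  classical
  obtain ⟨U, β, hU, hUM⟩ := simul_diag (fun _ : Fin 1 => M) (fun _ => hM) (fun _ _ => rfl)
  set d : Fin n → ℝ := β 0 with hd
  have hUM : Uᵀ * M * U = Matrix.diagonal d := hUM 0
  have hU' : U * Uᵀ = 1 := mul_eq_one_comm.1 hU
  -- a positive eigenvalue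
  obtain ⟨j, hj⟩ : ∃ j, 0 < d j := by
    by_contra hcon
    push Not at hcon
    obtain ⟨x, hx⟩ := hpos
    have hMd : M = U * Matrix.diagonal d * Uᵀ := by
      rw [← hUM]
      calc M = (U * Uᵀ) * M * (U * Uᵀ) := by rw [hU', Matrix.one_mul, Matrix.mul_one]
        _ = _ := by simp only [Matrix.mul_assoc]
    have e1 : x ⬝ᵥ (M *ᵥ x) = ∑ i, d i * (Uᵀ *ᵥ x) i ^ 2 := by
      rw [hMd, ← Matrix.mulVec_mulVec, ← Matrix.mulVec_mulVec, Matrix.dotProduct_mulVec,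
        ← Matrix.mulVec_transpose, dotProduct]
      refine Finset.sum_congr rfl fun i _ => ?_
      rw [Matrix.mulVec_diagonal]
      ring
    rw [e1] at hx
    have : ∑ i, d i * (Uᵀ *ᵥ x) i ^ 2 ≤ 0 :=
      Finset.sum_nonpos fun i _ => mul_nonpos_of_nonpos_of_nonneg (hcon i) (sq_nonneg _)
    linarith
  -- the gap
  obtain ⟨δ, hδ, hδd⟩ : ∃ δ : ℝ, 0 < δ ∧ ∀ i, 0 < d i → δ ≤ d i := by
    have hne : (Finset.univ.filter fun i => 0 < d i).Nonempty := ⟨j, by simp [hj]⟩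
    obtain ⟨i0, hi0, hmin⟩ := Finset.exists_min_image _ d hne
    exact ⟨d i0, (Finset.mem_filter.1 hi0).2, fun i hi => hmin i (by simp [hi])⟩
  set E : ℝ → Matrix (Fin n) (Fin n) ℝ := fun t => Uᵀ * ((c t)⁻¹ • S t - M) * U with hE
  have hEt : Tendsto E (𝓝[<] T) (𝓝 0) := by
    have h1 : Tendsto (fun t => (c t)⁻¹ • S t - M) (𝓝[<] T) (𝓝 0) := by
      simpa using hS.sub_const M
    have h2 := (h1.const_mul Uᵀ).mul_const U
    simpa [hE] using h2
  have hEe : ∀ i k, ∀ᶠ t in 𝓝[<] T, |E t i k| * n ≤ δ / 4 := by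
    intro i k
    have h1 : Tendsto (fun t => E t i k) (𝓝[<] T) (𝓝 0) := by
      have := (tendsto_pi_nhds.1 (tendsto_pi_nhds.1 hEt i)) k
      simpa using this
    have h2 : Tendsto (fun t => |E t i k| * n) (𝓝[<] T) (𝓝 0) := by
      simpa using h1.abs.mul_const (n : ℝ)
    exact h2.eventually_le_const (by positivity)
  have hcc : ∀ᶠ t in 𝓝[<] T, 2 < c t * δ := by
    filter_upwards [hc.eventually_gt_atTop (2 / δ)] with t ht
    rwa [div_lt_iff₀ hδ] at ht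
  have hmem : ∀ᶠ t in 𝓝[<] T, t ∈ Set.Ico t0 T := Ico_mem_nhdsLT hT
  have hall : ∀ᶠ t in 𝓝[<] T, (∀ i k, |E t i k| * n ≤ δ / 4) ∧ 2 < c t * δ ∧ t ∈ Set.Ico t0 T :=
    ((eventually_all.2 fun i => eventually_all.2 fun k => hEe i k).and (hcc.and hmem))
  obtain ⟨t1, ht1T, ht1⟩ := mem_nhdsLT_iff_exists_Ico_subset.1 hall
  have ht1T' : t1 < T := ht1T
  have hprop : ∀ t ∈ Set.Ico t1 T, (∀ i k, |E t i k| * n ≤ δ / 4) ∧ 2 < c t * δ ∧
      t ∈ Set.Ico t0 T := fun t ht => ht1 ht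
  have h11 := (hprop t1 ⟨le_rfl, ht1T'⟩).2.2
  -- the solution starting at the eigenvector
  set N : Matrix (Fin n) (Fin n) ℝ := (Z t1)⁻¹ * U with hN
  set W : ℝ → Fin n → ℝ := fun t i => (Uᵀ * Z t * N) i j with hW
  set s : Fin n → ℝ := fun i => if 0 < d i then (1 : ℝ) else -1 with hs
  have hW1 : ∀ i, W t1 i = (1 : Matrix (Fin n) (Fin n) ℝ) i j := by
    intro i
    have hu : IsUnit (Z t1).det := isUnit_iff_ne_zero.2 (hdet t1 h11)
    have : Uᵀ * Z t1 * N = 1 := by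
      rw [hN, Matrix.mul_assoc, ← Matrix.mul_assoc (Z t1), Matrix.mul_nonsing_inv _ hu,
        Matrix.one_mul, hU]
    simp only [hW, this]
  have hQ1 : ∑ i, s i * W t1 i ^ 2 = 1 := by
    rw [Finset.sum_eq_single j]
    · rw [hW1, Matrix.one_apply_eq]; simp [hs, hj]
    · intro i _ hi
      rw [hW1, Matrix.one_apply_ne hi]; simp
    · simp
  have hWd : ∀ t ∈ Set.Ico t1 T, ∀ i, HasDerivAt (fun r => W r i)
      ((1 / 2 : ℝ) * ((∑ k, (c t • (Matrix.diagonal d + E t)) i k * W t k) - W t i)) t := by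
    intro t ht i
    have hct : c t ≠ 0 := by
      have := (hprop t ht).2.1
      intro h0
      rw [h0, zero_mul] at this
      linarith
    have h1 := hasDerivAt_conj (hZ t (hprop t ht).2.2) Uᵀ N i j
    convert h1 using 1
    have e1 : Matrix.diagonal d + E t = (c t)⁻¹ • (Uᵀ * S t * U) := by
      simp only [hE]
      rw [← hUM, Matrix.mul_sub, Matrix.sub_mul, Matrix.mul_smul, Matrix.smul_mul]
      abel
    have e2 : Uᵀ * ((1 / 2 : ℝ) • ((S t - 1) * Z t)) * N =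
        (1 / 2 : ℝ) • ((Uᵀ * S t * U) * (Uᵀ * Z t * N) - Uᵀ * Z t * N) := by
      rw [Matrix.mul_smul, Matrix.smul_mul]
      congr 1
      have : (Uᵀ * S t * U) * (Uᵀ * Z t * N) = Uᵀ * S t * Z t * N := by
        calc (Uᵀ * S t * U) * (Uᵀ * Z t * N) = Uᵀ * S t * (U * Uᵀ) * Z t * N := by
              simp only [Matrix.mul_assoc]
          _ = _ := by rw [hU', Matrix.mul_one]
      rw [this, Matrix.sub_mul, Matrix.one_mul, Matrix.mul_sub, Matrix.sub_mul]
      simp only [Matrix.mul_assoc]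
    rw [e1, smul_smul, mul_inv_cancel₀ hct, one_smul, e2, Matrix.smul_apply, smul_eq_mul,
      Matrix.sub_apply, Matrix.mul_apply]
  have hQd : ∀ t ∈ Set.Ico t1 T, HasDerivAt (fun r => ∑ i, s i * W r i ^ 2)
      ((∑ i, ∑ k, s i * W t i * (c t • (Matrix.diagonal d + E t)) i k * W t k) -
        ∑ i, s i * W t i ^ 2) t :=
    fun t ht => cone_deriv (hWd t ht) s
  have hQpos : ∀ t ∈ Set.Ico t1 T, 1 / 2 ≤ ∑ i, s i * W t i ^ 2 := by
    intro t ht
    have hsub : Set.Icc t1 t ⊆ Set.Ico t1 T := fun r hr => ⟨hr.1, hr.2.trans_lt ht.2⟩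
    have hcont : ContinuousOn (fun r => ∑ i, s i * W r i ^ 2) (Set.Icc t1 t) := fun r hr =>
      (hQd r (hsub hr)).continuousAt.continuousWithinAt
    have := image_le_of_deriv_right_lt_deriv_boundary' (f := fun _ : ℝ => (1 / 2 : ℝ))
      (f' := fun _ => 0) (a := t1) (b := t) continuousOn_const
      (fun r _ => hasDerivWithinAt_const _ _ _)
      (B := fun r => ∑ i, s i * W r i ^ 2)
      (B' := fun r => (∑ i, ∑ k, s i * W r i * (c r • (Matrix.diagonal d + E r)) i k * W r k) -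
        ∑ i, s i * W r i ^ 2) (by simp only [hQ1]; norm_num) hcont
      (fun r hr => (hQd r (hsub (Set.Ico_subset_Icc_self hr))).hasDerivWithinAt)
      (fun r hr hEq => by
        have hr' := hsub (Set.Ico_subset_Icc_self hr)
        have h1 := cone_ineq (y := W r) (E := E r) hδ hδd (hprop r hr').2.1 (hprop r hr').1
          (by
            have : (0 : ℝ) < ∑ i, s i * W r i ^ 2 := by rw [← hEq]; norm_num
            exact this)
        simpa only [Matrix.smul_apply, smul_eq_mul] using h1)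
    exact this ⟨ht.1, le_rfl⟩
  -- the unstable components tend to zero
  have hzero : ∀ i, 0 < d i → Tendsto (fun t => W t i) (𝓝[<] T) (𝓝 0) := by
    intro i hi
    have h1 : Tendsto (fun t => (Uᵀ * (Z t * (Z t)ᵀ) * U) i i) (𝓝[<] T) (𝓝 ((Uᵀ * Y * U) i i)) := by
      have := (hY.const_mul Uᵀ).mul_const U
      exact tendsto_pi_nhds.1 (tendsto_pi_nhds.1 this i) i
    have h2 : (Uᵀ * Y * U) i i = 0 := by
      have e1 : Matrix.diagonal d * (Uᵀ * Y * U) = 0 := by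
        rw [← hUM]
        calc Uᵀ * M * U * (Uᵀ * Y * U) = Uᵀ * (M * (U * Uᵀ) * Y) * U := by
              simp only [Matrix.mul_assoc]
          _ = 0 := by rw [hU', Matrix.mul_one, hMY]; simp
      have e2 := congrFun (congrFun e1 i) i
      rw [Matrix.diagonal_mul, Matrix.zero_apply] at e2
      exact (mul_eq_zero.1 e2).resolve_left hi.ne'
    rw [h2] at h1
    have h3 : ∀ t k, (Uᵀ * Z t) i k ^ 2 ≤ (Uᵀ * (Z t * (Z t)ᵀ) * U) i i := by
      intro t k
      have e1 : (Uᵀ * (Z t * (Z t)ᵀ) * U) i i = ∑ k, (Uᵀ * Z t) i k ^ 2 := by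
        have : Uᵀ * (Z t * (Z t)ᵀ) * U = (Uᵀ * Z t) * (Uᵀ * Z t)ᵀ := by
          rw [Matrix.transpose_mul, Matrix.transpose_transpose]
          simp only [Matrix.mul_assoc]
        rw [this, Matrix.mul_apply]
        exact Finset.sum_congr rfl fun k _ => by rw [Matrix.transpose_apply, sq]
      rw [e1]
      exact Finset.single_le_sum (f := fun k => (Uᵀ * Z t) i k ^ 2)
        (fun k _ => sq_nonneg _) (Finset.mem_univ k)
    have h4 : ∀ k, Tendsto (fun t => (Uᵀ * Z t) i k) (𝓝[<] T) (𝓝 0) := by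
      intro k
      have g1 : Tendsto (fun t => (Uᵀ * Z t) i k ^ 2) (𝓝[<] T) (𝓝 0) :=
        squeeze_zero (fun t => sq_nonneg _) (fun t => h3 t k) h1
      have g2 := g1.sqrt
      simp only [Real.sqrt_sq_eq_abs, Real.sqrt_zero] at g2
      exact (tendsto_zero_iff_abs_tendsto_zero _).2 g2
    have h5 : Tendsto (fun t => ∑ k, (Uᵀ * Z t) i k * N k j) (𝓝[<] T) (𝓝 0) := by
      have := tendsto_finsetSum (Finset.univ : Finset (Fin n)) fun k _ =>
        (h4 k).mul_const (N k j)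
      simpa using this
    exact h5
  have hPz : Tendsto (fun t => ∑ i, (if 0 < d i then W t i ^ 2 else 0)) (𝓝[<] T) (𝓝 0) := by
    have : Tendsto (fun t => ∑ i, (if 0 < d i then W t i ^ 2 else 0)) (𝓝[<] T)
        (𝓝 (∑ _i : Fin n, (0 : ℝ))) := by
      refine tendsto_finsetSum _ fun i _ => ?_
      by_cases hi : 0 < d i
      · simp only [if_pos hi]
        simpa using (hzero i hi).pow 2
      · simp only [if_neg hi]
        exact tendsto_const_nhds
    simpa using this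
  have hfin : ∀ᶠ t in 𝓝[<] T, 1 / 2 ≤ ∑ i, (if 0 < d i then W t i ^ 2 else 0) := by
    filter_upwards [Ico_mem_nhdsLT ht1T'] with t ht
    refine (hQpos t ht).trans (Finset.sum_le_sum fun i _ => ?_)
    simp only [hs]
    split_ifs
    · linarith
    · nlinarith [sq_nonneg (W t i)]
  have := ge_of_tendsto hPz hfin
  linarith

end cone


section direction

open scoped Matrix.Norms.Operator

variable {n m : ℕ} {A : Fin m → Matrix (Fin n) (Fin n) ℝ} {b : Fin m → ℝ}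

lemma gram_symm (hA : ∀ l, (A l).IsSymm) {Y : Matrix (Fin n) (Fin n) ℝ} (hY : Yᵀ = Y) :
    (gramM A Y)ᵀ = gramM A Y := by
  ext k l
  rw [Matrix.transpose_apply]
  simp only [gramM, Matrix.of_apply]
  rw [← Matrix.trace_transpose (A l * Y * A k), Matrix.transpose_mul, Matrix.transpose_mul, hY,
    (hA l).eq, (hA k).eq, ← Matrix.mul_assoc]

/-- Blow-up of the multiplier and its direction at a degenerate limit. -/
lemma lam_blowup (hA : ∀ l, (A l).IsSymm) {T : ℝ} {X : ℝ → Matrix (Fin n) (Fin n) ℝ}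
    {Y : Matrix (Fin n) (Fin n) ℝ} (hX : Tendsto X (𝓝[<] T) (𝓝 Y))
    (hpsd : ∀ᶠ t in 𝓝[<] T, (X t).PosSemidef)
    (hdet : ∀ᶠ t in 𝓝[<] T, (gramM A (X t)).det ≠ 0)
    {μ : Fin m → ℝ} (hμY : Sm A μ * Y = 0) (hμb : 0 < μ ⬝ᵥ b) :
    Tendsto (fun t => ‖lamv A b (X t)‖) (𝓝[<] T) atTop := by
  have hg : Continuous fun Y : Matrix (Fin n) (Fin n) ℝ => gramM A Y := contDiff_gram.continuous
  have hYs : Yᵀ = Y := by
    have h1 : Tendsto (fun t => (X t)ᵀ) (𝓝[<] T) (𝓝 Yᵀ) :=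
      ((Matrix.transposeLinearEquiv (Fin n) (Fin n) ℝ ℝ).toLinearMap.toContinuousLinearMap.continuous.tendsto
        Y).comp hX
    have h2 : Tendsto (fun t => (X t)ᵀ) (𝓝[<] T) (𝓝 Y) :=
      hX.congr' (hpsd.mono fun t ht => ((psd_iff.1 ht).1).symm)
    exact tendsto_nhds_unique h1 h2
  have hGμ : gramM A Y *ᵥ μ = 0 := by
    funext l
    rw [gram_mulVec]
    have : Y * Sm A μ = 0 := by
      have := congrArg Matrix.transpose hμY
      rwa [Matrix.transpose_mul, hYs, Sm_symm hA, Matrix.transpose_zero] at this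
    rw [Matrix.mul_assoc, this, Matrix.mul_zero, Matrix.trace_zero]
    rfl
  have h1 : Tendsto (fun t => gramM A (X t) *ᵥ μ) (𝓝[<] T) (𝓝 0) := by
    have hc : Continuous fun Y : Matrix (Fin n) (Fin n) ℝ => gramM A Y *ᵥ μ :=
      hg.matrix_mulVec continuous_const
    have := (hc.tendsto Y).comp hX
    rw [hGμ] at this
    exact this
  have h2 : Tendsto (fun t => ∑ l, |(gramM A (X t) *ᵥ μ) l|) (𝓝[<] T) (𝓝 0) := by
    have : Tendsto (fun t => ∑ l, |(gramM A (X t) *ᵥ μ) l|) (𝓝[<] T) (𝓝 (∑ _l : Fin m, (0 : ℝ))) := by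
      refine tendsto_finsetSum _ fun l _ => ?_
      have := (tendsto_pi_nhds.1 h1 l).abs
      simpa using this
    simpa using this
  rw [tendsto_atTop]
  intro R
  have hR : ∀ᶠ t in 𝓝[<] T, ∑ l, |(gramM A (X t) *ᵥ μ) l| < (μ ⬝ᵥ b) / (|R| + 1) :=
    h2.eventually_lt_const (by positivity)
  filter_upwards [hR, hpsd, hdet] with t ht hp hd
  have e1 : μ ⬝ᵥ b = (gramM A (X t) *ᵥ μ) ⬝ᵥ lamv A b (X t) := by
    have h3 := lam_spec (b := b) hd
    rw [← h3, Matrix.dotProduct_mulVec, ← Matrix.mulVec_transpose,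
      gram_symm hA (psd_iff.1 hp).1]
    rw [h3]
  have e2 : μ ⬝ᵥ b ≤ (∑ l, |(gramM A (X t) *ᵥ μ) l|) * ‖lamv A b (X t)‖ := by
    rw [e1, dotProduct, Finset.sum_mul]
    refine Finset.sum_le_sum fun l _ => ?_
    refine (le_abs_self _).trans ?_
    rw [abs_mul]
    exact mul_le_mul_of_nonneg_left (by simpa using norm_le_pi_norm (lamv A b (X t)) l)
      (abs_nonneg _)
  by_contra hcon
  push Not at hcon
  have hb : ‖lamv A b (X t)‖ ≤ |R| + 1 := by
    have := le_abs_self R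
    linarith
  rw [lt_div_iff₀ (by positivity)] at ht
  have hs : 0 ≤ ∑ l, |(gramM A (X t) *ᵥ μ) l| := Finset.sum_nonneg fun l _ => abs_nonneg _
  have := mul_le_mul_of_nonneg_left hb hs
  linarith

lemma tendsto_mulVec' {α : Type*} {l : Filter α} {M : α → Matrix (Fin m) (Fin m) ℝ}
    {M0 : Matrix (Fin m) (Fin m) ℝ} {v : α → Fin m → ℝ} {v0 : Fin m → ℝ}
    (hM : Tendsto M l (𝓝 M0)) (hv : Tendsto v l (𝓝 v0)) :
    Tendsto (fun t => M t *ᵥ v t) l (𝓝 (M0 *ᵥ v0)) := by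
  refine tendsto_pi_nhds.2 fun i => ?_
  simp only [Matrix.mulVec, dotProduct]
  refine tendsto_finsetSum _ fun k _ => ?_
  exact (tendsto_pi_nhds.1 (tendsto_pi_nhds.1 hM i) k).mul (tendsto_pi_nhds.1 hv k)

lemma lam_direction (hA : ∀ l, (A l).IsSymm) {T : ℝ} {X : ℝ → Matrix (Fin n) (Fin n) ℝ}
    {Y : Matrix (Fin n) (Fin n) ℝ} (hX : Tendsto X (𝓝[<] T) (𝓝 Y)) (hYp : Y.PosSemidef)
    (hpsd : ∀ᶠ t in 𝓝[<] T, (X t).PosSemidef)
    (hdet : ∀ᶠ t in 𝓝[<] T, (gramM A (X t)).det ≠ 0)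
    {μ : Fin m → ℝ} (hμY : Sm A μ * Y = 0) (hμb : 0 < μ ⬝ᵥ b)
    (hker : ∀ e, Sm A e * Y = 0 → ∃ r : ℝ, e = r • μ) :
    Tendsto (fun t => ‖lamv A b (X t)‖⁻¹ • lamv A b (X t)) (𝓝[<] T) (𝓝 (‖μ‖⁻¹ • μ)) := by
  have hinf := lam_blowup hA hX hpsd hdet hμY hμb
  have hg : Continuous fun Y : Matrix (Fin n) (Fin n) ℝ => gramM A Y := contDiff_gram.continuous
  have hpos : ∀ᶠ t in 𝓝[<] T, 0 < ‖lamv A b (X t)‖ := hinf.eventually_gt_atTop 0
  refine (isCompact_sphere (0 : Fin m → ℝ) 1).tendsto_nhds_of_unique_mapClusterPt ?_ ?_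
  · filter_upwards [hpos] with t ht
    rw [mem_sphere_zero_iff_norm, norm_smul, norm_inv, norm_norm, inv_mul_cancel₀ ht.ne']
  · intro e he hcl
    rw [mem_sphere_zero_iff_norm] at he
    obtain ⟨V, hV, hVe⟩ := mapClusterPt_iff_ultrafilter.1 hcl
    have h1 : Tendsto (fun t => gramM A (X t) *ᵥ (‖lamv A b (X t)‖⁻¹ • lamv A b (X t))) V
        (𝓝 (gramM A Y *ᵥ e)) := by
      have hXV : Tendsto (fun t => gramM A (X t)) V (𝓝 (gramM A Y)) :=
        ((hg.tendsto Y).comp hX).mono_left hV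
      exact tendsto_mulVec' hXV hVe
    have h2 : Tendsto (fun t => gramM A (X t) *ᵥ (‖lamv A b (X t)‖⁻¹ • lamv A b (X t))) V
        (𝓝 0) := by
      have h3 : Tendsto (fun t => ‖lamv A b (X t)‖⁻¹ • b) V (𝓝 0) := by
        have := (tendsto_inv_atTop_zero.comp hinf).smul_const b
        rw [zero_smul] at this
        exact this.mono_left hV
      refine h3.congr' ((hdet.filter_mono hV).mono fun t ht => ?_)
      change ‖lamv A b (X t)‖⁻¹ • b = gramM A (X t) *ᵥ (‖lamv A b (X t)‖⁻¹ • lamv A b (X t))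
      rw [Matrix.mulVec_smul, lam_spec ht]
    have h4 : gramM A Y *ᵥ e = 0 := tendsto_nhds_unique h1 h2
    have h5 : Sm A e * Y = 0 := by
      have := gram_quad (A := A) Y e
      rw [h4, dotProduct_zero] at this
      exact (trace_sandwich hYp (Sm_symm hA e)).2 this.symm
    obtain ⟨r, rfl⟩ := hker e h5
    have h6 : Tendsto (fun t => (‖lamv A b (X t)‖⁻¹ • lamv A b (X t)) ⬝ᵥ b) V
        (𝓝 ((r • μ) ⬝ᵥ b)) := by
      have hc : Continuous fun e : Fin m → ℝ => e ⬝ᵥ b := by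
        simp only [dotProduct]
        fun_prop
      exact (hc.tendsto _).comp hVe
    have h7 : 0 ≤ (r • μ) ⬝ᵥ b := by
      refine ge_of_tendsto h6 ?_
      filter_upwards [hdet.filter_mono hV, hpsd.filter_mono hV] with t hd hp
      rw [smul_dotProduct, smul_eq_mul]
      refine mul_nonneg (inv_nonneg.2 (norm_nonneg _)) ?_
      have e1 : lamv A b (X t) ⬝ᵥ b = lamv A b (X t) ⬝ᵥ (gramM A (X t) *ᵥ lamv A b (X t)) := by
        rw [lam_spec hd]
      rw [e1, gram_quad]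
      exact (trace_sandwich hp (Sm_symm hA _)).1
    rw [smul_dotProduct, smul_eq_mul] at h7
    have hr : 0 ≤ r := by
      by_contra h
      push Not at h
      have := mul_neg_of_neg_of_pos h hμb
      linarith
    rw [norm_smul, Real.norm_of_nonneg hr] at he
    have : r = ‖μ‖⁻¹ := eq_inv_of_mul_eq_one_left he
    rw [this]

/-- No degenerate limit at a finite time. -/
theorem no_degenerate_limit (hA : ∀ l, (A l).IsSymm) {t0 T : ℝ} (hT : t0 < T)
    {Z : ℝ → Matrix (Fin n) (Fin n) ℝ}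
    (hZ : ∀ t ∈ Set.Ico t0 T, HasDerivAt Z (fZ A b (Z t)) t)
    (hg : ∀ t ∈ Set.Ico t0 T, (gramM A (Z t * (Z t)ᵀ)).det ≠ 0)
    (hdet : ∀ t ∈ Set.Ico t0 T, (Z t).det ≠ 0)
    {Y : Matrix (Fin n) (Fin n) ℝ}
    (hY : Tendsto (fun t => Z t * (Z t)ᵀ) (𝓝[<] T) (𝓝 Y))
    {μ : Fin m → ℝ} (hμY : Sm A μ * Y = 0) (hμb : μ ⬝ᵥ b ≠ 0)
    (hker : ∀ e, Sm A e * Y = 0 → ∃ r : ℝ, e = r • μ)
    (hpos : ∃ x : Fin n → ℝ, 0 < x ⬝ᵥ (Sm A μ *ᵥ x))
    (hneg : ∃ x : Fin n → ℝ, x ⬝ᵥ (Sm A μ *ᵥ x) < 0) : False := by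
  have hYp : Y.PosSemidef := isClosed_psd.mem_of_tendsto hY
    (Eventually.of_forall fun t => psd_mul_transpose_self (Z t))
  -- it suffices to treat the positive sign
  have key : ∀ ν : Fin m → ℝ, Sm A ν * Y = 0 → 0 < ν ⬝ᵥ b →
      (∀ e, Sm A e * Y = 0 → ∃ r : ℝ, e = r • ν) →
      (∃ x : Fin n → ℝ, 0 < x ⬝ᵥ (Sm A ν *ᵥ x)) → False := by
    intro ν hνY hνb hkν hposν
    have hmem : ∀ᶠ t in 𝓝[<] T, t ∈ Set.Ico t0 T := Ico_mem_nhdsLT hT
    have hpsd : ∀ᶠ t in 𝓝[<] T, (Z t * (Z t)ᵀ).PosSemidef :=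
      Eventually.of_forall fun t => psd_mul_transpose_self (Z t)
    have hdg : ∀ᶠ t in 𝓝[<] T, (gramM A (Z t * (Z t)ᵀ)).det ≠ 0 := hmem.mono fun t ht => hg t ht
    have h1 := lam_blowup hA hY hpsd hdg hνY hνb
    have h2 := lam_direction hA hY hYp hpsd hdg hνY hνb hkν
    have hν0 : ν ≠ 0 := by
      rintro rfl
      simp at hνb
    have hνn : 0 < ‖ν‖ := norm_pos_iff.2 hν0
    let L : (Fin m → ℝ) →ₗ[ℝ] Matrix (Fin n) (Fin n) ℝ :=
      { toFun := fun e => Sm A e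
        map_add' := fun e e' => by simp [Sm, add_smul, Finset.sum_add_distrib]
        map_smul' := fun r e => by simp [Sm, smul_smul, Finset.smul_sum] }
    have hLs : ∀ (r : ℝ) (e : Fin m → ℝ), Sm A (r • e) = r • Sm A e := fun r e => L.map_smul r e
    have hLc : Continuous fun e : Fin m → ℝ => Sm A e := L.toContinuousLinearMap.continuous
    refine cone_escape (M := Sm A (‖ν‖⁻¹ • ν)) (Sm_symm hA _) ?_ hT
      (S := fun t => SS A b (Z t * (Z t)ᵀ)) (c := fun t => ‖lamv A b (Z t * (Z t)ᵀ)‖)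
      (fun t ht => hZ t ht) hdet h1 ?_ hY ?_
    · obtain ⟨x, hx⟩ := hposν
      refine ⟨x, ?_⟩
      rw [hLs, Matrix.smul_mulVec, dotProduct_smul, smul_eq_mul]
      positivity
    · have := (hLc.tendsto _).comp h2
      refine this.congr fun t => ?_
      simp only [Function.comp_apply, SS, hLs]
    · rw [hLs, Matrix.smul_mul, hνY, smul_zero]
  rcases lt_or_gt_of_ne hμb with h | h
  · have hneg' : Sm A (-μ) = - Sm A μ := by
      simp [Sm, Finset.sum_neg_distrib]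
    refine key (-μ) ?_ ?_ ?_ ?_
    · rw [hneg', Matrix.neg_mul, hμY, neg_zero]
    · rw [neg_dotProduct]; linarith
    · intro e he
      obtain ⟨r, hr⟩ := hker e he
      exact ⟨-r, by rw [hr]; simp⟩
    · obtain ⟨x, hx⟩ := hneg
      refine ⟨x, ?_⟩
      rw [hneg', Matrix.neg_mulVec, dotProduct_neg]
      linarith
  · exact key μ hμY h hker hpos

end direction

section final

open scoped Matrix.Norms.Operator

variable {n m : ℕ} {A : Fin m → Matrix (Fin n) (Fin n) ℝ} {b : Fin m → ℝ}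

/-- The factor stays invertible on `[0, T)`. -/
lemma det_ne_local {T : ℝ} {Z : ℝ → Matrix (Fin n) (Fin n) ℝ}
    (hZ : ∀ t ∈ Set.Ico 0 T, HasDerivAt Z (fZ A b (Z t)) t)
    (hg : ∀ t ∈ Set.Ico 0 T, (gramM A (Z t * (Z t)ᵀ)).det ≠ 0) (hZ0 : (Z 0).det ≠ 0) :
    ∀ t ∈ Set.Ico 0 T, (Z t).det ≠ 0 := by
  intro t ht hdet
  obtain ⟨w, hw, hcon⟩ := Matrix.exists_mulVec_eq_zero_iff.2 hdet
  have hsub : Set.Icc 0 t ⊆ Set.Ico 0 T := fun s hs => ⟨hs.1, hs.2.trans_lt ht.2⟩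
  have hcS : ContinuousOn (fun s => SS A b (Z s * (Z s)ᵀ)) (Set.Icc 0 t) := fun s hs => by
    have h1 := continuousAt_SSZ (b := b) (hg s (hsub hs))
    exact (ContinuousAt.comp (f := Z) (x := s) h1 (hZ s (hsub hs)).continuousAt).continuousWithinAt
  have hcK : ContinuousOn (fun s => (SS A b (Z s * (Z s)ᵀ) * (SS A b (Z s * (Z s)ᵀ))ᵀ).trace)
      (Set.Icc 0 t) := by
    have h2 : Continuous fun M : Matrix (Fin n) (Fin n) ℝ => (M * Mᵀ).trace :=
      contDiff_ZZt.continuous.matrix_trace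
    exact h2.comp_continuousOn hcS
  obtain ⟨K, hK⟩ := (isCompact_Icc.image_of_continuousOn hcK).bddAbove
  have hK' : ∀ s ∈ Set.Icc 0 t,
      (SS A b (Z s * (Z s)ᵀ) * (SS A b (Z s * (Z s)ᵀ))ᵀ).trace ≤ K := fun s hs =>
    hK ⟨s, hs, rfl⟩
  set κ : ℝ := (1 + K) / 2 + 1 with hκ
  have h1 : AntitoneOn (fun s => -(Real.exp (κ * s) * ((Z s *ᵥ w) ⬝ᵥ
      ((1 : Matrix (Fin n) (Fin n) ℝ) *ᵥ (Z s *ᵥ w))))) (Set.Icc 0 t) := by
    refine anti_of_deriv (f' := fun s => -((Real.exp (κ * s) * κ) * ((Z s *ᵥ w) ⬝ᵥ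
      ((1 : Matrix (Fin n) (Fin n) ℝ) *ᵥ (Z s *ᵥ w))) + Real.exp (κ * s) *
      (((1 : Matrix (Fin n) (Fin n) ℝ) *ᵥ (Z s *ᵥ w)) ⬝ᵥ
        ((SS A b (Z s * (Z s)ᵀ) - 1) *ᵥ (Z s *ᵥ w))))) (convex_Icc 0 t) ?_ ?_
    · intro s hs
      have e1 : HasDerivAt (fun s => Real.exp (κ * s)) (Real.exp (κ * s) * κ) s := by
        have := ((hasDerivAt_id s).const_mul κ).exp
        simpa using this
      exact (e1.mul (hasDerivAt_col_quad (hZ s (hsub hs)) w Matrix.transpose_one)).fun_neg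
    · intro s hs
      have hKs := hK' s hs
      set S := SS A b (Z s * (Z s)ᵀ)
      set z := Z s *ᵥ w
      have e0 : 0 ≤ z ⬝ᵥ z := Finset.sum_nonneg fun l _ => mul_self_nonneg _
      have e1 := mulVec_dot_le S z
      have e2 := (abs_le.1 (dot_le_half z (S *ᵥ z))).1
      have e3 : (S *ᵥ z) ⬝ᵥ (S *ᵥ z) ≤ K * (z ⬝ᵥ z) :=
        e1.trans (mul_le_mul_of_nonneg_right hKs e0)
      simp only [Matrix.one_mulVec, Matrix.sub_mulVec, dotProduct_sub]
      have e4 : 0 ≤ κ * (z ⬝ᵥ z) + (z ⬝ᵥ (S *ᵥ z) - z ⬝ᵥ z) := by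
        rw [hκ]; nlinarith
      have e5 : -(Real.exp (κ * s) * κ * (z ⬝ᵥ z) + Real.exp (κ * s) *
          (z ⬝ᵥ (S *ᵥ z) - z ⬝ᵥ z)) =
          -(Real.exp (κ * s) * (κ * (z ⬝ᵥ z) + (z ⬝ᵥ (S *ᵥ z) - z ⬝ᵥ z))) := by ring
      rw [e5]
      exact neg_nonpos.2 (mul_nonneg (Real.exp_pos _).le e4)
  have h2 := h1 ⟨le_rfl, ht.1⟩ ⟨ht.1, le_rfl⟩ ht.1
  simp only [hcon, Matrix.one_mulVec, mul_zero, Real.exp_zero, one_mul, dotProduct_zero,
    neg_zero] at h2
  have h3 : 0 < (Z 0 *ᵥ w) ⬝ᵥ (Z 0 *ᵥ w) := by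
    have : 0 ≤ (Z 0 *ᵥ w) ⬝ᵥ (Z 0 *ᵥ w) := Finset.sum_nonneg fun l _ => mul_self_nonneg _
    refine lt_of_le_of_ne this fun hh => hZ0 ?_
    exact Matrix.exists_mulVec_eq_zero_iff.1 ⟨w, hw, dotProduct_self_eq_zero.1 hh.symm⟩
  linarith

/-- A nonzero symmetric matrix orthogonal to a positive definite one is indefinite. -/
lemma both_signs {S W : Matrix (Fin n) (Fin n) ℝ} (hS : Sᵀ = S) (hS0 : S ≠ 0) (hW : W.PosDef)
    (htr : (S * W).trace = 0) :
    (∃ x : Fin n → ℝ, 0 < x ⬝ᵥ (S *ᵥ x)) ∧ ∃ x : Fin n → ℝ, x ⬝ᵥ (S *ᵥ x) < 0 := by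
  have key : ∀ R : Matrix (Fin n) (Fin n) ℝ, R.PosSemidef → (R * W).trace = 0 → R = 0 := by
    intro R hR h0
    obtain ⟨Q, hQ, hQQ⟩ := psd_factor hR
    have h1 : (Q * W * Q).trace = 0 := by
      rw [Matrix.trace_mul_comm, ← Matrix.mul_assoc, hQQ, h0]
    have h2 := (trace_sandwich hW.posSemidef hQ).2 h1
    have hu : IsUnit W.det := isUnit_iff_ne_zero.2 hW.det_pos.ne'
    have h3 : Q = 0 := by
      have : Q * W * W⁻¹ = 0 := by rw [h2, Matrix.zero_mul]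
      rwa [Matrix.mul_assoc, Matrix.mul_nonsing_inv _ hu, Matrix.mul_one] at this
    rw [← hQQ, h3, Matrix.zero_mul]
  constructor
  · by_contra hcon
    push Not at hcon
    have hp : (-S).PosSemidef := by
      rw [psd_iff]
      refine ⟨by rw [Matrix.transpose_neg, hS], fun x => ?_⟩
      rw [Matrix.neg_mulVec, dotProduct_neg]
      linarith [hcon x]
    have := key (-S) hp (by rw [Matrix.neg_mul, Matrix.trace_neg, htr, neg_zero])
    exact hS0 (neg_eq_zero.1 this)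
  · by_contra hcon
    push Not at hcon
    have hp : S.PosSemidef := by
      rw [psd_iff]
      exact ⟨hS, fun x => hcon x⟩
    exact hS0 (key S hp htr)

/-- No degenerate limit at a finite time, final form. -/
theorem no_degenerate_limit_full (hA : ∀ l, (A l).IsSymm) {T : ℝ} (hT : 0 < T)
    {Z : ℝ → Matrix (Fin n) (Fin n) ℝ}
    (hZ : ∀ t ∈ Set.Ico 0 T, HasDerivAt Z (fZ A b (Z t)) t)
    (hg : ∀ t ∈ Set.Ico 0 T, (gramM A (Z t * (Z t)ᵀ)).det ≠ 0) (hZ0 : (Z 0).det ≠ 0)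
    {Y : Matrix (Fin n) (Fin n) ℝ}
    (hY : Tendsto (fun t => Z t * (Z t)ᵀ) (𝓝[<] T) (𝓝 Y))
    {μ : Fin m → ℝ} (hμY : Sm A μ * Y = 0) (hμb : μ ⬝ᵥ b ≠ 0)
    (hker : ∀ e, Sm A e * Y = 0 → ∃ r : ℝ, e = r • μ) (hS0 : Sm A μ ≠ 0)
    {W : Matrix (Fin n) (Fin n) ℝ} (hW : W.PosDef) (htr : (Sm A μ * W).trace = 0) : False := by
  obtain ⟨h1, h2⟩ := both_signs (Sm_symm hA μ) hS0 hW htr
  exact no_degenerate_limit hA hT hZ hg (det_ne_local hZ hg hZ0) hY hμY hμb hker h1 h2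

end final

end Pool.Agent.Lib.MP_e757b3_ae
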