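import Pool.Agent.Lib.MP_e757b3_ae.NH

open Matrix Filter Topology

namespace Pool.Agent.Lib.MP_e757b3_ae

/-- Uniqueness for autonomous equations with `C¹` right hand side. -/
lemma ode_unique {E : Type*} [NormedAddCommGroup E] [NormedSpace ℝ E] {f : E → E} {U : Set E}
    (hf : ∀ x ∈ U, ContDiffAt ℝ 1 f x) {T : ℝ} {y z : ℝ → E}
    (hy : ∀ t ∈ Set.Ico 0 T, y t ∈ U ∧ HasDerivWithinAt y (f (y t)) (Set.Ico 0 T) t)
    (hz : ∀ t ∈ Set.Ico 0 T, z t ∈ U ∧ HasDerivWithinAt z (f (z t)) (Set.Ico 0 T) t)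
    (h0 : y 0 = z 0) : ∀ t ∈ Set.Ico 0 T, y t = z t := by
  intro t1 ht1
  have hsub : Set.Icc 0 t1 ⊆ Set.Ico 0 T := fun t ht => ⟨ht.1, ht.2.trans_lt ht1.2⟩
  have hsub' : Set.Ico 0 t1 ⊆ Set.Ico 0 T := fun t ht => ⟨ht.1, ht.2.trans ht1.2⟩
  have hcy : ContinuousOn y (Set.Icc 0 t1) := fun t ht =>
    ((hy t (hsub ht)).2.continuousWithinAt).mono hsub
  have hcz : ContinuousOn z (Set.Icc 0 t1) := fun t ht =>
    ((hz t (hsub ht)).2.continuousWithinAt).mono hsub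
  have hK : IsCompact (y '' Set.Icc 0 t1 ∪ z '' Set.Icc 0 t1) :=
    (isCompact_Icc.image_of_continuousOn hcy).union (isCompact_Icc.image_of_continuousOn hcz)
  have hKU : y '' Set.Icc 0 t1 ∪ z '' Set.Icc 0 t1 ⊆ U := by
    rintro x (⟨t, ht, rfl⟩ | ⟨t, ht, rfl⟩)
    · exact (hy t (hsub ht)).1
    · exact (hz t (hsub ht)).1
  have hLL : LocallyLipschitzOn (y '' Set.Icc 0 t1 ∪ z '' Set.Icc 0 t1) f := by
    intro x hx
    obtain ⟨L, s, hs, hL⟩ := (hf x (hKU hx)).exists_lipschitzOnWith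
    exact ⟨L, s, mem_nhdsWithin_of_mem_nhds hs, hL⟩
  obtain ⟨L, hL⟩ := hLL.exists_lipschitzOnWith_of_compact hK
  have hnh : ∀ t ∈ Set.Ico 0 t1, Set.Ico 0 T ∈ 𝓝[Set.Ici t] t := by
    intro t ht
    refine Filter.mem_of_superset (Ico_mem_nhdsGE (ht.2.trans ht1.2)) ?_
    exact Set.Ico_subset_Ico_left ht.1
  exact ODE_solution_unique_of_mem_Icc_right (v := fun _ => f)
    (s := fun _ => y '' Set.Icc 0 t1 ∪ z '' Set.Icc 0 t1) (fun t _ => hL) hcy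
    (fun t ht => (hy t (hsub' ht)).2.mono_of_mem_nhdsWithin (hnh t ht))
    (fun t ht => Or.inl ⟨t, Set.Ico_subset_Icc_self ht, rfl⟩) hcz
    (fun t ht => (hz t (hsub' ht)).2.mono_of_mem_nhdsWithin (hnh t ht))
    (fun t ht => Or.inr ⟨t, Set.Ico_subset_Icc_self ht, rfl⟩) h0 ⟨ht1.1, le_rfl⟩

section normalized

open scoped Matrix.Norms.Operator

variable {n m : ℕ} {A : Fin m → Matrix (Fin n) (Fin n) ℝ} {b r : Fin m → ℝ}

lemma NDeg.gram_posDef (h : NDeg A b r) {Y0 : Matrix (Fin n) (Fin n) ℝ} (hY0 : Y0.PosDef)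
    (hr : ∀ l, (A l * Y0).trace = b l + r l) {Y : Matrix (Fin n) (Fin n) ℝ} (hY : Y.PosDef) :
    (gramM A Y).det ≠ 0 := by
  intro hdet
  obtain ⟨e, he, hz⟩ := Matrix.exists_mulVec_eq_zero_iff.2 hdet
  have h1 := gram_quad (A := A) Y e
  rw [hz, dotProduct_zero] at h1
  have h2 := (trace_sandwich hY.posSemidef (Sm_symm h.symm e)).2 h1.symm
  have hu : IsUnit Y.det := isUnit_iff_ne_zero.2 hY.det_pos.ne'
  have h3 : Sm A e = 0 := by
    have : Sm A e * Y * Y⁻¹ = 0 := by rw [h2, Matrix.zero_mul]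
    rwa [Matrix.mul_assoc, Matrix.mul_nonsing_inv _ hu, Matrix.mul_one] at this
  refine he (h.nd1 1 ⟨zero_le_one, le_rfl⟩ Y0 hY0.posSemidef (fun l => by rw [hr, one_mul]) e ?_)
  rw [h3, Matrix.zero_mul]

theorem NDeg.normalized (h : NDeg A b r) (hfin : (EqSet A b).Countable)
    {Y0 : Matrix (Fin n) (Fin n) ℝ} (hY0 : Y0.PosDef)
    (hr : ∀ l, (A l * Y0).trace = b l + r l) :
    ∃ y : ℝ → Matrix (Fin n) (Fin n) ℝ, y 0 = Y0 ∧
      (∀ t, 0 ≤ t → (y t).PosDef ∧ HasDerivAt y (gY A b (y t)) t) ∧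
      ∃ Y1 : Matrix (Fin n) (Fin n) ℝ, Y1.PosSemidef ∧ (∀ l, (A l * Y1).trace = b l) ∧
        (∀ F : Matrix (Fin n) (Fin n) ℝ, F.PosSemidef → (∀ l, (A l * F).trace = b l) →
          Y1.trace ≤ F.trace) ∧
        Tendsto y atTop (𝓝 Y1) := by
  obtain ⟨R, hR, hRR⟩ := psd_factor hY0.posSemidef
  have hRR' : R * Rᵀ = Y0 := by rw [hR, hRR]
  have hRd : R.det ≠ 0 := by
    intro h0
    have h1 := hY0.det_pos
    rw [← hRR, Matrix.det_mul, h0, mul_zero] at h1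
    exact lt_irrefl _ h1
  obtain ⟨Z, c, hZ0, hZ⟩ := h.exists_flow R (fun l => by rw [hRR', hr])
  have hF : IsFlow A b r c Z :=
    ⟨fun t ht => (hZ t ht).1, fun t ht => (hZ t ht).2.1, fun t ht => (hZ t ht).2.2.1,
      fun t ht => (hZ t ht).2.2.2⟩
  have hZ0d : (Z 0).det ≠ 0 := by rwa [hZ0]
  obtain ⟨Y1, p1, p2, p3, p4, p5, p6⟩ := h.converges hF hfin
  have hopt : (1 - SS A b Y1).PosSemidef := h.opt_psd hF hZ0d (Sm_symm h.symm _) p6
  refine ⟨fun t => Z t * (Z t)ᵀ, ?_, ?_, Y1, p1, p2, ?_, p5⟩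
  · simp only [hZ0, hRR']
  · intro t ht
    refine ⟨?_, hasDerivAt_ZZt h.symm (hF.der t ht)⟩
    rw [(psd_mul_transpose_self (Z t)).posDef_iff_det_ne_zero, Matrix.det_mul,
      Matrix.det_transpose]
    have := h.det_ne hF hZ0d ht
    exact mul_ne_zero this this
  · intro F hFp hFl
    have e1 := trace_mul_nonneg' hFp hopt
    rw [Matrix.sub_mul, Matrix.one_mul, Matrix.trace_sub] at e1
    have e2 : (SS A b Y1 * F).trace = (SS A b Y1 * Y1).trace := by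
      rw [SS, trace_Sm_mul, trace_Sm_mul]
      exact Finset.sum_congr rfl fun l _ => by rw [hFl, p2]
    have e3 : (SS A b Y1 * Y1).trace = Y1.trace := by
      rw [Matrix.sub_mul, Matrix.one_mul, sub_eq_zero] at p4
      exact congrArg _ p4.symm
    rw [e2, e3] at e1
    linarith

end normalized

end Pool.Agent.Lib.MP_e757b3_ae
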