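import Pool.Agent.Lib.MP_e757b3_ae.NP

open Matrix Filter Topology

namespace Pool.Agent.Lib.MP_e757b3_ae

section finite

open scoped Matrix.Norms.Operator

variable {n m : ℕ} {A : Fin m → Matrix (Fin n) (Fin n) ℝ} {b r : Fin m → ℝ}

/-- A solution of the factor flow on a finite time interval. -/
structure FlowOn (A : Fin m → Matrix (Fin n) (Fin n) ℝ) (b : Fin m → ℝ) (T : ℝ)
    (Z : ℝ → Matrix (Fin n) (Fin n) ℝ) : Prop where
  der : ∀ t ∈ Set.Ico 0 T, HasDerivAt Z (fZ A b (Z t)) t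
  det : ∀ t ∈ Set.Ico 0 T, (gramM A (Z t * (Z t)ᵀ)).det ≠ 0

lemma FlowOn.lin {T : ℝ} {Z : ℝ → Matrix (Fin n) (Fin n) ℝ} (h : FlowOn A b T Z)
    (hA : ∀ l, (A l).IsSymm) (h0 : ∀ l, (A l * (Z 0 * (Z 0)ᵀ)).trace = b l + r l) :
    ∀ t ∈ Set.Ico 0 T, ∀ l, (A l * (Z t * (Z t)ᵀ)).trace = b l + Real.exp (-t) * r l := by
  intro t ht l
  have hYd : ∀ t ∈ Set.Ico 0 T, HasDerivAt (fun s => Z s * (Z s)ᵀ)
      (gY A b (Z t * (Z t)ᵀ)) t := fun t ht => hasDerivAt_ZZt hA (h.der t ht)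
  have hYs : ∀ t, (Z t * (Z t)ᵀ)ᵀ = Z t * (Z t)ᵀ := fun t => by
    rw [Matrix.transpose_mul, Matrix.transpose_transpose]
  have ht00 : (0 : ℝ) ∈ Set.Ico 0 T := ⟨le_rfl, ht.1.trans_lt ht.2⟩
  have hd : ∀ s ∈ Set.Ico 0 T, HasDerivAt
      (fun s => Real.exp s * ((A l * (Z s * (Z s)ᵀ)).trace - b l)) 0 s := by
    intro s hs
    have e1 := (Real.hasDerivAt_exp s).mul
      ((hasDerivAt_trace_mul (hYd s hs) (A l)).sub_const (b l))
    have e2 := trace_A_gY (b := b) hA (hYs s) (h.det s hs) l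
    rw [e2] at e1
    have e3 : Real.exp s * ((A l * (Z s * (Z s)ᵀ)).trace - b l) +
        Real.exp s * (b l - (A l * (Z s * (Z s)ᵀ)).trace) = 0 := by ring
    rw [e3] at e1
    exact e1
  have h1 := const_of_hasDerivAt (convex_Ico 0 T) hd ht00 ht
  rw [Real.exp_zero, one_mul, h0 l, add_sub_cancel_left] at h1
  have h3 : Real.exp (-t) * (Real.exp t * ((A l * (Z t * (Z t)ᵀ)).trace - b l)) =
      (A l * (Z t * (Z t)ᵀ)).trace - b l := by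
    rw [← mul_assoc, ← Real.exp_add]; simp
  rw [h1] at h3
  linarith

/-- The a priori bound of the trace. -/
lemma trace_bound (hA : ∀ l, (A l).IsSymm)
    (nd0 : ∀ Y : Matrix (Fin n) (Fin n) ℝ, Y.PosSemidef → Y ≠ 0 →
      (∀ l, (A l * Y).trace = 0) → ∀ e, Sm A e * Y = 0 → e = 0) (τ0 : ℝ) :
    ∃ c : ℝ, ∀ (T : ℝ) (Z : ℝ → Matrix (Fin n) (Fin n) ℝ), FlowOn A b T Z →
      (∀ l, (A l * (Z 0 * (Z 0)ᵀ)).trace = b l + r l) → (Z 0 * (Z 0)ᵀ).trace ≤ τ0 →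
      ∀ t ∈ Set.Ico 0 T, (Z t * (Z t)ᵀ).trace ≤ c := by
  obtain ⟨c0, hc0, hbd⟩ := bound_large (b := b) (r := r) hA nd0
  set C1 : ℝ := ((b ⬝ᵥ b) / c0 ^ 2 + (2 * (b ⬝ᵥ b) + 2 * (r ⬝ᵥ r))) / 2 with hC1
  set c : ℝ := max τ0 (max C1 (c0⁻¹)) + 1 with hc
  have hcτ : τ0 ≤ c := (le_max_left _ _).trans (by linarith)
  have hcC : C1 < c := lt_of_le_of_lt ((le_max_left _ _).trans (le_max_right _ _))
    (by rw [hc]; linarith)
  have hcc : c0⁻¹ ≤ c := ((le_max_right _ _).trans (le_max_right _ _)).trans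
    (by rw [hc]; linarith)
  have hc0i : 0 < c0⁻¹ := inv_pos.2 hc0
  have hSbound : ∀ s ∈ Set.Icc (0 : ℝ) 1, ∀ Y : Matrix (Fin n) (Fin n) ℝ, Y.PosSemidef →
      (∀ l, (A l * Y).trace = b l + s * r l) → Y.trace = c →
        (SS A b Y * Y).trace ≤ C1 := by
    intro s hs Y hY hAY htr
    have h0 : (Y.trace + 1)⁻¹ ≤ c0 := by
      rw [htr]
      have h1 : c0⁻¹ ≤ c + 1 := by linarith
      calc (c + 1)⁻¹ ≤ (c0⁻¹)⁻¹ := inv_anti₀ hc0i h1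
        _ = c0 := inv_inv c0
    have h1 := lam_bound (b := b) hc0 hY (hbd s hs Y hY hAY h0)
    have h2 : (SS A b Y * Y).trace = lamv A b Y ⬝ᵥ (b + s • r) := by
      rw [SS, trace_Sm_mul]
      exact Finset.sum_congr rfl fun l _ => by rw [hAY]; rfl
    have h3 := (abs_le.1 (dot_le_half (lamv A b Y) (b + s • r))).2
    have h4 : (b + s • r) ⬝ᵥ (b + s • r) ≤ 2 * (b ⬝ᵥ b) + 2 * (r ⬝ᵥ r) := by
      have e1 : 0 ≤ (b - s • r) ⬝ᵥ (b - s • r) := Finset.sum_nonneg fun l _ => mul_self_nonneg _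
      have e2 : (b + s • r) ⬝ᵥ (b + s • r) + (b - s • r) ⬝ᵥ (b - s • r) =
          2 * (b ⬝ᵥ b) + 2 * (s ^ 2 * (r ⬝ᵥ r)) := by
        simp only [add_dotProduct, dotProduct_add, sub_dotProduct, dotProduct_sub,
          smul_dotProduct, dotProduct_smul, smul_eq_mul]
        ring
      have e3 : s ^ 2 ≤ 1 := pow_le_one₀ hs.1 hs.2
      have e4 : 0 ≤ r ⬝ᵥ r := Finset.sum_nonneg fun l _ => mul_self_nonneg _
      have e5 : s ^ 2 * (r ⬝ᵥ r) ≤ r ⬝ᵥ r := mul_le_of_le_one_left e4 e3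
      linarith
    rw [h2, hC1]
    linarith
  refine ⟨c, fun T Z hZ h0 hτ0 t1 ht1 => ?_⟩
  have hlin := hZ.lin hA h0
  have hsub : Set.Icc 0 t1 ⊆ Set.Ico 0 T := fun t ht => ⟨ht.1, ht.2.trans_lt ht1.2⟩
  have hd : ∀ t ∈ Set.Ico 0 T, HasDerivAt (fun s => (Z s * (Z s)ᵀ).trace)
      (gY A b (Z t * (Z t)ᵀ)).trace t := by
    intro t ht
    have e0 := hasDerivAt_trace_mul (hasDerivAt_ZZt hA (hZ.der t ht))
      (1 : Matrix (Fin n) (Fin n) ℝ)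
    simp only [Matrix.one_mul] at e0
    exact e0
  refine image_le_of_deriv_right_lt_deriv_boundary' (f := fun s => (Z s * (Z s)ᵀ).trace)
    (f' := fun t => (gY A b (Z t * (Z t)ᵀ)).trace) (a := 0) (b := t1) (B := fun _ => c)
    (B' := fun _ => 0) (fun t ht => (hd t (hsub ht)).continuousAt.continuousWithinAt)
    (fun t ht => (hd t (hsub (Set.Ico_subset_Icc_self ht))).hasDerivWithinAt)
    (hτ0.trans hcτ) continuousOn_const (fun t _ => hasDerivWithinAt_const _ _ _)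
    (fun t ht htc => ?_) (Set.right_mem_Icc.2 ht1.1)
  have ht' := hsub (Set.Ico_subset_Icc_self ht)
  have e1 := hSbound _ (exp_neg_mem ht'.1) _ (psd_mul_transpose_self (Z t)) (hlin t ht') htc
  have htc' : (Z t * (Z t)ᵀ).trace = c := htc
  have e2 : (gY A b (Z t * (Z t)ᵀ)).trace < 0 := by
    rw [trace_gY, htc']
    linarith
  exact e2

lemma flow_injective_on {Z : ℝ → Matrix (Fin n) (Fin n) ℝ} {K T : ℝ}
    (hZ : ∀ t ∈ Set.Icc 0 T, HasDerivAt Z (fZ A b (Z t)) t)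
    (hK : ∀ t ∈ Set.Icc 0 T, (SS A b (Z t * (Z t)ᵀ) * (SS A b (Z t * (Z t)ᵀ))ᵀ).trace ≤ K)
    {w : Fin n → ℝ} (hw : Z 0 *ᵥ w ≠ 0) (hT : 0 ≤ T) : Z T *ᵥ w ≠ 0 := by
  set κ : ℝ := (1 + K) / 2 + 1 with hκ
  have h1 : AntitoneOn (fun s => -(Real.exp (κ * s) * ((Z s *ᵥ w) ⬝ᵥ
      ((1 : Matrix (Fin n) (Fin n) ℝ) *ᵥ (Z s *ᵥ w))))) (Set.Icc 0 T) := by
    refine anti_of_deriv (f' := fun s => -((Real.exp (κ * s) * κ) * ((Z s *ᵥ w) ⬝ᵥ
      ((1 : Matrix (Fin n) (Fin n) ℝ) *ᵥ (Z s *ᵥ w))) + Real.exp (κ * s) *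
      (((1 : Matrix (Fin n) (Fin n) ℝ) *ᵥ (Z s *ᵥ w)) ⬝ᵥ
        ((SS A b (Z s * (Z s)ᵀ) - 1) *ᵥ (Z s *ᵥ w))))) (convex_Icc 0 T) ?_ ?_
    · intro s hs
      have e1 : HasDerivAt (fun s => Real.exp (κ * s)) (Real.exp (κ * s) * κ) s := by
        have := ((hasDerivAt_id s).const_mul κ).exp
        simpa using this
      exact (e1.mul (hasDerivAt_col_quad (hZ s hs) w Matrix.transpose_one)).fun_neg
    · intro s hs
      have hKs := hK s hs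
      set S := SS A b (Z s * (Z s)ᵀ)
      set z := Z s *ᵥ w
      have e0 : 0 ≤ z ⬝ᵥ z := Finset.sum_nonneg fun l _ => mul_self_nonneg _
      have e1 := mulVec_dot_le S z
      have e2 := (abs_le.1 (dot_le_half z (S *ᵥ z))).1
      have e3 : (S *ᵥ z) ⬝ᵥ (S *ᵥ z) ≤ K * (z ⬝ᵥ z) :=
        e1.trans (mul_le_mul_of_nonneg_right hKs e0)
      simp only [Matrix.one_mulVec, Matrix.sub_mulVec, dotProduct_sub]
      have e4 : 0 ≤ κ * (z ⬝ᵥ z) + (z ⬝ᵥ (S *ᵥ z) - z ⬝ᵥ z) := by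
        rw [hκ]; nlinarith
      have e5 : -(Real.exp (κ * s) * κ * (z ⬝ᵥ z) + Real.exp (κ * s) *
          (z ⬝ᵥ (S *ᵥ z) - z ⬝ᵥ z)) =
          -(Real.exp (κ * s) * (κ * (z ⬝ᵥ z) + (z ⬝ᵥ (S *ᵥ z) - z ⬝ᵥ z))) := by ring
      rw [e5]
      exact neg_nonpos.2 (mul_nonneg (Real.exp_pos _).le e4)
  intro hcon
  have h2 := h1 (Set.left_mem_Icc.2 hT) (Set.right_mem_Icc.2 hT) hT
  simp only [hcon, Matrix.one_mulVec, mul_zero, Real.exp_zero, one_mul, dotProduct_zero,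
    neg_zero] at h2
  have h3 : 0 < (Z 0 *ᵥ w) ⬝ᵥ (Z 0 *ᵥ w) := by
    have : 0 ≤ (Z 0 *ᵥ w) ⬝ᵥ (Z 0 *ᵥ w) := Finset.sum_nonneg fun l _ => mul_self_nonneg _
    exact lt_of_le_of_ne this fun hh => hw (dotProduct_self_eq_zero.1 hh.symm)
  linarith

lemma FlowOn.det_ne {T : ℝ} {Z : ℝ → Matrix (Fin n) (Fin n) ℝ} (h : FlowOn A b T Z)
    (hZ0 : (Z 0).det ≠ 0) {t : ℝ} (ht : t ∈ Set.Ico 0 T) : (Z t).det ≠ 0 := by
  have hsub : Set.Icc 0 t ⊆ Set.Ico 0 T := fun s hs => ⟨hs.1, hs.2.trans_lt ht.2⟩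
  have hc : ContinuousOn (fun s =>
      (SS A b (Z s * (Z s)ᵀ) * (SS A b (Z s * (Z s)ᵀ))ᵀ).trace) (Set.Icc 0 t) := by
    intro s hs
    have h1 := continuousAt_SSZ (b := b) (h.det s (hsub hs))
    have h2 : Continuous fun M : Matrix (Fin n) (Fin n) ℝ => (M * Mᵀ).trace :=
      (continuous_id.matrix_mul continuous_id.matrix_transpose).matrix_trace
    have h3 : ContinuousAt (fun s => SS A b (Z s * (Z s)ᵀ)) s :=
      ContinuousAt.comp (g := fun Z : Matrix (Fin n) (Fin n) ℝ => SS A b (Z * Zᵀ)) h1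
        (h.der s (hsub hs)).continuousAt
    exact (ContinuousAt.comp (g := fun M : Matrix (Fin n) (Fin n) ℝ => (M * Mᵀ).trace)
      h2.continuousAt h3).continuousWithinAt
  obtain ⟨K, hK⟩ := isCompact_Icc.exists_bound_of_continuousOn hc
  intro hdet
  obtain ⟨w, hw, hw0⟩ := Matrix.exists_mulVec_eq_zero_iff.2 hdet
  refine flow_injective_on (fun s hs => h.der s (hsub hs))
    (fun s hs => (le_abs_self _).trans (hK s hs)) ?_ ht.1 hw0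
  intro h0
  exact hZ0 (Matrix.exists_mulVec_eq_zero_iff.1 ⟨w, hw, h0⟩)

end finite

end Pool.Agent.Lib.MP_e757b3_ae
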