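import Pool.Agent.Lib.MP_e757b3_ae.NI

open Filter Topology Set

namespace Pool.Agent.Lib.MP_e757b3_ae

section contin

variable {E : Type*} [NormedAddCommGroup E] [NormedSpace ℝ E] {f : E → E} {U : Set E} {x0 : E}

/-- `γ` solves the equation on `[0, T)`, inside `U`, starting at `x0`. -/
def SolOn (f : E → E) (U : Set E) (x0 : E) (T : ℝ) (γ : ℝ → E) : Prop :=
  γ 0 = x0 ∧ ∀ t ∈ Set.Ico 0 T, HasDerivAt γ (f (γ t)) t ∧ γ t ∈ U

lemma SolOn.mono {T T' : ℝ} {γ : ℝ → E} (h : SolOn f U x0 T γ) (hT : T' ≤ T) :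
    SolOn f U x0 T' γ :=
  ⟨h.1, fun t ht => h.2 t ⟨ht.1, ht.2.trans_le hT⟩⟩

lemma SolOn.unique (hf : ∀ x ∈ U, ContDiffAt ℝ 1 f x) {T T' : ℝ} {γ γ' : ℝ → E}
    (h : SolOn f U x0 T γ) (h' : SolOn f U x0 T' γ') {t : ℝ} (ht : 0 ≤ t) (h1 : t < T)
    (h2 : t < T') : γ t = γ' t := by
  have a1 := h.mono (min_le_left T T')
  have a2 := h'.mono (min_le_right T T')
  exact ode_unique hf (T := min T T') (y := γ) (z := γ')
    (fun s hs => ⟨(a1.2 s hs).2, (a1.2 s hs).1.hasDerivWithinAt⟩)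
    (fun s hs => ⟨(a2.2 s hs).2, (a2.2 s hs).1.hasDerivWithinAt⟩)
    (h.1.trans h'.1.symm) t ⟨ht, lt_min h1 h2⟩

lemma local_sol [CompleteSpace E] (hU : IsOpen U) (hf : ∀ x ∈ U, ContDiffAt ℝ 1 f x) {x : E}
    (hx : x ∈ U) : ∃ α : ℝ → E, α 0 = x ∧ ∃ ε > 0, ∀ t ∈ Set.Ioo (-ε) ε,
      HasDerivAt α (f (α t)) t ∧ α t ∈ U := by
  obtain ⟨α, hα0, ε, hε, hα⟩ :=
    (hf x hx).exists_forall_mem_closedBall_exists_eq_forall_mem_Ioo_hasDerivAt₀ 0
  have hc : ContinuousAt α 0 := (hα 0 (by constructor <;> linarith)).continuousAt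
  have hn : α ⁻¹' U ∈ 𝓝 (0 : ℝ) := hc.preimage_mem_nhds (hU.mem_nhds (by rwa [hα0]))
  obtain ⟨δ, hδ, hδU⟩ := Metric.mem_nhds_iff.1 hn
  refine ⟨α, hα0, min ε δ, lt_min hε hδ, fun t ht => ⟨?_, ?_⟩⟩
  · apply hα
    have h1 := ht.1
    have h2 := ht.2
    have h3 := min_le_left ε δ
    constructor <;> linarith
  · apply hδU
    rw [Metric.mem_ball, Real.dist_eq, sub_zero, abs_lt]
    have h1 := ht.1
    have h2 := ht.2
    have h3 := min_le_right ε δ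
    constructor <;> linarith

lemma glue_sol [CompleteSpace E] (hU : IsOpen U) (hf : ∀ x ∈ U, ContDiffAt ℝ 1 f x)
    (hx0 : x0 ∈ U) : ∃ γ : ℝ → E, γ 0 = x0 ∧ ∀ t : ℝ, 0 ≤ t →
      (∃ T, t < T ∧ ∃ β, SolOn f U x0 T β) → HasDerivAt γ (f (γ t)) t ∧ γ t ∈ U := by
  classical
  obtain ⟨α, hα0, ε, hε, hα⟩ := local_sol hU hf hx0
  have hαS : SolOn f U x0 ε α := ⟨hα0, fun t ht => hα t ⟨by linarith [ht.1], ht.2⟩⟩
  let γ : ℝ → E := fun s =>
    if h : 0 ≤ s ∧ ∃ T, s < T ∧ ∃ β, SolOn f U x0 T β then h.2.choose_spec.2.choose s else α s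
  have key : ∀ (T : ℝ) (β : ℝ → E), SolOn f U x0 T β → ∀ s, 0 ≤ s → s < T → γ s = β s := by
    intro T β hβ s hs hsT
    have h : 0 ≤ s ∧ ∃ T, s < T ∧ ∃ β, SolOn f U x0 T β := ⟨hs, T, hsT, β, hβ⟩
    have e : γ s = h.2.choose_spec.2.choose s := dif_pos h
    rw [e]
    exact SolOn.unique hf h.2.choose_spec.2.choose_spec hβ hs h.2.choose_spec.1 hsT
  refine ⟨γ, (key ε α hαS 0 le_rfl hε).trans hα0, ?_⟩
  rintro t ht ⟨T, htT, β, hβ⟩
  rcases ht.eq_or_lt with h0 | h0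
  · have hev : γ =ᶠ[𝓝 t] α := by
      filter_upwards [Ioo_mem_nhds (show -ε < t by linarith) (show t < ε by linarith)] with s hs
      by_cases hs0 : 0 ≤ s
      · exact key ε α hαS s hs0 hs.2
      · exact dif_neg (fun h => hs0 h.1)
    have hα' := hα t ⟨by linarith, by linarith⟩
    rw [← hev.eq_of_nhds] at hα'
    exact ⟨hα'.1.congr_of_eventuallyEq hev, hα'.2⟩
  · have hev : γ =ᶠ[𝓝 t] β := by
      filter_upwards [Ioo_mem_nhds h0 htT] with s hs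
      exact key T β hβ s hs.1.le hs.2
    have hβ' := hβ.2 t ⟨ht, htT⟩
    rw [← hev.eq_of_nhds] at hβ'
    exact ⟨hβ'.1.congr_of_eventuallyEq hev, hβ'.2⟩

lemma extend_sol [CompleteSpace E] (hU : IsOpen U) (hf : ∀ x ∈ U, ContDiffAt ℝ 1 f x)
    {T : ℝ} (hT : 0 < T) {γ : ℝ → E} (hγ : SolOn f U x0 T γ) {x : E} (hx : x ∈ U)
    (hlim : Tendsto γ (𝓝[<] T) (𝓝 x)) : ∃ T' > T, ∃ β, SolOn f U x0 T' β := by
  classical
  obtain ⟨α, hα0, ε, hε, hα⟩ := local_sol hU hf hx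
  let β : ℝ → E := fun s => if s < T then γ s else α (s - T)
  have hβ1 : ∀ s, s < T → β s = γ s := fun s hs => if_pos hs
  have hβ2 : ∀ s, T ≤ s → β s = α (s - T) := fun s hs => if_neg (not_lt.2 hs)
  have hβT : β T = x := by rw [hβ2 T le_rfl, sub_self, hα0]
  have hαT : ∀ s, s - T ∈ Set.Ioo (-ε) ε → HasDerivAt (fun s => α (s - T)) (f (α (s - T))) s := by
    intro s hs
    have h1 := (hα (s - T) hs).1
    exact h1.comp_sub_const s T
  refine ⟨T + ε, by linarith, β, (hβ1 0 hT).trans hγ.1, ?_⟩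
  intro t ht
  rcases lt_trichotomy t T with h | h | h
  · have hev : β =ᶠ[𝓝 t] γ := by
      filter_upwards [Iio_mem_nhds h] with s hs
      exact hβ1 s hs
    have hγ' := hγ.2 t ⟨ht.1, h⟩
    rw [← hev.eq_of_nhds] at hγ'
    exact ⟨hγ'.1.congr_of_eventuallyEq hev, hγ'.2⟩
  · subst h
    rw [hβT]
    refine ⟨?_, hx⟩
    have hleft : Tendsto β (𝓝[<] t) (𝓝 x) := by
      refine hlim.congr' ?_
      filter_upwards [self_mem_nhdsWithin] with s hs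
      exact (hβ1 s hs).symm
    have A : HasDerivWithinAt β (f x) (Set.Iic t) t := by
      have hd : ∀ s ∈ Set.Ioo 0 t, HasDerivAt β (f (β s)) s := by
        intro s hs
        have hev : β =ᶠ[𝓝 s] γ := by
          filter_upwards [Iio_mem_nhds hs.2] with s' hs'
          exact hβ1 s' hs'
        have hγ' := (hγ.2 s ⟨hs.1.le, hs.2⟩).1
        rw [← hev.eq_of_nhds] at hγ'
        exact hγ'.congr_of_eventuallyEq hev
      refine hasDerivWithinAt_Iic_of_tendsto_deriv (s := Set.Ioo 0 t)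
        (fun s hs => (hd s hs).differentiableAt.differentiableWithinAt) ?_
        (Ioo_mem_nhdsLT hT) ?_
      · show Tendsto β (𝓝[Set.Ioo 0 t] t) (𝓝 (β t))
        rw [hβT]
        exact hleft.mono_left (nhdsWithin_mono _ fun s hs => hs.2)
      · have h1 : Tendsto (fun s => f (β s)) (𝓝[<] t) (𝓝 (f x)) :=
          (hf x hx).continuousAt.tendsto.comp hleft
        refine h1.congr' ?_
        filter_upwards [Ioo_mem_nhdsLT hT] with s hs
        exact ((hd s hs).deriv).symm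
    have B : HasDerivWithinAt β (f x) (Set.Ici t) t := by
      have h1 := hαT t (by rw [sub_self]; exact ⟨by linarith, hε⟩)
      rw [sub_self, hα0] at h1
      exact h1.hasDerivWithinAt.congr (fun s hs => hβ2 s hs) (hβ2 t le_rfl)
    simpa using A.union B
  · have hev : β =ᶠ[𝓝 t] fun s => α (s - T) := by
      filter_upwards [Ioi_mem_nhds h] with s hs
      exact hβ2 s (le_of_lt hs)
    have hmem : t - T ∈ Set.Ioo (-ε) ε := ⟨by linarith, by linarith [ht.2]⟩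
    have h1 := hαT t hmem
    have h2 := (hα (t - T) hmem).2
    rw [← hβ2 t h.le] at h1 h2
    exact ⟨h1.congr_of_eventuallyEq hev, h2⟩

end contin

theorem continuation {E : Type*} [NormedAddCommGroup E] [NormedSpace ℝ E]
    [FiniteDimensional ℝ E] {f : E → E} {U : Set E} (hU : IsOpen U)
    (hf : ∀ x ∈ U, ContDiffAt ℝ 1 f x) {x0 : E} (hx0 : x0 ∈ U)
    (hlim : ∀ (T : ℝ) (γ : ℝ → E), 0 < T → γ 0 = x0 →
      (∀ t ∈ Set.Ico 0 T, HasDerivAt γ (f (γ t)) t ∧ γ t ∈ U) →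
      ∃ x ∈ U, Tendsto γ (𝓝[<] T) (𝓝 x)) :
    ∃ γ : ℝ → E, γ 0 = x0 ∧ ∀ t, 0 ≤ t → HasDerivAt γ (f (γ t)) t ∧ γ t ∈ U := by
  have : CompleteSpace E := FiniteDimensional.complete ℝ E
  obtain ⟨γ, hγ0, hγ⟩ := glue_sol hU hf hx0
  obtain ⟨α, hα0, ε, hε, hα⟩ := local_sol hU hf hx0
  have hαS : SolOn f U x0 ε α := ⟨hα0, fun t ht => hα t ⟨by linarith [ht.1], ht.2⟩⟩
  have hall : ∀ T, ∃ β, SolOn f U x0 T β := by
    by_contra hcon
    obtain ⟨T1, hT1⟩ := not_forall.1 hcon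
    let S : Set ℝ := {T | ∃ β, SolOn f U x0 T β}
    have hb : BddAbove S := by
      refine ⟨T1, ?_⟩
      rintro T ⟨β, hβ⟩
      by_contra hlt
      exact hT1 ⟨β, hβ.mono (not_le.1 hlt).le⟩
    have hεS : ε ∈ S := ⟨α, hαS⟩
    have hTs : ε ≤ sSup S := le_csSup hb hεS
    have hpos : 0 < sSup S := lt_of_lt_of_le hε hTs
    have hsol : SolOn f U x0 (sSup S) γ := by
      refine ⟨hγ0, fun t ht => hγ t ht.1 ?_⟩
      obtain ⟨T, hT, htT⟩ := exists_lt_of_lt_csSup ⟨ε, hεS⟩ ht.2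
      exact ⟨T, htT, hT⟩
    obtain ⟨x, hx, hxl⟩ := hlim (sSup S) γ hpos hγ0 hsol.2
    obtain ⟨T', hT', β, hβ⟩ := extend_sol hU hf hpos hsol hx hxl
    exact absurd (le_csSup hb (show T' ∈ S from ⟨β, hβ⟩)) (not_le.2 hT')
  exact ⟨γ, hγ0, fun t ht => hγ t ht ⟨t + 1, by linarith, hall (t + 1)⟩⟩

end Pool.Agent.Lib.MP_e757b3_ae
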