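import Pool.Agent.Lib.MP_e757b3_ae.NE

open Filter Topology Set

namespace Pool.Agent.Lib.MP_e757b3_ae

lemma frequently_left_iff {T : ℝ} {P : ℝ → Prop} :
    (∃ᶠ t in 𝓝[<] T, P t) ↔ ∀ a < T, ∃ t, a < t ∧ t < T ∧ P t := by
  rw [(nhdsLT_basis T).frequently_iff]
  constructor
  · intro h a ha
    obtain ⟨t, ht, hP⟩ := h a ha
    exact ⟨t, ht.1, ht.2, hP⟩
  · intro h a ha
    obtain ⟨t, h1, h2, hP⟩ := h a ha
    exact ⟨t, ⟨h1, h2⟩, hP⟩

lemma no_escape {E : Type*} [NormedAddCommGroup E] [NormedSpace ℝ E]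
    [FiniteDimensional ℝ E] {f : E → E} {U : Set E} (hU : IsOpen U) (hf : ContinuousOn f U)
    {T : ℝ} (hT : 0 < T) {γ : ℝ → E}
    (hγ : ∀ t ∈ Set.Ico 0 T, HasDerivAt γ (f (γ t)) t ∧ γ t ∈ U) {x : E} (hx : x ∈ U)
    (hcl : MapClusterPt x (𝓝[<] T) γ) : Tendsto γ (𝓝[<] T) (𝓝 x) := by
  have : ProperSpace E := FiniteDimensional.proper ℝ E
  obtain ⟨r0, hr0, hr0U⟩ := Metric.nhds_basis_closedBall.mem_iff.1 (hU.mem_nhds hx)
  have hcpt : IsCompact (Metric.closedBall x r0) := isCompact_closedBall x r0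
  obtain ⟨M, hM⟩ := hcpt.exists_bound_of_continuousOn (hf.mono hr0U)
  rw [Metric.tendsto_nhds]
  intro ε hε
  set r : ℝ := min r0 (ε / 2) with hr
  have hrpos : 0 < r := lt_min hr0 (by linarith)
  have hrr0 : r ≤ r0 := min_le_left _ _
  have hrε : r < ε := lt_of_le_of_lt (min_le_right _ _) (by linarith)
  have hM1 : 0 < |M| + 1 := by positivity
  have ha : max 0 (T - r / (2 * (|M| + 1))) < T := by
    apply max_lt hT
    have : 0 < r / (2 * (|M| + 1)) := by positivity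
    linarith
  obtain ⟨t1, h1, h2, h3⟩ := frequently_left_iff.1
    (mapClusterPt_iff_frequently.1 hcl _ (Metric.ball_mem_nhds x (half_pos hrpos))) _ ha
  have ht10 : 0 < t1 := lt_of_le_of_lt (le_max_left _ _) h1
  have ht1T : T - r / (2 * (|M| + 1)) < t1 := lt_of_le_of_lt (le_max_right _ _) h1
  have hBr : (|M| + 1) * (T - t1) ≤ r / 2 := by
    have e1 : (|M| + 1) * (T - t1) ≤ (|M| + 1) * (r / (2 * (|M| + 1))) :=
      mul_le_mul_of_nonneg_left (by linarith) hM1.le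
    have e2 : (|M| + 1) * (r / (2 * (|M| + 1))) = r / 2 := by
      field_simp
    linarith
  filter_upwards [Ioo_mem_nhdsLT h2] with t ht
  have hsub : ∀ s ∈ Set.Icc t1 t, s ∈ Set.Ico 0 T := fun s hs =>
    ⟨ht10.le.trans hs.1, lt_of_le_of_lt hs.2 ht.2⟩
  have key := image_norm_le_of_norm_deriv_right_lt_deriv_boundary (a := t1) (b := t)
    (f := fun s => γ s - x) (f' := fun s => f (γ s))
    (B := fun s => r / 2 + (|M| + 1) * (s - t1)) (B' := fun _ => |M| + 1)
    (fun s hs => ((hγ s (hsub s hs)).1.continuousAt.sub continuousAt_const).continuousWithinAt)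
    (fun s hs => ((hγ s (hsub s (Set.Ico_subset_Icc_self hs))).1.sub_const x).hasDerivWithinAt)
    (by
      show ‖γ t1 - x‖ ≤ r / 2 + (|M| + 1) * (t1 - t1)
      rw [sub_self, mul_zero, add_zero, ← dist_eq_norm]
      exact (Metric.mem_ball.1 h3).le)
    (fun s => by
      have := (((hasDerivAt_id s).sub_const t1).const_mul (|M| + 1)).const_add (r / 2)
      simpa using this)
    (fun s hs heq => by
      have hs' : s ≤ T := (hs.2.le.trans ht.2.le)
      have e1 : ‖γ s - x‖ ≤ r0 := by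
        have e2 : ‖γ s - x‖ = r / 2 + (|M| + 1) * (s - t1) := heq
        have e3 : (|M| + 1) * (s - t1) ≤ (|M| + 1) * (T - t1) :=
          mul_le_mul_of_nonneg_left (by linarith) hM1.le
        linarith
      have e4 : γ s ∈ Metric.closedBall x r0 := by
        rw [Metric.mem_closedBall, dist_eq_norm]; exact e1
      have e5 := hM _ e4
      have e6 := le_abs_self M
      show ‖f (γ s)‖ < |M| + 1
      linarith)
  have hfin := key (show t ∈ Set.Icc t1 t from ⟨ht.1.le, le_rfl⟩)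
  have hfin' : ‖γ t - x‖ ≤ r / 2 + (|M| + 1) * (t - t1) := hfin
  have e3 : (|M| + 1) * (t - t1) ≤ (|M| + 1) * (T - t1) :=
    mul_le_mul_of_nonneg_left (by linarith [ht.2]) hM1.le
  rw [dist_eq_norm]
  linarith

lemma tendsto_left_of_countable_cluster {E : Type*} [MetricSpace E] {y : ℝ → E} {T : ℝ}
    (hT : 0 < T) (hy : ContinuousOn y (Set.Ico 0 T)) {K : Set E} (hK : IsCompact K)
    (hyK : ∀ t ∈ Set.Ico 0 T, y t ∈ K) {F : Set E} (hF : F.Countable)
    (hcl : ∀ z, MapClusterPt z (𝓝[<] T) y → z ∈ F) :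
    ∃ z ∈ F, Tendsto y (𝓝[<] T) (𝓝 z) := by
  have hev : ∀ᶠ t in 𝓝[<] T, y t ∈ K := by
    filter_upwards [Ico_mem_nhdsLT hT] with t ht using hyK t ht
  obtain ⟨a, -, ha⟩ := hK.exists_mapClusterPt (tendsto_principal.2 hev)
  refine ⟨a, hcl a ha, ?_⟩
  refine hK.tendsto_nhds_of_unique_mapClusterPt hev fun b _ hb => ?_
  by_contra hab
  have hd : 0 < dist b a := dist_pos.2 hab
  have hfin : ((fun x => dist x a) '' F).Countable := hF.image _
  obtain ⟨ρ, hρ, hρF⟩ := (hfin.dense_compl ℝ).inter_open_nonempty (Set.Ioo 0 (dist b a))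
    isOpen_Ioo (Set.nonempty_Ioo.2 hd)
  have hfa : ∃ᶠ t in 𝓝[<] T, y t ∈ Metric.ball a ρ :=
    mapClusterPt_iff_frequently.1 ha _ (Metric.ball_mem_nhds a hρ.1)
  have hfb : ∃ᶠ t in 𝓝[<] T, y t ∈ Metric.ball b (dist b a - ρ) :=
    mapClusterPt_iff_frequently.1 hb _ (Metric.ball_mem_nhds b (by linarith [hρ.2]))
  have hsph : ∃ᶠ t in 𝓝[<] T, y t ∈ K ∩ {x | dist x a = ρ} := by
    rw [frequently_left_iff]
    intro c hc
    obtain ⟨t1, ht1, ht1T, h1⟩ := frequently_left_iff.1 hfa (max c 0) (max_lt hc hT)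
    obtain ⟨t2, ht2, ht2T, h2⟩ := frequently_left_iff.1 hfb t1 ht1T
    have ht10 : 0 < t1 := lt_of_le_of_lt (le_max_right _ _) ht1
    have hm : ContinuousOn y (Set.Icc t1 t2) :=
      hy.mono fun t (ht : t ∈ Set.Icc t1 t2) => ⟨ht10.le.trans ht.1, lt_of_le_of_lt ht.2 ht2T⟩
    have hcont : ContinuousOn (fun t => dist (y t) a) (Set.Icc t1 t2) :=
      (continuous_id.dist continuous_const : Continuous fun x : E => dist x a).comp_continuousOn hm
    have h1' : dist (y t1) a < ρ := h1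
    have h2' : ρ < dist (y t2) a := by
      have e1 : dist (y t2) b < dist b a - ρ := h2
      have e2 := dist_triangle b (y t2) a
      rw [dist_comm b (y t2)] at e2
      linarith
    obtain ⟨t, ht, hte⟩ := intermediate_value_Icc ht2.le hcont ⟨h1'.le, h2'.le⟩
    have htT : t < T := lt_of_le_of_lt ht.2 ht2T
    exact ⟨t, lt_of_lt_of_le (lt_of_le_of_lt (le_max_left _ _) ht1) ht.1, htT,
      hyK t ⟨ht10.le.trans ht.1, htT⟩, hte⟩
  have hKc : IsCompact (K ∩ {x | dist x a = ρ}) :=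
    hK.inter_right (isClosed_eq (continuous_id.dist continuous_const) continuous_const)
  obtain ⟨z, hz, hzc⟩ := hKc.exists_mapClusterPt_of_frequently hsph
  exact hρF ⟨z, hcl z hzc, hz.2⟩

end Pool.Agent.Lib.MP_e757b3_ae
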