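import Pool.Agent.Lib.MP_e757b3_ae.MC
import Pool.Agent.Lib.MP_e757b3_ae.NQ
import Pool.Agent.Lib.MP_e757b3_ae.NR
import Pool.Agent.Lib.MP_e757b3_ae.NS
import Pool.Agent.Lib.MP_e757b3_ae.NI
import Pool.Agent.Lib.MP_e757b3_ae.NE4

open Matrix Filter Topology

namespace Pool.Agent.Lib.MP_e757b3_ae

open scoped Matrix.Norms.Operator

/-- Existence for all times in the normalization `C = 1`; over every right-hand side the
degenerate matrices are countable or have one common degenerate direction. -/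
theorem cross_exists {n m : ℕ} {A : Fin m → Matrix (Fin n) (Fin n) ℝ} {b r : Fin m → ℝ}
    (hA : ∀ l, (A l).IsSymm) (hind : ∀ e, Sm A e = 0 → e = 0)
    (ndb : ∀ Y : Matrix (Fin n) (Fin n) ℝ, Y.PosSemidef → (∀ l, (A l * Y).trace = b l) →
      ∀ e, Sm A e * Y = 0 → e = 0)
    (nd0 : ∀ Y : Matrix (Fin n) (Fin n) ℝ, Y.PosSemidef → Y ≠ 0 →
      (∀ l, (A l * Y).trace = 0) → ∀ e, Sm A e * Y = 0 → e = 0)
    (hcnt : ∀ s ∈ Set.Ioo (0 : ℝ) 1, {Y : Matrix (Fin n) (Fin n) ℝ | Y.PosSemidef ∧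
      (∀ l, (A l * Y).trace = b l + s * r l) ∧ ∃ e, e ≠ 0 ∧ Sm A e * Y = 0}.Countable ∨
      ∀ Y Y' : Matrix (Fin n) (Fin n) ℝ, Y.PosSemidef → Y'.PosSemidef →
        (∀ l, (A l * Y).trace = b l + s * r l) → (∀ l, (A l * Y').trace = b l + s * r l) →
        ∀ e e', e ≠ 0 → Sm A e * Y = 0 → Sm A e' * Y' = 0 → ∃ k : ℝ, e' = k • e)
    (hsim : ∀ s ∈ Set.Ioo (0 : ℝ) 1, ∀ Y : Matrix (Fin n) (Fin n) ℝ, Y.PosSemidef →
      (∀ l, (A l * Y).trace = b l + s * r l) →
      ∀ e e', e ≠ 0 → Sm A e * Y = 0 → Sm A e' * Y = 0 → ∃ k : ℝ, e' = k • e)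
    (htra : ∀ s ∈ Set.Ioo (0 : ℝ) 1, ∀ Y : Matrix (Fin n) (Fin n) ℝ, Y.PosSemidef →
      (∀ l, (A l * Y).trace = b l + s * r l) → ∀ e, e ≠ 0 → Sm A e * Y = 0 → e ⬝ᵥ b ≠ 0)
    {F : Matrix (Fin n) (Fin n) ℝ} (hF : F.PosSemidef)
    (hFl : ∀ l, (A l * F).trace = b l) {Y0 : Matrix (Fin n) (Fin n) ℝ} (hY0 : Y0.PosDef)
    (hr : ∀ l, (A l * Y0).trace = b l + r l) :
    ∃ y : ℝ → Matrix (Fin n) (Fin n) ℝ, y 0 = Y0 ∧
      (∀ t, 0 ≤ t → (y t).PosDef ∧ HasDerivAt y (gY A b (y t)) t) ∧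
      (∀ t, 0 ≤ t → ∀ l, (A l * y t).trace = b l + Real.exp (-t) * r l) ∧
      ∃ s0 : ℝ, 0 < s0 ∧ s0 ≤ 1 ∧ NDeg A b (s0 • r) := by
  obtain ⟨R, hR, hRR⟩ := psd_factor hY0.posSemidef
  have hRR' : R * Rᵀ = Y0 := by rw [hR, hRR]
  have hRd : R.det ≠ 0 := by
    intro h0
    have h1 := hY0.det_pos
    rw [← hRR, Matrix.det_mul, h0, mul_zero] at h1
    exact lt_irrefl _ h1
  have hgpd : (gramM A Y0).det ≠ 0 := by
    intro hdet
    obtain ⟨e, he, hz⟩ := Matrix.exists_mulVec_eq_zero_iff.2 hdet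
    have h1 := gram_quad (A := A) Y0 e
    rw [hz, dotProduct_zero] at h1
    have h2 := (trace_sandwich hY0.posSemidef (Sm_symm hA e)).2 h1.symm
    have hu : IsUnit Y0.det := isUnit_iff_ne_zero.2 hY0.det_pos.ne'
    refine he (hind e ?_)
    have : Sm A e * Y0 * Y0⁻¹ = 0 := by rw [h2, Matrix.zero_mul]
    rwa [Matrix.mul_assoc, Matrix.mul_nonsing_inv _ hu, Matrix.mul_one] at this
  have hUo : IsOpen {Z : Matrix (Fin n) (Fin n) ℝ | (gramM A (Z * Zᵀ)).det ≠ 0} :=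
    isOpen_gram.preimage contDiff_ZZt.continuous
  have hRU : R ∈ {Z : Matrix (Fin n) (Fin n) ℝ | (gramM A (Z * Zᵀ)).det ≠ 0} := by
    change (gramM A (R * Rᵀ)).det ≠ 0
    rw [hRR']
    exact hgpd
  obtain ⟨c, hc⟩ := trace_bound (b := b) (r := r) hA nd0 Y0.trace
  have hlim : ∀ (T : ℝ) (γ : ℝ → Matrix (Fin n) (Fin n) ℝ), 0 < T → γ 0 = R →
      (∀ t ∈ Set.Ico 0 T, HasDerivAt γ (fZ A b (γ t)) t ∧
        γ t ∈ {Z : Matrix (Fin n) (Fin n) ℝ | (gramM A (Z * Zᵀ)).det ≠ 0}) →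
      ∃ x ∈ {Z : Matrix (Fin n) (Fin n) ℝ | (gramM A (Z * Zᵀ)).det ≠ 0},
        Tendsto γ (𝓝[<] T) (𝓝 x) := by
    intro T γ hT hγ0 hγ
    have hFl' : FlowOn A b T γ := ⟨fun t ht => (hγ t ht).1, fun t ht => (hγ t ht).2⟩
    have h0 : ∀ l, (A l * (γ 0 * (γ 0)ᵀ)).trace = b l + r l := by
      rw [hγ0, hRR']; exact hr
    have hlin := hFl'.lin hA h0
    have htr := hc T γ hFl' h0 (by rw [hγ0, hRR'])
    have hK : IsCompact (KSet A b r c) := isCompact_KSet c
    have hγK : ∀ t ∈ Set.Ico 0 T, γ t ∈ KSet A b r c := fun t ht =>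
      ⟨Real.exp (-t), exp_neg_mem ht.1, hlin t ht, htr t ht⟩
    have hev : ∀ᶠ t in 𝓝[<] T, t ∈ Set.Ico 0 T := by
      filter_upwards [Ioo_mem_nhdsLT hT] with t ht using ⟨ht.1.le, ht.2⟩
    have hevK : ∀ᶠ t in 𝓝[<] T, γ t ∈ KSet A b r c := hev.mono hγK
    by_cases hcase : ∃ x ∈ {Z : Matrix (Fin n) (Fin n) ℝ | (gramM A (Z * Zᵀ)).det ≠ 0},
        MapClusterPt x (𝓝[<] T) γ
    · obtain ⟨x, hxU, hx⟩ := hcase
      exact ⟨x, hxU, no_escape hUo
        (fun Z hZ => (contDiffAt_fZ hZ).continuousAt.continuousWithinAt) hT hγ hxU hx⟩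
    · exfalso
      have hs : Real.exp (-T) ∈ Set.Ioo (0 : ℝ) 1 :=
        ⟨Real.exp_pos _, by
          have := Real.exp_lt_exp.2 (by linarith : -T < 0)
          rwa [Real.exp_zero] at this⟩
      have hcl : ∀ Y, MapClusterPt Y (𝓝[<] T) (fun t => γ t * (γ t)ᵀ) →
          Y ∈ {Y : Matrix (Fin n) (Fin n) ℝ | Y.PosSemidef ∧
            (∀ l, (A l * Y).trace = b l + Real.exp (-T) * r l) ∧
              ∃ e, e ≠ 0 ∧ Sm A e * Y = 0} := by
        intro Y hY
        obtain ⟨V, hV, hVY⟩ := mapClusterPt_iff_ultrafilter.1 hY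
        obtain ⟨Z1, hZ1, hlimZ⟩ := hK.ultrafilter_le_nhds (V.map γ)
          (by
            rw [Ultrafilter.coe_map]
            exact tendsto_principal.2 (hV hevK))
        have hlim' : Tendsto γ V (𝓝 Z1) := by
          rw [Ultrafilter.coe_map] at hlimZ
          exact hlimZ
        have hYlim : Tendsto (fun t => γ t * (γ t)ᵀ) V (𝓝 (Z1 * Z1ᵀ)) :=
          (contDiff_ZZt.continuous.tendsto Z1).comp hlim'
        have hYeq : Y = Z1 * Z1ᵀ := tendsto_nhds_unique hVY hYlim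
        have hYp : Y.PosSemidef := by rw [hYeq]; exact psd_mul_transpose_self Z1
        have hcl1 : MapClusterPt Z1 (𝓝[<] T) γ := mapClusterPt_iff_ultrafilter.2 ⟨V, hV, hlim'⟩
        have hdet : (gramM A Y).det = 0 := by
          by_contra hne
          refine hcase ⟨Z1, ?_, hcl1⟩
          change (gramM A (Z1 * Z1ᵀ)).det ≠ 0
          rwa [← hYeq]
        refine ⟨hYp, ?_, ?_⟩
        · intro l
          have c1 : Continuous fun Y : Matrix (Fin n) (Fin n) ℝ => (A l * Y).trace :=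
            (continuous_const.matrix_mul continuous_id).matrix_trace
          have e1 : Tendsto (fun t => (A l * (γ t * (γ t)ᵀ)).trace) V (𝓝 ((A l * Y).trace)) :=
            (c1.tendsto Y).comp hVY
          have e2 : Tendsto (fun t : ℝ => b l + Real.exp (-t) * r l) V
              (𝓝 (b l + Real.exp (-T) * r l)) := by
            have : Continuous fun t : ℝ => b l + Real.exp (-t) * r l := by fun_prop
            exact ((this.tendsto T).mono_left nhdsWithin_le_nhds).mono_left hV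
          have hev2 : ∀ᶠ t in (V : Filter ℝ), (A l * (γ t * (γ t)ᵀ)).trace =
              b l + Real.exp (-t) * r l := hV (hev.mono fun t ht => hlin t ht l)
          exact tendsto_nhds_unique (e1.congr' hev2) e2
        · obtain ⟨e, he, hz⟩ := Matrix.exists_mulVec_eq_zero_iff.2 hdet
          have h1 := gram_quad (A := A) Y e
          rw [hz, dotProduct_zero] at h1
          exact ⟨e, he, (trace_sandwich hYp (Sm_symm hA e)).2 h1.symm⟩
      have hcont : ContinuousOn (fun t => γ t * (γ t)ᵀ) (Set.Ico 0 T) := fun t ht =>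
        (hasDerivAt_ZZt hA (hγ t ht).1).continuousAt.continuousWithinAt
      have hW : ((1 - Real.exp (-T)) • F + Real.exp (-T) • Y0).PosDef := by
        have h1 : ((1 - Real.exp (-T)) • F).PosSemidef := hF.smul (by linarith [hs.2])
        have h2 : (Real.exp (-T) • Y0).PosDef := hY0.smul hs.1
        exact Matrix.PosDef.posSemidef_add h1 h2
      have hWtr : ∀ (Xs : Matrix (Fin n) (Fin n) ℝ) (e : Fin m → ℝ),
          (∀ l, (A l * Xs).trace = b l + Real.exp (-T) * r l) → Sm A e * Xs = 0 →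
          (Sm A e * ((1 - Real.exp (-T)) • F + Real.exp (-T) • Y0)).trace = 0 := by
        intro Xs e g2 g4
        have h3 : ∀ l, (A l * ((1 - Real.exp (-T)) • F + Real.exp (-T) • Y0)).trace =
            (A l * Xs).trace := by
          intro l
          rw [g2, Matrix.mul_add, Matrix.trace_add, Matrix.mul_smul, Matrix.mul_smul,
            Matrix.trace_smul, Matrix.trace_smul, hFl, hr, smul_eq_mul, smul_eq_mul]
          ring
        rw [trace_Sm_mul]
        simp only [h3]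
        rw [← trace_Sm_mul, g4, Matrix.trace_zero]
      rcases hcnt _ hs with hc | hc
      · obtain ⟨Xs, ⟨g1, g2, e, g3, g4⟩, hXs⟩ := tendsto_left_of_countable_cluster hT hcont
          (hK.image contDiff_ZZt.continuous) (fun t ht => ⟨γ t, hγK t ht, rfl⟩)
          hc hcl
        exact no_degenerate_limit_full hA hT (fun t ht => (hγ t ht).1)
          (fun t ht => (hγ t ht).2)
          (by rw [hγ0]; exact hRd) hXs g4 (htra _ hs Xs g1 g2 e g3 g4)
          (fun e' he' => hsim _ hs Xs g1 g2 e e' g3 g4 he') (fun h => g3 (hind e h)) hW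
          (hWtr Xs e g2 g4)
      · have hK2 := hK.image contDiff_ZZt.continuous
        have hevK2 : ∀ᶠ t in 𝓝[<] T, γ t * (γ t)ᵀ ∈ (fun Z => Z * Zᵀ) ''
            KSet A b r c := hevK.mono fun t ht => ⟨γ t, ht, rfl⟩
        obtain ⟨Xs, -, hXs⟩ := hK2.exists_mapClusterPt (f := 𝓝[<] T)
          (u := fun t => γ t * (γ t)ᵀ) (tendsto_principal.2 hevK2)
        obtain ⟨g1, g2, e, g3, g4⟩ := hcl Xs hXs
        have hall : ∀ Y, MapClusterPt Y (𝓝[<] T) (fun t => γ t * (γ t)ᵀ) →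
            ∀ e', Sm A e' * Y = 0 → ∃ k : ℝ, e' = k • e := by
          intro Y hY e' he'
          obtain ⟨q1, q2, -⟩ := hcl Y hY
          exact hc Xs Y g1 q1 g2 q2 e e' g3 g4 he'
        have hzero : ∀ Y, MapClusterPt Y (𝓝[<] T) (fun t => γ t * (γ t)ᵀ) →
            Sm A e * Y = 0 := by
          intro Y hY
          obtain ⟨-, -, e', q3, q4⟩ := hcl Y hY
          obtain ⟨k, hk⟩ := hall Y hY e' q4
          have hk0 : k ≠ 0 := by
            rintro rfl
            exact q3 (by rw [hk, zero_smul])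
          have h1 : Sm A e' = k • Sm A e := by
            rw [hk]
            simp only [Sm, Pi.smul_apply, smul_eq_mul, Finset.smul_sum, smul_smul]
          rw [h1, Matrix.smul_mul] at q4
          exact (smul_eq_zero.1 q4).resolve_left hk0
        have hcM : Continuous fun Y : Matrix (Fin n) (Fin n) ℝ => Sm A e * Y :=
          continuous_const.matrix_mul continuous_id
        have htend : Tendsto (fun t => Sm A e * (γ t * (γ t)ᵀ)) (𝓝[<] T) (𝓝 0) := by
          refine (hK2.image hcM).tendsto_nhds_of_unique_mapClusterPt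
            (hevK2.mono fun t ht => ⟨_, ht, rfl⟩) ?_
          intro M _ hM
          obtain ⟨V, hV, hVM⟩ := mapClusterPt_iff_ultrafilter.1 hM
          obtain ⟨Y, -, hVY⟩ := hK2.ultrafilter_le_nhds (V.map fun t => γ t * (γ t)ᵀ)
            (by
              rw [Ultrafilter.coe_map]
              exact tendsto_principal.2 (hV hevK2))
          have hVX : Tendsto (fun t => γ t * (γ t)ᵀ) V (𝓝 Y) := by
            rw [Ultrafilter.coe_map] at hVY
            exact hVY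
          have h1 : Tendsto (fun t => Sm A e * (γ t * (γ t)ᵀ)) V (𝓝 (Sm A e * Y)) :=
            (hcM.tendsto Y).comp hVX
          rw [hzero Y (mapClusterPt_iff_ultrafilter.2 ⟨V, hV, hVX⟩)] at h1
          exact tendsto_nhds_unique hVM h1
        exact no_degenerate_common hA hT (fun t ht => (hγ t ht).1) (fun t ht => (hγ t ht).2)
          (by rw [hγ0]; exact hRd) hK2 hevK2 htend (htra _ hs Xs g1 g2 e g3 g4) hall
          (fun h => g3 (hind e h)) hW (hWtr Xs e g2 g4)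
  obtain ⟨Z, hZ0, hZ⟩ := continuation hUo (fun Z hZ => contDiffAt_fZ hZ) hRU hlim
  have hFlow : ∀ T, FlowOn A b T Z := fun T =>
    ⟨fun t ht => (hZ t ht.1).1, fun t ht => (hZ t ht.1).2⟩
  have h0 : ∀ l, (A l * (Z 0 * (Z 0)ᵀ)).trace = b l + r l := by
    rw [hZ0, hRR']; exact hr
  have hZ0d : (Z 0).det ≠ 0 := by rw [hZ0]; exact hRd
  have hlinG : ∀ t, 0 ≤ t → ∀ l, (A l * (Z t * (Z t)ᵀ)).trace = b l + Real.exp (-t) * r l :=
    fun t ht => (hFlow (t + 1)).lin hA h0 t ⟨ht, by linarith⟩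
  have htrG : ∀ t, 0 ≤ t → (Z t * (Z t)ᵀ).trace ≤ c := fun t ht =>
    hc (t + 1) Z (hFlow _) h0 (by rw [hZ0, hRR']) t ⟨ht, by linarith⟩
  have hdetG : ∀ t, 0 ≤ t → (Z t).det ≠ 0 := fun t ht =>
    (hFlow (t + 1)).det_ne hZ0d ⟨ht, by linarith⟩
  obtain ⟨s0, hs0, hs01, hN⟩ := nondeg_near (r := r) hA ndb nd0
  refine ⟨fun t => Z t * (Z t)ᵀ, ?_, ?_, fun t ht => hlinG t ht, s0, hs0, hs01, hN⟩
  · simp only [hZ0, hRR']
  · intro t ht
    refine ⟨?_, hasDerivAt_ZZt hA (hZ t ht).1⟩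
    rw [(psd_mul_transpose_self (Z t)).posDef_iff_det_ne_zero, Matrix.det_mul,
      Matrix.det_transpose]
    exact mul_ne_zero (hdetG t ht) (hdetG t ht)

end Pool.Agent.Lib.MP_e757b3_ae
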