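import Pool.Agent.Lib.MP_e757b3_ae.Defs

/-! The scaling symmetry of the first-ansatz dynamic: if `Y` is a trajectory then so is
`t ↦ q(t) Y(log((e^t + κ - 1)/κ))` with `q(t) = 1 + (κ - 1) e^{-t}`. -/

open Matrix Filter Topology
open scoped Kronecker

namespace Pool.Agent.Lib.MP_e757b3_ae

/-- The scaling factor. -/
noncomputable def qq (κ t : ℝ) : ℝ := 1 + (κ - 1) * Real.exp (-t)

/-- The time change. -/
noncomputable def ta (κ t : ℝ) : ℝ := Real.log (Real.exp t + κ - 1) - Real.log κ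

section real

variable {κ t : ℝ}

lemma den_pos (hκ : 0 < κ) (ht : 0 ≤ t) : 0 < Real.exp t + κ - 1 := by
  have := Real.one_le_exp ht
  linarith

lemma qq_eq (κ t : ℝ) : qq κ t = (Real.exp t + κ - 1) * Real.exp (-t) := by
  have h : Real.exp t * Real.exp (-t) = 1 := by rw [← Real.exp_add, add_neg_cancel, Real.exp_zero]
  unfold qq
  linear_combination -h

lemma qq_pos (hκ : 0 < κ) (ht : 0 ≤ t) : 0 < qq κ t := by
  rw [qq_eq]
  exact mul_pos (den_pos hκ ht) (Real.exp_pos _)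

lemma exp_ta (hκ : 0 < κ) (ht : 0 ≤ t) : Real.exp (ta κ t) = (Real.exp t + κ - 1) / κ := by
  unfold ta
  rw [Real.exp_sub, Real.exp_log (den_pos hκ ht), Real.exp_log hκ]

lemma ta_zero (κ : ℝ) : ta κ 0 = 0 := by
  unfold ta
  rw [Real.exp_zero, show (1 : ℝ) + κ - 1 = κ by ring, sub_self]

lemma ta_lt (hκ : 0 < κ) {u v : ℝ} (hu : 0 ≤ u) (huv : u < v) : ta κ u < ta κ v := by
  unfold ta
  have h1 : Real.log (Real.exp u + κ - 1) < Real.log (Real.exp v + κ - 1) :=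
    Real.log_lt_log (den_pos hκ hu) (by linarith [Real.exp_lt_exp.2 huv])
  linarith

lemma ta_nonneg (hκ : 0 < κ) (ht : 0 ≤ t) : 0 ≤ ta κ t := by
  rcases eq_or_lt_of_le ht with h | h
  · rw [← h, ta_zero κ]
  · have := ta_lt hκ le_rfl h
    rw [ta_zero κ] at this
    exact this.le

lemma ta_ta (hκ : 0 < κ) (ht : 0 ≤ t) : ta κ⁻¹ (ta κ t) = t := by
  have h1 : Real.exp (ta κ t) + κ⁻¹ - 1 = Real.exp t / κ := by
    rw [exp_ta hκ ht]
    field_simp
    ring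
  have h2 : ta κ⁻¹ (ta κ t) = Real.log (Real.exp (ta κ t) + κ⁻¹ - 1) - Real.log κ⁻¹ := rfl
  rw [h2, h1, Real.log_div (Real.exp_pos t).ne' hκ.ne', Real.log_exp, Real.log_inv]
  ring

lemma qq_qq (hκ : 0 < κ) (ht : 0 ≤ t) : qq κ t * qq κ⁻¹ (ta κ t) = 1 := by
  have h0 := den_pos hκ ht
  have h1 : Real.exp (ta κ t) + κ⁻¹ - 1 = Real.exp t / κ := by
    rw [exp_ta hκ ht]
    field_simp
    ring
  have h2 : Real.exp (-ta κ t) = κ / (Real.exp t + κ - 1) := by
    rw [Real.exp_neg, exp_ta hκ ht, inv_div]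
  have h3 : Real.exp t * Real.exp (-t) = 1 := by
    rw [← Real.exp_add, add_neg_cancel, Real.exp_zero]
  rw [qq_eq κ t, qq_eq κ⁻¹ (ta κ t), h1, h2]
  have h4 : Real.exp t / κ * (κ / (Real.exp t + κ - 1)) = Real.exp t / (Real.exp t + κ - 1) := by
    field_simp
  rw [h4]
  calc (Real.exp t + κ - 1) * Real.exp (-t) * (Real.exp t / (Real.exp t + κ - 1))
      = (Real.exp t * Real.exp (-t)) * ((Real.exp t + κ - 1) / (Real.exp t + κ - 1)) := by ring
    _ = 1 := by rw [h3, div_self h0.ne', one_mul]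

lemma hasDerivAt_qq (κ t : ℝ) : HasDerivAt (qq κ) (1 - qq κ t) t := by
  have h1 : HasDerivAt (fun s : ℝ => Real.exp (-s)) (-Real.exp (-t)) t := by
    have := ((hasDerivAt_id t).fun_neg).exp
    simpa using this
  have h2 := (h1.const_mul (κ - 1)).const_add 1
  have h3 : (κ - 1) * -Real.exp (-t) = 1 - qq κ t := by
    unfold qq
    ring
  rw [h3] at h2
  exact h2

lemma hasDerivAt_ta (hκ : 0 < κ) (ht : 0 ≤ t) : HasDerivAt (ta κ) (qq κ t)⁻¹ t := by
  have h0 := den_pos hκ ht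
  have h1 : HasDerivAt (fun s : ℝ => Real.exp s + κ - 1) (Real.exp t) t :=
    ((Real.hasDerivAt_exp t).add_const κ).sub_const 1
  have h2 := (h1.log h0.ne').sub_const (Real.log κ)
  have h3 : Real.exp t / (Real.exp t + κ - 1) = (qq κ t)⁻¹ := by
    rw [qq_eq, mul_inv, Real.exp_neg, inv_inv]
    field_simp
  rw [h3] at h2
  exact h2

lemma tendsto_qq (κ : ℝ) : Tendsto (qq κ) atTop (𝓝 1) := by
  have h1 := (Real.tendsto_exp_neg_atTop_nhds_zero).const_mul (κ - 1)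
  have h2 := h1.const_add 1
  rw [mul_zero, add_zero] at h2
  exact h2

lemma tendsto_ta (κ : ℝ) : Tendsto (ta κ) atTop atTop := by
  have h1 : Tendsto (fun t : ℝ => Real.exp t + (κ - 1)) atTop atTop :=
    tendsto_atTop_add_const_right _ _ Real.tendsto_exp_atTop
  have h2 : Tendsto (fun t : ℝ => Real.log (Real.exp t + (κ - 1)) + -Real.log κ) atTop atTop :=
    tendsto_atTop_add_const_right _ _ (Real.tendsto_log_atTop.comp h1)
  refine h2.congr fun t => ?_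
  unfold ta
  rw [← sub_eq_add_neg, add_sub_assoc]

end real

section scale

variable {n m : ℕ} {C : Matrix (Fin n) (Fin n) ℝ} {A : Fin m → Matrix (Fin n) (Fin n) ℝ}
  {b : Fin m → ℝ}

lemma conductance_smul (q : ℝ) (Y : Matrix (Fin n) (Fin n) ℝ) :
    conductance C (q • Y) = q • conductance C Y := by
  unfold conductance
  rw [Matrix.kronecker_smul, Matrix.smul_kronecker, ← smul_add, smul_comm]

lemma IsMoorePenrose.smul {M N : Matrix (Fin m) (Fin m) ℝ} (h : IsMoorePenrose M N) {q : ℝ}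
    (hq : q ≠ 0) : IsMoorePenrose (q • M) (q⁻¹ • N) := by
  have h1 : (q • M) * (q⁻¹ • N) = M * N := by
    rw [smul_mul_smul_comm, mul_inv_cancel₀ hq, one_smul]
  have h2 : (q⁻¹ • N) * (q • M) = N * M := by
    rw [smul_mul_smul_comm, inv_mul_cancel₀ hq, one_smul]
  refine ⟨?_, ?_, ?_, ?_⟩
  · rw [h1, mul_smul_comm, h.mul_mul_self]
  · rw [h2, mul_smul_comm, h.self_mul_mul]
  · rw [h1, h.symm_left]
  · rw [h2, h.symm_right]

/-- The scaling symmetry. -/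
lemma scale_traj {κ : ℝ} (hκ : 0 < κ) {I J : Set ℝ} {Y : ℝ → Matrix (Fin n) (Fin n) ℝ}
    (hY : IsTrajectory C A b J Y) (hI : ∀ t ∈ I, 0 ≤ t) (hm : Set.MapsTo (ta κ) I J) :
    IsTrajectory C A b I (fun t => qq κ t • Y (ta κ t)) := by
  intro t ht
  obtain ⟨hp, N, hN, hd⟩ := hY (ta κ t) (hm ht)
  have hq := qq_pos hκ (hI t ht)
  refine ⟨hp.smul hq, (qq κ t)⁻¹ • N, ?_, ?_⟩
  · have h1 := hN.smul hq.ne'
    have h2 : qq κ t • (constraintMatrix A * conductance C (Y (ta κ t)) * (constraintMatrix A)ᵀ)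
        = constraintMatrix A * conductance C (qq κ t • Y (ta κ t)) * (constraintMatrix A)ᵀ := by
      rw [conductance_smul, Matrix.mul_smul, Matrix.smul_mul]
    rwa [h2] at h1
  · have h1 := (hd.scomp t (hasDerivAt_ta hκ (hI t ht)).hasDerivWithinAt hm)
    have h2 := (hasDerivAt_qq κ t).hasDerivWithinAt (s := I)
    have h3 := h2.fun_smul h1
    have h4 : (conductance C (qq κ t • Y (ta κ t)) * (constraintMatrix A)ᵀ * ((qq κ t)⁻¹ • N)) *ᵥ b
        - Matrix.vec (qq κ t • Y (ta κ t)) =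
        qq κ t • ((qq κ t)⁻¹ • ((conductance C (Y (ta κ t)) * (constraintMatrix A)ᵀ * N) *ᵥ b
          - Matrix.vec (Y (ta κ t)))) + (1 - qq κ t) • Matrix.vec (Y (ta κ t)) := by
      rw [conductance_smul, Matrix.smul_mul, Matrix.smul_mul, Matrix.mul_smul, smul_smul,
        mul_inv_cancel₀ hq.ne', one_smul, smul_smul, mul_inv_cancel₀ hq.ne', one_smul]
      have h5 : Matrix.vec (qq κ t • Y (ta κ t)) = qq κ t • Matrix.vec (Y (ta κ t)) := rfl
      rw [h5, sub_smul, one_smul]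
      abel
    show HasDerivWithinAt (fun s => Matrix.vec (qq κ s • Y (ta κ s)))
      ((conductance C (qq κ t • Y (ta κ t)) * (constraintMatrix A)ᵀ * ((qq κ t)⁻¹ • N)) *ᵥ b
        - Matrix.vec (qq κ t • Y (ta κ t))) I t
    rw [h4]
    exact h3

/-- The conclusion of the problem for the start `X₀`. -/
def Good (C : Matrix (Fin n) (Fin n) ℝ) (A : Fin m → Matrix (Fin n) (Fin n) ℝ) (b : Fin m → ℝ)
    (X₀ : Matrix (Fin n) (Fin n) ℝ) : Prop :=
  ∃ X : ℝ → Matrix (Fin n) (Fin n) ℝ, X 0 = X₀ ∧ IsTrajectory C A b (Set.Ici 0) X ∧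
    (∀ (T : ℝ) (Z : ℝ → Matrix (Fin n) (Fin n) ℝ), Z 0 = X₀ →
      IsTrajectory C A b (Set.Ico 0 T) Z → ∀ t ∈ Set.Ico 0 T, Z t = X t) ∧
    ∃ Xs, IsOptimal C A b Xs ∧ Tendsto X atTop (𝓝 Xs)

/-- The good starts form a cone. -/
theorem Good.scale {κ : ℝ} (hκ : 0 < κ) {Y₀ : Matrix (Fin n) (Fin n) ℝ} (h : Good C A b Y₀) :
    Good C A b (κ • Y₀) := by
  obtain ⟨Y, hY0, hY, huniq, Ys, hYs, hlim⟩ := h
  have hq0 : ∀ κ : ℝ, qq κ 0 = κ := fun κ => by
    unfold qq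
    rw [neg_zero, Real.exp_zero]
    ring
  refine ⟨fun t => qq κ t • Y (ta κ t), ?_, scale_traj hκ hY (fun t ht => ht)
    (fun t ht => ta_nonneg hκ ht), ?_, Ys, hYs, ?_⟩
  · simp only [ta_zero κ, hY0, hq0]
  · intro T Z hZ0 hZ t ht
    have hκ' : 0 < κ⁻¹ := inv_pos.2 hκ
    have hT : 0 ≤ T := ht.1.trans ht.2.le
    have h1 : IsTrajectory C A b (Set.Ico 0 (ta κ T)) (fun u => qq κ⁻¹ u • Z (ta κ⁻¹ u)) :=
      scale_traj hκ' hZ (fun u hu => hu.1) fun u hu => ⟨ta_nonneg hκ' hu.1, by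
        have := ta_lt hκ' hu.1 hu.2
        rwa [ta_ta hκ hT] at this⟩
    have h2 := huniq (ta κ T) _ (by
      simp only [ta_zero κ⁻¹, hZ0, hq0, smul_smul, inv_mul_cancel₀ hκ.ne', one_smul]) h1 (ta κ t)
      ⟨ta_nonneg hκ ht.1, ta_lt hκ ht.1 ht.2⟩
    simp only [ta_ta hκ ht.1] at h2
    show Z t = qq κ t • Y (ta κ t)
    rw [← h2, smul_smul, qq_qq hκ ht.1, one_smul]
  · have h1 := (tendsto_qq κ).smul (hlim.comp (tendsto_ta κ))
    rw [one_smul] at h1
    exact h1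

end scale

end Pool.Agent.Lib.MP_e757b3_ae
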