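import Pool.Agent.Lib.MP_e757b3_ae.MB
import Pool.Agent.Lib.MP_e757b3_ae.MS

/-! The dynamic from starts near the sets `𝒜 vec X = κ b`, `tr(C X) ≤ w`, `κ ≥ 1`, when the
feasible `X` with `tr(C X) ≤ w` are nondegenerate. -/

namespace Pool.Agent.PhysND

open Matrix Set Filter Topology
open scoped NNReal

set_option linter.unusedSectionVars false

variable {n m : Type} [Fintype n] [DecidableEq n] [Fintype m] [DecidableEq m]

theorem flow_exists_var {C X0 : Matrix n n ℝ} {A : m → Matrix n n ℝ} {b : m → ℝ} {R R1 Rm : ℝ}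
    (hC : C.PosDef) (hA : ∀ l, (A l)ᵀ = A l) (hX0 : X0.PosDef)
    (hR0 : (C * X0).trace ≤ R1) (hR1 : R1 ≤ Rm) (hRm : Rm < R)
    (hnd : ∀ X, X.PosSemidef → OnSeg A b X0 X → (C * X).trace ≤ R → Nondeg A X)
    (hbar : ∀ X, X.PosSemidef → ∀ s ∈ Icc (0 : ℝ) 1,
      (∀ l, (A l * X).trace = b l + s * ((A l * X0).trace - b l)) → (C * X).trace ≤ R →
      IsUnit (gram C A X).det → (MM C A b X * X).trace ≤ (Rm - R1) * s) :
    ∃ Φ : ℝ → Matrix n n ℝ, Φ 0 = 1 ∧
      (∀ t, 0 ≤ t → IsUnit (Φ t).det) ∧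
      (∀ t, 0 ≤ t → HD Φ ((1 / 2 : ℝ) • (C⁻¹ * MM C A b (XX X0 (Φ t)) * Φ t)) t) ∧
      (∀ t, 0 ≤ t → ∀ l, (A l * XX X0 (Φ t)).trace
        = b l + Real.exp (-t) * ((A l * X0).trace - b l)) ∧
      (∀ t, 0 ≤ t → (C * XX X0 (Φ t)).trace ≤ R) := by
  have hCs : Cᵀ = C := symm_of_posDef hC
  have hCu : IsUnit C.det := hC.det_pos.ne'.isUnit
  set U : Set (n → n → ℝ) := {Φ | (gram C A (XX X0 (of Φ))).det ≠ 0} with hUdef
  set K : Set (n → n → ℝ) := {Φ : n → n → ℝ | OnSeg A b X0 (XX X0 (of Φ)) ∧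
      (C * XX X0 (of Φ)).trace ≤ R} with hKdef
  have hU : IsOpen U :=
    isOpen_ne.preimage (CDA.cont fun x => CDA.det (CDA.gram (CDA_XX X0 x)))
  have hK : IsCompact K := compact_K hC hX0 A b R
  have hKU : K ⊆ U := fun Φ hΦ =>
    (gram_isUnit hC hA (XX_psd hX0.posSemidef _)
      (hnd _ (XX_psd hX0.posSemidef _) hΦ.1 hΦ.2)).ne_zero
  have hmm : ∀ x ∈ U, CDA (fun Φ : n → n → ℝ => MM C A b (XX X0 (of Φ))) x :=
    fun x hx => CDA_MM (CDA_XX X0 x) hx
  have hh : ∀ x ∈ U, ContDiffAt ℝ 1 (fun (Φ : n → n → ℝ) (i j : n) =>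
      ((1 / 2 : ℝ) • (C⁻¹ * MM C A b (XX X0 (of Φ)) * of Φ)) i j) x := by
    intro x hx
    rw [contDiffAt_pi]
    intro i
    rw [contDiffAt_pi]
    intro j
    exact CDA.smul contDiffAt_const (((CDA.const _ x).mul (hmm x hx)).mul (CDA_of x)) i j
  obtain ⟨χ, hχ1, hχ0, hχU, hχc, hχf, _, α, hα0, hα⟩ :=
    cutoff_flow hU hK hKU hh (fun i j => (1 : Matrix n n ℝ) i j)
  set Φ : ℝ → Matrix n n ℝ := fun t => of (α t) with hΦdef
  set c : ℝ → ℝ := fun t => χ (α t) with hcdef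
  have hαc : Continuous α := continuous_iff_continuousAt.2 fun t => (hα t).continuousAt
  have hcc : Continuous c := hχc.comp hαc
  have hΦ0 : Φ 0 = 1 := by
    ext i j
    simp only [hΦdef, of_apply, hα0]
  have hΦ : ∀ t, HD Φ (c t • (1 / 2 : ℝ) • (C⁻¹ * MM C A b (XX X0 (Φ t)) * Φ t)) t := by
    intro t i j
    have h1 := hα t
    rw [hasDerivAt_pi] at h1
    have h2 := h1 i
    rw [hasDerivAt_pi] at h2
    exact h2 j
  have hXd : ∀ t, HD (fun s => XX X0 (Φ s)) (c t • cond C (XX X0 (Φ t))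
      (MM C A b (XX X0 (Φ t)))) t := by
    intro t
    have h1 := ((hΦ t).mulConst X0).mul (hΦ t).transpose
    rw [XX_deriv_eq hCs _ _ (MM_symm hCs hA b _) (c t)] at h1
    exact h1
  have hUc : ∀ t, c t ≠ 0 → IsUnit (gram C A (XX X0 (Φ t))).det := by
    intro t ht
    have : α t ∈ U := by
      by_contra hn
      exact ht (hχU _ hn)
    exact isUnit_iff_ne_zero.2 this
  -- the linear constraints
  set I : ℝ → ℝ := fun t => ∫ s in (0 : ℝ)..t, c s with hIdef
  have hI : ∀ t, HasDerivAt I (c t) t := fun t =>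
    (hcc.integral_hasStrictDerivAt 0 t).hasDerivAt
  have hI0 : I 0 = 0 := by simp [hIdef]
  have hAd : ∀ l t, HasDerivAt (fun s => (A l * XX X0 (Φ s)).trace)
      (c t * (b l - (A l * XX X0 (Φ t)).trace)) t := by
    intro l t
    have h1 := ((hXd t).constMul (A l)).trace
    rw [mul_smul_comm, trace_smul, smul_eq_mul] at h1
    by_cases hc0 : c t = 0
    · simpa [hc0] using h1
    · rwa [trace_A_cond_MM hCu (hUc t hc0)] at h1
  have hAeq : ∀ l t, (A l * XX X0 (Φ t)).trace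
      = b l + Real.exp (-I t) * ((A l * X0).trace - b l) := by
    intro l t
    have hd : ∀ s, HasDerivAt (fun s => ((A l * XX X0 (Φ s)).trace - b l) * Real.exp (I s)) 0 s := by
      intro s
      have h1 := ((hAd l s).sub_const (b l)).fun_mul (hI s).exp
      have e1 : (c s * (b l - (A l * XX X0 (Φ s)).trace)) * Real.exp (I s)
          + ((A l * XX X0 (Φ s)).trace - b l) * (Real.exp (I s) * c s) = 0 := by ring
      rw [e1] at h1
      exact h1
    have h2 := is_const_of_deriv_eq_zero (fun s => (hd s).differentiableAt)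
      (fun s => (hd s).deriv) t 0
    simp only [hI0, Real.exp_zero, mul_one, hΦ0] at h2
    have h3 : XX X0 (1 : Matrix n n ℝ) = X0 := by simp [XX]
    rw [h3] at h2
    have h4 : (A l * XX X0 (Φ t)).trace - b l = Real.exp (-I t) * ((A l * X0).trace - b l) := by
      rw [← h2, mul_comm, mul_assoc, ← Real.exp_add, add_neg_cancel, Real.exp_zero, mul_one]
    linarith
  have hI_nn : ∀ t, 0 ≤ t → 0 ≤ I t := fun t ht =>
    intervalIntegral.integral_nonneg ht fun s _ => hχ0 _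
  have hseg : ∀ t, 0 ≤ t → OnSeg A b X0 (XX X0 (Φ t)) := fun t ht =>
    ⟨Real.exp (-I t), ⟨(Real.exp_pos _).le, Real.exp_le_one_iff.2 (by linarith [hI_nn t ht])⟩,
      fun l => hAeq l t⟩
  have hEd : ∀ t, HasDerivAt (fun s => (C * XX X0 (Φ s)).trace)
      (c t * (MM C A b (XX X0 (Φ t)) * XX X0 (Φ t)).trace) t := by
    intro t
    have h1 := ((hXd t).constMul C).trace
    rwa [mul_smul_comm, trace_smul, smul_eq_mul, trace_C_cond hCu] at h1
  have hEle : ∀ t, 0 ≤ t → (C * XX X0 (Φ t)).trace ≤ R := by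
    intro T hT
    have hε' : 0 < (R - Rm) / (T + 1) := div_pos (by linarith) (by linarith)
    have hexpI : ∀ s, HasDerivAt (fun s => Real.exp (-I s)) (-(Real.exp (-I s) * c s)) s := by
      intro s
      have := ((hI s).fun_neg).exp
      simpa using this
    have hBle : ∀ s, 0 ≤ s → s ≤ T → R1 + (Rm - R1) * (1 - Real.exp (-I s))
        + (R - Rm) / (T + 1) * s ≤ R := by
      intro s hs0 hs1
      have h1 : (Rm - R1) * (1 - Real.exp (-I s)) ≤ (Rm - R1) * 1 :=
        mul_le_mul_of_nonneg_left (by linarith [Real.exp_pos (-I s)]) (by linarith)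
      have h2 : (R - Rm) / (T + 1) * s ≤ R - Rm := by
        rw [div_mul_eq_mul_div, div_le_iff₀ (by linarith)]
        exact mul_le_mul_of_nonneg_left (by linarith) (by linarith)
      linarith
    have h1 := image_le_of_deriv_right_lt_deriv_boundary (a := 0) (b := T)
      (f := fun s => (C * XX X0 (Φ s)).trace)
      (f' := fun t => c t * (MM C A b (XX X0 (Φ t)) * XX X0 (Φ t)).trace)
      (B := fun s => R1 + (Rm - R1) * (1 - Real.exp (-I s)) + (R - Rm) / (T + 1) * s)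
      (B' := fun s => (Rm - R1) * (Real.exp (-I s) * c s) + (R - Rm) / (T + 1))
      (fun s _ => (hEd s).continuousAt.continuousWithinAt)
      (fun s _ => (hEd s).hasDerivWithinAt)
      (by
        have h3 : XX X0 (1 : Matrix n n ℝ) = X0 := by simp [XX]
        simp only [hΦ0, h3, hI0, neg_zero, Real.exp_zero, sub_self, mul_zero, add_zero]
        exact hR0)
      (fun s => by
        have h3 := (((hexpI s).const_sub 1).const_mul (Rm - R1)).const_add R1
        have h4 := (hasDerivAt_id s).const_mul ((R - Rm) / (T + 1))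
        have h5 := h3.fun_add h4
        simpa using h5)
      (fun s hs heq => by
        have h4 : (C * XX X0 (Φ s)).trace ≤ R := by
          rw [heq]
          exact hBle s hs.1 hs.2.le
        show c s * (MM C A b (XX X0 (Φ s)) * XX X0 (Φ s)).trace
          < (Rm - R1) * (Real.exp (-I s) * c s) + (R - Rm) / (T + 1)
        by_cases hc0 : c s = 0
        · simp only [hc0, zero_mul, mul_zero, zero_add]
          exact hε'
        have h5 := hbar _ (XX_psd hX0.posSemidef _) (Real.exp (-I s))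
          ⟨(Real.exp_pos _).le, Real.exp_le_one_iff.2 (by linarith [hI_nn s hs.1])⟩
          (fun l => hAeq l s) h4 (hUc s hc0)
        have h6 := mul_le_mul_of_nonneg_left h5 (hχ0 (α s))
        have h7 : χ (α s) * ((Rm - R1) * Real.exp (-I s))
          = (Rm - R1) * (Real.exp (-I s) * c s) := by
          simp only [hcdef]
          ring
        rw [h7] at h6
        have h8 : c s * (MM C A b (XX X0 (Φ s)) * XX X0 (Φ s)).trace
          = χ (α s) * (MM C A b (XX X0 (Φ s)) * XX X0 (Φ s)).trace := rfl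
        rw [h8]
        linarith)
      (show T ∈ Icc 0 T from ⟨hT, le_rfl⟩)
    exact h1.trans (hBle T hT le_rfl)
  have hc1 : ∀ t, 0 ≤ t → c t = 1 := fun t ht => hχ1 _ ⟨hseg t ht, hEle t ht⟩
  have hIt : ∀ t, 0 ≤ t → I t = t := by
    intro t ht
    have : I t = ∫ s in (0 : ℝ)..t, (1 : ℝ) := by
      apply intervalIntegral.integral_congr
      intro s hs
      rw [uIcc_of_le ht] at hs
      exact hc1 s hs.1
    rw [this]
    simp
  refine ⟨Φ, hΦ0, ?_, ?_, ?_, hEle⟩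
  · intro T hT
    rw [isUnit_iff_ne_zero]
    intro hdet
    obtain ⟨v, hv, hv0⟩ := Matrix.exists_mulVec_eq_zero_iff.2 hdet
    set B : ℝ → Matrix n n ℝ := fun t => c t • (1 / 2 : ℝ) • (C⁻¹ * MM C A b (XX X0 (Φ t))) with hB
    have hBc : ∀ i j, Continuous (fun t => B t i j) := by
      intro i j
      have h1 := hχf (fun Ψ => ((1 / 2 : ℝ) • (C⁻¹ * MM C A b (XX X0 (of Ψ)))) i j)
        (fun x hx => (CDA.smul contDiffAt_const ((CDA.const _ x).mul (hmm x hx)) i j).continuousAt)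
      exact h1.comp hαc
    have hsum : Continuous (fun t => ∑ i, ∑ j, |B t i j|) :=
      continuous_finsetSum _ fun i _ => continuous_finsetSum _ fun j _ => (hBc i j).abs
    obtain ⟨β, hβ⟩ := (isCompact_Icc (a := (0 : ℝ)) (b := T)).exists_bound_of_continuousOn
      hsum.continuousOn
    have h2 := lower_growth (w := fun t => Φ t *ᵥ v) (B := B) (β := β) hT
      (fun t _ i => by
        have h3 := (hΦ t).mulVec v i
        convert h3 using 1
        rw [mulVec_mulVec, hB]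
        simp only [smul_mul_assoc])
      (fun t ht => (le_abs_self _).trans (by simpa [Real.norm_eq_abs] using hβ t ht))
    simp only [hΦ0, hv0, one_mulVec] at h2
    simp only [Pi.zero_apply, ne_eq, OfNat.ofNat_ne_zero, not_false_eq_true, zero_pow,
      Finset.sum_const_zero, zero_mul] at h2
    apply hv
    have h4 := (Finset.sum_eq_zero_iff_of_nonneg (fun i _ => sq_nonneg (v i))).1
      (le_antisymm h2 (Finset.sum_nonneg fun i _ => sq_nonneg (v i)))
    ext i
    have := h4 i (Finset.mem_univ i)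
    simpa using this
  · intro t ht
    have := hΦ t
    rwa [hc1 t ht, one_smul] at this
  · intro t ht l
    rw [hAeq l t, hIt t ht]


section near

variable {C : Matrix n n ℝ} {A : m → Matrix n n ℝ} {b : m → ℝ}

lemma nondeg_of_gram (hA : ∀ l, (A l)ᵀ = A l) {X : Matrix n n ℝ} (hX : Xᵀ = X)
    (h : (gram C A X).det ≠ 0) : Nondeg A X := by
  intro p hp h1
  refine hp (Matrix.eq_zero_of_mulVec_eq_zero h ?_)
  funext l
  have h2 : X * comb A p = 0 := by
    have := congrArg Matrix.transpose h1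
    rwa [transpose_mul, hX, comb_transpose hA, transpose_zero] at this
  have h3 : cond C X (comb A p) = 0 := by
    unfold cond
    rw [h2, Matrix.zero_mul, Matrix.mul_assoc, h1, Matrix.mul_zero, add_zero, smul_zero]
  rw [gram_mulVec, h3, Matrix.mul_zero, trace_zero, Pi.zero_apply]

/-- Compactness: nondegeneracy and a bound on the multipliers near `𝒜 vec X = κ b`,
`tr(C X) ≤ w`. -/
lemma exists_near (hC : C.PosDef) (hA : ∀ l, (A l)ᵀ = A l) (w : ℝ)
    (hnd : ∀ X : Matrix n n ℝ, X.PosSemidef → (∀ l, (A l * X).trace = b l) →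
      (C * X).trace ≤ w → Nondeg A X) :
    ∃ δ > 0, ∃ c, 0 ≤ c ∧ ∀ X : Matrix n n ℝ, X.PosSemidef →
      (∃ κ : ℝ, 1 ≤ κ ∧ ∀ l, |(A l * X).trace - κ * b l| ≤ δ) → (C * X).trace ≤ w + δ →
      IsUnit (gram C A X).det ∧ ∑ l, |((gram C A X)⁻¹ *ᵥ b) l| ≤ c := by
  have hcA : ∀ l, Continuous (fun Ψ : n → n → ℝ => (A l * XX 1 (of Ψ)).trace) :=
    fun l => CDA.cont fun x => CDA.trace ((CDA.const _ x).mul (CDA_XX 1 x))
  have hcC : Continuous (fun Ψ : n → n → ℝ => (C * XX 1 (of Ψ)).trace) :=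
    CDA.cont fun x => CDA.trace ((CDA.const _ x).mul (CDA_XX 1 x))
  set K1 : Set (n → n → ℝ) := {Ψ | (C * XX 1 (of Ψ)).trace ≤ w + 1} with hK1
  have hK1c : IsCompact K1 := by
    have h1 := compact_K hC (Matrix.PosDef.one (n := n) (R := ℝ))
      (fun _ : Fin 0 => (0 : Matrix n n ℝ)) (fun _ => (0 : ℝ)) (w + 1)
    have h2 : {Φ : n → n → ℝ | OnSeg (fun _ : Fin 0 => (0 : Matrix n n ℝ)) (fun _ => (0 : ℝ)) 1
        (XX 1 (of Φ)) ∧ (C * XX 1 (of Φ)).trace ≤ w + 1} = K1 := by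
      ext Φ
      constructor
      · rintro ⟨_, h⟩
        exact h
      · intro h
        exact ⟨⟨0, ⟨le_rfl, zero_le_one⟩, fun l => l.elim0⟩, h⟩
    rwa [h2] at h1
  set U : Set (n → n → ℝ) := {Φ | (gram C A (XX 1 (of Φ))).det ≠ 0} with hUdef
  have hU : IsOpen U :=
    isOpen_ne.preimage (CDA.cont fun x => CDA.det (CDA.gram (CDA_XX 1 x)))
  set S : Set (m → ℝ) := (fun κ : ℝ => κ • b) '' Ici 1 with hS
  have hScl : IsClosed S := isClosedMap_smul_left b _ isClosed_Ici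
  have hSne : S.Nonempty := ⟨_, 1, self_mem_Ici, rfl⟩
  set g : (n → n → ℝ) → ℝ := fun Ψ =>
    max ((C * XX 1 (of Ψ)).trace - w)
      (Metric.infDist (fun l : m => (A l * XX 1 (of Ψ)).trace) S) with hg
  have hgc : Continuous g :=
    (hcC.sub continuous_const).max ((Metric.continuous_infDist_pt S).comp (continuous_pi hcA))
  have hpos : ∀ Ψ ∈ K1 ∩ Uᶜ, 0 < g Ψ := by
    rintro Ψ ⟨_, h2⟩
    by_contra hle
    push Not at hle
    have h3 := (le_max_left _ _).trans hle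
    have h4 := (le_max_right _ _).trans hle
    have h5 : (fun l : m => (A l * XX 1 (of Ψ)).trace) ∈ S :=
      (hScl.mem_iff_infDist_zero hSne).2 (le_antisymm h4 Metric.infDist_nonneg)
    obtain ⟨κ, hκ, hz⟩ := h5
    have hκ1 : 1 ≤ κ := hκ
    have hκ0 : 0 < κ := by linarith
    have hpsd : (XX 1 (of Ψ)).PosSemidef := XX_psd Matrix.PosSemidef.one _
    have hl : ∀ l, (A l * XX 1 (of Ψ)).trace = κ * b l := fun l => (congrFun hz l).symm
    have h6 : Nondeg A (κ⁻¹ • XX 1 (of Ψ)) := by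
      refine hnd _ (hpsd.smul (inv_nonneg.2 hκ0.le)) (fun l => ?_) ?_
      · rw [mul_smul_comm, trace_smul, hl l, smul_eq_mul, ← mul_assoc,
          inv_mul_cancel₀ hκ0.ne', one_mul]
      · have h0 : 0 ≤ (C * XX 1 (of Ψ)).trace := trace_mul_nonneg hC.posSemidef hpsd
        rw [mul_smul_comm, trace_smul, smul_eq_mul]
        calc κ⁻¹ * (C * XX 1 (of Ψ)).trace ≤ 1 * (C * XX 1 (of Ψ)).trace :=
              mul_le_mul_of_nonneg_right (inv_le_one_of_one_le₀ hκ1) h0
          _ ≤ w := by linarith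
    refine h2 (gram_isUnit hC hA hpsd fun p hp h7 => h6 p hp ?_).ne_zero
    rw [mul_smul_comm, h7, smul_zero]
  obtain ⟨δ0, hδ0, hge⟩ := (hK1c.inter_right hU.isClosed_compl).exists_forall_le'
    hgc.continuousOn hpos
  have hK2c : IsCompact (K1 ∩ {Ψ | g Ψ ≤ δ0 / 2}) :=
    hK1c.inter_right (isClosed_le hgc continuous_const)
  have hK2U : K1 ∩ {Ψ | g Ψ ≤ δ0 / 2} ⊆ U := by
    rintro Ψ ⟨h1, h2⟩
    by_contra h3
    have h4 := hge Ψ ⟨h1, h3⟩
    have h5 : g Ψ ≤ δ0 / 2 := h2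
    linarith
  have hcont : ContinuousOn (fun Ψ : n → n → ℝ =>
      ∑ l, |((gram C A (XX 1 (of Ψ)))⁻¹ *ᵥ b) l|) (K1 ∩ {Ψ | g Ψ ≤ δ0 / 2}) := by
    intro x hx
    have hinv : CDA (fun Ψ : n → n → ℝ => (gram C A (XX 1 (of Ψ)))⁻¹) x :=
      CDA.inv (CDA.gram (CDA_XX 1 x)) (hK2U hx)
    have h1 : ∀ l, ContinuousAt (fun Ψ : n → n → ℝ =>
        ((gram C A (XX 1 (of Ψ)))⁻¹ *ᵥ b) l) x := by
      intro l
      simp only [Matrix.mulVec, dotProduct]
      exact (ContDiffAt.sum fun k _ => (hinv l k).mul contDiffAt_const).continuousAt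
    exact (tendsto_finsetSum _ fun l _ => (h1 l).abs).mono_left inf_le_left
  obtain ⟨c', hc'⟩ := hK2c.exists_bound_of_continuousOn hcont
  refine ⟨min 1 (δ0 / 2), lt_min one_pos (by positivity),
    max c' 0, le_max_right _ _, fun X hX hl hw => ?_⟩
  obtain ⟨κ, hκ, hl⟩ := hl
  set δ := min 1 (δ0 / 2) with hδ
  have hδ1 : δ ≤ 1 := min_le_left _ _
  have hδ3 : δ ≤ δ0 / 2 := min_le_right _ _
  have hδ0' : 0 < δ := lt_min one_pos (by positivity)
  obtain ⟨B, hB⟩ := exists_factor hX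
  have hXX : XX 1 (of fun i j => Bᵀ i j) = X := by
    have hof : (of (fun i j => Bᵀ i j) : Matrix n n ℝ) = Bᵀ := rfl
    rw [hof]
    unfold XX
    rw [Matrix.mul_one, transpose_transpose, hB, conjTranspose_eq_transpose_of_trivial]
  have hmem : (fun i j => Bᵀ i j) ∈ K1 ∩ {Ψ | g Ψ ≤ δ0 / 2} := by
    refine ⟨?_, ?_⟩
    · show (C * XX 1 (of fun i j => Bᵀ i j)).trace ≤ w + 1
      rw [hXX]
      linarith
    · show g (fun i j => Bᵀ i j) ≤ δ0 / 2
      simp only [hg, hXX]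
      refine max_le (by linarith) ?_
      have hκS : κ • b ∈ S := ⟨κ, hκ, rfl⟩
      refine (Metric.infDist_le_dist_of_mem hκS).trans ?_
      refine ((dist_pi_le_iff hδ0'.le).2 fun l => ?_).trans hδ3
      rw [Real.dist_eq, Pi.smul_apply, smul_eq_mul]
      exact hl l
  have h1 := hK2U hmem
  have h2 := hc' _ hmem
  simp only [hUdef, mem_ofPred_eq, hXX] at h1
  simp only [hXX] at h2
  refine ⟨isUnit_iff_ne_zero.2 h1, ?_⟩
  exact ((le_abs_self _).trans h2).trans (le_max_left _ _)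

/-- Convergence from every start near `𝒜 vec X = κ b`, `κ ≥ 1`, `tr(C X) ≤ w`. -/
theorem converges_near (hC : C.PosDef) (hA : ∀ l, (A l)ᵀ = A l) (w : ℝ)
    (hnd : ∀ X : Matrix n n ℝ, X.PosSemidef → (∀ l, (A l * X).trace = b l) →
      (C * X).trace ≤ w → Nondeg A X) :
    ∃ ε > 0, ∀ κ : ℝ, 1 ≤ κ → ∀ X0 : Matrix n n ℝ, X0.PosDef → (C * X0).trace ≤ w + ε →
      (∀ l, |(A l * X0).trace - κ * b l| ≤ ε) → Converges C A b X0 := by
  obtain ⟨δ, hδ, c, hc0, hc⟩ := exists_near hC hA w hnd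
  have hc1 : 0 < 4 * (c + 1) := by linarith
  refine ⟨δ / (4 * (c + 1)), div_pos hδ hc1, fun κ hκ X0 hX0 hw hl => ?_⟩
  set ε := δ / (4 * (c + 1)) with hε
  have hε0 : 0 < ε := div_pos hδ hc1
  have hε1 : ε * c ≤ δ / 4 := by
    have h1 : ε * (4 * (c + 1)) = δ := by rw [hε]; field_simp
    nlinarith
  have hε2 : ε ≤ δ / 4 := by
    have h1 : ε * (4 * (c + 1)) = δ := by rw [hε]; field_simp
    nlinarith
  have hseg : ∀ X : Matrix n n ℝ, ∀ s ∈ Icc (0 : ℝ) 1,
      (∀ l, (A l * X).trace = b l + s * ((A l * X0).trace - b l)) →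
      ∃ κ : ℝ, 1 ≤ κ ∧ ∀ l, |(A l * X).trace - κ * b l| ≤ δ := by
    intro X s hs h
    refine ⟨1 + s * (κ - 1), ?_, fun l => ?_⟩
    · have : 0 ≤ s * (κ - 1) := mul_nonneg hs.1 (by linarith)
      linarith
    have e1 : (A l * X).trace - (1 + s * (κ - 1)) * b l
        = s * ((A l * X0).trace - κ * b l) := by
      rw [h l]
      ring
    rw [e1, abs_mul, abs_of_nonneg hs.1]
    calc s * |(A l * X0).trace - κ * b l| ≤ 1 * ε :=
          mul_le_mul hs.2 (hl l) (abs_nonneg _) zero_le_one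
      _ ≤ δ := by linarith
  have hgr : ∀ X : Matrix n n ℝ, X.PosSemidef → OnSeg A b X0 X → (C * X).trace ≤ w + δ →
      Nondeg A X := by
    rintro X hX ⟨s, hs, h⟩ hle
    exact nondeg_of_gram hA (symm_of_posSemidef hX) (hc X hX (hseg X s hs h) hle).1.ne_zero
  obtain ⟨Φ, h1, h2, h3, h4, h5⟩ := flow_exists_var (b := b) (R := w + δ) (R1 := w + ε)
    (Rm := w + ε + δ / 4) hC hA hX0 hw (by linarith) (by linarith) hgr
    fun X hX s hs h hle hu => by
      have e1 := energy_id (b := b) hC hA hX hu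
      have e2 := quad_nonneg hC.inv.posSemidef hX (MM_symm (symm_of_posDef hC) hA b X)
      have e3 : -∑ l, ((gram C A X)⁻¹ *ᵥ b) l * ((A l * X).trace - b l) ≤ δ / 4 * s := by
        have e5 := mul_nonneg (mul_nonneg hs.1 (sub_nonneg.2 hκ))
          (qd_nonneg (b := b) hC hA hX hu)
        have e6 : ∑ l, ((gram C A X)⁻¹ *ᵥ b) l * ((A l * X).trace - b l)
            = s * (κ - 1) * ∑ l, ((gram C A X)⁻¹ *ᵥ b) l * b l
              + ∑ l, ((gram C A X)⁻¹ *ᵥ b) l * (s * ((A l * X0).trace - κ * b l)) := by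
          rw [Finset.mul_sum, ← Finset.sum_add_distrib]
          refine Finset.sum_congr rfl fun l _ => ?_
          rw [h l]
          ring
        have e7 : -∑ l, ((gram C A X)⁻¹ *ᵥ b) l * (s * ((A l * X0).trace - κ * b l))
            ≤ δ / 4 * s := ?_
        · rw [e6]
          linarith
        rw [← Finset.sum_neg_distrib]
        calc ∑ l, -(((gram C A X)⁻¹ *ᵥ b) l * (s * ((A l * X0).trace - κ * b l)))
            ≤ ∑ l, |((gram C A X)⁻¹ *ᵥ b) l| * (ε * s) := by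
              refine Finset.sum_le_sum fun l _ => ?_
              refine (neg_le_abs _).trans ?_
              rw [abs_mul, abs_mul, abs_of_nonneg hs.1, mul_comm s]
              exact mul_le_mul_of_nonneg_left
                (mul_le_mul_of_nonneg_right (hl l) hs.1) (abs_nonneg _)
          _ = (∑ l, |((gram C A X)⁻¹ *ᵥ b) l|) * (ε * s) := by rw [Finset.sum_mul]
          _ ≤ c * (ε * s) := mul_le_mul_of_nonneg_right (hc X hX (hseg X s hs h) hle).2
              (mul_nonneg hε0.le hs.1)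
          _ = (ε * c) * s := by ring
          _ ≤ δ / 4 * s := mul_le_mul_of_nonneg_right hε1 hs.1
      have e4 : (w + ε + δ / 4 - (w + ε)) * s = δ / 4 * s := by ring
      rw [e4, e1]
      linarith
  have F : Flow C X0 A b (w + δ) Φ := ⟨h1, h2, h3, h4, h5⟩
  have hKU : KK C X0 A b (w + δ) ⊆ UU C X0 A := by
    rintro Ψ ⟨⟨s, hs, h⟩, hle⟩
    exact (hc _ (XX_psd hX0.posSemidef _) (hseg _ s hs h) hle).1.ne_zero
  have h0 : Nondeg A X0 := hgr X0 hX0.posSemidef onSeg_self (by linarith)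
  obtain ⟨G, hG1, hG2⟩ := F.converge' hC hX0 hA hKU
  have hsol := F.solves hC hX0 hA h0
  have hinit : XX X0 (Φ 0) = X0 := by rw [F.init]; simp [XX]
  refine ⟨fun t => XX X0 (Φ t), hinit, hsol, ?_, G, hG1, hG2⟩
  intro T _ Y hY0 hY t ht
  exact Solves.unique hC hA h0 (hsol.mono' fun u hu => hu.1) hY (by rw [hY0, hinit]) ht

end near

end Pool.Agent.PhysND

namespace Pool.Agent.Lib.MP_e757b3_ae

open Matrix Filter Topology

/-- Convergence from every start near `𝒜 vec X = κ b`, `tr(C X) ≤ κ w`. -/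
theorem near_low {n m : ℕ} (C : Matrix (Fin n) (Fin n) ℝ) (hC : C.PosDef)
    (A : Fin m → Matrix (Fin n) (Fin n) ℝ) (hA : ∀ l, (A l).IsSymm) (b : Fin m → ℝ) (w : ℝ)
    (hnd : ∀ X : Matrix (Fin n) (Fin n) ℝ, X.PosSemidef → (∀ l, (A l * X).trace = b l) →
      (C * X).trace ≤ w → ∀ μ : Fin m → ℝ, (∑ l, μ l • A l) * X = 0 → μ = 0) :
    ∃ ε > 0, ∀ κ : ℝ, 0 < κ → ∀ X₀ : Matrix (Fin n) (Fin n) ℝ, X₀.PosDef →
      (C * X₀).trace ≤ κ * (w + ε) → (∀ l, |(A l * X₀).trace - κ * b l| ≤ κ * ε) →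
      Good C A b X₀ := by
  obtain ⟨P, B, hd⟩ := exists_root hC
  have hCs : (C⁻¹)ᵀ = C⁻¹ := by rw [hd.cinv, Matrix.transpose_mul, hd.ps]
  obtain ⟨ε, hε, h⟩ := PhysND.converges_near (b := b) hC (fun l => (hA l).eq) w
    fun X hX hl hw p hp hpX => hp (hnd X hX hl hw p hpX)
  refine ⟨ε, hε, fun κ hκ X₀ hX₀ hw hl => ?_⟩
  have hκ' : 0 < κ⁻¹ := inv_pos.2 hκ
  have key : Good C A b (κ⁻¹ • X₀) := by
    obtain ⟨X', hX'0, hsol, huniq, G, hG1, hG2⟩ := h 1 le_rfl (κ⁻¹ • X₀) (hX₀.smul hκ')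
      (by
        rw [Matrix.mul_smul, Matrix.trace_smul, smul_eq_mul]
        calc κ⁻¹ * (C * X₀).trace ≤ κ⁻¹ * (κ * (w + ε)) := mul_le_mul_of_nonneg_left hw hκ'.le
          _ = w + ε := by field_simp)
      (fun l => by
        have e1 : (A l * κ⁻¹ • X₀).trace - 1 * b l = κ⁻¹ * ((A l * X₀).trace - κ * b l) := by
          rw [Matrix.mul_smul, Matrix.trace_smul, smul_eq_mul, mul_sub, ← mul_assoc,
            inv_mul_cancel₀ hκ.ne']
        rw [e1, abs_mul, abs_of_pos hκ']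
        calc κ⁻¹ * |(A l * X₀).trace - κ * b l| ≤ κ⁻¹ * (κ * ε) :=
              mul_le_mul_of_nonneg_left (hl l) hκ'.le
          _ = ε := by field_simp)
    refine ⟨X', hX'0, traj_of_solves hCs hA hsol, ?_, G,
      ⟨⟨hG1.1.1, hG1.1.2⟩, fun H hH => hG1.2 H ⟨hH.1, hH.2⟩⟩,
      tendsto_pi_nhds.2 fun i => tendsto_pi_nhds.2 fun j => hG2 i j⟩
    intro T Z hZ0 hZ t ht
    exact huniq T (ht.1.trans_lt ht.2) Z hZ0 (solves_of_traj hCs hA hZ) t ht
  have h1 := key.scale hκ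
  rwa [smul_smul, mul_inv_cancel₀ hκ.ne', one_smul] at h1

end Pool.Agent.Lib.MP_e757b3_ae
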