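import Pool.Agent.Lib.MP_e757b3_ae.Flow

open Matrix Filter Topology
open scoped Matrix.Norms.Operator

namespace Pool.Agent.Lib.MP_e757b3_ae

section alg

variable {n m : ℕ} (A : Fin m → Matrix (Fin n) (Fin n) ℝ) (b : Fin m → ℝ)

/-- The combination `∑ e l • A l`. -/
def Sm (e : Fin m → ℝ) : Matrix (Fin n) (Fin n) ℝ := ∑ l, e l • A l

/-- The Gram matrix `tr (A k * Y * A l)`. -/
def gramM (Y : Matrix (Fin n) (Fin n) ℝ) : Matrix (Fin m) (Fin m) ℝ :=
  Matrix.of fun k l => (A k * Y * A l).trace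

/-- The multiplier. -/
noncomputable def lamv (Y : Matrix (Fin n) (Fin n) ℝ) : Fin m → ℝ := (gramM A Y)⁻¹ *ᵥ b

/-- The multiplier matrix. -/
noncomputable def SS (Y : Matrix (Fin n) (Fin n) ℝ) : Matrix (Fin n) (Fin n) ℝ :=
  Sm A (lamv A b Y)

/-- The vector field on factors. -/
noncomputable def fZ (Z : Matrix (Fin n) (Fin n) ℝ) : Matrix (Fin n) (Fin n) ℝ :=
  (1 / 2 : ℝ) • ((SS A b (Z * Zᵀ) - 1) * Z)

/-- The vector field on symmetric matrices. -/
noncomputable def gY (Y : Matrix (Fin n) (Fin n) ℝ) : Matrix (Fin n) (Fin n) ℝ :=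
  (1 / 2 : ℝ) • (SS A b Y * Y + Y * SS A b Y) - Y

variable {A b}

lemma Sm_symm (hA : ∀ l, (A l).IsSymm) (e : Fin m → ℝ) : (Sm A e)ᵀ = Sm A e := by
  rw [Sm, Matrix.transpose_sum]
  exact Finset.sum_congr rfl fun l _ => by rw [Matrix.transpose_smul, (hA l).eq]

lemma trace_Sm_mul (e : Fin m → ℝ) (Q : Matrix (Fin n) (Fin n) ℝ) :
    (Sm A e * Q).trace = ∑ l, e l * (A l * Q).trace := by
  rw [Sm, Matrix.sum_mul, Matrix.trace_sum]
  exact Finset.sum_congr rfl fun l _ => by rw [Matrix.smul_mul, Matrix.trace_smul, smul_eq_mul]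

lemma gram_mulVec (Y : Matrix (Fin n) (Fin n) ℝ) (e : Fin m → ℝ) (l : Fin m) :
    (gramM A Y *ᵥ e) l = (A l * Y * Sm A e).trace := by
  rw [Sm, Matrix.mul_sum, Matrix.trace_sum]
  simp only [Matrix.mulVec, dotProduct, gramM, Matrix.of_apply]
  exact Finset.sum_congr rfl fun k _ => by
    rw [Matrix.mul_smul, Matrix.trace_smul, smul_eq_mul, mul_comm]

lemma gram_quad (Y : Matrix (Fin n) (Fin n) ℝ) (e : Fin m → ℝ) :
    e ⬝ᵥ (gramM A Y *ᵥ e) = (Sm A e * Y * Sm A e).trace := by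
  have h1 : (Sm A e * Y * Sm A e).trace = ∑ l, e l * (A l * (Y * Sm A e)).trace := by
    rw [Matrix.mul_assoc, trace_Sm_mul]
  rw [h1]
  simp only [dotProduct, gram_mulVec, Matrix.mul_assoc]

lemma trace_swap (hA : ∀ l, (A l).IsSymm) {Y : Matrix (Fin n) (Fin n) ℝ} (hY : Yᵀ = Y)
    (e : Fin m → ℝ) (l : Fin m) : (A l * Sm A e * Y).trace = (A l * Y * Sm A e).trace := by
  rw [← Matrix.trace_transpose, Matrix.transpose_mul, Matrix.transpose_mul, hY, Sm_symm hA,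
    (hA l).eq, ← Matrix.mul_assoc, Matrix.trace_mul_comm, ← Matrix.mul_assoc]

lemma lam_spec {Y : Matrix (Fin n) (Fin n) ℝ} (h : (gramM A Y).det ≠ 0) :
    gramM A Y *ᵥ lamv A b Y = b := by
  rw [lamv, Matrix.mulVec_mulVec, Matrix.mul_nonsing_inv _ (isUnit_iff_ne_zero.2 h),
    Matrix.one_mulVec]

end alg

section smooth

variable {n m : ℕ} {A : Fin m → Matrix (Fin n) (Fin n) ℝ} {b : Fin m → ℝ}

lemma contDiff_linear {E F : Type*} [NormedAddCommGroup E] [NormedSpace ℝ E]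
    [FiniteDimensional ℝ E] [NormedAddCommGroup F] [NormedSpace ℝ F] (T : E →ₗ[ℝ] F) :
    ContDiff ℝ 1 T := T.toContinuousLinearMap.contDiff

lemma contDiff_gram : ContDiff ℝ 1 (fun Y : Matrix (Fin n) (Fin n) ℝ => gramM A Y) := by
  let T : Matrix (Fin n) (Fin n) ℝ →ₗ[ℝ] Matrix (Fin m) (Fin m) ℝ :=
    { toFun := fun Y => gramM A Y
      map_add' := fun Y Y' => by
        ext k l
        simp [gramM, Matrix.mul_add, Matrix.add_mul]
      map_smul' := fun r Y => by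
        ext k l
        simp [gramM] }
  exact contDiff_linear T

lemma contDiffAt_inv {M : Matrix (Fin m) (Fin m) ℝ} (h : M.det ≠ 0) :
    ContDiffAt ℝ 1 (fun N : Matrix (Fin m) (Fin m) ℝ => N⁻¹) M := by
  have hu : IsUnit M := (Matrix.isUnit_iff_isUnit_det M).2 (isUnit_iff_ne_zero.2 h)
  obtain ⟨u, rfl⟩ := hu
  have h1 := contDiffAt_ringInverse ℝ (n := 1) u
  have h2 : (fun N : Matrix (Fin m) (Fin m) ℝ => N⁻¹) = Ring.inverse := by
    funext N
    exact Matrix.nonsing_inv_eq_ringInverse N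
  rw [h2]
  exact h1

lemma contDiffAt_SS {Y : Matrix (Fin n) (Fin n) ℝ} (h : (gramM A Y).det ≠ 0) :
    ContDiffAt ℝ 1 (fun Y => SS A b Y) Y := by
  let T : Matrix (Fin m) (Fin m) ℝ →ₗ[ℝ] Matrix (Fin n) (Fin n) ℝ :=
    { toFun := fun N => Sm A (N *ᵥ b)
      map_add' := fun N N' => by
        simp [Sm, Matrix.add_mulVec, add_smul, Finset.sum_add_distrib]
      map_smul' := fun r N => by
        simp [Sm, Matrix.smul_mulVec, smul_smul, Finset.smul_sum] }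
  have h1 : ContDiffAt ℝ 1 (fun Y => (gramM A Y)⁻¹) Y :=
    ContDiffAt.comp Y (contDiffAt_inv h) contDiff_gram.contDiffAt
  exact (contDiff_linear T).contDiffAt.comp Y h1

lemma contDiff_ZZt : ContDiff ℝ 1 (fun Z : Matrix (Fin n) (Fin n) ℝ => Z * Zᵀ) := by
  have h1 : ContDiff ℝ 1 (fun Z : Matrix (Fin n) (Fin n) ℝ => Zᵀ) :=
    contDiff_linear (Matrix.transposeLinearEquiv (Fin n) (Fin n) ℝ ℝ).toLinearMap
  exact contDiff_id.mul h1

lemma contDiffAt_fZ {Z : Matrix (Fin n) (Fin n) ℝ} (h : (gramM A (Z * Zᵀ)).det ≠ 0) :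
    ContDiffAt ℝ 1 (fZ A b) Z := by
  have h1 : ContDiffAt ℝ 1 (fun Z => SS A b (Z * Zᵀ)) Z :=
    ContDiffAt.comp (g := fun Y => SS A b Y) Z (contDiffAt_SS h) contDiff_ZZt.contDiffAt
  exact ((h1.sub contDiffAt_const).mul contDiffAt_id).const_smul _

lemma contDiffAt_gY {Y : Matrix (Fin n) (Fin n) ℝ} (h : (gramM A Y).det ≠ 0) :
    ContDiffAt ℝ 1 (gY A b) Y := by
  have h1 : ContDiffAt ℝ 1 (fun Y => SS A b Y) Y := contDiffAt_SS h
  exact (((h1.mul contDiffAt_id).add (contDiffAt_id.mul h1)).const_smul _).sub contDiffAt_id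

lemma isOpen_gram : IsOpen {Y : Matrix (Fin n) (Fin n) ℝ | (gramM A Y).det ≠ 0} := by
  have h1 : Continuous fun Y : Matrix (Fin n) (Fin n) ℝ => (gramM A Y).det :=
    (contDiff_gram.continuous).matrix_det
  exact isOpen_ne_fun h1 continuous_const

end smooth

end Pool.Agent.Lib.MP_e757b3_ae
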