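import Pool.Agent.Lib.MP_e757b3_ae.NA

open Matrix Filter Topology

namespace Pool.Agent.Lib.MP_e757b3_ae

section psd

variable {n m : ℕ}

lemma psd_iff {Y : Matrix (Fin n) (Fin n) ℝ} :
    Y.PosSemidef ↔ Yᵀ = Y ∧ ∀ x : Fin n → ℝ, 0 ≤ x ⬝ᵥ (Y *ᵥ x) := by
  rw [posSemidef_iff_dotProduct_mulVec, Matrix.IsHermitian, conjTranspose_eq_transpose_of_trivial]
  simp only [star_trivial]

lemma isClosed_psd : IsClosed {Y : Matrix (Fin n) (Fin n) ℝ | Y.PosSemidef} := by
  simp only [psd_iff, Set.ofPred_and, Set.ofPred_forall]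
  refine IsClosed.inter ?_ (isClosed_iInter fun x => ?_)
  · exact isClosed_eq continuous_id.matrix_transpose continuous_id
  · refine isClosed_le continuous_const ?_
    exact Continuous.dotProduct continuous_const (continuous_id.matrix_mulVec continuous_const)

lemma psd_diag_le {Y : Matrix (Fin n) (Fin n) ℝ} (hY : Y.PosSemidef) (i : Fin n) :
    Y i i ≤ Y.trace :=
  Finset.single_le_sum (f := fun i => Y i i) (fun j _ => hY.diag_nonneg) (Finset.mem_univ i)

lemma psd_entry {Y : Matrix (Fin n) (Fin n) ℝ} (hY : Y.PosSemidef) (i j : Fin n) :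
    |Y i j| ≤ Y.trace := by
  have hsymm := (psd_iff.1 hY).1
  have hji : Y j i = Y i j := by
    conv_lhs => rw [← hsymm]
    rfl
  have hq : ∀ s : ℝ, 0 ≤ Y i i + s * (2 * Y i j) + s ^ 2 * Y j j := by
    intro s
    have h1 := (psd_iff.1 hY).2 (Pi.single i 1 + s • Pi.single j 1)
    have h2 : (Pi.single i 1 + s • Pi.single j 1 : Fin n → ℝ) ⬝ᵥ
        (Y *ᵥ (Pi.single i 1 + s • Pi.single j 1)) =
        Y i i + s * (2 * Y i j) + s ^ 2 * Y j j := by
      rw [Matrix.mulVec_add, Matrix.mulVec_smul, Matrix.mulVec_single_one, Matrix.mulVec_single_one]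
      simp only [add_dotProduct, smul_dotProduct, dotProduct_add, dotProduct_smul,
        single_one_dotProduct, Matrix.col_apply, smul_eq_mul, hji]
      ring
    rw [h2] at h1
    exact h1
  have h1 := hq 1
  have h2 := hq (-1)
  have h3 := psd_diag_le hY i
  have h4 := psd_diag_le hY j
  rw [abs_le]
  constructor <;> nlinarith

open scoped MatrixOrder in
lemma psd_factor {Y : Matrix (Fin n) (Fin n) ℝ} (hY : Y.PosSemidef) :
    ∃ R : Matrix (Fin n) (Fin n) ℝ, Rᵀ = R ∧ R * R = Y := by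
  refine ⟨CFC.sqrt Y, ?_, CFC.sqrt_mul_sqrt_self Y hY.nonneg⟩
  have h1 : (CFC.sqrt Y).PosSemidef := nonneg_iff_posSemidef.1 (CFC.sqrt_nonneg Y)
  have h2 := h1.isHermitian
  rwa [Matrix.IsHermitian, conjTranspose_eq_transpose_of_trivial] at h2

lemma trace_mul_transpose_self_nonneg (Q : Matrix (Fin n) (Fin n) ℝ) : 0 ≤ (Q * Qᵀ).trace := by
  have h := (posSemidef_self_mul_conjTranspose Q).trace_nonneg
  rwa [conjTranspose_eq_transpose_of_trivial] at h

lemma psd_mul_transpose_self (Q : Matrix (Fin n) (Fin n) ℝ) : (Q * Qᵀ).PosSemidef := by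
  have h := posSemidef_self_mul_conjTranspose Q
  rwa [conjTranspose_eq_transpose_of_trivial] at h

lemma trace_sandwich {Y S : Matrix (Fin n) (Fin n) ℝ} (hY : Y.PosSemidef) (hS : Sᵀ = S) :
    0 ≤ (S * Y * S).trace ∧ ((S * Y * S).trace = 0 → S * Y = 0) := by
  obtain ⟨R, hR, hRR⟩ := psd_factor hY
  have h1 : S * Y * S = (S * R) * (S * R)ᵀ := by
    rw [Matrix.transpose_mul, hR, hS, ← hRR]
    simp only [Matrix.mul_assoc]
  rw [h1]
  refine ⟨trace_mul_transpose_self_nonneg _, fun h => ?_⟩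
  rw [← conjTranspose_eq_transpose_of_trivial, trace_mul_conjTranspose_self_eq_zero_iff] at h
  rw [← hRR, ← Matrix.mul_assoc, h, Matrix.zero_mul]

lemma trace_mul_nonneg' {Y S : Matrix (Fin n) (Fin n) ℝ} (hY : Y.PosSemidef)
    (hS : S.PosSemidef) : 0 ≤ (S * Y).trace := by
  obtain ⟨R, hR, hRR⟩ := psd_factor hS
  rw [← hRR, Matrix.mul_assoc, Matrix.trace_mul_comm, Matrix.mul_assoc]
  have := (trace_sandwich hY hR).1
  rwa [Matrix.mul_assoc] at this

end psd

section nondeg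

variable {n m : ℕ}

/-- Nondegeneracy of the data, in the normalization `C = 1`. -/
structure NDeg (A : Fin m → Matrix (Fin n) (Fin n) ℝ) (b r : Fin m → ℝ) : Prop where
  symm : ∀ l, (A l).IsSymm
  nd1 : ∀ s ∈ Set.Icc (0 : ℝ) 1, ∀ Y : Matrix (Fin n) (Fin n) ℝ, Y.PosSemidef →
    (∀ l, (A l * Y).trace = b l + s * r l) → ∀ e, Sm A e * Y = 0 → e = 0
  nd0 : ∀ Y : Matrix (Fin n) (Fin n) ℝ, Y.PosSemidef → Y ≠ 0 →
    (∀ l, (A l * Y).trace = 0) → ∀ e, Sm A e * Y = 0 → e = 0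

variable {A : Fin m → Matrix (Fin n) (Fin n) ℝ} {b r : Fin m → ℝ}

lemma NDeg.hom (h : NDeg A b r) {Y : Matrix (Fin n) (Fin n) ℝ} (hY : Y.PosSemidef) {θ σ : ℝ}
    (hσ : 0 ≤ σ) (hσθ : σ ≤ θ) (hA : ∀ l, (A l * Y).trace = θ * b l + σ * r l)
    (ht : 0 < Y.trace + θ) {e : Fin m → ℝ} (he : Sm A e * Y = 0) : e = 0 := by
  have hθ : 0 ≤ θ := hσ.trans hσθ
  rcases hθ.eq_or_lt with h0 | h0
  · have hσ0 : σ = 0 := le_antisymm (h0 ▸ hσθ) hσ
    refine h.nd0 Y hY ?_ (fun l => ?_) e he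
    · intro hY0
      rw [hY0, Matrix.trace_zero, ← h0] at ht
      simp at ht
    · rw [hA, ← h0, hσ0]; ring
  · refine h.nd1 (σ / θ) ⟨div_nonneg hσ h0.le, div_le_one_of_le₀ hσθ h0.le⟩ (θ⁻¹ • Y)
      (hY.smul (inv_nonneg.2 h0.le)) (fun l => ?_) e ?_
    · rw [Matrix.mul_smul, Matrix.trace_smul, hA, smul_eq_mul]
      field_simp
    · rw [Matrix.mul_smul, he, smul_zero]

lemma gram_smul (c : ℝ) (Y : Matrix (Fin n) (Fin n) ℝ) : gramM A (c • Y) = c • gramM A Y := by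
  ext k l
  simp [gramM]

/-- The uniform lower bound for the Gram matrix. -/
lemma NDeg.bound (h : NDeg A b r) : ∃ c0 : ℝ, 0 < c0 ∧ ∀ s ∈ Set.Icc (0 : ℝ) 1,
    ∀ Y : Matrix (Fin n) (Fin n) ℝ, Y.PosSemidef → (∀ l, (A l * Y).trace = b l + s * r l) →
    ∀ e : Fin m → ℝ, c0 * (Y.trace + 1) * (e ⬝ᵥ e) ≤ e ⬝ᵥ (gramM A Y *ᵥ e) := by
  let T : Type := Matrix (Fin n) (Fin n) ℝ × ℝ × ℝ × (Fin m → ℝ)
  let S : Set T := {p | p.1.PosSemidef ∧ 0 ≤ p.2.2.1 ∧ p.2.2.1 ≤ p.2.1 ∧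
    (∀ l, (A l * p.1).trace = p.2.1 * b l + p.2.2.1 * r l) ∧ p.1.trace + p.2.1 = 1 ∧
    p.2.2.2 ⬝ᵥ p.2.2.2 = 1}
  have c1 : Continuous fun p : T => p.1 := continuous_fst
  have c2 : Continuous fun p : T => p.2.1 := continuous_fst.comp continuous_snd
  have c3 : Continuous fun p : T => p.2.2.1 :=
    continuous_fst.comp (continuous_snd.comp continuous_snd)
  have c4 : Continuous fun p : T => p.2.2.2 :=
    continuous_snd.comp (continuous_snd.comp continuous_snd)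
  have hScl : IsClosed S := by
    refine IsClosed.inter (isClosed_psd.preimage c1) ?_
    refine IsClosed.inter (isClosed_le continuous_const c3) ?_
    refine IsClosed.inter (isClosed_le c3 c2) ?_
    refine IsClosed.inter ?_ ?_
    · have hcl : IsClosed (⋂ l, {p : T | (A l * p.1).trace = p.2.1 * b l + p.2.2.1 * r l}) := by
        refine isClosed_iInter fun l => isClosed_eq ?_ ?_
        · exact (continuous_const.matrix_mul c1).matrix_trace
        · exact (c2.mul continuous_const).add (c3.mul continuous_const)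
      have he : (⋂ l, {p : T | (A l * p.1).trace = p.2.1 * b l + p.2.2.1 * r l}) =
          {p : T | ∀ l, (A l * p.1).trace = p.2.1 * b l + p.2.2.1 * r l} := by
        ext p
        rw [Set.mem_iInter]
        rfl
      rw [he] at hcl
      exact hcl
    refine IsClosed.inter ?_ ?_
    · exact isClosed_eq (c1.matrix_trace.add c2) continuous_const
    · exact isClosed_eq (c4.dotProduct c4) continuous_const
  let BM : Set (Matrix (Fin n) (Fin n) ℝ) :=
    Set.univ.pi fun _ => Set.univ.pi fun _ => Set.Icc (-1 : ℝ) 1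
  have hBM : IsCompact BM := isCompact_univ_pi fun _ => isCompact_univ_pi fun _ => isCompact_Icc
  let BV : Set (Fin m → ℝ) := Set.univ.pi fun _ => Set.Icc (-1 : ℝ) 1
  have hBV : IsCompact BV := isCompact_univ_pi fun _ => isCompact_Icc
  have hSc : IsCompact S := by
    refine IsCompact.of_isClosed_subset (hBM.prod ((isCompact_Icc (a := (0 : ℝ)) (b := 1)).prod
      ((isCompact_Icc (a := (0 : ℝ)) (b := 1)).prod hBV))) hScl ?_
    rintro ⟨Y, θ, σ, e⟩ ⟨p1, p2, p3, p4, p5, p6⟩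
    simp only at p1 p2 p3 p4 p5 p6
    have htr := p1.trace_nonneg
    refine ⟨?_, ⟨p2.trans p3, by linarith⟩, ⟨p2, by linarith⟩, ?_⟩
    · intro i _ j _
      have := psd_entry p1 i j
      exact abs_le.1 (this.trans (by linarith))
    · intro l _
      have h1 : e l * e l ≤ e ⬝ᵥ e :=
        Finset.single_le_sum (f := fun l => e l * e l) (fun j _ => mul_self_nonneg _)
          (Finset.mem_univ l)
      rw [p6] at h1
      exact abs_le.1 (abs_le_of_sq_le_sq (by simpa [sq] using h1) zero_le_one)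
  let g : T → ℝ := fun p => (Sm A p.2.2.2 * p.1 * Sm A p.2.2.2).trace
  have hSmc : Continuous fun p : T => Sm A p.2.2.2 := by
    unfold Sm
    refine continuous_finsetSum _ fun l _ => ?_
    exact ((continuous_apply l).comp c4).smul continuous_const
  have hg : Continuous g := ((hSmc.matrix_mul c1).matrix_mul hSmc).matrix_trace
  have hgpos : ∀ p ∈ S, 0 < g p := by
    rintro ⟨Y, θ, σ, e⟩ ⟨p1, p2, p3, p4, p5, p6⟩
    simp only at p1 p2 p3 p4 p5 p6
    obtain ⟨q1, q2⟩ := trace_sandwich (S := Sm A e) p1 (Sm_symm h.symm e)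
    refine lt_of_le_of_ne q1 fun hh => ?_
    have h3 := h.hom p1 p2 p3 p4 (by rw [p5]; exact one_pos) (q2 hh.symm)
    rw [h3] at p6
    simp at p6
  have hmin : ∃ c0 : ℝ, 0 < c0 ∧ ∀ p ∈ S, c0 ≤ g p := by
    rcases S.eq_empty_or_nonempty with hS | hS
    · exact ⟨1, one_pos, fun p hp => by rw [hS] at hp; exact absurd hp (Set.notMem_empty _)⟩
    · obtain ⟨p, hp, hpm⟩ := hSc.exists_isMinOn hS hg.continuousOn
      exact ⟨g p, hgpos p hp, fun q hq => hpm hq⟩
  obtain ⟨c0, hc0, hmin⟩ := hmin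
  refine ⟨c0, hc0, fun s hs Y hY hAY e => ?_⟩
  rw [gram_quad]
  have htr := hY.trace_nonneg
  have hk : 0 < Y.trace + 1 := by linarith
  by_cases he : e = 0
  · subst he
    rw [dotProduct_zero, mul_zero]
    exact (trace_sandwich hY (Sm_symm h.symm 0)).1
  · have hee : 0 < e ⬝ᵥ e := by
      have h1 : 0 ≤ e ⬝ᵥ e := Finset.sum_nonneg fun l _ => mul_self_nonneg _
      refine lt_of_le_of_ne h1 fun hh => he (dotProduct_self_eq_zero.1 hh.symm)
    set ν : ℝ := Real.sqrt (e ⬝ᵥ e) with hν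
    have hνpos : 0 < ν := Real.sqrt_pos.2 hee
    have hν2 : ν * ν = e ⬝ᵥ e := Real.mul_self_sqrt hee.le
    set κ : ℝ := Y.trace + 1 with hκ
    have hmem : ((κ⁻¹ • Y, κ⁻¹, s * κ⁻¹, ν⁻¹ • e) : T) ∈ S := by
      refine ⟨hY.smul (inv_nonneg.2 hk.le), mul_nonneg hs.1 (inv_nonneg.2 hk.le), ?_, ?_, ?_, ?_⟩
      · exact mul_le_of_le_one_left (inv_nonneg.2 hk.le) hs.2
      · intro l
        change (A l * (κ⁻¹ • Y)).trace = κ⁻¹ * b l + s * κ⁻¹ * r l
        rw [Matrix.mul_smul, Matrix.trace_smul, hAY, smul_eq_mul]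
        ring
      · change (κ⁻¹ • Y).trace + κ⁻¹ = 1
        rw [Matrix.trace_smul, smul_eq_mul]
        have : κ⁻¹ * Y.trace + κ⁻¹ = κ⁻¹ * κ := by rw [hκ]; ring
        rw [this, inv_mul_cancel₀ hk.ne']
      · change (ν⁻¹ • e) ⬝ᵥ (ν⁻¹ • e) = 1
        rw [smul_dotProduct, dotProduct_smul, smul_eq_mul, smul_eq_mul, ← hν2]
        field_simp
    have h1 := hmin _ hmem
    have hSm : Sm A (ν⁻¹ • e) = ν⁻¹ • Sm A e := by
      rw [Sm, Sm, Finset.smul_sum]
      exact Finset.sum_congr rfl fun l _ => by rw [Pi.smul_apply, smul_eq_mul, smul_smul]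
    have h2 : g ((κ⁻¹ • Y, κ⁻¹, s * κ⁻¹, ν⁻¹ • e) : T) =
        ν⁻¹ * (κ⁻¹ * (ν⁻¹ * (Sm A e * Y * Sm A e).trace)) := by
      change (Sm A (ν⁻¹ • e) * (κ⁻¹ • Y) * Sm A (ν⁻¹ • e)).trace = _
      rw [hSm]
      simp only [Matrix.smul_mul, Matrix.mul_smul, Matrix.trace_smul, smul_eq_mul]
    rw [h2] at h1
    have h3 : ν⁻¹ * (κ⁻¹ * (ν⁻¹ * (Sm A e * Y * Sm A e).trace)) =
        (Sm A e * Y * Sm A e).trace / (κ * (ν * ν)) := by
      field_simp
    rw [h3, le_div_iff₀ (by positivity), hν2] at h1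
    linarith

end nondeg

end Pool.Agent.Lib.MP_e757b3_ae
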