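import Pool.Agent.Lib.MP_e757b3_ae.NB

open Matrix Filter Topology

namespace Pool.Agent.Lib.MP_e757b3_ae

lemma anti_of_deriv {f f' : ℝ → ℝ} {D : Set ℝ} (hD : Convex ℝ D)
    (hf : ∀ t ∈ D, HasDerivAt f (f' t) t) (h : ∀ t ∈ D, f' t ≤ 0) : AntitoneOn f D := by
  refine antitoneOn_of_deriv_nonpos hD (fun t ht => (hf t ht).continuousAt.continuousWithinAt)
    (fun t ht => (hf t (interior_subset ht)).differentiableAt.differentiableWithinAt)
    (fun t ht => ?_)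
  rw [(hf t (interior_subset ht)).deriv]
  exact h t (interior_subset ht)

lemma const_of_hasDerivAt {f : ℝ → ℝ} {D : Set ℝ} (hD : Convex ℝ D)
    (hf : ∀ t ∈ D, HasDerivAt f 0 t) {s t : ℝ} (hs : s ∈ D) (ht : t ∈ D) : f t = f s := by
  have h1 := anti_of_deriv (f := f) (f' := fun _ => 0) hD hf (fun _ _ => le_rfl)
  have h2 := anti_of_deriv (f := fun x => - f x) (f' := fun _ => 0) hD
    (fun t ht => by simpa using (hf t ht).fun_neg) (fun _ _ => le_rfl)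
  rcases le_total s t with h | h
  · have e1 := h1 hs ht h
    have e2 := h2 hs ht h
    simp only at e2
    linarith
  · have e1 := h1 ht hs h
    have e2 := h2 ht hs h
    simp only at e2
    linarith

section compactset

variable {n m : ℕ} {A : Fin m → Matrix (Fin n) (Fin n) ℝ} {b r : Fin m → ℝ}

/-- The compact set in which the solution stays. -/
def KSet (A : Fin m → Matrix (Fin n) (Fin n) ℝ) (b r : Fin m → ℝ) (c : ℝ) :
    Set (Matrix (Fin n) (Fin n) ℝ) :=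
  {Z | ∃ s ∈ Set.Icc (0 : ℝ) 1, (∀ l, (A l * (Z * Zᵀ)).trace = b l + s * r l) ∧
    (Z * Zᵀ).trace ≤ c}

lemma entry_sq_le (Z : Matrix (Fin n) (Fin n) ℝ) (i j : Fin n) :
    Z i j ^ 2 ≤ (Z * Zᵀ).trace := by
  have h1 : (Z * Zᵀ).trace = ∑ i, ∑ j, Z i j * Z i j := by
    simp only [Matrix.trace, Matrix.diag_apply, Matrix.mul_apply, Matrix.transpose_apply]
  rw [h1]
  calc Z i j ^ 2 = Z i j * Z i j := sq _
    _ ≤ ∑ j, Z i j * Z i j :=
        Finset.single_le_sum (f := fun j => Z i j * Z i j) (fun _ _ => mul_self_nonneg _)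
          (Finset.mem_univ j)
    _ ≤ ∑ i, ∑ j, Z i j * Z i j :=
        Finset.single_le_sum (f := fun i => ∑ j, Z i j * Z i j)
          (fun _ _ => Finset.sum_nonneg fun _ _ => mul_self_nonneg _) (Finset.mem_univ i)

lemma isCompact_KSet (c : ℝ) : IsCompact (KSet A b r c) := by
  let T : Type := Matrix (Fin n) (Fin n) ℝ × ℝ
  let S : Set T := {p | (0 ≤ p.2 ∧ p.2 ≤ 1) ∧ (∀ l, (A l * (p.1 * p.1ᵀ)).trace = b l + p.2 * r l) ∧
    (p.1 * p.1ᵀ).trace ≤ c}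
  have c1 : Continuous fun p : T => p.1 := continuous_fst
  have c2 : Continuous fun p : T => p.2 := continuous_snd
  have c3 : Continuous fun p : T => p.1 * p.1ᵀ := c1.matrix_mul c1.matrix_transpose
  have hScl : IsClosed S := by
    refine IsClosed.inter ?_ (IsClosed.inter ?_ ?_)
    · exact IsClosed.inter (isClosed_le continuous_const c2) (isClosed_le c2 continuous_const)
    · have hcl : IsClosed (⋂ l, {p : T | (A l * (p.1 * p.1ᵀ)).trace = b l + p.2 * r l}) := by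
        refine isClosed_iInter fun l => isClosed_eq ?_ ?_
        · exact (continuous_const.matrix_mul c3).matrix_trace
        · exact continuous_const.add (c2.mul continuous_const)
      have he : (⋂ l, {p : T | (A l * (p.1 * p.1ᵀ)).trace = b l + p.2 * r l}) =
          {p : T | ∀ l, (A l * (p.1 * p.1ᵀ)).trace = b l + p.2 * r l} := by
        ext p
        rw [Set.mem_iInter]
        rfl
      rw [he] at hcl
      exact hcl
    · exact isClosed_le c3.matrix_trace continuous_const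
  let w : ℝ := Real.sqrt c
  let BM : Set (Matrix (Fin n) (Fin n) ℝ) :=
    Set.univ.pi fun _ => Set.univ.pi fun _ => Set.Icc (-w) w
  have hBM : IsCompact BM := isCompact_univ_pi fun _ => isCompact_univ_pi fun _ => isCompact_Icc
  have hSc : IsCompact S := by
    refine IsCompact.of_isClosed_subset (hBM.prod (isCompact_Icc (a := (0 : ℝ)) (b := 1))) hScl ?_
    rintro ⟨Z, s⟩ ⟨p1, -, p3⟩
    refine ⟨?_, p1⟩
    intro i _ j _
    have h1 := (entry_sq_le Z i j).trans p3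
    exact abs_le.1 (Real.abs_le_sqrt h1)
  have himg : KSet A b r c = Prod.fst '' S := by
    ext Z
    constructor
    · rintro ⟨s, hs, h1, h2⟩
      exact ⟨(Z, s), ⟨hs, h1, h2⟩, rfl⟩
    · rintro ⟨⟨Z', s⟩, ⟨hs, h1, h2⟩, rfl⟩
      exact ⟨s, hs, h1, h2⟩
  rw [himg]
  exact hSc.image continuous_fst

lemma gram_det_ne {c0 : ℝ} (hc0 : 0 < c0) {Y : Matrix (Fin n) (Fin n) ℝ} (hY : Y.PosSemidef)
    (h : ∀ e : Fin m → ℝ, c0 * (Y.trace + 1) * (e ⬝ᵥ e) ≤ e ⬝ᵥ (gramM A Y *ᵥ e)) :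
    (gramM A Y).det ≠ 0 := by
  intro hdet
  obtain ⟨e, he, hz⟩ := Matrix.exists_mulVec_eq_zero_iff.2 hdet
  have h1 := h e
  rw [hz, dotProduct_zero] at h1
  have h2 : 0 ≤ e ⬝ᵥ e := Finset.sum_nonneg fun l _ => mul_self_nonneg _
  have h3 : 0 < e ⬝ᵥ e := lt_of_le_of_ne h2 fun hh => he (dotProduct_self_eq_zero.1 hh.symm)
  have h4 := hY.trace_nonneg
  have h5 : 0 < c0 * (Y.trace + 1) * (e ⬝ᵥ e) := by positivity
  linarith

/-- The bound for the multiplier. -/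
lemma lam_bound {c0 : ℝ} (hc0 : 0 < c0) {Y : Matrix (Fin n) (Fin n) ℝ} (hY : Y.PosSemidef)
    (h : ∀ e : Fin m → ℝ, c0 * (Y.trace + 1) * (e ⬝ᵥ e) ≤ e ⬝ᵥ (gramM A Y *ᵥ e)) :
    lamv A b Y ⬝ᵥ lamv A b Y ≤ (b ⬝ᵥ b) / c0 ^ 2 := by
  have hdet := gram_det_ne hc0 hY h
  have h1 := h (lamv A b Y)
  rw [lam_spec hdet] at h1
  set L := lamv A b Y
  have h2 := hY.trace_nonneg
  have h3 : 0 ≤ L ⬝ᵥ L := Finset.sum_nonneg fun l _ => mul_self_nonneg _
  have hb : 0 ≤ b ⬝ᵥ b := Finset.sum_nonneg fun l _ => mul_self_nonneg _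
  have h4 : c0 * (L ⬝ᵥ L) ≤ L ⬝ᵥ b := by
    have : c0 * (L ⬝ᵥ L) ≤ c0 * (Y.trace + 1) * (L ⬝ᵥ L) := by
      have : 0 ≤ c0 * Y.trace * (L ⬝ᵥ L) := by positivity
      nlinarith
    linarith
  have h5 : (L ⬝ᵥ b) ^ 2 ≤ (L ⬝ᵥ L) * (b ⬝ᵥ b) := by
    have := Finset.sum_mul_sq_le_sq_mul_sq Finset.univ L b
    simpa [dotProduct, sq] using this
  rw [le_div_iff₀ (by positivity)]
  rcases h3.eq_or_lt with h6 | h6
  · rw [← h6]; simpa using hb
  · have h7 : (c0 * (L ⬝ᵥ L)) ^ 2 ≤ (L ⬝ᵥ L) * (b ⬝ᵥ b) :=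
      (pow_le_pow_left₀ (by positivity) h4 2).trans h5
    have h8 : (L ⬝ᵥ L) * ((L ⬝ᵥ L) * c0 ^ 2) ≤ (L ⬝ᵥ L) * (b ⬝ᵥ b) := by
      calc (L ⬝ᵥ L) * ((L ⬝ᵥ L) * c0 ^ 2) = (c0 * (L ⬝ᵥ L)) ^ 2 := by ring
        _ ≤ _ := h7
    exact le_of_mul_le_mul_left h8 h6

lemma dot_le_half (u v : Fin m → ℝ) : |u ⬝ᵥ v| ≤ (u ⬝ᵥ u + v ⬝ᵥ v) / 2 := by
  have h1 : 0 ≤ (u - v) ⬝ᵥ (u - v) := Finset.sum_nonneg fun l _ => mul_self_nonneg _
  have h2 : 0 ≤ (u + v) ⬝ᵥ (u + v) := Finset.sum_nonneg fun l _ => mul_self_nonneg _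
  rw [sub_dotProduct, dotProduct_sub, dotProduct_sub, dotProduct_comm v u] at h1
  rw [add_dotProduct, dotProduct_add, dotProduct_add, dotProduct_comm v u] at h2
  rw [abs_le]
  constructor <;> linarith

end compactset

section deriv

open scoped Matrix.Norms.Operator

variable {n m : ℕ} {A : Fin m → Matrix (Fin n) (Fin n) ℝ} {b r : Fin m → ℝ}

lemma hasDerivAt_transpose {Z : ℝ → Matrix (Fin n) (Fin n) ℝ} {Z' : Matrix (Fin n) (Fin n) ℝ}
    {t : ℝ} (h : HasDerivAt Z Z' t) : HasDerivAt (fun s => (Z s)ᵀ) Z'ᵀ t :=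
  ((Matrix.transposeLinearEquiv (Fin n) (Fin n) ℝ ℝ).toLinearMap.toContinuousLinearMap).hasFDerivAt.comp_hasDerivAt t h

lemma hasDerivAt_trace_mul {Y : ℝ → Matrix (Fin n) (Fin n) ℝ} {Y' : Matrix (Fin n) (Fin n) ℝ}
    {t : ℝ} (h : HasDerivAt Y Y' t) (Q : Matrix (Fin n) (Fin n) ℝ) :
    HasDerivAt (fun s => (Q * Y s).trace) (Q * Y').trace t := by
  let T : Matrix (Fin n) (Fin n) ℝ →ₗ[ℝ] ℝ :=
    { toFun := fun Y => (Q * Y).trace
      map_add' := fun Y Y' => by rw [Matrix.mul_add, Matrix.trace_add]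
      map_smul' := fun c Y => by
        rw [Matrix.mul_smul, Matrix.trace_smul]; rfl }
  exact T.toContinuousLinearMap.hasFDerivAt.comp_hasDerivAt t h

lemma hasDerivAt_ZZt (hA : ∀ l, (A l).IsSymm) {Z : ℝ → Matrix (Fin n) (Fin n) ℝ} {t : ℝ}
    (h : HasDerivAt Z (fZ A b (Z t)) t) :
    HasDerivAt (fun s => Z s * (Z s)ᵀ) (gY A b (Z t * (Z t)ᵀ)) t := by
  have h1 := h.mul (hasDerivAt_transpose h)
  have hS : (SS A b (Z t * (Z t)ᵀ))ᵀ = SS A b (Z t * (Z t)ᵀ) := Sm_symm hA _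
  have e : fZ A b (Z t) * (Z t)ᵀ + Z t * (fZ A b (Z t))ᵀ = gY A b (Z t * (Z t)ᵀ) := by
    rw [fZ, gY, Matrix.transpose_smul, Matrix.transpose_mul, Matrix.transpose_sub, hS,
      Matrix.transpose_one]
    set S := SS A b (Z t * (Z t)ᵀ)
    rw [Matrix.smul_mul, Matrix.mul_smul, ← smul_add, Matrix.sub_mul, Matrix.sub_mul,
      Matrix.mul_sub, Matrix.mul_sub]
    simp only [Matrix.one_mul, Matrix.mul_one, Matrix.mul_assoc]
    have : S * (Z t * (Z t)ᵀ) - Z t * (Z t)ᵀ + (Z t * ((Z t)ᵀ * S) - Z t * (Z t)ᵀ) =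
      (S * (Z t * (Z t)ᵀ) + Z t * ((Z t)ᵀ * S)) - (2 : ℝ) • (Z t * (Z t)ᵀ) := by
      rw [two_smul]; abel
    rw [this, smul_sub, smul_smul]
    norm_num
  rw [e] at h1
  exact h1

lemma trace_A_gY (hA : ∀ l, (A l).IsSymm) {Y : Matrix (Fin n) (Fin n) ℝ} (hY : Yᵀ = Y)
    (hdet : (gramM A Y).det ≠ 0) (l : Fin m) :
    (A l * gY A b Y).trace = b l - (A l * Y).trace := by
  have h1 := congrFun (lam_spec (b := b) hdet) l
  rw [gram_mulVec] at h1
  have h2 := trace_swap hA hY (lamv A b Y) l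
  rw [gY, Matrix.mul_sub, Matrix.trace_sub, Matrix.mul_smul, Matrix.trace_smul, Matrix.mul_add,
    Matrix.trace_add, ← Matrix.mul_assoc, ← Matrix.mul_assoc, SS, h2, h1, smul_eq_mul]
  ring

lemma trace_gY {Y : Matrix (Fin n) (Fin n) ℝ} :
    (gY A b Y).trace = (SS A b Y * Y).trace - Y.trace := by
  rw [gY, Matrix.trace_sub, Matrix.trace_smul, Matrix.trace_add,
    Matrix.trace_mul_comm Y (SS A b Y), smul_eq_mul]
  ring

end deriv

end Pool.Agent.Lib.MP_e757b3_ae
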