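import Pool.Agent.Lib.MP_e757b3_ae.NC

open Matrix Filter Topology

namespace Pool.Agent.Lib.MP_e757b3_ae

section exist

open scoped Matrix.Norms.Operator

variable {n m : ℕ} {A : Fin m → Matrix (Fin n) (Fin n) ℝ} {b r : Fin m → ℝ}

/-- Global existence of the factor flow, with the invariants. -/
lemma NDeg.exists_flow (h : NDeg A b r) (Z0 : Matrix (Fin n) (Fin n) ℝ)
    (hr : ∀ l, (A l * (Z0 * Z0ᵀ)).trace = b l + r l) :
    ∃ (Z : ℝ → Matrix (Fin n) (Fin n) ℝ) (c : ℝ), Z 0 = Z0 ∧ ∀ t, 0 ≤ t →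
      HasDerivAt Z (fZ A b (Z t)) t ∧ (gramM A (Z t * (Z t)ᵀ)).det ≠ 0 ∧
      (∀ l, (A l * (Z t * (Z t)ᵀ)).trace = b l + Real.exp (-t) * r l) ∧
      (Z t * (Z t)ᵀ).trace ≤ c := by
  obtain ⟨c0, hc0, hbd⟩ := h.bound
  set C1 : ℝ := ((b ⬝ᵥ b) / c0 ^ 2 + (2 * (b ⬝ᵥ b) + 2 * (r ⬝ᵥ r))) / 2 with hC1
  set c : ℝ := max (Z0 * Z0ᵀ).trace C1 with hc
  have hSbound : ∀ s ∈ Set.Icc (0 : ℝ) 1, ∀ Y : Matrix (Fin n) (Fin n) ℝ, Y.PosSemidef →
      (∀ l, (A l * Y).trace = b l + s * r l) → (SS A b Y * Y).trace ≤ C1 := by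
    intro s hs Y hY hAY
    have h1 := lam_bound (b := b) hc0 hY (hbd s hs Y hY hAY)
    have h2 : (SS A b Y * Y).trace = lamv A b Y ⬝ᵥ (b + s • r) := by
      rw [SS, trace_Sm_mul]
      exact Finset.sum_congr rfl fun l _ => by rw [hAY]; rfl
    have h3 := (abs_le.1 (dot_le_half (lamv A b Y) (b + s • r))).2
    have h4 : (b + s • r) ⬝ᵥ (b + s • r) ≤ 2 * (b ⬝ᵥ b) + 2 * (r ⬝ᵥ r) := by
      have e1 : 0 ≤ (b - s • r) ⬝ᵥ (b - s • r) := Finset.sum_nonneg fun l _ => mul_self_nonneg _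
      have e2 : (b + s • r) ⬝ᵥ (b + s • r) + (b - s • r) ⬝ᵥ (b - s • r) =
          2 * (b ⬝ᵥ b) + 2 * (s ^ 2 * (r ⬝ᵥ r)) := by
        simp only [add_dotProduct, dotProduct_add, sub_dotProduct, dotProduct_sub,
          smul_dotProduct, dotProduct_smul, smul_eq_mul]
        ring
      have e3 : s ^ 2 ≤ 1 := pow_le_one₀ hs.1 hs.2
      have e4 : 0 ≤ r ⬝ᵥ r := Finset.sum_nonneg fun l _ => mul_self_nonneg _
      have e5 : s ^ 2 * (r ⬝ᵥ r) ≤ r ⬝ᵥ r := mul_le_of_le_one_left e4 e3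
      linarith
    rw [h2, hC1]
    linarith
  let U : Set (Matrix (Fin n) (Fin n) ℝ) := {Z | (gramM A (Z * Zᵀ)).det ≠ 0}
  have hUo : IsOpen U := isOpen_gram.preimage contDiff_ZZt.continuous
  let Q : ℝ → Matrix (Fin n) (Fin n) ℝ → Prop := fun t Z =>
    (∀ l, (A l * (Z * Zᵀ)).trace = b l + Real.exp (-t) * r l) ∧ (Z * Zᵀ).trace ≤ c
  have hQc : IsClosed {p : ℝ × Matrix (Fin n) (Fin n) ℝ | Q p.1 p.2} := by
    have c3 : Continuous fun p : ℝ × Matrix (Fin n) (Fin n) ℝ => p.2 * p.2ᵀ :=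
      contDiff_ZZt.continuous.comp continuous_snd
    have hcl : IsClosed (⋂ l, {p : ℝ × Matrix (Fin n) (Fin n) ℝ |
        (A l * (p.2 * p.2ᵀ)).trace = b l + Real.exp (-p.1) * r l}) := by
      refine isClosed_iInter fun l => isClosed_eq ?_ ?_
      · exact (continuous_const.matrix_mul c3).matrix_trace
      · exact continuous_const.add
          ((Real.continuous_exp.comp continuous_fst.neg).mul continuous_const)
    have hcl2 := hcl.inter (isClosed_le c3.matrix_trace (continuous_const (y := c)))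
    have he : {p : ℝ × Matrix (Fin n) (Fin n) ℝ | Q p.1 p.2} =
        (⋂ l, {p : ℝ × Matrix (Fin n) (Fin n) ℝ |
        (A l * (p.2 * p.2ᵀ)).trace = b l + Real.exp (-p.1) * r l}) ∩
        {p | (p.2 * p.2ᵀ).trace ≤ c} := by
      ext p
      rw [Set.mem_inter_iff, Set.mem_iInter]
      rfl
    rw [he]
    exact hcl2
  have hexp : ∀ t : ℝ, 0 ≤ t → Real.exp (-t) ∈ Set.Icc (0 : ℝ) 1 := fun t ht =>
    ⟨(Real.exp_pos _).le, Real.exp_le_one_iff.2 (by linarith)⟩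
  have hQK : ∀ t, 0 ≤ t → ∀ Z, Q t Z → Z ∈ KSet A b r c := fun t ht Z hZ =>
    ⟨Real.exp (-t), hexp t ht, hZ.1, hZ.2⟩
  have hKU : KSet A b r c ⊆ U := by
    rintro Z ⟨s, hs, h1, -⟩
    exact gram_det_ne hc0 (psd_mul_transpose_self Z) (hbd s hs _ (psd_mul_transpose_self Z) h1)
  have hQ0 : Q 0 Z0 := by
    refine ⟨fun l => ?_, le_max_left _ _⟩
    rw [neg_zero, Real.exp_zero, one_mul, hr]
  obtain ⟨Z, hZ0, hZ⟩ := exists_global_of_invariant (f := fZ A b) hUo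
    (fun Z hZ => contDiffAt_fZ hZ) (isCompact_KSet c) hKU hQc hQK hQ0 (by
    intro γ t0 T ht0 hQt0 hγ
    have hconv : Convex ℝ (Set.Ico t0 T) := convex_Ico t0 T
    have hYd : ∀ t ∈ Set.Ico t0 T, HasDerivAt (fun s => γ s * (γ s)ᵀ)
        (gY A b (γ t * (γ t)ᵀ)) t := fun t ht => hasDerivAt_ZZt h.symm (hγ t ht).1
    have hYs : ∀ t, (γ t * (γ t)ᵀ)ᵀ = γ t * (γ t)ᵀ := fun t => by
      rw [Matrix.transpose_mul, Matrix.transpose_transpose]
    have hlin : ∀ t ∈ Set.Ico t0 T, ∀ l, (A l * (γ t * (γ t)ᵀ)).trace =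
        b l + Real.exp (-t) * r l := by
      intro t ht l
      have ht00 : t0 ∈ Set.Ico t0 T := ⟨le_rfl, ht.1.trans_lt ht.2⟩
      have hd : ∀ s ∈ Set.Ico t0 T, HasDerivAt
          (fun s => Real.exp s * ((A l * (γ s * (γ s)ᵀ)).trace - b l)) 0 s := by
        intro s hs
        have e1 := (Real.hasDerivAt_exp s).mul
          ((hasDerivAt_trace_mul (hYd s hs) (A l)).sub_const (b l))
        have e2 := trace_A_gY (b := b) h.symm (hYs s) (hγ s hs).2 l
        rw [e2] at e1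
        have e3 : Real.exp s * ((A l * (γ s * (γ s)ᵀ)).trace - b l) +
            Real.exp s * (b l - (A l * (γ s * (γ s)ᵀ)).trace) = 0 := by ring
        rw [e3] at e1
        exact e1
      have h1 := const_of_hasDerivAt hconv hd ht00 ht
      have h2 : Real.exp t0 * ((A l * (γ t0 * (γ t0)ᵀ)).trace - b l) = r l := by
        rw [hQt0.1 l, add_sub_cancel_left, ← mul_assoc, ← Real.exp_add]
        simp
      rw [h2] at h1
      have h3 : Real.exp (-t) * (Real.exp t * ((A l * (γ t * (γ t)ᵀ)).trace - b l)) =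
          (A l * (γ t * (γ t)ᵀ)).trace - b l := by
        rw [← mul_assoc, ← Real.exp_add]; simp
      rw [h1] at h3
      linarith
    intro t ht
    refine ⟨hlin t ht, ?_⟩
    have ht00 : t0 ∈ Set.Ico t0 T := ⟨le_rfl, ht.1.trans_lt ht.2⟩
    have hd : ∀ s ∈ Set.Ico t0 T, HasDerivAt
        (fun s => Real.exp s * ((γ s * (γ s)ᵀ).trace - c))
        (Real.exp s * ((SS A b (γ s * (γ s)ᵀ) * (γ s * (γ s)ᵀ)).trace - c)) s := by
      intro s hs
      have e0 := hasDerivAt_trace_mul (hYd s hs) (1 : Matrix (Fin n) (Fin n) ℝ)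
      simp only [Matrix.one_mul] at e0
      have e1 := (Real.hasDerivAt_exp s).mul (e0.sub_const c)
      rw [trace_gY] at e1
      have e3 : Real.exp s * ((γ s * (γ s)ᵀ).trace - c) +
          Real.exp s * ((SS A b (γ s * (γ s)ᵀ) * (γ s * (γ s)ᵀ)).trace - (γ s * (γ s)ᵀ).trace) =
          Real.exp s * ((SS A b (γ s * (γ s)ᵀ) * (γ s * (γ s)ᵀ)).trace - c) := by ring
      rw [e3] at e1
      exact e1
    have hanti := anti_of_deriv hconv hd (fun s hs => by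
      have hs0 : 0 ≤ s := ht0.trans hs.1
      have e1 := hSbound _ (hexp s hs0) _ (psd_mul_transpose_self (γ s)) (hlin s hs)
      have e2 : C1 ≤ c := le_max_right _ _
      exact mul_nonpos_of_nonneg_of_nonpos (Real.exp_pos _).le (by linarith))
    have h1 := hanti ht00 ht ht.1
    simp only at h1
    have h2 : Real.exp t0 * ((γ t0 * (γ t0)ᵀ).trace - c) ≤ 0 :=
      mul_nonpos_of_nonneg_of_nonpos (Real.exp_pos _).le (by linarith [hQt0.2])
    have h3 := h1.trans h2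
    have h4 : (γ t * (γ t)ᵀ).trace - c ≤ 0 := by
      by_contra hcon
      have := mul_pos (Real.exp_pos t) (not_le.1 hcon)
      linarith
    linarith)
  refine ⟨Z, c, hZ0, fun t ht => ?_⟩
  obtain ⟨h1, h2, h3⟩ := hZ t ht
  exact ⟨h1, hKU (hQK t ht _ ⟨h2, h3⟩), h2, h3⟩

end exist

end Pool.Agent.Lib.MP_e757b3_ae
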