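import Pool.Agent.Lib.MP_e757b3_ae.ND

open Matrix Filter Topology

namespace Pool.Agent.Lib.MP_e757b3_ae

section vec

variable {n : ℕ}

lemma mulVec_dot_le (M : Matrix (Fin n) (Fin n) ℝ) (x : Fin n → ℝ) :
    (M *ᵥ x) ⬝ᵥ (M *ᵥ x) ≤ (M * Mᵀ).trace * (x ⬝ᵥ x) := by
  have h1 : (M * Mᵀ).trace = ∑ i, ∑ j, M i j ^ 2 := by
    simp only [Matrix.trace, Matrix.diag_apply, Matrix.mul_apply, Matrix.transpose_apply, sq]
  have h2 : x ⬝ᵥ x = ∑ j, x j ^ 2 := by simp only [dotProduct, sq]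
  rw [h1, h2, Finset.sum_mul]
  simp only [dotProduct]
  refine Finset.sum_le_sum fun i _ => ?_
  have h3 := Finset.sum_mul_sq_le_sq_mul_sq Finset.univ (M i) x
  calc (M *ᵥ x) i * (M *ᵥ x) i = (∑ j, M i j * x j) ^ 2 := by
        rw [sq]; rfl
    _ ≤ _ := h3

lemma symm_dot {N : Matrix (Fin n) (Fin n) ℝ} (hN : Nᵀ = N) (x y : Fin n → ℝ) :
    x ⬝ᵥ (N *ᵥ y) = (N *ᵥ x) ⬝ᵥ y := by
  rw [Matrix.dotProduct_mulVec, ← Matrix.mulVec_transpose, hN]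

lemma hasDerivAt_quad {z : ℝ → Fin n → ℝ} {z' : Fin n → ℝ} {t : ℝ}
    (hz : ∀ i, HasDerivAt (fun s => z s i) (z' i) t) {N : Matrix (Fin n) (Fin n) ℝ}
    (hN : Nᵀ = N) :
    HasDerivAt (fun s => z s ⬝ᵥ (N *ᵥ z s)) (2 * ((N *ᵥ z t) ⬝ᵥ z')) t := by
  have h1 : ∀ i, HasDerivAt (fun s => (N *ᵥ z s) i) ((N *ᵥ z') i) t := by
    intro i
    have h0 : HasDerivAt (fun s => ∑ j, N i j * z s j) (∑ j, N i j * z' j) t :=
      HasDerivAt.fun_sum fun j _ => (hz j).const_mul _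
    exact h0
  have h2 : HasDerivAt (fun s => ∑ i, z s i * (N *ᵥ z s) i)
      (∑ i, (z' i * (N *ᵥ z t) i + z t i * (N *ᵥ z') i)) t :=
    HasDerivAt.fun_sum fun i _ => (hz i).mul (h1 i)
  have h3 : ∑ i, (z' i * (N *ᵥ z t) i + z t i * (N *ᵥ z') i) =
      2 * ((N *ᵥ z t) ⬝ᵥ z') := by
    rw [Finset.sum_add_distrib]
    have e1 : ∑ i, z' i * (N *ᵥ z t) i = (N *ᵥ z t) ⬝ᵥ z' := by
      rw [dotProduct_comm]; rfl
    have e2 : ∑ i, z t i * (N *ᵥ z') i = (N *ᵥ z t) ⬝ᵥ z' := by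
      rw [← symm_dot hN]; rfl
    rw [e1, e2]; ring
  rw [h3] at h2
  exact h2

end vec

section columns

open scoped Matrix.Norms.Operator

variable {n m : ℕ} {A : Fin m → Matrix (Fin n) (Fin n) ℝ} {b r : Fin m → ℝ}

lemma hasDerivAt_col {Z : ℝ → Matrix (Fin n) (Fin n) ℝ} {t : ℝ}
    (h : HasDerivAt Z (fZ A b (Z t)) t) (w : Fin n → ℝ) (i : Fin n) :
    HasDerivAt (fun s => (Z s *ᵥ w) i)
      (((1 / 2 : ℝ) • ((SS A b (Z t * (Z t)ᵀ) - 1) *ᵥ (Z t *ᵥ w))) i) t := by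
  let T : Matrix (Fin n) (Fin n) ℝ →ₗ[ℝ] ℝ :=
    { toFun := fun Y => (Y *ᵥ w) i
      map_add' := fun Y Y' => by rw [Matrix.add_mulVec]; rfl
      map_smul' := fun c Y => by rw [Matrix.smul_mulVec]; rfl }
  have h1 := T.toContinuousLinearMap.hasFDerivAt.comp_hasDerivAt t h
  have h2 : T (fZ A b (Z t)) =
      ((1 / 2 : ℝ) • ((SS A b (Z t * (Z t)ᵀ) - 1) *ᵥ (Z t *ᵥ w))) i := by
    change (fZ A b (Z t) *ᵥ w) i = _
    rw [fZ, Matrix.smul_mulVec, Matrix.mulVec_mulVec]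
  have h3 : HasDerivAt (fun s => (Z s *ᵥ w) i) (T (fZ A b (Z t))) t := h1
  rw [h2] at h3
  exact h3

/-- The derivative of a quadratic form of a column. -/
lemma hasDerivAt_col_quad {Z : ℝ → Matrix (Fin n) (Fin n) ℝ} {t : ℝ}
    (h : HasDerivAt Z (fZ A b (Z t)) t) (w : Fin n → ℝ) {N : Matrix (Fin n) (Fin n) ℝ}
    (hN : Nᵀ = N) :
    HasDerivAt (fun s => (Z s *ᵥ w) ⬝ᵥ (N *ᵥ (Z s *ᵥ w)))
      ((N *ᵥ (Z t *ᵥ w)) ⬝ᵥ ((SS A b (Z t * (Z t)ᵀ) - 1) *ᵥ (Z t *ᵥ w))) t := by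
  have h1 := hasDerivAt_quad (fun i => hasDerivAt_col h w i) hN
  have h2 : 2 * ((N *ᵥ (Z t *ᵥ w)) ⬝ᵥ ((1 / 2 : ℝ) •
      ((SS A b (Z t * (Z t)ᵀ) - 1) *ᵥ (Z t *ᵥ w)))) =
      (N *ᵥ (Z t *ᵥ w)) ⬝ᵥ ((SS A b (Z t * (Z t)ᵀ) - 1) *ᵥ (Z t *ᵥ w)) := by
    rw [dotProduct_smul, smul_eq_mul]; ring
  rw [h2] at h1
  exact h1

/-- The factor flow stays injective. -/
lemma flow_injective {Z : ℝ → Matrix (Fin n) (Fin n) ℝ} {K : ℝ}
    (hZ : ∀ t, 0 ≤ t → HasDerivAt Z (fZ A b (Z t)) t)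
    (hK : ∀ t, 0 ≤ t → (SS A b (Z t * (Z t)ᵀ) * (SS A b (Z t * (Z t)ᵀ))ᵀ).trace ≤ K)
    {w : Fin n → ℝ} (hw : Z 0 *ᵥ w ≠ 0) {t : ℝ} (ht : 0 ≤ t) : Z t *ᵥ w ≠ 0 := by
  set κ : ℝ := (1 + K) / 2 + 1 with hκ
  have h1 : AntitoneOn (fun s => -(Real.exp (κ * s) * ((Z s *ᵥ w) ⬝ᵥ
      ((1 : Matrix (Fin n) (Fin n) ℝ) *ᵥ (Z s *ᵥ w))))) (Set.Ici 0) := by
    refine anti_of_deriv (f' := fun s => -((Real.exp (κ * s) * κ) * ((Z s *ᵥ w) ⬝ᵥ
      ((1 : Matrix (Fin n) (Fin n) ℝ) *ᵥ (Z s *ᵥ w))) + Real.exp (κ * s) *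
      (((1 : Matrix (Fin n) (Fin n) ℝ) *ᵥ (Z s *ᵥ w)) ⬝ᵥ
        ((SS A b (Z s * (Z s)ᵀ) - 1) *ᵥ (Z s *ᵥ w))))) (convex_Ici 0) ?_ ?_
    · intro s hs
      have e1 : HasDerivAt (fun s => Real.exp (κ * s)) (Real.exp (κ * s) * κ) s := by
        have := ((hasDerivAt_id s).const_mul κ).exp
        simpa using this
      exact (e1.mul (hasDerivAt_col_quad (hZ s hs) w Matrix.transpose_one)).fun_neg
    · intro s hs
      have hKs := hK s hs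
      set S := SS A b (Z s * (Z s)ᵀ)
      set z := Z s *ᵥ w
      have e0 : 0 ≤ z ⬝ᵥ z := Finset.sum_nonneg fun l _ => mul_self_nonneg _
      have e1 := mulVec_dot_le S z
      have e2 := (abs_le.1 (dot_le_half z (S *ᵥ z))).1
      have e3 : (S *ᵥ z) ⬝ᵥ (S *ᵥ z) ≤ K * (z ⬝ᵥ z) :=
        e1.trans (mul_le_mul_of_nonneg_right hKs e0)
      simp only [Matrix.one_mulVec, Matrix.sub_mulVec, dotProduct_sub]
      have e4 : 0 ≤ κ * (z ⬝ᵥ z) + (z ⬝ᵥ (S *ᵥ z) - z ⬝ᵥ z) := by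
        rw [hκ]; nlinarith
      have e5 : -(Real.exp (κ * s) * κ * (z ⬝ᵥ z) + Real.exp (κ * s) *
          (z ⬝ᵥ (S *ᵥ z) - z ⬝ᵥ z)) =
          -(Real.exp (κ * s) * (κ * (z ⬝ᵥ z) + (z ⬝ᵥ (S *ᵥ z) - z ⬝ᵥ z))) := by ring
      rw [e5]
      exact neg_nonpos.2 (mul_nonneg (Real.exp_pos _).le e4)
  intro hcon
  have h2 := h1 (Set.self_mem_Ici) ht ht
  simp only [hcon, Matrix.one_mulVec, mul_zero, Real.exp_zero, one_mul, dotProduct_zero,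
    neg_zero] at h2
  have h3 : 0 < (Z 0 *ᵥ w) ⬝ᵥ (Z 0 *ᵥ w) := by
    have : 0 ≤ (Z 0 *ᵥ w) ⬝ᵥ (Z 0 *ᵥ w) := Finset.sum_nonneg fun l _ => mul_self_nonneg _
    exact lt_of_le_of_ne this fun hh => hw (dotProduct_self_eq_zero.1 hh.symm)
  linarith

end columns

section topo

/-- A relatively compact curve whose cluster points form a countable set converges. -/
lemma tendsto_of_countable_cluster {E : Type*} [MetricSpace E] {y : ℝ → E}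
    (hy : ContinuousOn y (Set.Ici 0)) {K : Set E} (hK : IsCompact K)
    (hyK : ∀ t, 0 ≤ t → y t ∈ K) {F : Set E} (hF : F.Countable)
    (hcl : ∀ z, MapClusterPt z atTop y → z ∈ F) : ∃ z ∈ F, Tendsto y atTop (𝓝 z) := by
  have hev : ∀ᶠ t in (atTop : Filter ℝ), y t ∈ K := by
    filter_upwards [eventually_ge_atTop (0 : ℝ)] with t ht using hyK t ht
  obtain ⟨a, -, ha⟩ := hK.exists_mapClusterPt (tendsto_principal.2 hev)
  refine ⟨a, hcl a ha, ?_⟩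
  refine hK.tendsto_nhds_of_unique_mapClusterPt hev fun b _ hb => ?_
  by_contra hab
  have hd : 0 < dist b a := dist_pos.2 hab
  have hfin : ((fun x => dist x a) '' F).Countable := hF.image _
  obtain ⟨ρ, hρ, hρF⟩ := (hfin.dense_compl ℝ).inter_open_nonempty (Set.Ioo 0 (dist b a))
    isOpen_Ioo (Set.nonempty_Ioo.2 hd)
  have hfa : ∃ᶠ t in (atTop : Filter ℝ), y t ∈ Metric.ball a ρ :=
    mapClusterPt_iff_frequently.1 ha _ (Metric.ball_mem_nhds a hρ.1)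
  have hfb : ∃ᶠ t in (atTop : Filter ℝ), y t ∈ Metric.ball b (dist b a - ρ) :=
    mapClusterPt_iff_frequently.1 hb _ (Metric.ball_mem_nhds b (by linarith [hρ.2]))
  have hsph : ∃ᶠ t in (atTop : Filter ℝ), y t ∈ K ∩ {x | dist x a = ρ} := by
    rw [frequently_atTop]
    intro T
    obtain ⟨t1, ht1, h1⟩ := frequently_atTop.1 hfa (max T 0)
    obtain ⟨t2, ht2, h2⟩ := frequently_atTop.1 hfb t1
    have ht10 : 0 ≤ t1 := (le_max_right _ _).trans ht1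
    have hm : ContinuousOn y (Set.Icc t1 t2) :=
      hy.mono fun t (ht : t ∈ Set.Icc t1 t2) => (ht10.trans ht.1 : (0 : ℝ) ≤ t)
    have hcont : ContinuousOn (fun t => dist (y t) a) (Set.Icc t1 t2) :=
      (continuous_id.dist continuous_const : Continuous fun x : E => dist x a).comp_continuousOn hm
    have h1' : dist (y t1) a < ρ := h1
    have h2' : ρ < dist (y t2) a := by
      have e1 : dist (y t2) b < dist b a - ρ := h2
      have e2 := dist_triangle b (y t2) a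
      rw [dist_comm b (y t2)] at e2
      linarith
    obtain ⟨t, ht, hte⟩ := intermediate_value_Icc ht2 hcont ⟨h1'.le, h2'.le⟩
    exact ⟨t, ((le_max_left _ _).trans ht1).trans ht.1, hyK t (ht10.trans ht.1), hte⟩
  have hKc : IsCompact (K ∩ {x | dist x a = ρ}) :=
    hK.inter_right (isClosed_eq (continuous_id.dist continuous_const) continuous_const)
  obtain ⟨z, hz, hzc⟩ := hKc.exists_mapClusterPt_of_frequently hsph
  exact hρF ⟨z, hcl z hzc, hz.2⟩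

end topo

end Pool.Agent.Lib.MP_e757b3_ae
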