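import Pool.Agent.Lib.MP_e757b3_ae.NE

open Matrix Filter Topology

namespace Pool.Agent.Lib.MP_e757b3_ae

section lasalle

open scoped Matrix.Norms.Operator

variable {n m : ℕ} {A : Fin m → Matrix (Fin n) (Fin n) ℝ} {b r : Fin m → ℝ}

/-- The dissipation. -/
noncomputable def DD (A : Fin m → Matrix (Fin n) (Fin n) ℝ) (b : Fin m → ℝ)
    (Z : Matrix (Fin n) (Fin n) ℝ) : ℝ :=
  ((1 - SS A b (Z * Zᵀ)) * (Z * Zᵀ) * (1 - SS A b (Z * Zᵀ))).trace

/-- The properties of the global factor flow. -/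
structure IsFlow (A : Fin m → Matrix (Fin n) (Fin n) ℝ) (b r : Fin m → ℝ) (c : ℝ)
    (Z : ℝ → Matrix (Fin n) (Fin n) ℝ) : Prop where
  der : ∀ t, 0 ≤ t → HasDerivAt Z (fZ A b (Z t)) t
  det : ∀ t, 0 ≤ t → (gramM A (Z t * (Z t)ᵀ)).det ≠ 0
  lin : ∀ t, 0 ≤ t → ∀ l, (A l * (Z t * (Z t)ᵀ)).trace = b l + Real.exp (-t) * r l
  tr : ∀ t, 0 ≤ t → (Z t * (Z t)ᵀ).trace ≤ c

lemma exp_neg_mem {t : ℝ} (ht : 0 ≤ t) : Real.exp (-t) ∈ Set.Icc (0 : ℝ) 1 :=
  ⟨(Real.exp_pos _).le, Real.exp_le_one_iff.2 (by linarith)⟩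

lemma IsFlow.mem_KSet {c : ℝ} {Z : ℝ → Matrix (Fin n) (Fin n) ℝ} (hZ : IsFlow A b r c Z)
    {t : ℝ} (ht : 0 ≤ t) : Z t ∈ KSet A b r c :=
  ⟨Real.exp (-t), exp_neg_mem ht, hZ.lin t ht, hZ.tr t ht⟩

lemma NDeg.KSet_det (h : NDeg A b r) {c : ℝ} {Z : Matrix (Fin n) (Fin n) ℝ}
    (hZ : Z ∈ KSet A b r c) : (gramM A (Z * Zᵀ)).det ≠ 0 := by
  obtain ⟨c0, hc0, hbd⟩ := h.bound
  obtain ⟨s, hs, h1, -⟩ := hZ
  exact gram_det_ne hc0 (psd_mul_transpose_self Z) (hbd s hs _ (psd_mul_transpose_self Z) h1)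

lemma continuousAt_SSZ {Z : Matrix (Fin n) (Fin n) ℝ} (h : (gramM A (Z * Zᵀ)).det ≠ 0) :
    ContinuousAt (fun Z : Matrix (Fin n) (Fin n) ℝ => SS A b (Z * Zᵀ)) Z :=
  ContinuousAt.comp (g := fun Y => SS A b Y) (contDiffAt_SS h).continuousAt
    contDiff_ZZt.continuous.continuousAt

lemma continuousAt_DD {Z : Matrix (Fin n) (Fin n) ℝ} (h : (gramM A (Z * Zᵀ)).det ≠ 0) :
    ContinuousAt (DD A b) Z := by
  have h1 := continuousAt_SSZ (b := b) h
  have h2 : ContinuousAt (fun Z : Matrix (Fin n) (Fin n) ℝ => Z * Zᵀ) Z :=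
    contDiff_ZZt.continuous.continuousAt
  have h3 : ContinuousAt (fun Z : Matrix (Fin n) (Fin n) ℝ =>
      (1 - SS A b (Z * Zᵀ)) * (Z * Zᵀ) * (1 - SS A b (Z * Zᵀ))) Z :=
    ((continuousAt_const.sub h1).mul h2).mul (continuousAt_const.sub h1)
  have h4 : Continuous fun M : Matrix (Fin n) (Fin n) ℝ => M.trace := continuous_id.matrix_trace
  exact h4.continuousAt.comp h3

lemma trace_gY_eq (hA : ∀ l, (A l).IsSymm) {Z : Matrix (Fin n) (Fin n) ℝ} {s : ℝ}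
    (hdet : (gramM A (Z * Zᵀ)).det ≠ 0)
    (hlin : ∀ l, (A l * (Z * Zᵀ)).trace = b l + s * r l) :
    (gY A b (Z * Zᵀ)).trace = - DD A b Z - s * (lamv A b (Z * Zᵀ) ⬝ᵥ r) := by
  set Y := Z * Zᵀ with hY
  set S := SS A b Y with hS
  have h1 : (S * Y).trace = lamv A b Y ⬝ᵥ b + s * (lamv A b Y ⬝ᵥ r) := by
    rw [hS, SS, trace_Sm_mul]
    simp only [hlin, dotProduct]
    rw [Finset.mul_sum, ← Finset.sum_add_distrib]
    exact Finset.sum_congr rfl fun l _ => by ring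
  have h2 : (S * Y * S).trace = lamv A b Y ⬝ᵥ b := by
    rw [hS, SS, ← gram_quad, lam_spec hdet]
  have h3 : DD A b Z = Y.trace - 2 * (S * Y).trace + (S * Y * S).trace := by
    rw [DD, ← hY, ← hS, Matrix.sub_mul, Matrix.sub_mul, Matrix.mul_sub, Matrix.mul_sub,
      Matrix.one_mul, Matrix.mul_one, Matrix.mul_one, Matrix.trace_sub, Matrix.trace_sub,
      Matrix.trace_sub, Matrix.trace_mul_comm Y S]
    ring
  rw [trace_gY, ← hS, h3, h2, h1]
  ring

lemma NDeg.DD_tendsto (h : NDeg A b r) {c : ℝ} {Z : ℝ → Matrix (Fin n) (Fin n) ℝ}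
    (hZ : IsFlow A b r c Z) : Tendsto (fun t => DD A b (Z t)) atTop (𝓝 0) := by
  obtain ⟨c0, hc0, hbd⟩ := h.bound
  set ρ : ℝ := ((b ⬝ᵥ b) / c0 ^ 2 + r ⬝ᵥ r) / 2 with hρ
  have hDDnn : ∀ Z, 0 ≤ DD A b Z := by
    intro Z
    refine (trace_sandwich (psd_mul_transpose_self Z) ?_).1
    rw [Matrix.transpose_sub, Matrix.transpose_one]
    exact congrArg _ (Sm_symm h.symm _)
  have hlam : ∀ t, 0 ≤ t → |lamv A b (Z t * (Z t)ᵀ) ⬝ᵥ r| ≤ ρ := by
    intro t ht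
    have h1 := lam_bound (b := b) hc0 (psd_mul_transpose_self (Z t))
      (hbd _ (exp_neg_mem ht) _ (psd_mul_transpose_self _) (hZ.lin t ht))
    have h2 := dot_le_half (lamv A b (Z t * (Z t)ᵀ)) r
    rw [hρ]
    linarith
  let W : ℝ → ℝ := fun t => (Z t * (Z t)ᵀ).trace + ρ * Real.exp (-t)
  let W' : ℝ → ℝ := fun t => (gY A b (Z t * (Z t)ᵀ)).trace + ρ * (Real.exp (-t) * (-1))
  have hWd : ∀ t, 0 ≤ t → HasDerivAt W (W' t) t := by
    intro t ht
    have e0 := hasDerivAt_trace_mul (hasDerivAt_ZZt h.symm (hZ.der t ht))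
      (1 : Matrix (Fin n) (Fin n) ℝ)
    simp only [Matrix.one_mul] at e0
    have e1 : HasDerivAt (fun t : ℝ => Real.exp (-t)) (Real.exp (-t) * (-1)) t :=
      (hasDerivAt_neg t).exp
    exact e0.add (e1.const_mul ρ)
  have hW' : ∀ t, 0 ≤ t → W' t ≤ - DD A b (Z t) := by
    intro t ht
    have e1 := trace_gY_eq (b := b) (r := r) h.symm (hZ.det t ht) (hZ.lin t ht)
    have e2 := (abs_le.1 (hlam t ht)).1
    have e3 := Real.exp_pos (-t)
    simp only [W']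
    rw [e1]
    nlinarith
  have hρ0 : 0 ≤ ρ := (abs_nonneg _).trans (hlam 0 le_rfl)
  have hWnn : ∀ t, 0 ≤ t → 0 ≤ W t := by
    intro t ht
    have e1 := (psd_mul_transpose_self (Z t)).trace_nonneg
    have e2 := mul_nonneg hρ0 (Real.exp_pos (-t)).le
    exact add_nonneg e1 e2
  have hWanti : AntitoneOn W (Set.Ici 0) :=
    anti_of_deriv (convex_Ici 0) (fun t ht => hWd t ht)
      (fun t ht => (hW' t ht).trans (neg_nonpos.2 (hDDnn _)))
  -- convergence of W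
  have hWlim : ∃ w, Tendsto W atTop (𝓝 w) := by
    let V : ℝ → ℝ := fun t => W (max t 0)
    have hV : Antitone V := fun s t hst =>
      hWanti (le_max_right s 0) (le_max_right t 0) (max_le_max_right 0 hst)
    have hVb : BddBelow (Set.range V) := ⟨0, by
      rintro _ ⟨t, rfl⟩
      exact hWnn _ (le_max_right _ _)⟩
    refine ⟨_, (tendsto_atTop_ciInf hV hVb).congr' ?_⟩
    filter_upwards [eventually_ge_atTop (0 : ℝ)] with t ht
    simp only [V]
    rw [max_eq_left ht]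
  obtain ⟨w, hw⟩ := hWlim
  -- uniform continuity
  have hK : IsCompact (KSet A b r c) := isCompact_KSet c
  have hDDc : ContinuousOn (DD A b) (KSet A b r c) := fun Z hZ =>
    (continuousAt_DD (h.KSet_det hZ)).continuousWithinAt
  have hUC := hK.uniformContinuousOn_of_continuous hDDc
  have hfc : ContinuousOn (fZ A b) (KSet A b r c) := fun Z hZ =>
    (contDiffAt_fZ (h.KSet_det hZ)).continuousAt.continuousWithinAt
  obtain ⟨L, hL⟩ := hK.exists_bound_of_continuousOn hfc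
  have hLip : ∀ s t, 0 ≤ s → 0 ≤ t → ‖Z t - Z s‖ ≤ L * ‖t - s‖ := by
    intro s t hs ht
    exact (convex_Ici (0 : ℝ)).norm_image_sub_le_of_norm_hasDerivWithin_le
      (fun x hx => (hZ.der x hx).hasDerivWithinAt) (fun x hx => hL _ (hZ.mem_KSet hx)) hs ht
  rw [Metric.tendsto_atTop]
  intro ε hε
  obtain ⟨δ1, hδ1, hδ⟩ := Metric.uniformContinuousOn_iff.1 hUC (ε / 2) (by linarith)
  set δ : ℝ := δ1 / (2 * (|L| + 1)) with hδdef
  have hδpos : 0 < δ := by positivity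
  have hclose : ∀ s t, 0 ≤ s → 0 ≤ t → |t - s| ≤ δ → |DD A b (Z t) - DD A b (Z s)| < ε / 2 := by
    intro s t hs ht hst
    have e1 : ‖Z t - Z s‖ < δ1 := by
      calc ‖Z t - Z s‖ ≤ L * ‖t - s‖ := hLip s t hs ht
        _ ≤ (|L| + 1) * δ := by
            rw [Real.norm_eq_abs]
            exact mul_le_mul (by linarith [le_abs_self L]) hst (abs_nonneg _) (by positivity)
        _ = δ1 / 2 := by rw [hδdef]; field_simp
        _ < δ1 := by linarith
    have e2 := hδ (Z t) (hZ.mem_KSet ht) (Z s) (hZ.mem_KSet hs) (by rw [dist_eq_norm]; exact e1)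
    rwa [Real.dist_eq] at e2
  have hdiff : Tendsto (fun t => W t - W (t + δ)) atTop (𝓝 (w - w)) :=
    hw.sub (hw.comp (tendsto_atTop_add_const_right _ _ tendsto_id))
  rw [sub_self] at hdiff
  obtain ⟨T, hT⟩ := Metric.tendsto_atTop.1 hdiff (ε / 2 * δ) (by positivity)
  refine ⟨max T 0, fun t ht => ?_⟩
  have ht0 : 0 ≤ t := (le_max_right _ _).trans ht
  have e1 := hT t ((le_max_left _ _).trans ht)
  rw [Real.dist_eq, sub_zero] at e1
  rw [Real.dist_eq, sub_zero, abs_of_nonneg (hDDnn _)]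
  by_contra hcon
  have hcon' : ε ≤ DD A b (Z t) := not_lt.1 hcon
  have hanti2 : AntitoneOn (fun s => W s + ε / 2 * s) (Set.Icc t (t + δ)) := by
    refine anti_of_deriv (f' := fun s => W' s + ε / 2 * 1) (convex_Icc _ _) (fun s hs => ?_)
      (fun s hs => ?_)
    · exact (hWd s (ht0.trans hs.1)).add ((hasDerivAt_id s).const_mul (ε / 2))
    · have e2 := hclose t s ht0 (ht0.trans hs.1) (by
        rw [abs_of_nonneg (by linarith [hs.1])]; linarith [hs.2])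
      have e3 := (abs_lt.1 e2).1
      have e4 := hW' s (ht0.trans hs.1)
      linarith
  have e5 := hanti2 ⟨le_rfl, by linarith⟩ ⟨by linarith, le_rfl⟩ (by linarith : t ≤ t + δ)
  simp only at e5
  have e6 := le_abs_self (W t - W (t + δ))
  nlinarith

end lasalle

end Pool.Agent.Lib.MP_e757b3_ae
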