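import Mathlib

/- Piece F for MP_e757b3_ae (helper29): from the two a.e. properties to the crossing hypotheses.
   ω = s / (1 - s), 1 + ω = 1 / (1 - s). One-dimensional kernel: if μ ≠ 0, μ' are both in the
   kernel and μ' is not a multiple of μ, choose l0 with μ l0 ≠ 0, scale to μ l0 = 1, d = μ' - μ' l0 • μ ≠ 0,
   d l0 = 0: τ ↦ (ω, X, μ + τ d) is an injection ℝ → countable set. -/

open Matrix

namespace Pool.Agent.Lib.MP_e757b3_ae

lemma cross_conv {s p q t : ℝ} (hs : s ∈ Set.Ioo (0 : ℝ) 1) (h : t = (1 - s) * p + s * q) :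
    (1 + s / (1 - s)) * t = p + s / (1 - s) * q := by
  have h1 : (1 : ℝ) - s ≠ 0 := by linarith [hs.2]
  rw [h]
  field_simp
  ring

theorem cross_of_ae {n m : ℕ} (A : Fin m → Matrix (Fin n) (Fin n) ℝ) (b : Fin m → ℝ)
    (X₀ : Matrix (Fin n) (Fin n) ℝ)
    (h1 : ∀ l0 : Fin m, {q : ℝ × Matrix (Fin n) (Fin n) ℝ × (Fin m → ℝ) |
      q.2.1.PosSemidef ∧ q.2.2 l0 = 1 ∧
      (∀ l, (1 + q.1) * (A l * q.2.1).trace = b l + q.1 * (A l * X₀).trace) ∧
      (∑ l, q.2.2 l • A l) * q.2.1 = 0}.Countable)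
    (h2 : ∀ (ω : ℝ) (X : Matrix (Fin n) (Fin n) ℝ) (μ : Fin m → ℝ), ω ≠ 0 → X.PosSemidef →
      (∀ l, (1 + ω) * (A l * X).trace = b l + ω * (A l * X₀).trace) →
      (∑ l, μ l • A l) * X = 0 → ∑ l, μ l • A l ≠ 0 → μ ⬝ᵥ b ≠ 0)
    (hind : ∀ μ : Fin m → ℝ, ∑ l, μ l • A l = 0 → μ = 0) :
    (∀ s ∈ Set.Ioo (0 : ℝ) 1, {X : Matrix (Fin n) (Fin n) ℝ | X.PosSemidef ∧
      (∀ l, (A l * X).trace = (1 - s) * b l + s * (A l * X₀).trace) ∧
      ∃ μ : Fin m → ℝ, μ ≠ 0 ∧ (∑ l, μ l • A l) * X = 0}.Countable) ∧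
    (∀ s ∈ Set.Ioo (0 : ℝ) 1, ∀ X : Matrix (Fin n) (Fin n) ℝ, X.PosSemidef →
      (∀ l, (A l * X).trace = (1 - s) * b l + s * (A l * X₀).trace) →
      ∀ μ μ' : Fin m → ℝ, μ ≠ 0 → (∑ l, μ l • A l) * X = 0 → (∑ l, μ' l • A l) * X = 0 →
      ∃ k : ℝ, μ' = k • μ) ∧
    (∀ s ∈ Set.Ioo (0 : ℝ) 1, ∀ X : Matrix (Fin n) (Fin n) ℝ, X.PosSemidef →
      (∀ l, (A l * X).trace = (1 - s) * b l + s * (A l * X₀).trace) →
      ∀ μ : Fin m → ℝ, μ ≠ 0 → (∑ l, μ l • A l) * X = 0 → μ ⬝ᵥ b ≠ 0) := by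
  have hadd : ∀ μ ν : Fin m → ℝ, ∑ l, (μ + ν) l • A l = ∑ l, μ l • A l + ∑ l, ν l • A l := by
    intro μ ν
    rw [← Finset.sum_add_distrib]
    exact Finset.sum_congr rfl fun l _ => by rw [Pi.add_apply, add_smul]
  have hsmul : ∀ (k : ℝ) (μ : Fin m → ℝ), ∑ l, (k • μ) l • A l = k • ∑ l, μ l • A l := by
    intro k μ
    rw [Finset.smul_sum]
    exact Finset.sum_congr rfl fun l _ => by rw [Pi.smul_apply, smul_eq_mul, smul_smul]
  refine ⟨?_, ?_, ?_⟩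
  · intro s hs
    have hc : (⋃ l0 : Fin m, (fun q : ℝ × Matrix (Fin n) (Fin n) ℝ × (Fin m → ℝ) => q.2.1) ''
        {q : ℝ × Matrix (Fin n) (Fin n) ℝ × (Fin m → ℝ) |
          q.2.1.PosSemidef ∧ q.2.2 l0 = 1 ∧
          (∀ l, (1 + q.1) * (A l * q.2.1).trace = b l + q.1 * (A l * X₀).trace) ∧
          (∑ l, q.2.2 l • A l) * q.2.1 = 0}).Countable :=
      Set.countable_iUnion fun l0 => (h1 l0).image _
    refine hc.mono ?_
    rintro X ⟨hX, hl, μ, hμ, hμX⟩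
    obtain ⟨l0, hl0⟩ := Function.ne_iff.1 hμ
    rw [Pi.zero_apply] at hl0
    refine Set.mem_iUnion.2 ⟨l0, (s / (1 - s), X, (μ l0)⁻¹ • μ), ⟨hX, ?_, ?_, ?_⟩, rfl⟩
    · simp [hl0]
    · exact fun l => cross_conv hs (hl l)
    · simp only
      rw [hsmul, Matrix.smul_mul, hμX, smul_zero]
  · intro s hs X hX hl μ μ' hμ hμX hμX'
    obtain ⟨l0, hl0⟩ := Function.ne_iff.1 hμ
    rw [Pi.zero_apply] at hl0
    set ν : Fin m → ℝ := (μ l0)⁻¹ • μ with hν
    have hν0 : ν l0 = 1 := by simp [hν, hl0]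
    have hνX : (∑ l, ν l • A l) * X = 0 := by
      rw [hν, hsmul, Matrix.smul_mul, hμX, smul_zero]
    set d : Fin m → ℝ := μ' + (-(μ' l0)) • ν with hd
    have hd0 : d l0 = 0 := by simp [hd, hν0]
    have hdX : (∑ l, d l • A l) * X = 0 := by
      rw [hd, hadd, hsmul, Matrix.add_mul, hμX', Matrix.smul_mul, hνX, smul_zero, add_zero]
    by_cases hdz : d = 0
    · refine ⟨μ' l0 * (μ l0)⁻¹, ?_⟩
      have h3 : μ' = μ' l0 • ν := by
        have h4 : μ' + (-(μ' l0)) • ν = 0 := by rw [← hd]; exact hdz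
        rw [neg_smul, ← sub_eq_add_neg, sub_eq_zero] at h4
        exact h4
      rw [h3, hν, smul_smul]
      simp [hl0]
    · exfalso
      have hinj : Function.Injective
          (fun τ : ℝ => ((s / (1 - s), X, ν + τ • d) :
            ℝ × Matrix (Fin n) (Fin n) ℝ × (Fin m → ℝ))) := by
        intro τ τ' h
        have h5 : ν + τ • d = ν + τ' • d := congrArg (fun q => q.2.2) h
        have h6 : τ • d = τ' • d := add_left_cancel h5
        have h7 : (τ - τ') • d = 0 := by rw [sub_smul, h6, sub_self]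
        rcases smul_eq_zero.1 h7 with h8 | h8
        · linarith
        · exact absurd h8 hdz
      have hpre := (h1 l0).preimage hinj
      have huniv : (fun τ : ℝ => ((s / (1 - s), X, ν + τ • d) :
            ℝ × Matrix (Fin n) (Fin n) ℝ × (Fin m → ℝ))) ⁻¹'
          {q : ℝ × Matrix (Fin n) (Fin n) ℝ × (Fin m → ℝ) |
            q.2.1.PosSemidef ∧ q.2.2 l0 = 1 ∧
            (∀ l, (1 + q.1) * (A l * q.2.1).trace = b l + q.1 * (A l * X₀).trace) ∧
            (∑ l, q.2.2 l • A l) * q.2.1 = 0} = Set.univ := by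
        rw [Set.eq_univ_iff_forall]
        intro τ
        refine ⟨hX, ?_, fun l => cross_conv hs (hl l), ?_⟩
        · change (ν + τ • d) l0 = 1
          rw [Pi.add_apply, Pi.smul_apply, hν0, hd0, smul_zero, add_zero]
        · change (∑ l, (ν + τ • d) l • A l) * X = 0
          rw [hadd, hsmul τ d, Matrix.add_mul, Matrix.smul_mul, hνX, hdX, smul_zero, add_zero]
      rw [huniv] at hpre
      exact Set.not_countable_univ hpre
  · intro s hs X hX hl μ hμ hμX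
    have h1s : (0 : ℝ) < 1 - s := by linarith [hs.2]
    exact h2 (s / (1 - s)) X μ (div_pos hs.1 h1s).ne' hX (fun l => cross_conv hs (hl l)) hμX
      (fun h => hμ (hind μ h))

end Pool.Agent.Lib.MP_e757b3_ae
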