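import Pool.Agent.Lib.MP_e757b3_ae.NF

open Matrix Filter Topology

namespace Pool.Agent.Lib.MP_e757b3_ae

section cluster

open scoped Matrix.Norms.Operator

variable {n m : ℕ} {A : Fin m → Matrix (Fin n) (Fin n) ℝ} {b r : Fin m → ℝ}

/-- The equilibria. -/
def EqSet (A : Fin m → Matrix (Fin n) (Fin n) ℝ) (b : Fin m → ℝ) :
    Set (Matrix (Fin n) (Fin n) ℝ) :=
  {Y | Y.PosSemidef ∧ (∀ l, (A l * Y).trace = b l) ∧ ∃ e, (1 - Sm A e) * Y = 0}

lemma tendsto_exp_neg : Tendsto (fun t : ℝ => Real.exp (-t)) atTop (𝓝 0) :=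
  Real.tendsto_exp_neg_atTop_nhds_zero

lemma NDeg.cluster (h : NDeg A b r) {c : ℝ} {Z : ℝ → Matrix (Fin n) (Fin n) ℝ}
    (hZ : IsFlow A b r c Z) {Y : Matrix (Fin n) (Fin n) ℝ}
    (hY : MapClusterPt Y atTop (fun t => Z t * (Z t)ᵀ)) :
    (Y.PosSemidef ∧ (∀ l, (A l * Y).trace = b l) ∧ (gramM A Y).det ≠ 0) ∧
      (1 - SS A b Y) * Y = 0 := by
  obtain ⟨U, hU, hUY⟩ := mapClusterPt_iff_ultrafilter.1 hY
  have hK : IsCompact (KSet A b r c) := isCompact_KSet c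
  have hev : ∀ᶠ t in (atTop : Filter ℝ), Z t ∈ KSet A b r c := by
    filter_upwards [eventually_ge_atTop (0 : ℝ)] with t ht using hZ.mem_KSet ht
  obtain ⟨Z1, hZ1, hlim⟩ := hK.ultrafilter_le_nhds (U.map Z)
    (by
      rw [Ultrafilter.coe_map]
      exact tendsto_principal.2 (hU hev))
  have hlim' : Tendsto Z U (𝓝 Z1) := by
    rw [Ultrafilter.coe_map] at hlim
    exact hlim
  have hYlim : Tendsto (fun t => Z t * (Z t)ᵀ) U (𝓝 (Z1 * Z1ᵀ)) :=
    (contDiff_ZZt.continuous.tendsto Z1).comp hlim'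
  have hYeq : Y = Z1 * Z1ᵀ := tendsto_nhds_unique hUY hYlim
  have hdet := h.KSet_det hZ1
  have hpsd := psd_mul_transpose_self Z1
  have hDD0 : Tendsto (fun t => DD A b (Z t)) U (𝓝 0) := (h.DD_tendsto hZ).mono_left hU
  have hDD1 : Tendsto (fun t => DD A b (Z t)) U (𝓝 (DD A b Z1)) :=
    (continuousAt_DD hdet).tendsto.comp hlim'
  have hDD : DD A b Z1 = 0 := tendsto_nhds_unique hDD1 hDD0
  have hlin : ∀ l, (A l * Y).trace = b l := by
    intro l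
    have c1 : Continuous fun Y : Matrix (Fin n) (Fin n) ℝ => (A l * Y).trace :=
      (continuous_const.matrix_mul continuous_id).matrix_trace
    have e1 : Tendsto (fun t => (A l * (Z t * (Z t)ᵀ)).trace) U (𝓝 ((A l * Y).trace)) :=
      (c1.tendsto Y).comp hUY
    have e2 : Tendsto (fun t : ℝ => b l + Real.exp (-t) * r l) U (𝓝 (b l + 0 * r l)) :=
      ((tendsto_exp_neg.mono_left hU).mul_const _).const_add _
    rw [zero_mul, add_zero] at e2
    have hev2 : ∀ᶠ t in (U : Filter ℝ), (A l * (Z t * (Z t)ᵀ)).trace =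
        b l + Real.exp (-t) * r l := by
      have : ∀ᶠ t in (atTop : Filter ℝ), (A l * (Z t * (Z t)ᵀ)).trace =
          b l + Real.exp (-t) * r l := by
        filter_upwards [eventually_ge_atTop (0 : ℝ)] with t ht using hZ.lin t ht l
      exact hU this
    exact tendsto_nhds_unique (e1.congr' hev2) e2
  subst hYeq
  refine ⟨⟨hpsd, hlin, hdet⟩, ?_⟩
  refine (trace_sandwich hpsd ?_).2 hDD
  rw [Matrix.transpose_sub, Matrix.transpose_one]
  exact congrArg _ (Sm_symm h.symm _)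

lemma NDeg.converges (h : NDeg A b r) {c : ℝ} {Z : ℝ → Matrix (Fin n) (Fin n) ℝ}
    (hZ : IsFlow A b r c Z) (hfin : (EqSet A b).Countable) :
    ∃ Y : Matrix (Fin n) (Fin n) ℝ, Y.PosSemidef ∧ (∀ l, (A l * Y).trace = b l) ∧
      (gramM A Y).det ≠ 0 ∧ (1 - SS A b Y) * Y = 0 ∧
      Tendsto (fun t => Z t * (Z t)ᵀ) atTop (𝓝 Y) ∧
      Tendsto (fun t => SS A b (Z t * (Z t)ᵀ)) atTop (𝓝 (SS A b Y)) := by
  have hK : IsCompact ((fun Z : Matrix (Fin n) (Fin n) ℝ => Z * Zᵀ) '' KSet A b r c) :=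
    (isCompact_KSet c).image contDiff_ZZt.continuous
  have hcont : ContinuousOn (fun t => Z t * (Z t)ᵀ) (Set.Ici 0) := fun t ht =>
    (hasDerivAt_ZZt h.symm (hZ.der t ht)).continuousAt.continuousWithinAt
  have hcl : ∀ Y, MapClusterPt Y atTop (fun t => Z t * (Z t)ᵀ) →
      Y ∈ {Y ∈ EqSet A b | (gramM A Y).det ≠ 0 ∧ (1 - SS A b Y) * Y = 0} := by
    intro Y hY
    obtain ⟨⟨h1, h2, h3⟩, h4⟩ := h.cluster hZ hY
    exact ⟨⟨h1, h2, _, h4⟩, h3, h4⟩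
  obtain ⟨Y, ⟨⟨h1, h2, -⟩, h3, h4⟩, hlim⟩ := tendsto_of_countable_cluster hcont hK
    (fun t ht => ⟨Z t, hZ.mem_KSet ht, rfl⟩) (hfin.mono fun Y hY => hY.1) hcl
  exact ⟨Y, h1, h2, h3, h4, hlim, ((contDiffAt_SS h3).continuousAt.tendsto).comp hlim⟩

end cluster

end Pool.Agent.Lib.MP_e757b3_ae
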