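import Pool.Agent.Lib.MP_e757b3_ae.NG

open Matrix Filter Topology

namespace Pool.Agent.Lib.MP_e757b3_ae

section shift

variable {n : ℕ}

lemma exists_shift (S : Matrix (Fin n) (Fin n) ℝ) {ρ : ℝ} (hρ : 1 < ρ) :
    ∃ c : ℝ, 1 < c ∧ c < ρ ∧ (S - c • (1 : Matrix (Fin n) (Fin n) ℝ)).det ≠ 0 := by
  have hfin : (spectrum ℝ S).Finite := Matrix.finite_spectrum S
  obtain ⟨c, hc, hcs⟩ := ((Set.Ioo_infinite hρ).sdiff hfin).nonempty
  refine ⟨c, hc.1, hc.2, fun h0 => hcs ?_⟩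
  rw [spectrum.mem_iff, Matrix.isUnit_iff_isUnit_det, isUnit_iff_ne_zero, not_not,
    Algebra.algebraMap_eq_smul_one]
  have : c • (1 : Matrix (Fin n) (Fin n) ℝ) - S = -(S - c • (1 : Matrix (Fin n) (Fin n) ℝ)) := by
    abel
  rw [this, Matrix.det_neg, h0, mul_zero]

lemma dot_le_inv {N : Matrix (Fin n) (Fin n) ℝ} (hN : N.det ≠ 0) (x : Fin n → ℝ) :
    x ⬝ᵥ x ≤ (N⁻¹ * (N⁻¹)ᵀ).trace * ((N *ᵥ x) ⬝ᵥ (N *ᵥ x)) := by
  have h1 := mulVec_dot_le N⁻¹ (N *ᵥ x)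
  rw [Matrix.mulVec_mulVec, Matrix.nonsing_inv_mul _ (isUnit_iff_ne_zero.2 hN),
    Matrix.one_mulVec] at h1
  exact h1

end shift

section cone

open scoped Matrix.Norms.Operator

variable {n m : ℕ} {A : Fin m → Matrix (Fin n) (Fin n) ℝ} {b r : Fin m → ℝ}

lemma NDeg.SS_bound (h : NDeg A b r) (c : ℝ) : ∃ K : ℝ, ∀ Z ∈ KSet A b r c,
    (SS A b (Z * Zᵀ) * (SS A b (Z * Zᵀ))ᵀ).trace ≤ K := by
  have hc : ContinuousOn (fun Z : Matrix (Fin n) (Fin n) ℝ =>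
      (SS A b (Z * Zᵀ) * (SS A b (Z * Zᵀ))ᵀ).trace) (KSet A b r c) := by
    intro Z hZ
    have h1 := continuousAt_SSZ (b := b) (h.KSet_det hZ)
    have h2 : Continuous fun M : Matrix (Fin n) (Fin n) ℝ => (M * Mᵀ).trace :=
      (continuous_id.matrix_mul continuous_id.matrix_transpose).matrix_trace
    exact (ContinuousAt.comp (g := fun M : Matrix (Fin n) (Fin n) ℝ => (M * Mᵀ).trace)
      h2.continuousAt h1).continuousWithinAt
  obtain ⟨K, hK⟩ := (isCompact_KSet c).exists_bound_of_continuousOn hc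
  exact ⟨K, fun Z hZ => (le_abs_self _).trans (hK Z hZ)⟩

lemma NDeg.det_ne (h : NDeg A b r) {c : ℝ} {Z : ℝ → Matrix (Fin n) (Fin n) ℝ}
    (hZ : IsFlow A b r c Z) (hZ0 : (Z 0).det ≠ 0) {t : ℝ} (ht : 0 ≤ t) : (Z t).det ≠ 0 := by
  obtain ⟨K, hK⟩ := h.SS_bound c
  intro hdet
  obtain ⟨w, hw, hw0⟩ := Matrix.exists_mulVec_eq_zero_iff.2 hdet
  refine flow_injective hZ.der (fun s hs => hK _ (hZ.mem_KSet hs)) ?_ ht hw0
  intro h0
  exact hZ0 (Matrix.exists_mulVec_eq_zero_iff.1 ⟨w, hw, h0⟩)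

lemma NDeg.opt_psd (h : NDeg A b r) {c : ℝ} {Z : ℝ → Matrix (Fin n) (Fin n) ℝ}
    (hZ : IsFlow A b r c Z) (hZ0 : (Z 0).det ≠ 0) {S : Matrix (Fin n) (Fin n) ℝ} (hSs : Sᵀ = S)
    (hS : Tendsto (fun t => SS A b (Z t * (Z t)ᵀ)) atTop (𝓝 S)) : (1 - S).PosSemidef := by
  rw [psd_iff]
  refine ⟨by rw [Matrix.transpose_sub, Matrix.transpose_one, hSs], fun v => ?_⟩
  by_contra hneg
  have hneg' : v ⬝ᵥ v < v ⬝ᵥ (S *ᵥ v) := by
    have h1 := not_le.1 hneg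
    rw [Matrix.sub_mulVec, Matrix.one_mulVec, dotProduct_sub] at h1
    linarith
  have hv0 : v ≠ 0 := by
    rintro rfl
    simp at hneg'
  have hvv : 0 < v ⬝ᵥ v := by
    have h1 : 0 ≤ v ⬝ᵥ v := Finset.sum_nonneg fun l _ => mul_self_nonneg _
    exact lt_of_le_of_ne h1 fun hh => hv0 (dotProduct_self_eq_zero.1 hh.symm)
  have hρ : 1 < (v ⬝ᵥ (S *ᵥ v)) / (v ⬝ᵥ v) := (one_lt_div hvv).2 hneg'
  obtain ⟨γ, hγ1, hγ2, hγd⟩ := exists_shift S hρ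
  rw [lt_div_iff₀ hvv] at hγ2
  set N : Matrix (Fin n) (Fin n) ℝ := S - γ • (1 : Matrix (Fin n) (Fin n) ℝ) with hN
  have hNs : Nᵀ = N := by
    rw [hN, Matrix.transpose_sub, Matrix.transpose_smul, Matrix.transpose_one, hSs]
  set κ : ℝ := (N⁻¹ * (N⁻¹)ᵀ).trace + 1 with hκ
  have hκ0 : 0 < κ := by
    have := trace_mul_transpose_self_nonneg N⁻¹
    linarith
  have hNx : ∀ x : Fin n → ℝ, x ⬝ᵥ x ≤ κ * ((N *ᵥ x) ⬝ᵥ (N *ᵥ x)) := by
    intro x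
    have h1 := dot_le_inv hγd x
    have h2 : 0 ≤ (N *ᵥ x) ⬝ᵥ (N *ᵥ x) := Finset.sum_nonneg fun l _ => mul_self_nonneg _
    rw [hκ]
    linarith
  -- smallness of the error
  have hE : Tendsto (fun t => ((SS A b (Z t * (Z t)ᵀ) - S) *
      (SS A b (Z t * (Z t)ᵀ) - S)ᵀ).trace) atTop (𝓝 0) := by
    have h1 : Continuous fun M : Matrix (Fin n) (Fin n) ℝ => ((M - S) * (M - S)ᵀ).trace := by
      have h2 : Continuous fun M : Matrix (Fin n) (Fin n) ℝ => M - S :=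
        continuous_id.sub continuous_const
      exact (h2.matrix_mul h2.matrix_transpose).matrix_trace
    have h3 := (h1.tendsto S).comp hS
    simp only [sub_self, Matrix.zero_mul, Matrix.trace_zero] at h3
    exact h3
  obtain ⟨T, hT⟩ := (hE.eventually (ge_mem_nhds (inv_pos.2 hκ0))).exists_forall_of_atTop
  set t0 : ℝ := max T 0 with ht0
  have ht00 : 0 ≤ t0 := le_max_right _ _
  obtain ⟨w, hw⟩ : ∃ w, Z t0 *ᵥ w = v := by
    refine ⟨(Z t0)⁻¹ *ᵥ v, ?_⟩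
    rw [Matrix.mulVec_mulVec, Matrix.mul_nonsing_inv _
      (isUnit_iff_ne_zero.2 (h.det_ne hZ hZ0 ht00)), Matrix.one_mulVec]
  let q : ℝ → ℝ := fun t => (Z t *ᵥ w) ⬝ᵥ (N *ᵥ (Z t *ᵥ w))
  have hq : ∀ t ∈ Set.Ici t0, HasDerivAt q ((N *ᵥ (Z t *ᵥ w)) ⬝ᵥ
      ((SS A b (Z t * (Z t)ᵀ) - 1) *ᵥ (Z t *ᵥ w))) t := fun t ht =>
    hasDerivAt_col_quad (hZ.der t (ht00.trans ht)) w hNs
  have hq' : ∀ t ∈ Set.Ici t0, (γ - 1) * q t ≤ (N *ᵥ (Z t *ᵥ w)) ⬝ᵥ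
      ((SS A b (Z t * (Z t)ᵀ) - 1) *ᵥ (Z t *ᵥ w)) := by
    intro t ht
    have e1 := hT t ((le_max_left _ _).trans ht)
    have e2 := hNx (Z t *ᵥ w)
    simp only [q]
    set z := Z t *ᵥ w
    set E := SS A b (Z t * (Z t)ᵀ) - S with hE
    have e3 : SS A b (Z t * (Z t)ᵀ) - 1 = N + (γ - 1) • (1 : Matrix (Fin n) (Fin n) ℝ) + E := by
      rw [hN, hE, sub_smul, one_smul]; abel
    rw [e3, Matrix.add_mulVec, Matrix.add_mulVec, dotProduct_add, dotProduct_add,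
      Matrix.smul_mulVec, Matrix.one_mulVec, dotProduct_smul, smul_eq_mul,
      dotProduct_comm (N *ᵥ z) z]
    have e4 := (abs_le.1 (dot_le_half (N *ᵥ z) (E *ᵥ z))).1
    have e5 := mulVec_dot_le E z
    have e6 : 0 ≤ z ⬝ᵥ z := Finset.sum_nonneg fun l _ => mul_self_nonneg _
    have e7 : (E * Eᵀ).trace * (z ⬝ᵥ z) ≤ (N *ᵥ z) ⬝ᵥ (N *ᵥ z) := by
      calc (E * Eᵀ).trace * (z ⬝ᵥ z) ≤ κ⁻¹ * (z ⬝ᵥ z) := mul_le_mul_of_nonneg_right e1 e6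
        _ ≤ κ⁻¹ * (κ * ((N *ᵥ z) ⬝ᵥ (N *ᵥ z))) :=
            mul_le_mul_of_nonneg_left e2 (inv_nonneg.2 hκ0.le)
        _ = (N *ᵥ z) ⬝ᵥ (N *ᵥ z) := by field_simp
    linarith
  have hanti : AntitoneOn (fun t => -(Real.exp (-((γ - 1) * t)) * q t)) (Set.Ici t0) := by
    refine anti_of_deriv (f' := fun t => -(Real.exp (-((γ - 1) * t)) * (-(γ - 1)) * q t +
      Real.exp (-((γ - 1) * t)) * ((N *ᵥ (Z t *ᵥ w)) ⬝ᵥ
      ((SS A b (Z t * (Z t)ᵀ) - 1) *ᵥ (Z t *ᵥ w))))) (convex_Ici t0) ?_ ?_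
    · intro t ht
      have e1 : HasDerivAt (fun t => Real.exp (-((γ - 1) * t)))
          (Real.exp (-((γ - 1) * t)) * (-(γ - 1))) t := by
        have := (((hasDerivAt_id t).const_mul (γ - 1)).fun_neg).exp
        simpa using this
      exact (e1.mul (hq t ht)).fun_neg
    · intro t ht
      have e1 := hq' t ht
      have e2 : -(Real.exp (-((γ - 1) * t)) * (-(γ - 1)) * q t +
        Real.exp (-((γ - 1) * t)) * ((N *ᵥ (Z t *ᵥ w)) ⬝ᵥ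
        ((SS A b (Z t * (Z t)ᵀ) - 1) *ᵥ (Z t *ᵥ w)))) =
        -(Real.exp (-((γ - 1) * t)) * ((N *ᵥ (Z t *ᵥ w)) ⬝ᵥ
        ((SS A b (Z t * (Z t)ᵀ) - 1) *ᵥ (Z t *ᵥ w)) - (γ - 1) * q t)) := by ring
      rw [e2]
      exact neg_nonpos.2 (mul_nonneg (Real.exp_pos _).le (by linarith))
  have hq0 : 0 < q t0 := by
    simp only [q]
    rw [hw, hN, Matrix.sub_mulVec, Matrix.smul_mulVec, Matrix.one_mulVec, dotProduct_sub,
      dotProduct_smul, smul_eq_mul]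
    linarith
  have hgrow : ∀ t, t0 ≤ t → Real.exp ((γ - 1) * (t - t0)) * q t0 ≤ q t := by
    intro t ht
    have e1 := hanti Set.self_mem_Ici ht ht
    simp only [neg_le_neg_iff] at e1
    have e2 := mul_le_mul_of_nonneg_left e1 (Real.exp_pos ((γ - 1) * t)).le
    have e3 : Real.exp ((γ - 1) * t) * (Real.exp (-((γ - 1) * t)) * q t) = q t := by
      rw [← mul_assoc, ← Real.exp_add]; simp
    have e4 : Real.exp ((γ - 1) * t) * (Real.exp (-((γ - 1) * t0)) * q t0) =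
        Real.exp ((γ - 1) * (t - t0)) * q t0 := by
      rw [← mul_assoc, ← Real.exp_add]
      congr 2
      ring
    rw [e3, e4] at e2
    exact e2
  have hbd : ∀ t, t0 ≤ t → q t ≤ (1 + (N * Nᵀ).trace) / 2 * (c * (w ⬝ᵥ w)) := by
    intro t ht
    have e1 := (abs_le.1 (dot_le_half (Z t *ᵥ w) (N *ᵥ (Z t *ᵥ w)))).2
    have e2 := mulVec_dot_le N (Z t *ᵥ w)
    have e3 := mulVec_dot_le (Z t) w
    have e4 := hZ.tr t (ht00.trans ht)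
    have e5 : 0 ≤ w ⬝ᵥ w := Finset.sum_nonneg fun l _ => mul_self_nonneg _
    have e6 := trace_mul_transpose_self_nonneg N
    have e7 : (Z t *ᵥ w) ⬝ᵥ (Z t *ᵥ w) ≤ c * (w ⬝ᵥ w) :=
      e3.trans (mul_le_mul_of_nonneg_right e4 e5)
    have e8 : (1 + (N * Nᵀ).trace) / 2 * ((Z t *ᵥ w) ⬝ᵥ (Z t *ᵥ w)) ≤
        (1 + (N * Nᵀ).trace) / 2 * (c * (w ⬝ᵥ w)) :=
      mul_le_mul_of_nonneg_left e7 (by linarith)
    simp only [q]
    linarith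
  have hlim : Tendsto (fun t => Real.exp ((γ - 1) * (t - t0)) * q t0) atTop atTop := by
    refine Tendsto.atTop_mul_const hq0 (Real.tendsto_exp_atTop.comp ?_)
    exact Tendsto.const_mul_atTop (by linarith)
      (tendsto_atTop_add_const_right _ _ tendsto_id)
  obtain ⟨t, htt, ht1⟩ := ((hlim.eventually_gt_atTop
    ((1 + (N * Nᵀ).trace) / 2 * (c * (w ⬝ᵥ w)))).and (eventually_ge_atTop t0)).exists
  have e1 := hgrow t ht1
  have e2 := hbd t ht1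
  linarith

end cone

end Pool.Agent.Lib.MP_e757b3_ae
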