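import Pool.Agent.Lib.MP_e757b3_ae.NI
import Pool.Agent.Lib.MP_e757b3_ae.Base

open Matrix Filter Topology

namespace Pool.Agent.Lib.MP_e757b3_ae

section mp

variable {m : ℕ} {M N : Matrix (Fin m) (Fin m) ℝ}

lemma moorePenrose_inv (h : M.det ≠ 0) : IsMoorePenrose M M⁻¹ := by
  have hu : IsUnit M.det := isUnit_iff_ne_zero.2 h
  refine ⟨?_, ?_, ?_, ?_⟩
  · rw [Matrix.mul_nonsing_inv _ hu, Matrix.one_mul]
  · rw [Matrix.nonsing_inv_mul _ hu, Matrix.one_mul]
  · rw [Matrix.mul_nonsing_inv _ hu, Matrix.transpose_one]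
  · rw [Matrix.nonsing_inv_mul _ hu, Matrix.transpose_one]

lemma IsMoorePenrose.eq_inv (h : M.det ≠ 0) (hN : IsMoorePenrose M N) : N = M⁻¹ := by
  have hu : IsUnit M.det := isUnit_iff_ne_zero.2 h
  have h1 : M⁻¹ * (M * N * M) * M⁻¹ = M⁻¹ * M * M⁻¹ := by rw [hN.mul_mul_self]
  calc N = (M⁻¹ * M) * N * (M * M⁻¹) := by
        rw [Matrix.nonsing_inv_mul _ hu, Matrix.mul_nonsing_inv _ hu, Matrix.one_mul,
          Matrix.mul_one]
    _ = M⁻¹ * (M * N * M) * M⁻¹ := by simp only [Matrix.mul_assoc]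
    _ = M⁻¹ * M * M⁻¹ := h1
    _ = M⁻¹ := by rw [Matrix.nonsing_inv_mul _ hu, Matrix.one_mul]

end mp

section entries

open scoped Matrix.Norms.Operator

variable {n : ℕ}

lemma hasDerivWithinAt_of_entries {X : ℝ → Matrix (Fin n) (Fin n) ℝ}
    {V : Matrix (Fin n) (Fin n) ℝ} {I : Set ℝ} {t : ℝ}
    (h : ∀ i j, HasDerivWithinAt (fun s => X s i j) (V i j) I t) : HasDerivWithinAt X V I t := by
  have h1 : HasDerivWithinAt
      (fun s => ∑ i, ∑ j, X s i j • (Matrix.single i j (1 : ℝ) : Matrix (Fin n) (Fin n) ℝ))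
      (∑ i, ∑ j, V i j • (Matrix.single i j (1 : ℝ) : Matrix (Fin n) (Fin n) ℝ)) I t :=
    HasDerivWithinAt.fun_sum fun i _ => HasDerivWithinAt.fun_sum fun j _ =>
      (h i j).smul_const _
  have h2 : ∀ M : Matrix (Fin n) (Fin n) ℝ,
      ∑ i, ∑ j, M i j • (Matrix.single i j (1 : ℝ) : Matrix (Fin n) (Fin n) ℝ) = M := by
    intro M
    conv_rhs => rw [Matrix.matrix_eq_sum_single M]
    refine Finset.sum_congr rfl fun i _ => Finset.sum_congr rfl fun j _ => ?_
    rw [Matrix.smul_single, smul_eq_mul, mul_one]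
  simp only [h2] at h1
  exact h1

lemma hasDerivAt_entry {X : ℝ → Matrix (Fin n) (Fin n) ℝ}
    {V : Matrix (Fin n) (Fin n) ℝ} {t : ℝ} (h : HasDerivAt X V t) (i j : Fin n) :
    HasDerivAt (fun s => X s i j) (V i j) t := by
  let T : Matrix (Fin n) (Fin n) ℝ →ₗ[ℝ] ℝ :=
    { toFun := fun Y => Y i j
      map_add' := fun Y Y' => rfl
      map_smul' := fun c Y => rfl }
  exact T.toContinuousLinearMap.hasFDerivAt.comp_hasDerivAt t h

end entries

section root

variable {n m : ℕ}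

/-- Data of a symmetric square root. -/
structure Root (P B C : Matrix (Fin n) (Fin n) ℝ) : Prop where
  pb : P * B = 1
  bp : B * P = 1
  bs : Bᵀ = B
  ps : Pᵀ = P
  c : B * B = C
  cinv : C⁻¹ = P * P

lemma exists_root {C : Matrix (Fin n) (Fin n) ℝ} (hC : C.PosDef) : ∃ P B, Root P B C := by
  obtain ⟨R, hR, hRR⟩ := psd_factor hC.posSemidef
  have hRd : R.det ≠ 0 := by
    intro h0
    have h1 := hC.det_pos
    rw [← hRR, Matrix.det_mul, h0, mul_zero] at h1
    exact lt_irrefl _ h1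
  have hu : IsUnit R.det := isUnit_iff_ne_zero.2 hRd
  refine ⟨R⁻¹, R, Matrix.nonsing_inv_mul _ hu, Matrix.mul_nonsing_inv _ hu, hR, ?_, hRR, ?_⟩
  · rw [Matrix.transpose_nonsing_inv, hR]
  · rw [← hRR, Matrix.mul_inv_rev]

variable {P B C : Matrix (Fin n) (Fin n) ℝ} (hd : Root P B C)
  {A : Fin m → Matrix (Fin n) (Fin n) ℝ} {b : Fin m → ℝ}
include hd

/-- The normalized data. -/
abbrev At (P : Matrix (Fin n) (Fin n) ℝ) (A : Fin m → Matrix (Fin n) (Fin n) ℝ) :
    Fin m → Matrix (Fin n) (Fin n) ℝ := fun l => P * A l * P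

namespace Root

lemma pbx (M : Matrix (Fin n) (Fin n) ℝ) : P * (B * M * B) * P = M := by
  calc P * (B * M * B) * P = (P * B) * M * (B * P) := by simp only [Matrix.mul_assoc]
    _ = M := by rw [hd.pb, hd.bp, Matrix.one_mul, Matrix.mul_one]

lemma bpx (M : Matrix (Fin n) (Fin n) ℝ) : B * (P * M * P) * B = M := by
  calc B * (P * M * P) * B = (B * P) * M * (P * B) := by simp only [Matrix.mul_assoc]
    _ = M := by rw [hd.pb, hd.bp, Matrix.one_mul, Matrix.mul_one]

lemma at_symm (hA : ∀ l, (A l).IsSymm) (l : Fin m) : (At P A l).IsSymm := by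
  rw [Matrix.IsSymm, Matrix.transpose_mul, Matrix.transpose_mul, hd.ps, (hA l).eq]
  exact (Matrix.mul_assoc _ _ _).symm

omit hd in
lemma trace_at (l : Fin m) (Y : Matrix (Fin n) (Fin n) ℝ) :
    (At P A l * Y).trace = (A l * (P * Y * P)).trace := by
  calc (P * A l * P * Y).trace = (P * (A l * (P * Y))).trace := by simp only [Matrix.mul_assoc]
    _ = ((A l * (P * Y)) * P).trace := Matrix.trace_mul_comm _ _
    _ = _ := by simp only [Matrix.mul_assoc]

omit hd in
lemma sm_at (e : Fin m → ℝ) : Sm (At P A) e = P * Sm A e * P := by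
  rw [Sm, Sm, Matrix.mul_sum, Matrix.sum_mul]
  exact Finset.sum_congr rfl fun l _ => by rw [Matrix.mul_smul, Matrix.smul_mul]

lemma posDef_p {Y : Matrix (Fin n) (Fin n) ℝ} (hY : Y.PosDef) : (P * Y * P).PosDef := by
  have := posDef_congr (Q := P) (Q' := B) hY hd.bp
  rwa [hd.ps] at this

lemma posDef_b {Y : Matrix (Fin n) (Fin n) ℝ} (hY : Y.PosDef) : (B * Y * B).PosDef := by
  have := posDef_congr (Q := B) (Q' := P) hY hd.pb
  rwa [hd.bs] at this

lemma psd_p {Y : Matrix (Fin n) (Fin n) ℝ} (hY : Y.PosSemidef) : (P * Y * P).PosSemidef := by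
  have := hY.mul_mul_conjTranspose_same P
  rwa [conjTranspose_eq_transpose_of_trivial, hd.ps] at this

lemma psd_b {Y : Matrix (Fin n) (Fin n) ℝ} (hY : Y.PosSemidef) : (B * Y * B).PosSemidef := by
  have := hY.mul_mul_conjTranspose_same B
  rwa [conjTranspose_eq_transpose_of_trivial, hd.bs] at this

lemma velocity (Y : Matrix (Fin n) (Fin n) ℝ) :
    P * gY (At P A) b Y * P =
      (1 / 2 : ℝ) • ((P * Y * P) * Sm A (lamv (At P A) b Y) * C⁻¹ +
        C⁻¹ * Sm A (lamv (At P A) b Y) * (P * Y * P)) - P * Y * P := by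
  rw [gY, SS, sm_at, hd.cinv]
  set S := Sm A (lamv (At P A) b Y)
  rw [Matrix.mul_sub, Matrix.sub_mul, Matrix.mul_smul, Matrix.smul_mul, Matrix.mul_add,
    Matrix.add_mul]
  congr 2
  rw [add_comm]
  simp only [Matrix.mul_assoc]

lemma gram_eq (hA : ∀ l, (A l).IsSymm) {Y : Matrix (Fin n) (Fin n) ℝ} (hY : Yᵀ = Y) :
    constraintMatrix A * conductance C (P * Y * P) * (constraintMatrix A)ᵀ =
      gramM (At P A) Y := by
  have hcs : (C⁻¹)ᵀ = C⁻¹ := by rw [hd.cinv, Matrix.transpose_mul, hd.ps]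
  have hXs : (P * Y * P)ᵀ = P * Y * P := by
    rw [Matrix.transpose_mul, Matrix.transpose_mul, hd.ps, hY, Matrix.mul_assoc]
  have key : ∀ (e : Fin m → ℝ) (l : Fin m),
      ((constraintMatrix A * conductance C (P * Y * P) * (constraintMatrix A)ᵀ) *ᵥ e) l =
        (gramM (At P A) Y *ᵥ e) l := by
    intro e l
    rw [← Matrix.mulVec_mulVec, ← Matrix.mulVec_mulVec, constraint_transpose_mulVec,
      conductance_mulVec hcs hXs, constraint_mulVec A hA, gram_mulVec]
    have hS : ∑ l, e l • A l = Sm A e := rfl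
    rw [hS, Matrix.mul_smul, Matrix.trace_smul, Matrix.mul_add, Matrix.trace_add]
    have e1 : (A l * (P * Y * P * Sm A e * C⁻¹)).trace =
        (At P A l * Y * Sm (At P A) e).trace := by
      rw [sm_at, hd.cinv]
      calc (A l * (P * Y * P * Sm A e * (P * P))).trace =
          ((A l * P * Y * P * Sm A e * P) * P).trace := by simp only [Matrix.mul_assoc]
        _ = (P * (A l * P * Y * P * Sm A e * P)).trace := Matrix.trace_mul_comm _ _
        _ = _ := by simp only [Matrix.mul_assoc]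
    have e2 : (A l * (C⁻¹ * Sm A e * (P * Y * P))).trace =
        (At P A l * Y * Sm (At P A) e).trace := by
      rw [← trace_swap (hd.at_symm hA) hY, sm_at, hd.cinv]
      calc (A l * (P * P * Sm A e * (P * Y * P))).trace =
          ((A l * P * P * Sm A e * P * Y) * P).trace := by simp only [Matrix.mul_assoc]
        _ = (P * (A l * P * P * Sm A e * P * Y)).trace := Matrix.trace_mul_comm _ _
        _ = _ := by simp only [Matrix.mul_assoc]
    rw [e1, e2, smul_eq_mul]
    ring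
  ext l k
  have h1 := key (Pi.single k 1) l
  rw [Matrix.mulVec_single_one, Matrix.mulVec_single_one] at h1
  exact h1

/-- The right hand side of the dynamic in terms of the normalized vector field. -/
lemma rhs_eq {Y : Matrix (Fin n) (Fin n) ℝ} (hY : Yᵀ = Y) :
    (conductance C (P * Y * P) * (constraintMatrix A)ᵀ * (gramM (At P A) Y)⁻¹) *ᵥ b -
      Matrix.vec (P * Y * P) = Matrix.vec (P * gY (At P A) b Y * P) := by
  have hcs : (C⁻¹)ᵀ = C⁻¹ := by rw [hd.cinv, Matrix.transpose_mul, hd.ps]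
  have hXs : (P * Y * P)ᵀ = P * Y * P := by
    rw [Matrix.transpose_mul, Matrix.transpose_mul, hd.ps, hY, Matrix.mul_assoc]
  rw [← Matrix.mulVec_mulVec, ← Matrix.mulVec_mulVec, constraint_transpose_mulVec,
    conductance_mulVec hcs hXs, hd.velocity, Matrix.vec_sub]
  rfl

end Root

end root

end Pool.Agent.Lib.MP_e757b3_ae
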