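import Pool.Agent.Lib.MP_e757b3_ae.Base

open Matrix

namespace Pool.Agent.Lib.MP_e757b3_ae

variable {n : ℕ}

/-- The skew-symmetric matrix with coordinates `c`. -/
def skewM (c : Sym2 (Fin n) → ℝ) : Matrix (Fin n) (Fin n) ℝ :=
  Matrix.of fun i j => if i < j then c s(i, j) else if j < i then - c s(i, j) else 0

/-- Signs. -/
def sgn (ε : Fin n → Bool) : Fin n → ℝ := fun i => if ε i then 1 else -1

/-- The orthogonal matrix with (signed Cayley) coordinates `c`. -/
noncomputable def orth (ε : Fin n → Bool) (c : Sym2 (Fin n) → ℝ) : Matrix (Fin n) (Fin n) ℝ :=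
  Matrix.diagonal (sgn ε) * ((1 - skewM c) * (1 + skewM c)⁻¹)

/-- First component of a chart of the pairs `(X, S)` with `S * X = 0`. -/
noncomputable def chartX (ε J : Fin n → Bool) (c : Sym2 (Fin n) → ℝ) :
    Matrix (Fin n) (Fin n) ℝ :=
  orth ε c * Matrix.diagonal (fun i => if J i then c s(i, i) else 0) * (orth ε c)ᵀ

/-- Second component of a chart of the pairs `(X, S)` with `S * X = 0`. -/
noncomputable def chartS (ε J : Fin n → Bool) (c : Sym2 (Fin n) → ℝ) :
    Matrix (Fin n) (Fin n) ℝ :=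
  orth ε c * Matrix.diagonal (fun i => if J i then 0 else c s(i, i)) * (orth ε c)ᵀ

lemma skewM_transpose (c : Sym2 (Fin n) → ℝ) : (skewM c)ᵀ = - skewM c := by
  ext i j
  simp only [skewM, Matrix.transpose_apply, Matrix.of_apply, Matrix.neg_apply]
  rcases lt_trichotomy i j with h | h | h
  · simp [h, not_lt_of_gt h, Sym2.eq_swap]
  · subst h; simp
  · simp [h, not_lt_of_gt h, Sym2.eq_swap]

lemma det_one_add_of_skew {K : Matrix (Fin n) (Fin n) ℝ} (hK : Kᵀ = -K) : (1 + K).det ≠ 0 := by
  intro h0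
  obtain ⟨v, hv, h1⟩ := Matrix.exists_mulVec_eq_zero_iff.2 h0
  rw [Matrix.add_mulVec, Matrix.one_mulVec] at h1
  have h2 : v ⬝ᵥ (K *ᵥ v) = 0 := by
    have h3 : v ⬝ᵥ (K *ᵥ v) = (Kᵀ *ᵥ v) ⬝ᵥ v := by
      rw [Matrix.dotProduct_mulVec, ← Matrix.mulVec_transpose]
    rw [hK, Matrix.neg_mulVec, neg_dotProduct, dotProduct_comm (K *ᵥ v)] at h3
    linarith
  have h4 : v ⬝ᵥ v = 0 := by
    have h5 : v ⬝ᵥ (v + K *ᵥ v) = 0 := by rw [h1, dotProduct_zero]
    rw [dotProduct_add, h2, add_zero] at h5
    exact h5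
  exact hv (dotProduct_self_eq_zero.1 h4)

lemma det_one_add_skew (c : Sym2 (Fin n) → ℝ) : (1 + skewM c).det ≠ 0 :=
  det_one_add_of_skew (skewM_transpose c)

lemma sgn_mul_sgn (ε : Fin n → Bool) : Matrix.diagonal (sgn ε) * Matrix.diagonal (sgn ε) = 1 := by
  rw [Matrix.diagonal_mul_diagonal, ← Matrix.diagonal_one]
  congr 1
  funext i
  simp only [sgn]
  by_cases h : ε i <;> simp [h]

/-- Cayley transform of a skew matrix is orthogonal. -/
lemma cayley_orthogonal {K : Matrix (Fin n) (Fin n) ℝ} (hK : Kᵀ = -K) :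
    ((1 - K) * (1 + K)⁻¹)ᵀ * ((1 - K) * (1 + K)⁻¹) = 1 := by
  have hd : IsUnit (1 + K).det := isUnit_iff_ne_zero.2 (det_one_add_of_skew hK)
  have hK' : (-K)ᵀ = -(-K) := by rw [Matrix.transpose_neg, hK]
  have hd' : IsUnit (1 - K).det := by
    have := det_one_add_of_skew hK'
    rw [← sub_eq_add_neg] at this
    exact isUnit_iff_ne_zero.2 this
  have ht1 : (1 - K)ᵀ = 1 + K := by
    rw [Matrix.transpose_sub, Matrix.transpose_one, hK, sub_neg_eq_add]
  have ht2 : ((1 + K)⁻¹)ᵀ = (1 - K)⁻¹ := by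
    rw [Matrix.transpose_nonsing_inv, Matrix.transpose_add, Matrix.transpose_one, hK,
      ← sub_eq_add_neg]
  have hcomm : (1 + K) * (1 - K) = (1 - K) * (1 + K) := by noncomm_ring
  rw [Matrix.transpose_mul, ht1, ht2]
  calc (1 - K)⁻¹ * (1 + K) * ((1 - K) * (1 + K)⁻¹)
      = (1 - K)⁻¹ * ((1 + K) * (1 - K)) * (1 + K)⁻¹ := by simp only [Matrix.mul_assoc]
    _ = ((1 - K)⁻¹ * (1 - K)) * ((1 + K) * (1 + K)⁻¹) := by
        rw [hcomm]; simp only [Matrix.mul_assoc]
    _ = 1 := by
        rw [Matrix.nonsing_inv_mul _ hd', Matrix.mul_nonsing_inv _ hd, Matrix.mul_one]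

lemma orth_orthogonal (ε : Fin n → Bool) (c : Sym2 (Fin n) → ℝ) :
    (orth ε c)ᵀ * orth ε c = 1 := by
  have h := cayley_orthogonal (skewM_transpose c)
  unfold orth
  set Q := (1 - skewM c) * (1 + skewM c)⁻¹
  rw [Matrix.transpose_mul, Matrix.diagonal_transpose]
  calc Qᵀ * Matrix.diagonal (sgn ε) * (Matrix.diagonal (sgn ε) * Q)
      = Qᵀ * (Matrix.diagonal (sgn ε) * Matrix.diagonal (sgn ε)) * Q := by
        simp only [Matrix.mul_assoc]
    _ = 1 := by rw [sgn_mul_sgn, Matrix.mul_one, h]

lemma chart_mul (ε J : Fin n → Bool) (c : Sym2 (Fin n) → ℝ) :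
    chartS ε J c * chartX ε J c = 0 := by
  have h := orth_orthogonal ε c
  unfold chartS chartX
  set O := orth ε c
  have hd : Matrix.diagonal (fun i => if J i then 0 else c s(i, i)) *
      Matrix.diagonal (fun i => if J i then c s(i, i) else 0) = 0 := by
    rw [Matrix.diagonal_mul_diagonal, ← Matrix.diagonal_zero]
    congr 1
    funext i
    by_cases hJ : J i <;> simp [hJ]
  calc O * Matrix.diagonal (fun i => if J i then 0 else c s(i, i)) * Oᵀ *
        (O * Matrix.diagonal (fun i => if J i then c s(i, i) else 0) * Oᵀ)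
      = O * (Matrix.diagonal (fun i => if J i then 0 else c s(i, i)) * (Oᵀ * O) *
        Matrix.diagonal (fun i => if J i then c s(i, i) else 0)) * Oᵀ := by
        simp only [Matrix.mul_assoc]
    _ = 0 := by rw [h, Matrix.mul_one, hd, Matrix.mul_zero, Matrix.zero_mul]

/-- mixed matrix -/
def mixM (U : Matrix (Fin n) (Fin n) ℝ) (s : Finset (Fin n)) (ε : Fin n → Bool) :
    Matrix (Fin n) (Fin n) ℝ :=
  Matrix.of fun i j => if i ∈ s then (Matrix.diagonal (sgn ε) + U) i j
    else (1 : Matrix (Fin n) (Fin n) ℝ) i j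

lemma mix_aux (U : Matrix (Fin n) (Fin n) ℝ) (s : Finset (Fin n)) :
    ∃ ε : Fin n → Bool, (mixM U s ε).det ≠ 0 := by
  classical
  induction s using Finset.induction_on with
  | empty =>
    refine ⟨fun _ => true, ?_⟩
    have : mixM U ∅ (fun _ => true) = (1 : Matrix (Fin n) (Fin n) ℝ) := by
      ext i j; simp [mixM]
    rw [this, Matrix.det_one]; exact one_ne_zero
  | insert i s his ih =>
    obtain ⟨ε, hε⟩ := ih
    have key : ∀ c : Bool, mixM U (insert i s) (Function.update ε i c) =
        (mixM U s ε).updateRow i ((if c then (1 : ℝ) else -1) • (Pi.single i 1) + U i) := by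
      intro c
      ext k j
      by_cases hk : k = i
      · subst hk
        rw [Matrix.updateRow_self]
        simp only [mixM, Matrix.of_apply, Finset.mem_insert_self, if_true, Matrix.add_apply,
          Pi.add_apply, Pi.smul_apply, smul_eq_mul, Matrix.diagonal_apply, sgn,
          Function.update_self, Pi.single_apply]
        by_cases hj : k = j
        · subst hj; simp
        · have hj' : ¬ j = k := fun h => hj h.symm
          simp [hj, hj']
      · rw [Matrix.updateRow_ne hk]
        have h1 : (k ∈ insert i s) ↔ (k ∈ s) := by simp [hk]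
        simp only [mixM, Matrix.of_apply, h1, Matrix.add_apply, Matrix.diagonal_apply, sgn,
          Function.update_of_ne hk]
    have hself : (mixM U s ε).updateRow i (Pi.single i 1) = mixM U s ε := by
      have : (Pi.single i 1 : Fin n → ℝ) = (mixM U s ε) i := by
        funext j
        simp only [mixM, Matrix.of_apply, his, if_false, Matrix.one_apply, Pi.single_apply]
        by_cases hj : i = j
        · subst hj; simp
        · have hj' : ¬ j = i := fun h => hj h.symm
          simp [hj, hj']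
      rw [this, Matrix.updateRow_eq_self]
    have hdet : ∀ c : Bool, (mixM U (insert i s) (Function.update ε i c)).det =
        (if c then (1 : ℝ) else -1) * (mixM U s ε).det + ((mixM U s ε).updateRow i (U i)).det := by
      intro c
      rw [key c, Matrix.det_updateRow_add, Matrix.det_updateRow_smul, hself]
    by_contra hcon
    push Not at hcon
    have h1 := hdet true
    have h2 := hdet false
    rw [hcon] at h1 h2
    simp only [if_true, one_mul, Bool.false_eq_true, if_false, neg_mul] at h1 h2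
    apply hε
    linarith

lemma exists_sign (U : Matrix (Fin n) (Fin n) ℝ) :
    ∃ ε : Fin n → Bool, (Matrix.diagonal (sgn ε) + U).det ≠ 0 := by
  obtain ⟨ε, h⟩ := mix_aux U Finset.univ
  refine ⟨ε, ?_⟩
  have : mixM U Finset.univ ε = Matrix.diagonal (sgn ε) + U := by
    ext i j; simp [mixM]
  rwa [this] at h

/-- hint: simul_diag for the family ![X, S]; U orthogonal; exists_sign gives ε with
V = diagonal (sgn ε) * U, 1 + V invertible; K = (1 - V) * (1 + V)⁻¹ is skew and
V = (1 - K) * (1 + K)⁻¹; J i = decide (x i ≠ 0); c s(i,i) = x i + s i, c s(i,j) = K i j (i < j). -/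
lemma exists_chart {X S : Matrix (Fin n) (Fin n) ℝ} (hX : Xᵀ = X) (hS : Sᵀ = S)
    (hSX : S * X = 0) : ∃ (ε J : Fin n → Bool) (c : Sym2 (Fin n) → ℝ),
      X = chartX ε J c ∧ S = chartS ε J c := by
  classical
  have hXS : X * S = 0 := by
    have := congrArg Matrix.transpose hSX
    rwa [Matrix.transpose_mul, hX, hS, Matrix.transpose_zero] at this
  obtain ⟨U, β, hU, hD⟩ := simul_diag (fun l : Fin 2 => if l = 0 then X else S)
    (fun l => by
      by_cases h : l = 0
      · simp only [h, if_true]; exact hX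
      · simp only [h, if_false]; exact hS)
    (fun k l => by
      by_cases hk : k = 0 <;> by_cases hl : l = 0 <;> simp [hk, hl, hSX, hXS])
  have hU' : U * Uᵀ = 1 := mul_eq_one_comm.1 hU
  set x := β 0 with hx
  set σ := β 1 with hσ
  have hDX : Uᵀ * X * U = Matrix.diagonal x := by simpa using hD 0
  have hDS : Uᵀ * S * U = Matrix.diagonal σ := by simpa using hD 1
  have hXU : X = U * Matrix.diagonal x * Uᵀ := by
    rw [← hDX]
    calc X = 1 * X * 1 := by rw [Matrix.one_mul, Matrix.mul_one]
      _ = (U * Uᵀ) * X * (U * Uᵀ) := by rw [hU']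
      _ = U * (Uᵀ * X * U) * Uᵀ := by simp only [Matrix.mul_assoc]
  have hSU : S = U * Matrix.diagonal σ * Uᵀ := by
    rw [← hDS]
    calc S = 1 * S * 1 := by rw [Matrix.one_mul, Matrix.mul_one]
      _ = (U * Uᵀ) * S * (U * Uᵀ) := by rw [hU']
      _ = U * (Uᵀ * S * U) * Uᵀ := by simp only [Matrix.mul_assoc]
  have hσx : ∀ i, σ i * x i = 0 := by
    intro i
    have h1 : Matrix.diagonal σ * Matrix.diagonal x = 0 := by
      rw [← hDS, ← hDX]
      calc Uᵀ * S * U * (Uᵀ * X * U) = Uᵀ * S * (U * Uᵀ) * X * U := by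
            simp only [Matrix.mul_assoc]
        _ = Uᵀ * (S * X) * U := by rw [hU', Matrix.mul_one]; simp only [Matrix.mul_assoc]
        _ = 0 := by rw [hSX, Matrix.mul_zero, Matrix.zero_mul]
    rw [Matrix.diagonal_mul_diagonal] at h1
    have := congrFun (congrFun h1 i) i
    simpa using this
  obtain ⟨ε, hε⟩ := exists_sign U
  -- V = diagonal (sgn ε) * U
  set V := Matrix.diagonal (sgn ε) * U with hV
  have hVV : Vᵀ * V = 1 := by
    rw [hV, Matrix.transpose_mul, Matrix.diagonal_transpose]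
    calc Uᵀ * Matrix.diagonal (sgn ε) * (Matrix.diagonal (sgn ε) * U)
        = Uᵀ * (Matrix.diagonal (sgn ε) * Matrix.diagonal (sgn ε)) * U := by
          simp only [Matrix.mul_assoc]
      _ = 1 := by rw [sgn_mul_sgn, Matrix.mul_one, hU]
  have hVV' : V * Vᵀ = 1 := mul_eq_one_comm.1 hVV
  have hUV : U = Matrix.diagonal (sgn ε) * V := by
    rw [hV, ← Matrix.mul_assoc, sgn_mul_sgn, Matrix.one_mul]
  have hdet : IsUnit (1 + V).det := by
    have h1 : 1 + V = Matrix.diagonal (sgn ε) * (Matrix.diagonal (sgn ε) + U) := by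
      rw [Matrix.mul_add, sgn_mul_sgn]
    rw [h1, Matrix.det_mul]
    refine isUnit_iff_ne_zero.2 (mul_ne_zero ?_ hε)
    rw [Matrix.det_diagonal]
    refine Finset.prod_ne_zero_iff.2 fun i _ => ?_
    simp only [sgn]
    by_cases h : ε i <;> simp [h]
  set K := (1 - V) * (1 + V)⁻¹ with hK
  have hcomm : (1 + V) * (1 - V) = (1 - V) * (1 + V) := by noncomm_ring
  have hK2 : K = (1 + V)⁻¹ * (1 - V) := by
    rw [hK]
    calc (1 - V) * (1 + V)⁻¹ = ((1 + V)⁻¹ * (1 + V)) * ((1 - V) * (1 + V)⁻¹) := by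
          rw [Matrix.nonsing_inv_mul _ hdet, Matrix.one_mul]
      _ = (1 + V)⁻¹ * ((1 + V) * (1 - V)) * (1 + V)⁻¹ := by simp only [Matrix.mul_assoc]
      _ = (1 + V)⁻¹ * (1 - V) * ((1 + V) * (1 + V)⁻¹) := by
          rw [hcomm]; simp only [Matrix.mul_assoc]
      _ = (1 + V)⁻¹ * (1 - V) := by rw [Matrix.mul_nonsing_inv _ hdet, Matrix.mul_one]
  have hKs : Kᵀ = -K := by
    have hVt : (1 + V)ᵀ = Vᵀ * (1 + V) := by
      rw [Matrix.mul_add, Matrix.mul_one, hVV, Matrix.transpose_add, Matrix.transpose_one,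
        add_comm]
    have hVt2 : (1 - V)ᵀ = - (Vᵀ * (1 - V)) := by
      rw [Matrix.mul_sub, Matrix.mul_one, hVV, Matrix.transpose_sub, Matrix.transpose_one]
      abel
    have hVtu : IsUnit (Vᵀ).det := by
      have h1 := congrArg Matrix.det hVV
      rw [Matrix.det_mul, Matrix.det_one] at h1
      exact IsUnit.of_mul_eq_one _ h1
    -- K (1+V) = 1 - V
    have h1 : K * (1 + V) = 1 - V := by
      rw [hK, Matrix.mul_assoc, Matrix.nonsing_inv_mul _ hdet, Matrix.mul_one]
    have h2 := congrArg Matrix.transpose h1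
    rw [Matrix.transpose_mul, hVt, hVt2] at h2
    -- Vᵀ (1+V) Kᵀ = - Vᵀ (1 - V)
    have h3 : (1 + V) * Kᵀ = -(1 - V) := by
      have h4 : (Vᵀ)⁻¹ * (Vᵀ * (1 + V) * Kᵀ) = (Vᵀ)⁻¹ * (-(Vᵀ * (1 - V))) := by rw [h2]
      rw [Matrix.mul_assoc, ← Matrix.mul_assoc, Matrix.nonsing_inv_mul _ hVtu, Matrix.one_mul,
        Matrix.mul_neg, ← Matrix.mul_assoc, Matrix.nonsing_inv_mul _ hVtu, Matrix.one_mul] at h4
      exact h4
    calc Kᵀ = (1 + V)⁻¹ * ((1 + V) * Kᵀ) := by
          rw [← Matrix.mul_assoc, Matrix.nonsing_inv_mul _ hdet, Matrix.one_mul]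
      _ = -((1 + V)⁻¹ * (1 - V)) := by rw [h3, Matrix.mul_neg]
      _ = -K := by rw [hK2]
  have hVK : V = (1 - K) * (1 + K)⁻¹ := by
    have hKd : IsUnit (1 + K).det := isUnit_iff_ne_zero.2 (det_one_add_of_skew hKs)
    have h1 : K * (1 + V) = 1 - V := by
      rw [hK, Matrix.mul_assoc, Matrix.nonsing_inv_mul _ hdet, Matrix.mul_one]
    have h1' : (1 + V) * K = 1 - V := by
      rw [hK2, ← Matrix.mul_assoc, Matrix.mul_nonsing_inv _ hdet, Matrix.one_mul]
    have h2 : V * (1 + K) = 1 - K := by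
      have h3 : K + V * K = 1 - V := by
        have := h1'; rw [Matrix.add_mul, Matrix.one_mul] at this; exact this
      rw [Matrix.mul_add, Matrix.mul_one]
      have h4 : V * K = 1 - V - K := by rw [← h3]; abel
      rw [h4]; abel
    rw [← h2, Matrix.mul_assoc, Matrix.mul_nonsing_inv _ hKd, Matrix.mul_one]
  -- coordinates
  let c : Sym2 (Fin n) → ℝ := Sym2.lift ⟨fun i j => if i = j then x i + σ i else
      if i < j then K i j else K j i, by
    intro i j
    by_cases h : i = j
    · subst h; rfl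
    · have h' : ¬ j = i := fun e => h e.symm
      simp only [h, h', if_false]
      rcases lt_or_gt_of_ne h with h1 | h1
      · simp [h1, not_lt_of_gt h1]
      · simp [h1, not_lt_of_gt h1]⟩
  have hcd : ∀ i, c s(i, i) = x i + σ i := fun i => by simp [c]
  have hcK : skewM c = K := by
    ext i j
    simp only [skewM, Matrix.of_apply]
    rcases lt_trichotomy i j with h | h | h
    · rw [if_pos h]
      simp [c, h.ne, h]
    · subst h
      simp only [lt_irrefl, if_false]
      have := congrFun (congrFun hKs i) i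
      simp only [Matrix.transpose_apply, Matrix.neg_apply] at this
      linarith
    · rw [if_neg (not_lt_of_gt h), if_pos h]
      have h1 : c s(i, j) = K j i := by
        simp [c, h.ne', not_lt_of_gt h]
      rw [h1]
      have := congrFun (congrFun hKs i) j
      simp only [Matrix.transpose_apply, Matrix.neg_apply] at this
      linarith
  have horth : orth ε c = U := by
    unfold orth
    rw [hcK, ← hVK, ← hUV]
  refine ⟨ε, fun i => decide (x i ≠ 0), c, ?_, ?_⟩
  · unfold chartX
    rw [horth]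
    have : (fun i => if decide (x i ≠ 0) = true then c s(i, i) else 0) = x := by
      funext i
      rw [hcd]
      by_cases h : x i = 0
      · simp [h]
      · have h1 : σ i = 0 := by
          rcases mul_eq_zero.1 (hσx i) with h2 | h2
          · exact h2
          · exact absurd h2 h
        simp [h, h1]
    rw [this]
    exact hXU
  · unfold chartS
    rw [horth]
    have : (fun i => if decide (x i ≠ 0) = true then 0 else c s(i, i)) = σ := by
      funext i
      rw [hcd]
      by_cases h : x i = 0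
      · simp [h]
      · have h1 : σ i = 0 := by
          rcases mul_eq_zero.1 (hσx i) with h2 | h2
          · exact h2
          · exact absurd h2 h
        simp [h, h1]
    rw [this]
    exact hSU

end Pool.Agent.Lib.MP_e757b3_ae
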