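import Mathlib

open MeasureTheory Filter Topology

namespace Pool.Agent.Lib.MP_e757b3_ae

section sard

variable {E : Type*} [NormedAddCommGroup E] [NormedSpace ℝ E] [FiniteDimensional ℝ E]
  [MeasurableSpace E] [BorelSpace E] (μ : Measure E) [μ.IsAddHaarMeasure] {f : E → E}

/-- Almost every fibre of a `C¹` map between spaces of equal dimension is countable. -/
lemma ae_countable_fiber (hf : ContDiff ℝ 1 f) : ∀ᵐ y ∂μ, (f ⁻¹' {y}).Countable := by
  have _ : CompleteSpace E := FiniteDimensional.complete ℝ E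
  have _ : ProperSpace E := FiniteDimensional.proper ℝ E
  have h1 : μ (f '' {x | (fderiv ℝ f x).det = 0}) = 0 :=
    addHaar_image_eq_zero_of_det_fderivWithin_eq_zero μ (f' := fderiv ℝ f)
      (fun x _ => (hf.differentiable one_ne_zero x).hasFDerivAt.hasFDerivWithinAt)
      (fun x hx => hx)
  have h2 : ∀ᵐ y ∂μ, y ∉ f '' {x | (fderiv ℝ f x).det = 0} :=
    measure_eq_zero_iff_ae_notMem.1 h1
  filter_upwards [h2] with y hy
  refine (HereditarilyLindelofSpace.isLindelof _).countable_of_isDiscrete ?_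
  rw [isDiscrete_iff_forall_mem_exists_isOpen]
  intro x hx
  have hdet : (fderiv ℝ f x).det ≠ 0 := fun h => hy ⟨x, h, hx⟩
  have hstrict : HasStrictFDerivAt f
      ((fderiv ℝ f x).toContinuousLinearEquivOfDetNeZero hdet : E →L[ℝ] E) x := by
    rw [ContinuousLinearMap.coe_toContinuousLinearEquivOfDetNeZero]
    exact hf.contDiffAt.hasStrictFDerivAt one_ne_zero
  obtain ⟨U, hU, hUo, hxU⟩ := eventually_nhds_iff.1 hstrict.eventually_left_inverse
  refine ⟨U, hUo, ?_⟩
  ext z
  constructor
  · rintro ⟨hzU, hz⟩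
    have e1 := hU z hzU
    have e2 := hU x hxU
    have e3 : f z = f x := (hz : f z = y).trans (hx : f x = y).symm
    rw [e3, e2] at e1
    exact e1.symm
  · intro hz
    rw [Set.mem_singleton_iff] at hz
    rw [hz]
    exact ⟨hxU, hx⟩

/-- The image of a set on which the derivative is degenerate is null. -/
lemma image_null {U : Set E} (hf : ∀ x ∈ U, DifferentiableAt ℝ f x) {v : E → E}
    (hv : ∀ x ∈ U, v x ≠ 0 ∧ ∀ᶠ t : ℝ in 𝓝 0, f (x + t • v x) = f x) : μ (f '' U) = 0 := by
  refine addHaar_image_eq_zero_of_det_fderivWithin_eq_zero μ (f' := fderiv ℝ f)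
    (fun x hx => (hf x hx).hasFDerivAt.hasFDerivWithinAt) (fun x hx => ?_)
  obtain ⟨h1, h2⟩ := hv x hx
  by_contra hdet
  have h3 : HasDerivAt (fun t : ℝ => x + t • v x) (v x) 0 := by
    have := ((hasDerivAt_id (0 : ℝ)).smul_const (v x)).const_add x
    simpa using this
  have h4 : HasFDerivAt f (fderiv ℝ f x) (x + (0 : ℝ) • v x) := by
    rw [zero_smul, add_zero]
    exact (hf x hx).hasFDerivAt
  have h5 : HasDerivAt (fun t : ℝ => f (x + t • v x)) (fderiv ℝ f x (v x)) 0 :=
    h4.comp_hasDerivAt (0 : ℝ) h3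
  have h6 : HasDerivAt (fun t : ℝ => f (x + t • v x)) 0 0 :=
    (hasDerivAt_const (0 : ℝ) (f x)).congr_of_eventuallyEq h2
  have h7 := h5.unique h6
  have h8 : (fderiv ℝ f x).toContinuousLinearEquivOfDetNeZero hdet (v x) = 0 := by
    rw [ContinuousLinearMap.toContinuousLinearEquivOfDetNeZero_apply]
    exact h7
  exact h1 ((map_eq_zero_iff _ (ContinuousLinearEquiv.injective _)).1 h8)

end sard

section space

/-- The space of data `(C, A, b)`. -/
abbrev Data (n m : ℕ) : Type :=
  (Sym2 (Fin n) → ℝ) × (Fin m → Sym2 (Fin n) → ℝ) × (Fin m → ℝ)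

instance data_haar_mid (n m : ℕ) :
    (volume : Measure (Fin m → Sym2 (Fin n) → ℝ)).IsAddHaarMeasure := by
  have h : ∀ _ : Fin m, (volume : Measure (Sym2 (Fin n) → ℝ)).IsAddHaarMeasure :=
    fun _ => inferInstance
  exact @Measure.pi.isAddHaarMeasure (Fin m) (fun _ => Sym2 (Fin n) → ℝ) _ _
    (fun _ => volume) _ _ _ h _

instance data_haar (n m : ℕ) : (volume : Measure (Data n m)).IsAddHaarMeasure := by
  have h3 : (volume : Measure ((Fin m → Sym2 (Fin n) → ℝ) × (Fin m → ℝ))).IsAddHaarMeasure :=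
    @Measure.prod.instIsAddHaarMeasure _ _ _ _ _ _ _ _
      (volume : Measure (Fin m → Sym2 (Fin n) → ℝ)) (volume : Measure (Fin m → ℝ))
      (data_haar_mid n m) inferInstance inferInstance inferInstance inferInstance inferInstance
  exact @Measure.prod.instIsAddHaarMeasure _ _ _ _ _ _ _ _
      (volume : Measure (Sym2 (Fin n) → ℝ))
      (volume : Measure ((Fin m → Sym2 (Fin n) → ℝ) × (Fin m → ℝ)))
      inferInstance h3 inferInstance inferInstance inferInstance inferInstance

end space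

end Pool.Agent.Lib.MP_e757b3_ae
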