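import Pool.Agent.Lib.MP_e757b3_ae.NK
import Pool.Agent.Lib.MP_e757b3_ae.NL
import Pool.Agent.Lib.MP_e757b3_ae.NM

open Matrix Filter Topology MeasureTheory

namespace Pool.Agent.Lib.MP_e757b3_ae

section coords

variable {n : ℕ}

/-- Coordinates of a symmetric matrix. -/
noncomputable def coord (M : Matrix (Fin n) (Fin n) ℝ) : Sym2 (Fin n) → ℝ :=
  fun z => Sym2.lift ⟨fun i j => (M i j + M j i) / 2, fun i j => by ring⟩ z

lemma coord_mk (M : Matrix (Fin n) (Fin n) ℝ) (i j : Fin n) :
    coord M s(i, j) = (M i j + M j i) / 2 := rfl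

lemma symM_apply (c : Sym2 (Fin n) → ℝ) (i j : Fin n) : symM c i j = c s(i, j) := rfl

lemma coord_symM (c : Sym2 (Fin n) → ℝ) : coord (symM c) = c := by
  funext z
  induction z using Sym2.ind with
  | _ i j =>
    rw [coord_mk, symM_apply, symM_apply, Sym2.eq_swap (a := j) (b := i)]
    ring

lemma symM_coord {M : Matrix (Fin n) (Fin n) ℝ} (hM : Mᵀ = M) : symM (coord M) = M := by
  ext i j
  have h1 : M j i = M i j := by
    conv_lhs => rw [← hM]
    rfl
  rw [symM_apply, coord_mk, h1]
  ring

lemma symM_symm (c : Sym2 (Fin n) → ℝ) : (symM c)ᵀ = symM c := by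
  ext i j
  rw [Matrix.transpose_apply, symM_apply, symM_apply, Sym2.eq_swap]

end coords

section smooth

open scoped Matrix.Norms.Operator

variable {n : ℕ} {E : Type*} [NormedAddCommGroup E] [NormedSpace ℝ E]

lemma contDiff_symM : ContDiff ℝ 1 (fun c : Sym2 (Fin n) → ℝ => symM c) := by
  let T : (Sym2 (Fin n) → ℝ) →ₗ[ℝ] Matrix (Fin n) (Fin n) ℝ :=
    { toFun := fun c => symM c
      map_add' := fun c c' => by ext i j; rfl
      map_smul' := fun r c => by ext i j; rfl }
  exact contDiff_linear T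

lemma contDiff_skewM : ContDiff ℝ 1 (fun c : Sym2 (Fin n) → ℝ => skewM c) := by
  let T : (Sym2 (Fin n) → ℝ) →ₗ[ℝ] Matrix (Fin n) (Fin n) ℝ :=
    { toFun := fun c => skewM c
      map_add' := fun c c' => by
        ext i j
        simp only [skewM, Matrix.of_apply, Matrix.add_apply, Pi.add_apply]
        split_ifs <;> ring
      map_smul' := fun r c => by
        ext i j
        simp only [skewM, Matrix.of_apply, Matrix.smul_apply, Pi.smul_apply, smul_eq_mul,
          RingHom.id_apply]
        split_ifs <;> ring }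
  exact contDiff_linear T

lemma contDiff_transp {f : E → Matrix (Fin n) (Fin n) ℝ} (hf : ContDiff ℝ 1 f) :
    ContDiff ℝ 1 (fun x => (f x)ᵀ) :=
  (contDiff_linear (Matrix.transposeLinearEquiv (Fin n) (Fin n) ℝ ℝ).toLinearMap).comp hf

lemma contDiff_orth (ε : Fin n → Bool) :
    ContDiff ℝ 1 (fun c : Sym2 (Fin n) → ℝ => orth ε c) := by
  have h1 : ContDiff ℝ 1 (fun c : Sym2 (Fin n) → ℝ => 1 + skewM c) :=
    contDiff_const.add contDiff_skewM
  have h2 : ContDiff ℝ 1 (fun c : Sym2 (Fin n) → ℝ => (1 + skewM c)⁻¹) := by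
    rw [contDiff_iff_contDiffAt]
    intro c
    exact ContDiffAt.comp (g := fun N : Matrix (Fin n) (Fin n) ℝ => N⁻¹) c
      (contDiffAt_inv (det_one_add_skew c)) h1.contDiffAt
  exact contDiff_const.mul ((contDiff_const.sub contDiff_skewM).mul h2)

lemma contDiff_chartX (ε J : Fin n → Bool) :
    ContDiff ℝ 1 (fun c : Sym2 (Fin n) → ℝ => chartX ε J c) := by
  let T : (Sym2 (Fin n) → ℝ) →ₗ[ℝ] Matrix (Fin n) (Fin n) ℝ :=
    { toFun := fun c => Matrix.diagonal (fun i => if J i then c s(i, i) else 0)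
      map_add' := fun c c' => by
        rw [Matrix.diagonal_add]
        congr 1
        funext i
        rw [Pi.add_apply]
        split_ifs <;> simp
      map_smul' := fun r c => by
        rw [RingHom.id_apply, ← Matrix.diagonal_smul]
        congr 1
        funext i
        simp only [Pi.smul_apply, smul_eq_mul]
        split_ifs <;> simp }
  exact ((contDiff_orth ε).mul (contDiff_linear T)).mul (contDiff_transp (contDiff_orth ε))

lemma contDiff_chartS (ε J : Fin n → Bool) :
    ContDiff ℝ 1 (fun c : Sym2 (Fin n) → ℝ => chartS ε J c) := by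
  let T : (Sym2 (Fin n) → ℝ) →ₗ[ℝ] Matrix (Fin n) (Fin n) ℝ :=
    { toFun := fun c => Matrix.diagonal (fun i => if J i then 0 else c s(i, i))
      map_add' := fun c c' => by
        rw [Matrix.diagonal_add]
        congr 1
        funext i
        rw [Pi.add_apply]
        split_ifs <;> simp
      map_smul' := fun r c => by
        rw [RingHom.id_apply, ← Matrix.diagonal_smul]
        congr 1
        funext i
        simp only [Pi.smul_apply, smul_eq_mul]
        split_ifs <;> simp }
  exact ((contDiff_orth ε).mul (contDiff_linear T)).mul (contDiff_transp (contDiff_orth ε))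

lemma contDiff_coord {f : E → Matrix (Fin n) (Fin n) ℝ} (hf : ContDiff ℝ 1 f) :
    ContDiff ℝ 1 (fun x => coord (f x)) := by
  let T : Matrix (Fin n) (Fin n) ℝ →ₗ[ℝ] (Sym2 (Fin n) → ℝ) :=
    { toFun := fun M => coord M
      map_add' := fun M M' => by
        funext z
        induction z using Sym2.ind with
        | _ i j =>
          rw [Pi.add_apply, coord_mk, coord_mk, coord_mk]
          simp only [Matrix.add_apply]
          ring
      map_smul' := fun r M => by
        funext z
        induction z using Sym2.ind with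
        | _ i j =>
          rw [Pi.smul_apply, coord_mk, coord_mk]
          simp only [Matrix.smul_apply, smul_eq_mul, RingHom.id_apply]
          ring }
  exact (contDiff_linear T).comp hf

lemma contDiff_trace {f : E → Matrix (Fin n) (Fin n) ℝ} (hf : ContDiff ℝ 1 f) :
    ContDiff ℝ 1 (fun x => (f x).trace) :=
  (contDiff_linear (Matrix.traceLinearMap (Fin n) ℝ ℝ)).comp hf

end smooth

section equilibria

open scoped Matrix.Norms.Operator

variable {n m : ℕ}

/-- The map whose fibres are the equilibria. -/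
noncomputable def F2 (ε J : Fin n → Bool) (x : Data n m) : Data n m :=
  (coord (chartS ε J x.1 + ∑ l, x.2.2 l • symM (x.2.1 l)), x.2.1,
    fun l => (symM (x.2.1 l) * chartX ε J x.1).trace)

lemma contDiff_A (l : Fin m) : ContDiff ℝ 1 (fun x : Data n m => symM (x.2.1 l)) :=
  contDiff_symM.comp ((contDiff_apply ℝ (Sym2 (Fin n) → ℝ) l).comp (contDiff_fst.comp contDiff_snd))

lemma contDiff_mu (l : Fin m) : ContDiff ℝ 1 (fun x : Data n m => x.2.2 l) :=
  (contDiff_apply ℝ ℝ l).comp (contDiff_snd.comp contDiff_snd)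

lemma contDiff_F2 (ε J : Fin n → Bool) : ContDiff ℝ 1 (F2 (m := m) ε J) := by
  have h1 : ContDiff ℝ 1 (fun x : Data n m =>
      chartS ε J x.1 + ∑ l, x.2.2 l • symM (x.2.1 l)) :=
    ((contDiff_chartS ε J).comp contDiff_fst).add
      (ContDiff.sum fun l _ => (contDiff_mu l).smul (contDiff_A l))
  refine (contDiff_coord h1).prodMk ((contDiff_fst.comp contDiff_snd).prodMk ?_)
  refine contDiff_pi.2 fun l => contDiff_trace ?_
  exact (contDiff_A l).mul ((contDiff_chartX ε J).comp contDiff_fst)

/-- For almost every datum the set of equilibria is countable. -/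
lemma ae_equilibria_countable (n m : ℕ) : ∀ᵐ p : Data n m,
    {X : Matrix (Fin n) (Fin n) ℝ | X.PosSemidef ∧
      (∀ l, (symM (p.2.1 l) * X).trace = p.2.2 l) ∧
      ∃ μ : Fin m → ℝ, (symM p.1 - ∑ l, μ l • symM (p.2.1 l)) * X = 0}.Countable := by
  have h1 : ∀ᵐ p : Data n m, ∀ e : (Fin n → Bool) × (Fin n → Bool),
      (F2 (m := m) e.1 e.2 ⁻¹' {p}).Countable :=
    ae_all_iff.2 fun e => ae_countable_fiber volume (contDiff_F2 e.1 e.2)
  filter_upwards [h1] with p hp
  have h2 : (⋃ e : (Fin n → Bool) × (Fin n → Bool),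
      (fun x : Data n m => chartX e.1 e.2 x.1) '' (F2 (m := m) e.1 e.2 ⁻¹' {p})).Countable :=
    Set.countable_iUnion fun e => (hp e).image _
  refine h2.mono ?_
  rintro X ⟨hX, hl, μ, hμ⟩
  have hXs : Xᵀ = X := (psd_iff.1 hX).1
  have hSs : (symM p.1 - ∑ l, μ l • symM (p.2.1 l))ᵀ = symM p.1 - ∑ l, μ l • symM (p.2.1 l) := by
    rw [Matrix.transpose_sub, Matrix.transpose_sum, symM_symm]
    congr 1
    exact Finset.sum_congr rfl fun l _ => by rw [Matrix.transpose_smul, symM_symm]
  obtain ⟨ε, J, c, hc1, hc2⟩ := exists_chart hXs hSs hμ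
  refine Set.mem_iUnion.2 ⟨(ε, J), (c, p.2.1, μ), ?_, hc1.symm⟩
  change F2 ε J (c, p.2.1, μ) = p
  have e1 : coord (chartS ε J c + ∑ l, μ l • symM (p.2.1 l)) = p.1 := by
    rw [← hc2, sub_add_cancel, coord_symM]
  have e2 : (fun l => (symM (p.2.1 l) * chartX ε J c).trace) = p.2.2 := by
    funext l
    rw [← hc1, hl]
  simp only [F2, e1, e2]

end equilibria

end Pool.Agent.Lib.MP_e757b3_ae
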