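import Pool.Agent.Lib.MP_e757b3_ae.NN

open Matrix Filter Topology MeasureTheory

namespace Pool.Agent.Lib.MP_e757b3_ae

section nondeg1

open scoped Matrix.Norms.Operator

variable {n m : ℕ}

/-- The matrices of the degenerate data. -/
noncomputable def degA (ε J : Fin n → Bool) (l0 : Fin m) (x : Data n m) :
    Fin m → Sym2 (Fin n) → ℝ := fun l =>
  if l = l0 then coord (chartS ε J (x.2.1 l0) -
    ∑ k ∈ Finset.univ.erase l0, x.2.2 k • symM (x.2.1 k)) else x.2.1 l

/-- The map whose image contains the data with a degenerate feasible solution. -/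
noncomputable def F1 (ε J : Fin n → Bool) (l0 : Fin m) (x : Data n m) : Data n m :=
  (x.1, degA ε J l0 x, fun l => (symM (degA ε J l0 x l) * chartX ε J (x.2.1 l0)).trace)

lemma contDiff_degA (ε J : Fin n → Bool) (l0 : Fin m) :
    ContDiff ℝ 1 (fun x : Data n m => degA ε J l0 x) := by
  refine contDiff_pi.2 fun l => ?_
  by_cases hl : l = l0
  · subst hl
    have h1 : ContDiff ℝ 1 (fun x : Data n m => chartS ε J (x.2.1 l) -
        ∑ k ∈ Finset.univ.erase l, x.2.2 k • symM (x.2.1 k)) :=
      ((contDiff_chartS ε J).comp ((contDiff_apply ℝ (Sym2 (Fin n) → ℝ) l).comp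
        (contDiff_fst.comp contDiff_snd))).sub
        (ContDiff.sum fun k _ => (contDiff_mu k).smul (contDiff_A k))
    have h2 := contDiff_coord h1
    simpa only [degA, if_true] using h2
  · simp only [degA, if_neg hl]
    exact (contDiff_apply ℝ (Sym2 (Fin n) → ℝ) l).comp (contDiff_fst.comp contDiff_snd)

lemma contDiff_F1 (ε J : Fin n → Bool) (l0 : Fin m) : ContDiff ℝ 1 (F1 (m := m) ε J l0) := by
  have hA := contDiff_degA (n := n) ε J l0
  refine contDiff_fst.prodMk (hA.prodMk ?_)
  refine contDiff_pi.2 fun l => contDiff_trace ?_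
  refine (contDiff_symM.comp ((contDiff_apply ℝ (Sym2 (Fin n) → ℝ) l).comp hA)).mul ?_
  exact (contDiff_chartX ε J).comp ((contDiff_apply ℝ (Sym2 (Fin n) → ℝ) l0).comp
    (contDiff_fst.comp contDiff_snd))

lemma F1_null (ε J : Fin n → Bool) (l0 : Fin m) :
    volume (F1 (m := m) ε J l0 '' Set.univ) = 0 := by
  refine image_null volume (fun x _ => ((contDiff_F1 ε J l0).differentiable one_ne_zero) x)
    (v := fun _ => (0, 0, Pi.single l0 1)) (fun x _ => ⟨?_, Eventually.of_forall fun t => ?_⟩)
  · intro h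
    have h1 := congrFun (congrArg (fun y : Data n m => y.2.2) h) l0
    simp at h1
  · have hA : degA ε J l0 (x + t • ((0, 0, Pi.single l0 1) : Data n m)) = degA ε J l0 x := by
      funext l
      simp only [degA]
      split_ifs with hl
      · congr 1
        have e1 : (x + t • ((0, 0, Pi.single l0 1) : Data n m)).2.1 = x.2.1 := by simp
        rw [e1]
        congr 1
        refine Finset.sum_congr rfl fun k hk => ?_
        have e2 : (x + t • ((0, 0, Pi.single l0 1) : Data n m)).2.2 k = x.2.2 k := by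
          have := Finset.ne_of_mem_erase hk
          simp [Pi.single_eq_of_ne this]
        rw [e2]
      · simp
    have e0 : (x + t • ((0, 0, Pi.single l0 1) : Data n m)).1 = x.1 := by simp
    have e1 : (x + t • ((0, 0, Pi.single l0 1) : Data n m)).2.1 = x.2.1 := by simp
    simp only [F1, hA, e0, e1]

/-- A relation `∑ μ A * X = 0` gives a point of the chart. -/
lemma exists_chart_rel {X : Matrix (Fin n) (Fin n) ℝ} (hX : X.PosSemidef)
    (a : Fin m → Sym2 (Fin n) → ℝ) {μ : Fin m → ℝ} (hμ : μ ≠ 0)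
    (h0 : (∑ l, μ l • symM (a l)) * X = 0) :
    ∃ (l0 : Fin m) (ν : Fin m → ℝ) (ε J : Fin n → Bool) (c : Sym2 (Fin n) → ℝ),
      X = chartX ε J c ∧
      symM (a l0) = chartS ε J c - ∑ k ∈ Finset.univ.erase l0, ν k • symM (a k) := by
  obtain ⟨l0, hl0⟩ := Function.ne_iff.1 hμ
  rw [Pi.zero_apply] at hl0
  have hXs : Xᵀ = X := (psd_iff.1 hX).1
  set ν : Fin m → ℝ := fun l => μ l / μ l0 with hν
  have hν0 : ν l0 = 1 := div_self hl0
  have hSs : (∑ l, ν l • symM (a l))ᵀ = ∑ l, ν l • symM (a l) := by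
    rw [Matrix.transpose_sum]
    exact Finset.sum_congr rfl fun l _ => by rw [Matrix.transpose_smul, symM_symm]
  have hSX : (∑ l, ν l • symM (a l)) * X = 0 := by
    have e1 : ∑ l, ν l • symM (a l) = (μ l0)⁻¹ • ∑ l, μ l • symM (a l) := by
      rw [Finset.smul_sum]
      refine Finset.sum_congr rfl fun l _ => ?_
      rw [smul_smul, hν]
      congr 1
      ring
    rw [e1, Matrix.smul_mul, h0, smul_zero]
  obtain ⟨ε, J, c, hc1, hc2⟩ := exists_chart hXs hSs hSX
  refine ⟨l0, ν, ε, J, c, hc1, ?_⟩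
  rw [← hc2, ← Finset.add_sum_erase _ _ (Finset.mem_univ l0), hν0, one_smul,
    add_sub_cancel_right]

/-- For almost every datum every feasible solution is nondegenerate. -/
lemma ae_nondeg (n m : ℕ) : ∀ᵐ p : Data n m, ∀ X : Matrix (Fin n) (Fin n) ℝ, X.PosSemidef →
    (∀ l, (symM (p.2.1 l) * X).trace = p.2.2 l) →
    ∀ μ : Fin m → ℝ, (∑ l, μ l • symM (p.2.1 l)) * X = 0 → μ = 0 := by
  have h1 : ∀ᵐ p : Data n m, ∀ e : (Fin n → Bool) × (Fin n → Bool) × Fin m,
      p ∉ F1 (m := m) e.1 e.2.1 e.2.2 '' Set.univ :=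
    ae_all_iff.2 fun e => measure_eq_zero_iff_ae_notMem.1 (F1_null e.1 e.2.1 e.2.2)
  filter_upwards [h1] with p hp X hX hl μ hμ
  by_contra hμ0
  obtain ⟨l0, ν, ε, J, c, hc1, hc2⟩ := exists_chart_rel hX p.2.1 hμ0 hμ
  refine hp (ε, J, l0) ⟨(p.1, Function.update p.2.1 l0 c, ν), trivial, ?_⟩
  have hA : degA ε J l0 (p.1, Function.update p.2.1 l0 c, ν) = p.2.1 := by
    funext l
    simp only [degA]
    split_ifs with h
    · subst h
      rw [Function.update_self]
      have e1 : ∑ k ∈ Finset.univ.erase l, ν k • symM (Function.update p.2.1 l c k) =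
          ∑ k ∈ Finset.univ.erase l, ν k • symM (p.2.1 k) :=
        Finset.sum_congr rfl fun k hk => by
          rw [Function.update_of_ne (Finset.ne_of_mem_erase hk)]
      rw [e1, ← hc2, coord_symM]
    · rw [Function.update_of_ne h]
  have hB : (fun l => (symM (p.2.1 l) * chartX ε J c).trace) = p.2.2 := by
    funext l
    rw [← hc1, hl]
  simp only [F1, hA, Function.update_self, hB]

end nondeg1

section nondeg0

open scoped Matrix.Norms.Operator

variable {n m : ℕ}

/-- Scaling direction. -/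
def scl (J : Fin n → Bool) (c : Sym2 (Fin n) → ℝ) : Sym2 (Fin n) → ℝ := fun z =>
  Sym2.lift ⟨fun i j => if i = j ∧ J i then c s(i, i) else 0, fun i j => by
    by_cases h : i = j
    · subst h; rfl
    · have h' : ¬ j = i := fun h' => h h'.symm
      simp [h, h']⟩ z

lemma scl_diag (J : Fin n → Bool) (c : Sym2 (Fin n) → ℝ) (i : Fin n) :
    scl J c s(i, i) = if J i then c s(i, i) else 0 := by
  change (if i = i ∧ J i then c s(i, i) else 0) = _
  simp

lemma scl_off (J : Fin n → Bool) (c : Sym2 (Fin n) → ℝ) {i j : Fin n} (h : i ≠ j) :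
    scl J c s(i, j) = 0 := by
  change (if i = j ∧ J i then c s(i, i) else 0) = _
  simp [h]

lemma skewM_scl (J : Fin n → Bool) (c : Sym2 (Fin n) → ℝ) (t : ℝ) :
    skewM (c + t • scl J c) = skewM c := by
  ext i j
  simp only [skewM, Matrix.of_apply, Pi.add_apply, Pi.smul_apply]
  rcases lt_trichotomy i j with h | h | h
  · rw [if_pos h, if_pos h, scl_off J c h.ne, smul_zero, add_zero]
  · subst h; simp
  · rw [if_neg h.le.not_gt, if_pos h, if_neg h.le.not_gt, if_pos h, scl_off J c h.ne', smul_zero,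
      add_zero]

lemma orth_scl (ε J : Fin n → Bool) (c : Sym2 (Fin n) → ℝ) (t : ℝ) :
    orth ε (c + t • scl J c) = orth ε c := by
  rw [orth, orth, skewM_scl]

lemma chartX_scl (ε J : Fin n → Bool) (c : Sym2 (Fin n) → ℝ) (t : ℝ) :
    chartX ε J (c + t • scl J c) = (1 + t) • chartX ε J c := by
  rw [chartX, chartX, orth_scl]
  have h1 : Matrix.diagonal (fun i => if J i then (c + t • scl J c) s(i, i) else 0) =
      (1 + t) • Matrix.diagonal (fun i => if J i then c s(i, i) else 0) := by
    rw [← Matrix.diagonal_smul]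
    congr 1
    funext i
    simp only [Pi.add_apply, Pi.smul_apply, smul_eq_mul, scl_diag]
    split_ifs <;> ring
  rw [h1, Matrix.mul_smul, Matrix.smul_mul]

lemma chartS_scl (ε J : Fin n → Bool) (c : Sym2 (Fin n) → ℝ) (t : ℝ) :
    chartS ε J (c + t • scl J c) = chartS ε J c := by
  rw [chartS, chartS, orth_scl]
  congr 3
  funext i
  simp only [Pi.add_apply, Pi.smul_apply, smul_eq_mul, scl_diag]
  split_ifs <;> ring

lemma scl_ne_zero (ε J : Fin n → Bool) (c : Sym2 (Fin n) → ℝ) (h : chartX ε J c ≠ 0) :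
    scl J c ≠ 0 := by
  intro h0
  apply h
  have h1 : (fun i => if J i then c s(i, i) else 0) = (0 : Fin n → ℝ) := by
    funext i
    rw [← scl_diag, h0]
    rfl
  rw [chartX, h1]
  simp

/-- The matrices with a prescribed kernel element. -/
noncomputable def kerA (ε J : Fin n → Bool) (l0 : Fin m) (i0 : Fin n) (x : Data n m) :
    Fin m → Sym2 (Fin n) → ℝ := fun l z =>
  if z = s(i0, i0) then
    -((symM (fun w => if w = s(i0, i0) then 0 else x.2.1 l w) * chartX ε J (x.2.1 l0)).trace) /
      chartX ε J (x.2.1 l0) i0 i0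
  else x.2.1 l z

/-- The matrices of data with a degenerate recession direction. -/
noncomputable def recA (ε J : Fin n → Bool) (l0 : Fin m) (i0 : Fin n) (x : Data n m) :
    Fin m → Sym2 (Fin n) → ℝ := fun l =>
  if l = l0 then coord (chartS ε J (x.2.1 l0) -
    ∑ k ∈ Finset.univ.erase l0, x.2.1 k s(i0, i0) • symM (kerA ε J l0 i0 x k))
  else kerA ε J l0 i0 x l

/-- The map whose image contains the data with a degenerate recession direction. -/
noncomputable def F0 (ε J : Fin n → Bool) (l0 : Fin m) (i0 : Fin n) (x : Data n m) : Data n m :=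
  (x.1, recA ε J l0 i0 x, x.2.2)

lemma contDiff_slot (l : Fin m) (z : Sym2 (Fin n)) :
    ContDiff ℝ 1 (fun x : Data n m => x.2.1 l z) :=
  (contDiff_apply ℝ ℝ z).comp ((contDiff_apply ℝ (Sym2 (Fin n) → ℝ) l).comp
    (contDiff_fst.comp contDiff_snd))

lemma contDiff_chartX' (ε J : Fin n → Bool) (l0 : Fin m) :
    ContDiff ℝ 1 (fun x : Data n m => chartX ε J (x.2.1 l0)) :=
  (contDiff_chartX ε J).comp ((contDiff_apply ℝ (Sym2 (Fin n) → ℝ) l0).comp
    (contDiff_fst.comp contDiff_snd))

lemma contDiff_mat_entry {E : Type*} [NormedAddCommGroup E] [NormedSpace ℝ E]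
    {f : E → Matrix (Fin n) (Fin n) ℝ} (hf : ContDiff ℝ 1 f) (i j : Fin n) :
    ContDiff ℝ 1 (fun x => f x i j) := by
  let T : Matrix (Fin n) (Fin n) ℝ →ₗ[ℝ] ℝ :=
    { toFun := fun Y => Y i j
      map_add' := fun Y Y' => rfl
      map_smul' := fun c Y => rfl }
  exact (contDiff_linear T).comp hf

lemma contDiffAt_kerA (ε J : Fin n → Bool) (l0 : Fin m) (i0 : Fin n) {x : Data n m}
    (hx : chartX ε J (x.2.1 l0) i0 i0 ≠ 0) (l : Fin m) :
    ContDiffAt ℝ 1 (fun x : Data n m => kerA ε J l0 i0 x l) x := by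
  refine contDiffAt_pi.2 fun z => ?_
  by_cases hz : z = s(i0, i0)
  · simp only [kerA, if_pos hz]
    have h1 : ContDiff ℝ 1 (fun x : Data n m =>
        (fun w => if w = s(i0, i0) then (0 : ℝ) else x.2.1 l w)) := by
      refine contDiff_pi.2 fun w => ?_
      by_cases hw : w = s(i0, i0)
      · simp only [if_pos hw]; exact contDiff_const
      · simp only [if_neg hw]; exact contDiff_slot l w
    have h2 : ContDiff ℝ 1 (fun x : Data n m =>
        -((symM (fun w => if w = s(i0, i0) then 0 else x.2.1 l w) *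
          chartX ε J (x.2.1 l0)).trace)) :=
      (contDiff_trace ((contDiff_symM.comp h1).mul (contDiff_chartX' ε J l0))).neg
    exact h2.contDiffAt.div (contDiff_mat_entry (contDiff_chartX' ε J l0) i0 i0).contDiffAt hx
  · simp only [kerA, if_neg hz]
    exact (contDiff_slot l z).contDiffAt

lemma contDiffAt_recA (ε J : Fin n → Bool) (l0 : Fin m) (i0 : Fin n) {x : Data n m}
    (hx : chartX ε J (x.2.1 l0) i0 i0 ≠ 0) :
    ContDiffAt ℝ 1 (fun x : Data n m => recA ε J l0 i0 x) x := by
  refine contDiffAt_pi.2 fun l => ?_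
  by_cases hl : l = l0
  · simp only [recA, if_pos hl]
    have h1 : ContDiffAt ℝ 1 (fun x : Data n m => chartS ε J (x.2.1 l0) -
        ∑ k ∈ Finset.univ.erase l0, x.2.1 k s(i0, i0) • symM (kerA ε J l0 i0 x k)) x := by
      refine ContDiffAt.sub ?_ (ContDiffAt.sum fun k _ => ?_)
      · exact ((contDiff_chartS ε J).comp ((contDiff_apply ℝ (Sym2 (Fin n) → ℝ) l0).comp
          (contDiff_fst.comp contDiff_snd))).contDiffAt
      · exact (contDiff_slot k _).contDiffAt.smul
          (contDiff_symM.contDiffAt.comp x (contDiffAt_kerA ε J l0 i0 hx k))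
    exact (contDiff_coord (f := fun M : Matrix (Fin n) (Fin n) ℝ => M)
      contDiff_id).contDiffAt.comp x h1
  · simp only [recA, if_neg hl]
    exact contDiffAt_kerA ε J l0 i0 hx l

lemma F0_null (ε J : Fin n → Bool) (l0 : Fin m) (i0 : Fin n) :
    volume (F0 (m := m) ε J l0 i0 '' {x | chartX ε J (x.2.1 l0) i0 i0 ≠ 0}) = 0 := by
  refine image_null volume (fun x hx => ?_)
    (v := fun x => (0, Pi.single l0 (scl J (x.2.1 l0)), 0)) (fun x hx => ⟨?_, ?_⟩)
  · have h1 : ContDiffAt ℝ 1 (F0 (m := m) ε J l0 i0) x :=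
      contDiff_fst.contDiffAt.prodMk ((contDiffAt_recA ε J l0 i0 hx).prodMk
        (contDiff_snd.comp contDiff_snd).contDiffAt)
    exact h1.differentiableAt one_ne_zero
  · intro h
    have h1 := congrFun (congrArg (fun y : Data n m => y.2.1) h) l0
    simp only [Pi.single_eq_same] at h1
    refine scl_ne_zero ε J (x.2.1 l0) (fun h2 => hx ?_) h1
    rw [h2]
    rfl
  · have hev : ∀ᶠ t : ℝ in 𝓝 0, 1 + t ≠ 0 := by
      have hc : ContinuousAt (fun t : ℝ => 1 + t) 0 := by fun_prop
      exact hc.eventually_ne (by norm_num)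
    filter_upwards [hev] with t ht
    set v : Data n m := (0, Pi.single l0 (scl J (x.2.1 l0)), 0) with hv
    have e0 : (x + t • v).1 = x.1 := by simp [hv]
    have e2 : (x + t • v).2.2 = x.2.2 := by simp [hv]
    have e1 : (x + t • v).2.1 l0 = x.2.1 l0 + t • scl J (x.2.1 l0) := by simp [hv]
    have e1' : ∀ l, l ≠ l0 → (x + t • v).2.1 l = x.2.1 l := fun l hl => by
      simp [hv, Pi.single_eq_of_ne hl]
    have hk : ∀ l, l ≠ l0 → kerA ε J l0 i0 (x + t • v) l = kerA ε J l0 i0 x l := by
      intro l hl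
      funext z
      simp only [kerA]
      split_ifs with hz
      · rw [e1, e1' l hl, chartX_scl, Matrix.mul_smul, Matrix.trace_smul, Matrix.smul_apply,
          smul_eq_mul, smul_eq_mul, ← mul_neg, mul_div_mul_left _ _ ht]
      · rw [e1' l hl]
    have hr : recA ε J l0 i0 (x + t • v) = recA ε J l0 i0 x := by
      funext l
      simp only [recA]
      split_ifs with hl
      · rw [e1, chartS_scl]
        congr 2
        refine Finset.sum_congr rfl fun k hk' => ?_
        have hne := Finset.ne_of_mem_erase hk'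
        rw [e1' k hne, hk k hne]
      · exact hk l hl
    simp only [F0, e0, e2, hr]

/-- For almost every datum every recession direction is nondegenerate. -/
lemma ae_nondeg0 (n m : ℕ) : ∀ᵐ p : Data n m, ∀ X : Matrix (Fin n) (Fin n) ℝ, X.PosSemidef →
    X ≠ 0 → (∀ l, (symM (p.2.1 l) * X).trace = 0) →
    ∀ μ : Fin m → ℝ, (∑ l, μ l • symM (p.2.1 l)) * X = 0 → μ = 0 := by
  have h1 : ∀ᵐ p : Data n m, ∀ e : (Fin n → Bool) × (Fin n → Bool) × Fin m × Fin n,
      p ∉ F0 (m := m) e.1 e.2.1 e.2.2.1 e.2.2.2 ''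
        {x | chartX e.1 e.2.1 (x.2.1 e.2.2.1) e.2.2.2 e.2.2.2 ≠ 0} :=
    ae_all_iff.2 fun e => measure_eq_zero_iff_ae_notMem.1 (F0_null e.1 e.2.1 e.2.2.1 e.2.2.2)
  filter_upwards [h1] with p hp X hX hX0 hl μ hμ
  by_contra hμ0
  obtain ⟨l0, ν, ε, J, c, hc1, hc2⟩ := exists_chart_rel hX p.2.1 hμ0 hμ
  obtain ⟨i0, hi0⟩ : ∃ i0, X i0 i0 ≠ 0 := by
    by_contra hcon
    push Not at hcon
    apply hX0
    have htr : X.trace = 0 := Finset.sum_eq_zero fun i _ => hcon i
    ext i j
    have := psd_entry hX i j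
    rw [htr] at this
    exact abs_nonpos_iff.1 this
  let a' : Fin m → Sym2 (Fin n) → ℝ := fun l =>
    if l = l0 then c else fun z => if z = s(i0, i0) then ν l else p.2.1 l z
  have ha0 : a' l0 = c := by simp [a']
  have ha : ∀ l, l ≠ l0 → a' l = fun z => if z = s(i0, i0) then ν l else p.2.1 l z :=
    fun l hl => by simp [a', hl]
  refine hp (ε, J, l0, i0) ⟨(p.1, a', p.2.2), ?_, ?_⟩
  · change chartX ε J (a' l0) i0 i0 ≠ 0
    rw [ha0, ← hc1]
    exact hi0
  · have hk : ∀ l, l ≠ l0 → kerA ε J l0 i0 (p.1, a', p.2.2) l = p.2.1 l := by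
      intro l hll
      funext z
      simp only [kerA]
      split_ifs with hz
      · rw [ha0, ← hc1, ha l hll]
        have e1 : symM (fun w => if w = s(i0, i0) then (0 : ℝ) else
            (if w = s(i0, i0) then ν l else p.2.1 l w)) =
            symM (p.2.1 l) - (p.2.1 l s(i0, i0)) • Matrix.single i0 i0 (1 : ℝ) := by
          ext i j
          rw [Matrix.sub_apply, Matrix.smul_apply, symM_apply, symM_apply]
          by_cases hij : s(i, j) = s(i0, i0)
          · have h3 : i = i0 ∧ j = i0 := by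
              rcases Sym2.eq_iff.1 hij with h | h
              · exact h
              · exact h
            obtain ⟨rfl, rfl⟩ := h3
            simp
          · have h3 : ¬ (i0 = i ∧ i0 = j) := by
              rintro ⟨rfl, rfl⟩
              exact hij rfl
            rw [if_neg hij, if_neg hij, Matrix.single_apply_of_ne _ _ _ _ _ h3, smul_zero,
              sub_zero]
        rw [e1, Matrix.sub_mul, Matrix.trace_sub, hl, Matrix.smul_mul, Matrix.trace_smul]
        have e2 : (Matrix.single i0 i0 (1 : ℝ) * X).trace = X i0 i0 := by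
          rw [Matrix.trace_single_mul]
          simp
        rw [e2, smul_eq_mul, hz]
        field_simp
        ring
      · rw [ha l hll]
        simp [hz]
    have hr : recA ε J l0 i0 (p.1, a', p.2.2) = p.2.1 := by
      funext l
      simp only [recA]
      split_ifs with hll
      · subst hll
        rw [ha0]
        have e1 : ∑ k ∈ Finset.univ.erase l, a' k s(i0, i0) •
            symM (kerA ε J l i0 (p.1, a', p.2.2) k) =
            ∑ k ∈ Finset.univ.erase l, ν k • symM (p.2.1 k) :=
          Finset.sum_congr rfl fun k hk' => by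
            have hne := Finset.ne_of_mem_erase hk'
            rw [hk k hne, ha k hne]
            simp
        rw [e1, ← hc2, coord_symM]
      · exact hk l hll
    simp only [F0, hr]

end nondeg0

end Pool.Agent.Lib.MP_e757b3_ae
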