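import Pool.Agent.Lib.MP_e757b3_ae.NH

open Matrix Filter Topology

namespace Pool.Agent.Lib.MP_e757b3_ae

section kall

variable {n m : ℕ} {A : Fin m → Matrix (Fin n) (Fin n) ℝ} {b r : Fin m → ℝ}

/-- Normalized tuples. -/
def KAll (A : Fin m → Matrix (Fin n) (Fin n) ℝ) (b r : Fin m → ℝ) :
    Set (Matrix (Fin n) (Fin n) ℝ × ℝ × ℝ × (Fin m → ℝ)) :=
  {p | p.1.PosSemidef ∧ 0 ≤ p.2.2.1 ∧ p.2.2.1 ≤ p.2.1 ∧
    (∀ l, (A l * p.1).trace = p.2.1 * b l + p.2.2.1 * r l) ∧ p.1.trace + p.2.1 = 1 ∧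
    p.2.2.2 ⬝ᵥ p.2.2.2 = 1}

lemma isCompact_KAll : IsCompact (KAll A b r) := by
  have c1 : Continuous fun p : Matrix (Fin n) (Fin n) ℝ × ℝ × ℝ × (Fin m → ℝ) => p.1 :=
    continuous_fst
  have c2 : Continuous fun p : Matrix (Fin n) (Fin n) ℝ × ℝ × ℝ × (Fin m → ℝ) => p.2.1 :=
    continuous_fst.comp continuous_snd
  have c3 : Continuous fun p : Matrix (Fin n) (Fin n) ℝ × ℝ × ℝ × (Fin m → ℝ) => p.2.2.1 :=
    continuous_fst.comp (continuous_snd.comp continuous_snd)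
  have c4 : Continuous fun p : Matrix (Fin n) (Fin n) ℝ × ℝ × ℝ × (Fin m → ℝ) => p.2.2.2 :=
    continuous_snd.comp (continuous_snd.comp continuous_snd)
  have hScl : IsClosed (KAll A b r) := by
    refine IsClosed.inter (isClosed_psd.preimage c1) ?_
    refine IsClosed.inter (isClosed_le continuous_const c3) ?_
    refine IsClosed.inter (isClosed_le c3 c2) ?_
    refine IsClosed.inter ?_ ?_
    · have hcl : IsClosed (⋂ l, {p : Matrix (Fin n) (Fin n) ℝ × ℝ × ℝ × (Fin m → ℝ) |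
          (A l * p.1).trace = p.2.1 * b l + p.2.2.1 * r l}) := by
        refine isClosed_iInter fun l => isClosed_eq ?_ ?_
        · exact (continuous_const.matrix_mul c1).matrix_trace
        · exact (c2.mul continuous_const).add (c3.mul continuous_const)
      have he : (⋂ l, {p : Matrix (Fin n) (Fin n) ℝ × ℝ × ℝ × (Fin m → ℝ) |
          (A l * p.1).trace = p.2.1 * b l + p.2.2.1 * r l}) =
          {p : Matrix (Fin n) (Fin n) ℝ × ℝ × ℝ × (Fin m → ℝ) |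
            ∀ l, (A l * p.1).trace = p.2.1 * b l + p.2.2.1 * r l} := by
        ext p
        rw [Set.mem_iInter]
        rfl
      rw [he] at hcl
      exact hcl
    refine IsClosed.inter ?_ ?_
    · exact isClosed_eq (c1.matrix_trace.add c2) continuous_const
    · exact isClosed_eq (c4.dotProduct c4) continuous_const
  let BM : Set (Matrix (Fin n) (Fin n) ℝ) :=
    Set.univ.pi fun _ => Set.univ.pi fun _ => Set.Icc (-1 : ℝ) 1
  have hBM : IsCompact BM := isCompact_univ_pi fun _ => isCompact_univ_pi fun _ => isCompact_Icc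
  let BV : Set (Fin m → ℝ) := Set.univ.pi fun _ => Set.Icc (-1 : ℝ) 1
  have hBV : IsCompact BV := isCompact_univ_pi fun _ => isCompact_Icc
  refine IsCompact.of_isClosed_subset (hBM.prod ((isCompact_Icc (a := (0 : ℝ)) (b := 1)).prod
    ((isCompact_Icc (a := (0 : ℝ)) (b := 1)).prod hBV))) hScl ?_
  rintro ⟨Y, θ, σ, e⟩ ⟨p1, p2, p3, p4, p5, p6⟩
  simp only at p1 p2 p3 p4 p5 p6
  have htr := p1.trace_nonneg
  refine ⟨?_, ⟨p2.trans p3, by linarith⟩, ⟨p2, by linarith⟩, ?_⟩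
  · intro i _ j _
    have := psd_entry p1 i j
    exact abs_le.1 (this.trans (by linarith))
  · intro l _
    have h1 : e l * e l ≤ e ⬝ᵥ e :=
      Finset.single_le_sum (f := fun l => e l * e l) (fun j _ => mul_self_nonneg _)
        (Finset.mem_univ l)
    rw [p6] at h1
    exact abs_le.1 (abs_le_of_sq_le_sq (by simpa [sq] using h1) zero_le_one)

/-- Uniform lower bounds for the Gram matrix. -/
lemma bound_of {w : ℝ → ℝ → ℝ} (hw : Continuous fun q : ℝ × ℝ => w q.1 q.2)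
    (hpos : ∀ p ∈ KAll A b r,
      0 < (Sm A p.2.2.2 * p.1 * Sm A p.2.2.2).trace + w p.2.1 p.2.2.1)
    (hA : ∀ l, (A l).IsSymm) :
    ∃ c0 : ℝ, 0 < c0 ∧ ∀ s ∈ Set.Icc (0 : ℝ) 1, ∀ Y : Matrix (Fin n) (Fin n) ℝ, Y.PosSemidef →
      (∀ l, (A l * Y).trace = b l + s * r l) →
      w (Y.trace + 1)⁻¹ (s * (Y.trace + 1)⁻¹) ≤ c0 →
      ∀ e : Fin m → ℝ, c0 * (Y.trace + 1) * (e ⬝ᵥ e) ≤ e ⬝ᵥ (gramM A Y *ᵥ e) := by
  let T : Type := Matrix (Fin n) (Fin n) ℝ × ℝ × ℝ × (Fin m → ℝ)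
  have c1 : Continuous fun p : T => p.1 := continuous_fst
  have c2 : Continuous fun p : T => p.2.1 := continuous_fst.comp continuous_snd
  have c3 : Continuous fun p : T => p.2.2.1 :=
    continuous_fst.comp (continuous_snd.comp continuous_snd)
  have c4 : Continuous fun p : T => p.2.2.2 :=
    continuous_snd.comp (continuous_snd.comp continuous_snd)
  let g : T → ℝ := fun p => (Sm A p.2.2.2 * p.1 * Sm A p.2.2.2).trace + w p.2.1 p.2.2.1
  have hSmc : Continuous fun p : T => Sm A p.2.2.2 := by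
    unfold Sm
    refine continuous_finsetSum _ fun l _ => ?_
    exact ((continuous_apply l).comp c4).smul continuous_const
  have hg : Continuous g :=
    ((hSmc.matrix_mul c1).matrix_mul hSmc).matrix_trace.add (hw.comp (c2.prodMk c3))
  have hmin : ∃ c0 : ℝ, 0 < c0 ∧ ∀ p ∈ KAll A b r, 2 * c0 ≤ g p := by
    rcases (KAll A b r).eq_empty_or_nonempty with hS | hS
    · exact ⟨1, one_pos, fun p hp => by rw [hS] at hp; exact absurd hp (Set.notMem_empty _)⟩
    · obtain ⟨p, hp, hpm⟩ := isCompact_KAll.exists_isMinOn hS hg.continuousOn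
      refine ⟨g p / 2, half_pos (hpos p hp), fun q hq => ?_⟩
      have : g p ≤ g q := hpm hq
      linarith
  obtain ⟨c0, hc0, hmin⟩ := hmin
  refine ⟨c0, hc0, fun s hs Y hY hAY hwY e => ?_⟩
  rw [gram_quad]
  have htr := hY.trace_nonneg
  have hk : 0 < Y.trace + 1 := by linarith
  by_cases he : e = 0
  · subst he
    rw [dotProduct_zero, mul_zero]
    exact (trace_sandwich hY (Sm_symm hA 0)).1
  · have hee : 0 < e ⬝ᵥ e := by
      have h1 : 0 ≤ e ⬝ᵥ e := Finset.sum_nonneg fun l _ => mul_self_nonneg _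
      refine lt_of_le_of_ne h1 fun hh => he (dotProduct_self_eq_zero.1 hh.symm)
    set ν : ℝ := Real.sqrt (e ⬝ᵥ e) with hν
    have hνpos : 0 < ν := Real.sqrt_pos.2 hee
    have hν2 : ν * ν = e ⬝ᵥ e := Real.mul_self_sqrt hee.le
    set κ : ℝ := Y.trace + 1 with hκ
    have hmem : ((κ⁻¹ • Y, κ⁻¹, s * κ⁻¹, ν⁻¹ • e) : T) ∈ KAll A b r := by
      refine ⟨hY.smul (inv_nonneg.2 hk.le), mul_nonneg hs.1 (inv_nonneg.2 hk.le), ?_, ?_, ?_, ?_⟩
      · exact mul_le_of_le_one_left (inv_nonneg.2 hk.le) hs.2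
      · intro l
        change (A l * (κ⁻¹ • Y)).trace = κ⁻¹ * b l + s * κ⁻¹ * r l
        rw [Matrix.mul_smul, Matrix.trace_smul, hAY, smul_eq_mul]
        ring
      · change (κ⁻¹ • Y).trace + κ⁻¹ = 1
        rw [Matrix.trace_smul, smul_eq_mul]
        have : κ⁻¹ * Y.trace + κ⁻¹ = κ⁻¹ * κ := by rw [hκ]; ring
        rw [this, inv_mul_cancel₀ hk.ne']
      · change (ν⁻¹ • e) ⬝ᵥ (ν⁻¹ • e) = 1
        rw [smul_dotProduct, dotProduct_smul, smul_eq_mul, smul_eq_mul, ← hν2]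
        field_simp
    have h1 := hmin _ hmem
    have hSm : Sm A (ν⁻¹ • e) = ν⁻¹ • Sm A e := by
      rw [Sm, Sm, Finset.smul_sum]
      exact Finset.sum_congr rfl fun l _ => by rw [Pi.smul_apply, smul_eq_mul, smul_smul]
    have h2 : g ((κ⁻¹ • Y, κ⁻¹, s * κ⁻¹, ν⁻¹ • e) : T) =
        ν⁻¹ * (κ⁻¹ * (ν⁻¹ * (Sm A e * Y * Sm A e).trace)) + w κ⁻¹ (s * κ⁻¹) := by
      change (Sm A (ν⁻¹ • e) * (κ⁻¹ • Y) * Sm A (ν⁻¹ • e)).trace + w κ⁻¹ (s * κ⁻¹) = _
      rw [hSm]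
      simp only [Matrix.smul_mul, Matrix.mul_smul, Matrix.trace_smul, smul_eq_mul]
    rw [h2] at h1
    have h3 : ν⁻¹ * (κ⁻¹ * (ν⁻¹ * (Sm A e * Y * Sm A e).trace)) =
        (Sm A e * Y * Sm A e).trace / (κ * (ν * ν)) := by
      field_simp
    have h4 : c0 ≤ (Sm A e * Y * Sm A e).trace / (κ * (ν * ν)) := by
      rw [← h3]; linarith
    rw [le_div_iff₀ (by positivity), hν2] at h4
    linarith

end kall

section consequences

variable {n m : ℕ} {A : Fin m → Matrix (Fin n) (Fin n) ℝ} {b r : Fin m → ℝ}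

/-- Bound for large traces, from the nondegeneracy of recession directions. -/
lemma bound_large (hA : ∀ l, (A l).IsSymm)
    (nd0 : ∀ Y : Matrix (Fin n) (Fin n) ℝ, Y.PosSemidef → Y ≠ 0 →
      (∀ l, (A l * Y).trace = 0) → ∀ e, Sm A e * Y = 0 → e = 0) :
    ∃ c0 : ℝ, 0 < c0 ∧ ∀ s ∈ Set.Icc (0 : ℝ) 1, ∀ Y : Matrix (Fin n) (Fin n) ℝ, Y.PosSemidef →
      (∀ l, (A l * Y).trace = b l + s * r l) → (Y.trace + 1)⁻¹ ≤ c0 →
      ∀ e : Fin m → ℝ, c0 * (Y.trace + 1) * (e ⬝ᵥ e) ≤ e ⬝ᵥ (gramM A Y *ᵥ e) := by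
  refine bound_of (w := fun θ _ => θ) continuous_fst ?_ hA
  rintro ⟨Y, θ, σ, e⟩ ⟨p1, p2, p3, p4, p5, p6⟩
  simp only at p1 p2 p3 p4 p5 p6 ⊢
  obtain ⟨q1, q2⟩ := trace_sandwich (S := Sm A e) p1 (Sm_symm hA e)
  rcases (p2.trans p3).eq_or_lt with h0 | h0
  · have hσ : σ = 0 := le_antisymm (h0 ▸ p3) p2
    rw [← h0, add_zero]
    refine lt_of_le_of_ne q1 fun hh => ?_
    have h3 := nd0 Y p1 (fun hY => by rw [hY, Matrix.trace_zero, ← h0] at p5; norm_num at p5)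
      (fun l => by rw [p4, ← h0, hσ]; ring) e (q2 hh.symm)
    rw [h3] at p6
    simp at p6
  · linarith

/-- Nondegeneracy near the final right-hand side. -/
lemma nondeg_near (hA : ∀ l, (A l).IsSymm)
    (ndb : ∀ Y : Matrix (Fin n) (Fin n) ℝ, Y.PosSemidef → (∀ l, (A l * Y).trace = b l) →
      ∀ e, Sm A e * Y = 0 → e = 0)
    (nd0 : ∀ Y : Matrix (Fin n) (Fin n) ℝ, Y.PosSemidef → Y ≠ 0 →
      (∀ l, (A l * Y).trace = 0) → ∀ e, Sm A e * Y = 0 → e = 0) :
    ∃ s0 : ℝ, 0 < s0 ∧ s0 ≤ 1 ∧ NDeg A b (s0 • r) := by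
  obtain ⟨c0, hc0, hb⟩ := bound_of (A := A) (b := b) (r := r) (w := fun _ σ => σ)
    continuous_snd (by
      rintro ⟨Y, θ, σ, e⟩ ⟨p1, p2, p3, p4, p5, p6⟩
      simp only at p1 p2 p3 p4 p5 p6 ⊢
      obtain ⟨q1, q2⟩ := trace_sandwich (S := Sm A e) p1 (Sm_symm hA e)
      rcases p2.eq_or_lt with h0 | h0
      · rw [← h0, add_zero]
        refine lt_of_le_of_ne q1 fun hh => ?_
        have he : e = 0 := by
          rcases (p2.trans p3).eq_or_lt with h1 | h1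
          · exact nd0 Y p1
              (fun hY => by rw [hY, Matrix.trace_zero, ← h1] at p5; norm_num at p5)
              (fun l => by rw [p4, ← h1, ← h0]; ring) e (q2 hh.symm)
          · refine ndb (θ⁻¹ • Y) (p1.smul (inv_nonneg.2 h1.le)) (fun l => ?_) e ?_
            · rw [Matrix.mul_smul, Matrix.trace_smul, p4, ← h0, smul_eq_mul, zero_mul, add_zero,
                ← mul_assoc, inv_mul_cancel₀ h1.ne', one_mul]
            · rw [Matrix.mul_smul, q2 hh.symm, smul_zero]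
        rw [he] at p6
        simp at p6
      · linarith) hA
  refine ⟨min c0 1, lt_min hc0 one_pos, min_le_right _ _, hA, ?_, nd0⟩
  intro s hs Y hY hl e he
  have hs0 : 0 ≤ s * min c0 1 := mul_nonneg hs.1 (le_min hc0.le zero_le_one)
  have hs1 : s * min c0 1 ≤ min c0 1 :=
    mul_le_of_le_one_left (le_min hc0.le zero_le_one) hs.2
  have htr := hY.trace_nonneg
  have h1 := hb (s * min c0 1) ⟨hs0, hs1.trans (min_le_right _ _)⟩ Y hY
    (fun l => by rw [hl]; simp only [Pi.smul_apply, smul_eq_mul]; ring) (by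
      have h2 : (Y.trace + 1)⁻¹ ≤ 1 := inv_le_one_of_one_le₀ (by linarith)
      calc s * min c0 1 * (Y.trace + 1)⁻¹ ≤ s * min c0 1 * 1 :=
            mul_le_mul_of_nonneg_left h2 hs0
        _ ≤ c0 := by rw [mul_one]; exact hs1.trans (min_le_left _ _)) e
  rw [gram_quad, he, Matrix.zero_mul, Matrix.trace_zero] at h1
  have h2 : 0 ≤ e ⬝ᵥ e := Finset.sum_nonneg fun l _ => mul_self_nonneg _
  by_contra hne
  have h3 : 0 < e ⬝ᵥ e := lt_of_le_of_ne h2 fun hh => hne (dotProduct_self_eq_zero.1 hh.symm)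
  have h4 : 0 < c0 * (Y.trace + 1) * (e ⬝ᵥ e) := by positivity
  linarith

end consequences

end Pool.Agent.Lib.MP_e757b3_ae
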