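import Pool.Agent.Lib.MP_e757b3_ae.NO

/-! The crossing facts for a fixed start `X₀` and almost every `(A, b)`. -/

open Matrix Filter Topology MeasureTheory

namespace Pool.Agent.Lib.MP_e757b3_ae

section crossC

open scoped Matrix.Norms.Operator

variable {n m : ℕ}

/-- The map whose fibres contain the degenerate crossings, for a fixed start. -/
noncomputable def GCf (X₀ : Matrix (Fin n) (Fin n) ℝ) (ε J : Fin n → Bool) (l0 : Fin m)
    (x : Data n m) : Data n m :=
  (x.1, degA ε J l0 x,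
    fun l => (1 + x.2.2 l0) * (symM (degA ε J l0 x l) * chartX ε J (x.2.1 l0)).trace -
      x.2.2 l0 * (symM (degA ε J l0 x l) * X₀).trace)

lemma contDiff_GCf (X₀ : Matrix (Fin n) (Fin n) ℝ) (ε J : Fin n → Bool) (l0 : Fin m) :
    ContDiff ℝ 1 (GCf (m := m) X₀ ε J l0) := by
  have hA : ContDiff ℝ 1 (fun x : Data n m => degA ε J l0 x) := contDiff_degA ε J l0
  have hμ : ContDiff ℝ 1 (fun x : Data n m => x.2.2 l0) :=
    (contDiff_apply ℝ ℝ l0).comp (contDiff_snd.comp contDiff_snd)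
  have hc : ContDiff ℝ 1 (fun x : Data n m => chartX ε J (x.2.1 l0)) :=
    (contDiff_chartX ε J).comp ((contDiff_apply ℝ (Sym2 (Fin n) → ℝ) l0).comp
      (contDiff_fst.comp contDiff_snd))
  refine contDiff_fst.prodMk (hA.prodMk ?_)
  refine contDiff_pi.2 fun l => ?_
  have hAl : ContDiff ℝ 1 (fun x : Data n m => symM (degA ε J l0 x l)) :=
    contDiff_symM.comp ((contDiff_apply ℝ (Sym2 (Fin n) → ℝ) l).comp hA)
  exact ((contDiff_const.add hμ).mul (contDiff_trace (hAl.mul hc))).sub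
    (hμ.mul (contDiff_trace (hAl.mul contDiff_const)))

end crossC

lemma ae_cross_countable_data (n m : ℕ) (X₀ : Matrix (Fin n) (Fin n) ℝ) :
    ∀ᵐ p : Data n m, ∀ l0 : Fin m,
    {q : ℝ × Matrix (Fin n) (Fin n) ℝ × (Fin m → ℝ) | q.2.1.PosSemidef ∧ q.2.2 l0 = 1 ∧
      (∀ l, (1 + q.1) * (symM (p.2.1 l) * q.2.1).trace =
        p.2.2 l + q.1 * (symM (p.2.1 l) * X₀).trace) ∧
      (∑ l, q.2.2 l • symM (p.2.1 l)) * q.2.1 = 0}.Countable := by
  have h1 : ∀ᵐ p : Data n m, ∀ e : (Fin n → Bool) × (Fin n → Bool) × Fin m,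
      (GCf (m := m) X₀ e.1 e.2.1 e.2.2 ⁻¹' {p}).Countable :=
    ae_all_iff.2 fun e => ae_countable_fiber volume (contDiff_GCf X₀ e.1 e.2.1 e.2.2)
  filter_upwards [h1] with p hp l0
  have h2 : (⋃ e : (Fin n → Bool) × (Fin n → Bool),
      (fun x : Data n m => ((x.2.2 l0, chartX e.1 e.2 (x.2.1 l0),
        Function.update x.2.2 l0 1) : ℝ × Matrix (Fin n) (Fin n) ℝ × (Fin m → ℝ))) ''
        (GCf (m := m) X₀ e.1 e.2 l0 ⁻¹' {p})).Countable :=
    Set.countable_iUnion fun e => (hp (e.1, e.2, l0)).image _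
  refine h2.mono ?_
  rintro ⟨ω, X, μ⟩ ⟨hX, hμ0, hl, hSX⟩
  simp only at hX hμ0 hl hSX
  have hXs : Xᵀ = X := (psd_iff.1 hX).1
  have hSs : (∑ l, μ l • symM (p.2.1 l))ᵀ = ∑ l, μ l • symM (p.2.1 l) := by
    rw [Matrix.transpose_sum]
    exact Finset.sum_congr rfl fun l _ => by rw [Matrix.transpose_smul, symM_symm]
  obtain ⟨ε, J, c, hc1, hc2⟩ := exists_chart hXs hSs hSX
  have hc3 : symM (p.2.1 l0) = chartS ε J c -
      ∑ k ∈ Finset.univ.erase l0, μ k • symM (p.2.1 k) := by
    rw [← hc2, ← Finset.add_sum_erase _ _ (Finset.mem_univ l0), hμ0, one_smul,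
      add_sub_cancel_right]
  have hA : degA ε J l0 (p.1, Function.update p.2.1 l0 c, Function.update μ l0 ω) =
      p.2.1 := by
    funext l
    simp only [degA]
    split_ifs with h
    · subst h
      rw [Function.update_self]
      have e1 : ∑ k ∈ Finset.univ.erase l, Function.update μ l ω k •
            symM (Function.update p.2.1 l c k) =
          ∑ k ∈ Finset.univ.erase l, μ k • symM (p.2.1 k) :=
        Finset.sum_congr rfl fun k hk => by
          rw [Function.update_of_ne (Finset.ne_of_mem_erase hk),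
            Function.update_of_ne (Finset.ne_of_mem_erase hk)]
      rw [e1, ← hc3, coord_symM]
    · rw [Function.update_of_ne h]
  have hB : (fun l => (1 + ω) * (symM (p.2.1 l) * chartX ε J c).trace -
      ω * (symM (p.2.1 l) * X₀).trace) = p.2.2 := by
    funext l
    rw [← hc1, hl l]
    ring
  refine Set.mem_iUnion.2 ⟨(ε, J),
    (p.1, Function.update p.2.1 l0 c, Function.update μ l0 ω), ?_, ?_⟩
  · change GCf X₀ ε J l0 (p.1, Function.update p.2.1 l0 c, Function.update μ l0 ω) = p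
    simp only [GCf, hA, Function.update_self, hB]
  · simp only [Function.update_self, Function.update_idem]
    rw [← hc1]
    have e2 : Function.update μ l0 1 = μ := by
      rw [← hμ0, Function.update_eq_self]
    rw [e2]

section crossT

open scoped Matrix.Norms.Operator

variable {n m : ℕ}

lemma orth_update (ε : Fin n → Bool) (i0 : Fin n) (c : Sym2 (Fin n) → ℝ) (v : ℝ) :
    orth ε (Function.update c s(i0, i0) v) = orth ε c := by
  have h : skewM (Function.update c s(i0, i0) v) = skewM c := by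
    ext i j
    simp only [skewM, Matrix.of_apply]
    have h1 : i ≠ j → s(i, j) ≠ s(i0, i0) := by
      intro hij h
      rw [Sym2.eq_iff] at h
      rcases h with ⟨h2, h3⟩ | ⟨h2, h3⟩ <;> exact hij (h2.trans h3.symm)
    split_ifs with h2 h3
    · rw [Function.update_of_ne (h1 h2.ne)]
    · rw [Function.update_of_ne (h1 h3.ne')]
    · rfl
  simp only [orth, h]

/-- The matrix `Uᵀ X₀ U` in the chart. -/
noncomputable def WW (X₀ : Matrix (Fin n) (Fin n) ℝ) (ε : Fin n → Bool)
    (c : Sym2 (Fin n) → ℝ) : Matrix (Fin n) (Fin n) ℝ := (orth ε c)ᵀ * X₀ * orth ε c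

lemma trace_chartS (X₀ : Matrix (Fin n) (Fin n) ℝ) (ε J : Fin n → Bool)
    (c : Sym2 (Fin n) → ℝ) : (chartS ε J c * X₀).trace =
      ∑ i, (if J i then 0 else c s(i, i)) * WW X₀ ε c i i := by
  have h1 : (chartS ε J c * X₀).trace =
      (Matrix.diagonal (fun i => if J i then 0 else c s(i, i)) * WW X₀ ε c).trace := by
    rw [chartS, WW, Matrix.mul_assoc, Matrix.mul_assoc, Matrix.trace_mul_comm]
    simp only [Matrix.mul_assoc]
  rw [h1, Matrix.trace]
  refine Finset.sum_congr rfl fun i _ => ?_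
  rw [Matrix.diag_apply, Matrix.diagonal_mul]

lemma WW_pos {X₀ : Matrix (Fin n) (Fin n) ℝ} (hX₀ : X₀.PosDef) (ε : Fin n → Bool)
    (c : Sym2 (Fin n) → ℝ) (i : Fin n) : 0 < WW X₀ ε c i i := by
  have h1 := orth_orthogonal ε c
  have h2 : Function.Injective (orth ε c).mulVec := by
    intro v w hvw
    have h3 : (orth ε c)ᵀ *ᵥ (orth ε c *ᵥ v) = (orth ε c)ᵀ *ᵥ (orth ε c *ᵥ w) := by rw [hvw]
    rw [Matrix.mulVec_mulVec, Matrix.mulVec_mulVec, h1, Matrix.one_mulVec,
      Matrix.one_mulVec] at h3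
    exact h3
  have h4 := hX₀.conjTranspose_mul_mul_same h2
  rw [Matrix.conjTranspose_eq_transpose_of_trivial] at h4
  exact h4.diag_pos

/-- The value of the coordinate `(i0, i0)` for which the trace of `S * X₀` vanishes. -/
noncomputable def fixV (X₀ : Matrix (Fin n) (Fin n) ℝ) (ε J : Fin n → Bool) (i0 : Fin n)
    (c : Sym2 (Fin n) → ℝ) : ℝ :=
  -(∑ i ∈ Finset.univ.erase i0, (if J i then 0 else c s(i, i)) * WW X₀ ε c i i) /
    WW X₀ ε c i0 i0

/-- Replace the coordinate `(i0, i0)` so that the trace of `S * X₀` vanishes. -/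
noncomputable def fixS (X₀ : Matrix (Fin n) (Fin n) ℝ) (ε J : Fin n → Bool) (i0 : Fin n)
    (c : Sym2 (Fin n) → ℝ) : Sym2 (Fin n) → ℝ :=
  Function.update c s(i0, i0) (fixV X₀ ε J i0 c)

lemma fixV_update (X₀ : Matrix (Fin n) (Fin n) ℝ) (ε J : Fin n → Bool) (i0 : Fin n)
    (c : Sym2 (Fin n) → ℝ) (v : ℝ) :
    fixV X₀ ε J i0 (Function.update c s(i0, i0) v) = fixV X₀ ε J i0 c := by
  simp only [fixV, WW, orth_update]
  congr 2
  refine Finset.sum_congr rfl fun i hi => ?_
  have h1 : s(i, i) ≠ s(i0, i0) := by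
    intro h
    rw [Sym2.eq_iff] at h
    rcases h with ⟨h2, -⟩ | ⟨h2, -⟩ <;> exact Finset.ne_of_mem_erase hi h2
  rw [Function.update_of_ne h1]

lemma fixS_slot (X₀ : Matrix (Fin n) (Fin n) ℝ) (ε J : Fin n → Bool) (i0 : Fin n)
    (c : Sym2 (Fin n) → ℝ) (t : ℝ) :
    fixS X₀ ε J i0 (c + t • Pi.single s(i0, i0) 1) = fixS X₀ ε J i0 c := by
  have h1 : c + t • Pi.single s(i0, i0) 1 =
      Function.update c s(i0, i0) (c s(i0, i0) + t) := by
    funext z
    by_cases h : z = s(i0, i0)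
    · subst h
      rw [Function.update_self, Pi.add_apply, Pi.smul_apply, Pi.single_eq_same, smul_eq_mul,
        mul_one]
    · rw [Function.update_of_ne h, Pi.add_apply, Pi.smul_apply, Pi.single_eq_of_ne h,
        smul_zero, add_zero]
  rw [h1, fixS, fixS, fixV_update, Function.update_idem]

lemma fixS_eq {X₀ : Matrix (Fin n) (Fin n) ℝ} (hX₀ : X₀.PosDef) {ε J : Fin n → Bool}
    {i0 : Fin n} (hJ : J i0 = false) {c : Sym2 (Fin n) → ℝ}
    (h : (chartS ε J c * X₀).trace = 0) : fixS X₀ ε J i0 c = c := by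
  have hw := WW_pos hX₀ ε c i0
  rw [trace_chartS, ← Finset.add_sum_erase _ _ (Finset.mem_univ i0), hJ] at h
  have h1 : fixV X₀ ε J i0 c = c s(i0, i0) := by
    rw [fixV, div_eq_iff hw.ne']
    simp only [Bool.false_eq_true, if_false] at h
    linarith
  rw [fixS, h1, Function.update_eq_self]

lemma contDiff_WW (X₀ : Matrix (Fin n) (Fin n) ℝ) (ε : Fin n → Bool) (i : Fin n) :
    ContDiff ℝ 1 (fun c : Sym2 (Fin n) → ℝ => WW X₀ ε c i i) := by
  have h1 : ContDiff ℝ 1 (fun c : Sym2 (Fin n) → ℝ => WW X₀ ε c) :=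
    ((contDiff_transp (contDiff_orth ε)).mul contDiff_const).mul (contDiff_orth ε)
  exact contDiff_mat_entry h1 i i

lemma contDiff_fixS {X₀ : Matrix (Fin n) (Fin n) ℝ} (hX₀ : X₀.PosDef) (ε J : Fin n → Bool)
    (i0 : Fin n) : ContDiff ℝ 1 (fun c : Sym2 (Fin n) → ℝ => fixS X₀ ε J i0 c) := by
  refine contDiff_pi.2 fun z => ?_
  by_cases hz : z = s(i0, i0)
  · subst hz
    simp only [fixS, Function.update_self, fixV]
    refine ContDiff.div (ContDiff.neg (ContDiff.sum fun i _ => ContDiff.mul ?_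
      (contDiff_WW X₀ ε i))) (contDiff_WW X₀ ε i0) fun c => (WW_pos hX₀ ε c i0).ne'
    split_ifs
    · exact contDiff_const
    · exact contDiff_apply ℝ ℝ s(i, i)
  · simp only [fixS, Function.update_of_ne hz]
    exact contDiff_apply ℝ ℝ z

/-- The map whose image contains the data with a degenerate crossing and `μ ⬝ᵥ b = 0`. -/
noncomputable def GTf (X₀ : Matrix (Fin n) (Fin n) ℝ) (ε J : Fin n → Bool) (l0 : Fin m)
    (i0 : Fin n) (x : Data n m) : Data n m :=
  GCf X₀ ε J l0 (x.1, Function.update x.2.1 l0 (fixS X₀ ε J i0 (x.2.1 l0)), x.2.2)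

lemma contDiff_GTf {X₀ : Matrix (Fin n) (Fin n) ℝ} (hX₀ : X₀.PosDef) (ε J : Fin n → Bool)
    (l0 : Fin m) (i0 : Fin n) : ContDiff ℝ 1 (GTf (m := m) X₀ ε J l0 i0) := by
  refine (contDiff_GCf X₀ ε J l0).comp (contDiff_fst.prodMk (ContDiff.prodMk ?_
    (contDiff_snd.comp contDiff_snd)))
  refine contDiff_pi.2 fun l => ?_
  by_cases hl : l = l0
  · subst hl
    simp only [Function.update_self]
    exact (contDiff_fixS hX₀ ε J i0).comp ((contDiff_apply ℝ (Sym2 (Fin n) → ℝ) l).comp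
      (contDiff_fst.comp contDiff_snd))
  · simp only [Function.update_of_ne hl]
    exact (contDiff_apply ℝ (Sym2 (Fin n) → ℝ) l).comp (contDiff_fst.comp contDiff_snd)

lemma GTf_null {X₀ : Matrix (Fin n) (Fin n) ℝ} (hX₀ : X₀.PosDef) (ε J : Fin n → Bool)
    (l0 : Fin m) (i0 : Fin n) : volume (GTf (m := m) X₀ ε J l0 i0 '' Set.univ) = 0 := by
  refine image_null volume
    (fun x _ => ((contDiff_GTf hX₀ ε J l0 i0).differentiable one_ne_zero) x)
    (v := fun _ => (0, Pi.single l0 (Pi.single s(i0, i0) 1), 0))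
    (fun x _ => ⟨?_, Eventually.of_forall fun t => ?_⟩)
  · intro h
    have h1 := congrFun (congrFun (congrArg (fun y : Data n m => y.2.1) h) l0) s(i0, i0)
    simp at h1
  · set v : Data n m := (0, Pi.single l0 (Pi.single s(i0, i0) 1), 0) with hv
    have e1 : (x + t • v).1 = x.1 := by simp [hv]
    have e3 : (x + t • v).2.2 = x.2.2 := by simp [hv]
    have e2 : Function.update (x + t • v).2.1 l0 (fixS X₀ ε J i0 ((x + t • v).2.1 l0)) =
        Function.update x.2.1 l0 (fixS X₀ ε J i0 (x.2.1 l0)) := by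
      have e4 : (x + t • v).2.1 l0 = x.2.1 l0 + t • Pi.single s(i0, i0) 1 := by
        simp [hv]
      rw [e4, fixS_slot]
      funext l
      by_cases hl : l = l0
      · subst hl; rw [Function.update_self, Function.update_self]
      · rw [Function.update_of_ne hl, Function.update_of_ne hl]
        simp [hv, Pi.single_eq_of_ne hl]
    simp only [GTf, e1, e2, e3]

end crossT

lemma ae_cross_transversal_data (n m : ℕ) {X₀ : Matrix (Fin n) (Fin n) ℝ} (hX₀ : X₀.PosDef) :
    ∀ᵐ p : Data n m,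
    ∀ (ω : ℝ) (X : Matrix (Fin n) (Fin n) ℝ) (μ : Fin m → ℝ), ω ≠ 0 → X.PosSemidef →
      (∀ l, (1 + ω) * (symM (p.2.1 l) * X).trace =
        p.2.2 l + ω * (symM (p.2.1 l) * X₀).trace) →
      (∑ l, μ l • symM (p.2.1 l)) * X = 0 → ∑ l, μ l • symM (p.2.1 l) ≠ 0 →
      μ ⬝ᵥ p.2.2 ≠ 0 := by
  have h1 : ∀ᵐ p : Data n m, ∀ e : (Fin n → Bool) × (Fin n → Bool) × Fin m × Fin n,
      p ∉ GTf (m := m) X₀ e.1 e.2.1 e.2.2.1 e.2.2.2 '' Set.univ :=
    ae_all_iff.2 fun e => measure_eq_zero_iff_ae_notMem.1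
      (GTf_null hX₀ e.1 e.2.1 e.2.2.1 e.2.2.2)
  filter_upwards [h1] with p hp ω X μ hω hX hl hSX hS0 hμb
  obtain ⟨l0, hl0⟩ : ∃ l0, μ l0 ≠ 0 := by
    by_contra hcon
    push Not at hcon
    exact hS0 (Finset.sum_eq_zero fun l _ => by rw [hcon l, zero_smul])
  have hXs : Xᵀ = X := (psd_iff.1 hX).1
  set ν : Fin m → ℝ := fun l => μ l / μ l0 with hν
  have hν0 : ν l0 = 1 := div_self hl0
  have e1 : ∑ l, ν l • symM (p.2.1 l) = (μ l0)⁻¹ • ∑ l, μ l • symM (p.2.1 l) := by
    rw [Finset.smul_sum]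
    refine Finset.sum_congr rfl fun l _ => ?_
    rw [smul_smul, hν]
    congr 1
    ring
  have hSs : (∑ l, ν l • symM (p.2.1 l))ᵀ = ∑ l, ν l • symM (p.2.1 l) := by
    rw [Matrix.transpose_sum]
    exact Finset.sum_congr rfl fun l _ => by rw [Matrix.transpose_smul, symM_symm]
  have hSX' : (∑ l, ν l • symM (p.2.1 l)) * X = 0 := by
    rw [e1, Matrix.smul_mul, hSX, smul_zero]
  have hS0' : ∑ l, ν l • symM (p.2.1 l) ≠ 0 := by
    rw [e1]
    exact smul_ne_zero (inv_ne_zero hl0) hS0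
  have htr : ((∑ l, μ l • symM (p.2.1 l)) * X₀).trace = 0 := by
    have a1 : ∑ l, μ l * ((1 + ω) * (symM (p.2.1 l) * X).trace) =
        ∑ l, μ l * (p.2.2 l + ω * (symM (p.2.1 l) * X₀).trace) :=
      Finset.sum_congr rfl fun l _ => by rw [hl l]
    have a2 : ∑ l, μ l * ((1 + ω) * (symM (p.2.1 l) * X).trace) =
        (1 + ω) * ((∑ l, μ l • symM (p.2.1 l)) * X).trace := by
      rw [Finset.sum_mul, Matrix.trace_sum, Finset.mul_sum]
      refine Finset.sum_congr rfl fun l _ => ?_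
      rw [Matrix.smul_mul, Matrix.trace_smul, smul_eq_mul]
      ring
    have a3 : ∑ l, μ l * (p.2.2 l + ω * (symM (p.2.1 l) * X₀).trace) =
        μ ⬝ᵥ p.2.2 + ω * ((∑ l, μ l • symM (p.2.1 l)) * X₀).trace := by
      rw [Finset.sum_mul, Matrix.trace_sum, Finset.mul_sum, dotProduct, ← Finset.sum_add_distrib]
      refine Finset.sum_congr rfl fun l _ => ?_
      rw [Matrix.smul_mul, Matrix.trace_smul, smul_eq_mul]
      ring
    rw [a2, a3, hSX, Matrix.trace_zero, mul_zero, hμb, zero_add] at a1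
    exact (mul_eq_zero.1 a1.symm).resolve_left hω
  have htr' : ((∑ l, ν l • symM (p.2.1 l)) * X₀).trace = 0 := by
    rw [e1, Matrix.smul_mul, Matrix.trace_smul, htr, smul_zero]
  obtain ⟨ε, J, c, hc1, hc2⟩ := exists_chart hXs hSs hSX'
  obtain ⟨i0, hi0⟩ : ∃ i0, J i0 = false := by
    by_contra hcon
    push Not at hcon
    apply hS0'
    have h2 : (fun i => if J i then (0 : ℝ) else c s(i, i)) = fun _ => 0 := by
      funext i
      have h3 : J i = true := by simpa using hcon i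
      simp [h3]
    rw [hc2, chartS, h2, Matrix.diagonal_zero, Matrix.mul_zero, Matrix.zero_mul]
  rw [hc2] at htr'
  have hc3 : symM (p.2.1 l0) = chartS ε J c -
      ∑ k ∈ Finset.univ.erase l0, ν k • symM (p.2.1 k) := by
    rw [← hc2, ← Finset.add_sum_erase _ _ (Finset.mem_univ l0), hν0, one_smul,
      add_sub_cancel_right]
  refine hp (ε, J, l0, i0)
    ⟨(p.1, Function.update p.2.1 l0 c, Function.update ν l0 ω), trivial, ?_⟩
  have hA : degA ε J l0 (p.1, Function.update p.2.1 l0 c, Function.update ν l0 ω) =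
      p.2.1 := by
    funext l
    simp only [degA]
    split_ifs with h
    · subst h
      rw [Function.update_self]
      have e1 : ∑ k ∈ Finset.univ.erase l, Function.update ν l ω k •
            symM (Function.update p.2.1 l c k) =
          ∑ k ∈ Finset.univ.erase l, ν k • symM (p.2.1 k) :=
        Finset.sum_congr rfl fun k hk => by
          rw [Function.update_of_ne (Finset.ne_of_mem_erase hk),
            Function.update_of_ne (Finset.ne_of_mem_erase hk)]
      rw [e1, ← hc3, coord_symM]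
    · rw [Function.update_of_ne h]
  have hB : (fun l => (1 + ω) * (symM (p.2.1 l) * chartX ε J c).trace -
      ω * (symM (p.2.1 l) * X₀).trace) = p.2.2 := by
    funext l
    rw [← hc1, hl l]
    ring
  change GTf X₀ ε J l0 i0 (p.1, Function.update p.2.1 l0 c, Function.update ν l0 ω) = p
  have hfix : fixS X₀ ε J i0 c = c := fixS_eq hX₀ hi0 htr'
  simp only [GTf, Function.update_self, hfix, Function.update_idem]
  simp only [GCf, hA, Function.update_self, hB]

end Pool.Agent.Lib.MP_e757b3_ae
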