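import Pool.Agent.Lib.MP_e757b3_ae.NF4
import Pool.Agent.Lib.MP_e757b3_ae.MB
import Pool.Agent.Lib.MP_e757b3_ae.NY

open Matrix Filter Topology MeasureTheory

namespace Pool.Agent.Lib.MP_e757b3_ae

section final

variable {n m : ℕ}

/-- A property of `(A, b)` that holds for almost every `(C, A, b)` holds for almost every
`(A, b)`. -/
lemma ae_drop2 {Q : (Fin m → Sym2 (Fin n) → ℝ) × (Fin m → ℝ) → Prop}
    (h : ∀ᵐ p : Data n m, Q p.2) : ∀ᵐ q : (Fin m → Sym2 (Fin n) → ℝ) × (Fin m → ℝ), Q q := by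
  have h1 : ∀ᵐ _c : Sym2 (Fin n) → ℝ,
      ∀ᵐ q : (Fin m → Sym2 (Fin n) → ℝ) × (Fin m → ℝ), Q q := Measure.ae_ae_of_ae_prod h
  have h2 : (volume : Measure (Sym2 (Fin n) → ℝ)) ≠ 0 := by
    intro h0
    have h3 := isOpen_univ.measure_pos (volume : Measure (Sym2 (Fin n) → ℝ)) Set.univ_nonempty
    rw [h0] at h3
    simp at h3
  have : (ae (volume : Measure (Sym2 (Fin n) → ℝ))).NeBot := ae_neBot.2 h2
  obtain ⟨_, h3⟩ := h1.exists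
  exact h3

/-- Q1 for every `Y ≻ 0`, almost every `(A, b)` and every `C ≻ 0`: every start over the segment
from `b` to `𝒜 vec Y`. -/
theorem almost_every_fix {n : ℕ} (m : ℕ) {Y : Matrix (Fin n) (Fin n) ℝ} (hY : Y.PosDef) :
    ∀ᵐ p : (Fin m → Sym2 (Fin n) → ℝ) × (Fin m → ℝ),
      (∃ F, IsFeasible (fun l => symM (p.1 l)) p.2 F) →
      ∀ C : Matrix (Fin n) (Fin n) ℝ, C.PosDef → ∀ s ∈ Set.Icc (0 : ℝ) 1, ∀ X₀ : Matrix (Fin n) (Fin n) ℝ, X₀.PosDef →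
      (∀ l, (symM (p.1 l) * X₀).trace = (1 - s) * p.2 l + s * (symM (p.1 l) * Y).trace) →
      ∃ X : ℝ → Matrix (Fin n) (Fin n) ℝ, X 0 = X₀ ∧
        IsTrajectory C (fun l => symM (p.1 l)) p.2 (Set.Ici 0) X ∧
        (∀ (T : ℝ) (Z : ℝ → Matrix (Fin n) (Fin n) ℝ), Z 0 = X₀ →
          IsTrajectory C (fun l => symM (p.1 l)) p.2 (Set.Ico 0 T) Z →
          ∀ t ∈ Set.Ico 0 T, Z t = X t) ∧
        ∃ Xs, IsOptimal C (fun l => symM (p.1 l)) p.2 Xs ∧ Tendsto X atTop (𝓝 Xs) := by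
  have c1 : ∀ᵐ q : (Fin m → Sym2 (Fin n) → ℝ) × (Fin m → ℝ),
      ∀ X : Matrix (Fin n) (Fin n) ℝ, X.PosSemidef →
      (∀ l, (symM (q.1 l) * X).trace = q.2 l) →
      ∀ μ : Fin m → ℝ, (∑ l, μ l • symM (q.1 l)) * X = 0 → μ = 0 :=
    ae_drop2 (Q := fun q => ∀ X : Matrix (Fin n) (Fin n) ℝ, X.PosSemidef →
      (∀ l, (symM (q.1 l) * X).trace = q.2 l) →
      ∀ μ : Fin m → ℝ, (∑ l, μ l • symM (q.1 l)) * X = 0 → μ = 0) (ae_nondeg n m)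
  have c2 : ∀ᵐ q : (Fin m → Sym2 (Fin n) → ℝ) × (Fin m → ℝ),
      ∀ X : Matrix (Fin n) (Fin n) ℝ, X.PosSemidef → X ≠ 0 →
      (∀ l, (symM (q.1 l) * X).trace = 0) →
      ∀ μ : Fin m → ℝ, (∑ l, μ l • symM (q.1 l)) * X = 0 → μ = 0 :=
    ae_drop2 (Q := fun q => ∀ X : Matrix (Fin n) (Fin n) ℝ, X.PosSemidef → X ≠ 0 →
      (∀ l, (symM (q.1 l) * X).trace = 0) →
      ∀ μ : Fin m → ℝ, (∑ l, μ l • symM (q.1 l)) * X = 0 → μ = 0) (ae_nondeg0 n m)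
  have c4 : ∀ᵐ q : (Fin m → Sym2 (Fin n) → ℝ) × (Fin m → ℝ),
      ∀ l0 : Fin m, {z : ℝ × Matrix (Fin n) (Fin n) ℝ × (Fin m → ℝ) | z.2.1.PosSemidef ∧
      z.2.2 l0 = 1 ∧ (∀ l, (1 + z.1) * (symM (q.1 l) * z.2.1).trace =
        q.2 l + z.1 * (symM (q.1 l) * Y).trace) ∧
      (∑ l, z.2.2 l • symM (q.1 l)) * z.2.1 = 0}.Countable :=
    ae_drop2 (Q := fun q => ∀ l0 : Fin m,
      {z : ℝ × Matrix (Fin n) (Fin n) ℝ × (Fin m → ℝ) | z.2.1.PosSemidef ∧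
      z.2.2 l0 = 1 ∧ (∀ l, (1 + z.1) * (symM (q.1 l) * z.2.1).trace =
        q.2 l + z.1 * (symM (q.1 l) * Y).trace) ∧
      (∑ l, z.2.2 l • symM (q.1 l)) * z.2.1 = 0}.Countable) (ae_cross_countable_data n m Y)
  have c5 : ∀ᵐ q : (Fin m → Sym2 (Fin n) → ℝ) × (Fin m → ℝ),
      ∀ (ω : ℝ) (X : Matrix (Fin n) (Fin n) ℝ) (μ : Fin m → ℝ), ω ≠ 0 → X.PosSemidef →
      (∀ l, (1 + ω) * (symM (q.1 l) * X).trace = q.2 l + ω * (symM (q.1 l) * Y).trace) →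
      (∑ l, μ l • symM (q.1 l)) * X = 0 → ∑ l, μ l • symM (q.1 l) ≠ 0 → μ ⬝ᵥ q.2 ≠ 0 :=
    ae_drop2 (Q := fun q =>
      ∀ (ω : ℝ) (X : Matrix (Fin n) (Fin n) ℝ) (μ : Fin m → ℝ), ω ≠ 0 → X.PosSemidef →
      (∀ l, (1 + ω) * (symM (q.1 l) * X).trace = q.2 l + ω * (symM (q.1 l) * Y).trace) →
      (∑ l, μ l • symM (q.1 l)) * X = 0 → ∑ l, μ l • symM (q.1 l) ≠ 0 → μ ⬝ᵥ q.2 ≠ 0)
      (ae_cross_transversal_data n m hY)
  filter_upwards [c1, c2, c4, c5] with p h1 h2 h4 h5 hfeas C hC s hs X₀ hX₀ hlin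
  obtain ⟨F, hF1, hF2⟩ := hfeas
  have hind : ∀ μ : Fin m → ℝ, ∑ l, μ l • symM (p.1 l) = 0 → μ = 0 := by
    intro μ hμ
    exact h1 F hF1 hF2 μ (by rw [hμ, Matrix.zero_mul])
  obtain ⟨g1, g2, g3⟩ := cross_of_ae (fun l => symM (p.1 l)) p.2 Y h4 h5 hind
  have hrw : ∀ (s' : ℝ) (X : Matrix (Fin n) (Fin n) ℝ),
      (∀ l, (symM (p.1 l) * X).trace = (1 - s') * p.2 l + s' * (symM (p.1 l) * X₀).trace) →
      ∀ l, (symM (p.1 l) * X).trace =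
        (1 - s' * s) * p.2 l + s' * s * (symM (p.1 l) * Y).trace := by
    intro s' X h l
    rw [h l, hlin l]
    ring
  refine cross_kl C hC (fun l => symM (p.1 l)) (fun l => symM_symm _) p.2
    X₀ hX₀ h1 h2 ?_ ?_ ?_ ⟨F, hF1, hF2⟩
  · intro s' hs'
    left
    rcases eq_or_lt_of_le hs.1 with h0 | h0
    · refine Set.countable_empty.mono ?_
      rintro X ⟨hX, hl, μ, hμ, hμX⟩
      refine hμ (h1 X hX (fun l => ?_) μ hμX)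
      rw [hrw s' X hl l, ← h0]
      ring
    · refine (g1 (s' * s) ⟨mul_pos hs'.1 h0, by nlinarith [hs.2, hs'.1, hs'.2]⟩).mono ?_
      rintro X ⟨hX, hl, hμ⟩
      exact ⟨hX, hrw s' X hl, hμ⟩
  · intro s' hs' X hX hl μ μ' hμ hμX hμX'
    rcases eq_or_lt_of_le hs.1 with h0 | h0
    · refine absurd (h1 X hX (fun l => ?_) μ hμX) hμ
      rw [hrw s' X hl l, ← h0]
      ring
    · exact g2 (s' * s) ⟨mul_pos hs'.1 h0, by nlinarith [hs.2, hs'.1, hs'.2]⟩ X hX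
        (hrw s' X hl) μ μ' hμ hμX hμX'
  · intro s' hs' X hX hl μ hμ hμX
    rcases eq_or_lt_of_le hs.1 with h0 | h0
    · refine absurd (h1 X hX (fun l => ?_) μ hμX) hμ
      rw [hrw s' X hl l, ← h0]
      ring
    · exact g3 (s' * s) ⟨mul_pos hs'.1 h0, by nlinarith [hs.2, hs'.1, hs'.2]⟩ X hX
        (hrw s' X hl) μ hμ hμX

end final

end Pool.Agent.Lib.MP_e757b3_ae
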